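import Pool.Agent.Helper88.KL.Def

/-!
# Block KL-EV: multilinear polynomials are nice maps

`der_evalML`: for one monomial `y_{σ 0} ... y_{σ (m-1)}`: `[e, a_0 ... a_{m-1}] = ∑ k, a_0 ... [e, a_k] ... a_{m-1}`
(a derivation; induction on `m`, or `Derivation`-free: telescoping sum `e a_0...a_{m-1} - a_0...a_{m-1} e`
`= ∑ k, a_0 ... a_{k-1} (e a_k - a_k e) a_{k+1} ... a_{m-1}`), then reindex `k` by `σ` and sum over `σ`
(`evalML_apply`). `evalML_mem`: a subalgebra over a field between `K` and `Ω` is closed under products,
sums and multiplication by `algebraMap K Ω (c σ)`.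
-/

open Matrix

namespace Pool.Agent.H88KL

open Pool.Agent.H24ML

universe u

variable {K Ω : Type u} [Field K] [Field Ω] [Algebra K Ω] {m : ℕ}

private theorem der_prod_h94 {A : Type*} [Ring A] (e : A) : ∀ (m : ℕ) (a : Fin m → A),
    ∑ k, (List.ofFn (Function.update a k (e * a k - a k * e))).prod =
      e * (List.ofFn a).prod - (List.ofFn a).prod * e := by
  intro m
  induction m with
  | zero =>
    intro a
    simp
  | succ m ih =>
    intro a
    rw [Fin.sum_univ_succ]
    have h0 : (List.ofFn (Function.update a 0 (e * a 0 - a 0 * e))).prod =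
        (e * a 0 - a 0 * e) * (List.ofFn fun k : Fin m => a k.succ).prod := by
      rw [List.ofFn_succ, List.prod_cons, Function.update_self]
      congr 2
    have hs : ∀ k : Fin m, (List.ofFn (Function.update a k.succ (e * a k.succ - a k.succ * e))).prod =
        a 0 * (List.ofFn (Function.update (fun k : Fin m => a k.succ) k
          (e * a k.succ - a k.succ * e))).prod := by
      intro k
      rw [List.ofFn_succ, List.prod_cons, Function.update_of_ne (Fin.succ_ne_zero k).symm]
      congr 3
      funext j
      by_cases hj : j = k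
      · subst hj
        rw [Function.update_self, Function.update_self]
      · rw [Function.update_of_ne hj, Function.update_of_ne (fun h => hj (Fin.succ_injective _ h))]
    rw [h0, Finset.sum_congr rfl fun k _ => hs k, ← Finset.mul_sum, ih (fun k : Fin m => a k.succ),
      List.ofFn_succ, List.prod_cons]
    noncomm_ring

theorem der_evalML (c : Equiv.Perm (Fin m) → K) (e : M3 Ω) (y : Fin m → M3 Ω) :
    ∑ k, evalML Ω c (Function.update y k (e * y k - y k * e)) =
      e * evalML Ω c y - evalML Ω c y * e := by
  simp only [evalML_apply]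
  rw [Finset.sum_comm, Finset.mul_sum, Finset.sum_mul, ← Finset.sum_sub_distrib]
  refine Finset.sum_congr rfl fun σ _ => ?_
  rw [← Finset.smul_sum, mul_smul_comm, smul_mul_assoc, ← smul_sub]
  congr 1
  rw [← der_prod_h94 e m (fun k => y (σ k)), ← Equiv.sum_comp σ]
  refine Finset.sum_congr rfl fun k _ => ?_
  congr 2
  funext j
  by_cases hj : j = k
  · subst hj
    rw [Function.update_self, Function.update_self]
  · rw [Function.update_of_ne hj, Function.update_of_ne (fun h => hj (σ.injective h))]

theorem evalML_mem (L : IntermediateField K Ω) (D : Subalgebra L (M3 Ω))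
    (c : Equiv.Perm (Fin m) → K) (y : Fin m → M3 Ω) (hy : ∀ i, y i ∈ D) :
    evalML Ω c y ∈ D := by
  rw [evalML_apply]
  refine Subalgebra.sum_mem D fun σ _ => ?_
  have h1 : algebraMap K Ω (c σ) • (List.ofFn fun k => y (σ k)).prod =
      (algebraMap K L (c σ) : L) • (List.ofFn fun k => y (σ k)).prod := by
    ext i j
    rw [Matrix.smul_apply, Matrix.smul_apply, Algebra.smul_def, IsScalarTower.algebraMap_apply K L Ω]
    rfl
  rw [h1]
  refine D.smul_mem ?_ _
  refine list_prod_mem fun x hx => ?_
  rw [List.mem_ofFn] at hx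
  obtain ⟨k, rfl⟩ := hx
  exact hy _

theorem nice_evalML (L : IntermediateField K Ω) (F : DivForm L Ω)
    (c : Equiv.Perm (Fin m) → K) : Nice F (evalML Ω c) :=
  ⟨fun y hy => evalML_mem L F.D c y hy, fun i j _ y => der_evalML c (E i j) y⟩

end Pool.Agent.H88KL
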