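import Pool.Agent.Helper88.KL.Rels

/-!
# Block KL-CON: rational spaces of dimension three (the heart)

Notation `T = trace`, `S = c2`, `N = det`; `B(X, Y)` is the polar form of `S`:
`S (X + Y) = S X + S Y + B(X, Y)`, bilinear. For `X, Y ∈ D` all of `T X`, `S X`, `B(X, Y)` are in (the
image of) `L`, and `N X ≠ 0` for `0 ≠ X ∈ D`.

`line`. `N (w0 + x w1)` is a polynomial in `x` of degree `3` with leading coefficient `N w1 ≠ 0`, so
`N (w0 + x w1) = c` has a root `x` in the algebraically closed field `Ω`.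

`line2` (`u, v ∈ D` independent, `S = b T ^ 2` on all combinations, `T u ≠ 0`): put
`w0 = u / T u`, `w1 = T u • v - T v • u ∈ D`, not zero, `T w1 = 0`, `T (w0 + x w1) = 1`; use `line`.

`tgt1`. The span of `A, B, x 0, x 1, x 2` over `L`. There is `w0` in it, in `D`, with `T w0 = 1`
(`T A ≠ 0` or `T B ≠ 0` as `d A B ≠ 0`; divide by the element of `L`), and, since `c2 / T ^ 2`
is not constant on `<A, B>`, the form `S` is not a multiple of `T ^ 2` on the span. Among the vectors
`X - T X • w0` (`X = A, B, x 0, x 1, x 2`; trace zero, in `D`) there are two independent ones, `v1, v2`,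
which can be chosen such that `S` is not a multiple of `T ^ 2` on `<w0, v1, v2>` (if `S` is a multiple
of `T ^ 2` on `<w0, v1, v2>` for all choices, then for all the vectors `v, v'` of the list
`S v = 0`, `B(w0, v) = 0`, `B(v, v') = 0`, and `S` is a multiple of `T ^ 2` on everything; so pick a
`v` with `S v ≠ 0` or `B(w0, v) ≠ 0` and an arbitrary independent one, or a pair with
`B(v, v') ≠ 0`). The binary form `S (x v1 + y v2)` over `L` has a nontrivial zero over `L`
(`F.quad`): let `w1 = x v1 + y v2 ≠ 0`, `S w1 = 0`, and let `w2` be one of `v1, v2`, not a multiple of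
`w1`. So `w0, w1, w2 ∈ D` are independent, `T w0 = 1`, `T w1 = T w2 = 0`, `S w1 = 0`. Put
`S00 = S w0`, `S22 = S w2`, `B01, B02, B12`, all in `L`. For `y ∈ Ω` let
`tau = B01 + y B12`, `kappa = b - S00 - y B02 - y ^ 2 S22`, `g(y) = tau • (w0 + y w2) + kappa • w1`.
Then `T (g y) = tau` and
`S (g y) = tau ^ 2 (S00 + y B02 + y ^ 2 S22) + tau kappa (B01 + y B12) = b tau ^ 2`. Let
`f(y) = N (g y) - c tau ^ 3`, a polynomial in `y`. If `f(y0) = 0` and `tau(y0) ≠ 0` then
`w = g(y0) / tau` has `T w = 1`, `S w = b`, `N w = c`: done.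
Case 1: `B12 ≠ 0`. The coefficient of `y ^ 6` in `f` is `N (B12 w2 - S22 w1) ≠ 0` (an independent
combination in `D`; `g(y) = y ^ 2 (B12 w2 - S22 w1) + ...`), so `f` has a root `y0`. If
`tau(y0) ≠ 0`: done. Otherwise `y0 = - B01 / B12 ∈ L`, so `g(y0) = kappa(y0) • w1 ∈ D` and
`N (g y0) = f(y0) = 0`, so `kappa(y0) = 0`. So `kappa = tau * (e0 + e1 y)` as polynomials (with
`e0, e1 ∈ L`), `g(y) = tau • (w0 + y w2 + (e0 + e1 y) w1)`, and for all `y`
`w(y) = (w0 + e0 w1) + y (w2 + e1 w1)` satisfies `T = 1`, `S = b` (if `tau(y) ≠ 0` this is the formula;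
`S (w y) - b` is a polynomial in `y` vanishing for all `y ≠ y0`, so it is zero; or
compute directly). By `line` choose `y` with `N = c`.
Case 2: `B12 = 0`, `B01 ≠ 0`: `tau = B01` is a constant. If `S22 ≠ 0` the coefficient of `y ^ 6` is
`N (- S22 w1) ≠ 0`; if `S22 = 0`, `g(y)` has degree one in `y` with leading vector
`B01 w2 - B02 w1 ≠ 0`, so `f` has degree three. So `f` has a root.
Case 3: `B12 = B01 = 0`: `S (w0 + x w1 + y w2) = S00 + y B02 + y ^ 2 S22`. If `(B02, S22) ≠ 0` there is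
`y ∈ Ω` with `S = b`, (`y ∈ Ω`), then by `line` (with `w0 + y w2` and `w1`) choose `x` with `N = c`.
If `B02 = S22 = 0` then `S = S00 T ^ 2` on `<w0, w1, w2>`, excluded.

`tgt2` (`T = 0`, `S = b`, `N = c`, `(b, c) ≠ 0`). Let `v1 = T B • A - T A • B`: in `D`, `T v1 = 0`,
`S v1 ≠ 0` (this is `d A B ≠ 0`). `T A` or `T B` is not zero, say `T A ≠ 0` (otherwise `v1 = 0`);
among `T A • x_j - T (x_j) • A`, `j = 0, 1, 2`, (trace zero, in `D`) there is one, `v2`, which is not a
multiple of `v1`: otherwise all `x_j` are in `<v1, A>`, a space of dimension two. On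
`<v1, v2>` we look for `w = x v1 + y v2` with `S w = b`, `N w = c`. If `b = 0` (so `c ≠ 0`): the binary
form `S` has a nontrivial zero `w` over `L` (`F.quad`), `w ∈ D`, `N w ≠ 0`; multiply `w` by a cube
root of `c / N w`. If `b ≠ 0`: the binary form `c ^ 2 S ^ 3 - b ^ 3 N ^ 2` of degree six
has a zero `w = x v1 + y v2`, `(x, y) ≠ 0` over `Ω` (if its value at `(1, 0)` is not zero, then
it is a polynomial of degree six in `x` for `y = 1`; otherwise take `(1, 0)`). If `S w ≠ 0`: scale `w`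
so that `S w = b` (square root); then `N w ^ 2 = c ^ 2`, so `N w = c` or `N (-w) = c`, `S (-w) = b`. If
`S w = 0` then `N w = 0`; but the zeros of the binary form `S` on `<v1, v2>`
(`S (x v1 + y v2) = S v1 (x - r y) (x - r' y)` with `r, r' ∈ L` by `F.quad`, `S v1 ≠ 0`) are multiples
of vectors in `D`, where `N ≠ 0`: contradiction.
-/

open Matrix

namespace Pool.Agent.H88KL

open Pool.Agent.H24ML

universe u

variable {L Ω : Type u} [Field L] [Field Ω] [Algebra L Ω] [IsAlgClosed Ω]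

private theorem detcoeff67 (M : Matrix (Fin 3) (Fin 3) (Polynomial Ω)) (d : ℕ)
    (h : ∀ i j, (M i j).natDegree ≤ d) :
    (det M).coeff (3 * d) = det (Matrix.of fun i j => (M i j).coeff d) := by
  rw [Matrix.det_apply, Matrix.det_apply, Polynomial.finsetSum_coeff]
  refine Finset.sum_congr rfl fun σ _ => ?_
  have h1 := Polynomial.coeff_prod_of_natDegree_le (s := Finset.univ) (fun i : Fin 3 => M (σ i) i) d
    (fun i _ => h _ _)
  rw [Finset.card_univ, Fintype.card_fin] at h1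
  rw [Units.smul_def, Units.smul_def, Polynomial.coeff_smul, h1]
  rfl

/-- the polynomial `det M - q` has a root -/
private theorem root67 (M : Matrix (Fin 3) (Fin 3) (Polynomial Ω)) (d : ℕ) (hd : 0 < d)
    (h : ∀ i j, (M i j).natDegree ≤ d) (hM : det (Matrix.of fun i j => (M i j).coeff d) ≠ 0)
    (q : Polynomial Ω) (hq : q.natDegree < 3 * d) :
    ∃ y : Ω, det (Matrix.of fun i j => (M i j).eval y) = q.eval y := by
  have h1 : (det M - q).coeff (3 * d) ≠ 0 := by
    rw [Polynomial.coeff_sub, detcoeff67 M d h, Polynomial.coeff_eq_zero_of_natDegree_lt hq, sub_zero]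
    exact hM
  have h2 : (det M - q).degree ≠ 0 := by
    intro h0
    have h3 := Polynomial.le_natDegree_of_ne_zero h1
    have h4 : (det M - q).natDegree = 0 := Polynomial.natDegree_eq_of_degree_eq_some (n := 0) h0
    omega
  obtain ⟨y, hy⟩ := IsAlgClosed.exists_root _ h2
  refine ⟨y, ?_⟩
  rw [Polynomial.IsRoot.def, Polynomial.eval_sub, sub_eq_zero] at hy
  rw [← hy]
  have h5 := (Polynomial.evalRingHom y).map_det M
  rw [Polynomial.coe_evalRingHom] at h5
  rw [h5]
  rfl

theorem line (w0 w1 : M3 Ω) (h : det w1 ≠ 0) (c : Ω) : ∃ x : Ω, det (w0 + x • w1) = c := by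
  have h1 := root67 (Matrix.of fun i j => Polynomial.C (w0 i j) + Polynomial.C (w1 i j) * Polynomial.X) 1
    Nat.one_pos (fun i j => by
      rw [Matrix.of_apply]
      compute_degree) (by
      have h2 : (Matrix.of fun i j : Fin 3 => ((Matrix.of fun i j : Fin 3 => Polynomial.C (w0 i j) +
          Polynomial.C (w1 i j) * Polynomial.X) i j).coeff 1) = w1 := by
        refine Matrix.ext fun i j => ?_
        rw [Matrix.of_apply, Matrix.of_apply, Polynomial.coeff_add, Polynomial.coeff_C_mul, Polynomial.coeff_X_one,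
          mul_one, Polynomial.coeff_C, if_neg one_ne_zero, zero_add]
      rw [h2]
      exact h) (Polynomial.C c) (by
      rw [Polynomial.natDegree_C]
      omega)
  obtain ⟨y, hy⟩ := h1
  refine ⟨y, ?_⟩
  rw [Polynomial.eval_C] at hy
  rw [← hy]
  congr 1
  refine Matrix.ext fun i j => ?_
  rw [Matrix.of_apply, Matrix.of_apply, Polynomial.eval_add, Polynomial.eval_mul, Polynomial.eval_C, Polynomial.eval_C,
    Polynomial.eval_X, Matrix.add_apply, Matrix.smul_apply, smul_eq_mul, mul_comm]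

private theorem line6_67 (G0 G1 G2 : M3 Ω) (h : det G2 ≠ 0) (c α β : Ω) :
    ∃ y : Ω, det (G0 + y • G1 + y ^ 2 • G2) = c * (α + y * β) ^ 3 := by
  have h1 := root67 (Matrix.of fun i j => Polynomial.C (G0 i j) + Polynomial.C (G1 i j) * Polynomial.X +
    Polynomial.C (G2 i j) * Polynomial.X ^ 2) 2
    Nat.two_pos (fun i j => by
      rw [Matrix.of_apply]
      compute_degree) (by
      have h2 : (Matrix.of fun i j : Fin 3 => ((Matrix.of fun i j : Fin 3 => Polynomial.C (G0 i j) +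
          Polynomial.C (G1 i j) * Polynomial.X + Polynomial.C (G2 i j) * Polynomial.X ^ 2) i j).coeff 2) = G2 := by
        refine Matrix.ext fun i j => ?_
        rw [Matrix.of_apply, Matrix.of_apply, Polynomial.coeff_add, Polynomial.coeff_add, Polynomial.coeff_C_mul,
          Polynomial.coeff_C_mul_X_pow, if_pos rfl, Polynomial.coeff_X, if_neg (by norm_num), mul_zero, add_zero,
          Polynomial.coeff_C, if_neg two_ne_zero, zero_add]
      rw [h2]
      exact h) (Polynomial.C c * (Polynomial.C α + Polynomial.C β * Polynomial.X) ^ 3) (by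
      refine lt_of_le_of_lt (b := 3) ?_ (by norm_num)
      compute_degree)
  obtain ⟨y, hy⟩ := h1
  refine ⟨y, ?_⟩
  rw [Polynomial.eval_mul, Polynomial.eval_pow, Polynomial.eval_add, Polynomial.eval_mul, Polynomial.eval_C,
    Polynomial.eval_C, Polynomial.eval_C, Polynomial.eval_X, mul_comm β y] at hy
  rw [← hy]
  congr 1
  refine Matrix.ext fun i j => ?_
  rw [Matrix.of_apply, Matrix.of_apply, Polynomial.eval_add, Polynomial.eval_add, Polynomial.eval_mul,
    Polynomial.eval_mul, Polynomial.eval_pow, Polynomial.eval_C, Polynomial.eval_C, Polynomial.eval_C,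
    Polynomial.eval_X, Matrix.add_apply, Matrix.add_apply, Matrix.smul_apply, Matrix.smul_apply, smul_eq_mul,
    smul_eq_mul]
  ring

/-- the polar form of `c2` -/
private def Bf67 (X Y : M3 Ω) : Ω := trace X * trace Y - trace (X * Y)

omit [IsAlgClosed Ω] in
private theorem c2_lin67 (w0 w1 w2 : M3 Ω) (a x y : Ω) :
    c2 (a • w0 + x • w1 + y • w2) = a ^ 2 * c2 w0 + x ^ 2 * c2 w1 + y ^ 2 * c2 w2 + a * x * Bf67 w0 w1 +
      a * y * Bf67 w0 w2 + x * y * Bf67 w1 w2 := by
  simp only [c2, Bf67, Matrix.trace, Matrix.diag, Matrix.mul_apply, Fin.sum_univ_three, Matrix.add_apply,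
    Matrix.smul_apply, smul_eq_mul]
  ring

omit [IsAlgClosed Ω] in
private theorem Bf_lin67 (w0 w1 w2 : M3 Ω) (x y : Ω) :
    Bf67 w0 (x • w1 + y • w2) = x * Bf67 w0 w1 + y * Bf67 w0 w2 := by
  simp only [Bf67, Matrix.trace, Matrix.diag, Matrix.mul_apply, Fin.sum_univ_three, Matrix.add_apply,
    Matrix.smul_apply, smul_eq_mul]
  ring

omit [IsAlgClosed Ω] in
private theorem Bf_comm67 (X Y : M3 Ω) : Bf67 X Y = Bf67 Y X := by
  unfold Bf67
  rw [mul_comm, Matrix.trace_mul_comm]

omit [IsAlgClosed Ω] in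
private theorem tr_lin67 (w0 w1 w2 : M3 Ω) (a x y : Ω) :
    trace (a • w0 + x • w1 + y • w2) = a * trace w0 + x * trace w1 + y * trace w2 := by
  rw [trace_add, trace_add, trace_smul, trace_smul, trace_smul, smul_eq_mul, smul_eq_mul, smul_eq_mul]

omit [IsAlgClosed Ω] in
private theorem Bf_mem67 (F : DivForm L Ω) {X Y : M3 Ω} (hX : X ∈ F.D) (hY : Y ∈ F.D) :
    ∃ r : L, algebraMap L Ω r = Bf67 X Y := by
  obtain ⟨r1, h1⟩ := F.tr_mem X hX
  obtain ⟨r2, h2⟩ := F.tr_mem Y hY
  obtain ⟨r3, h3⟩ := F.tr_mem _ (F.D.mul_mem hX hY)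
  refine ⟨r1 * r2 - r3, ?_⟩
  unfold Bf67
  rw [map_sub, map_mul, h1, h2, h3]

omit [IsAlgClosed Ω] in
private theorem smul_mem67 (F : DivForm L Ω) {X : M3 Ω} (hX : X ∈ F.D) (r : L) : algebraMap L Ω r • X ∈ F.D := by
  rw [algebraMap_smul]
  exact F.D.smul_mem hX r

omit [IsAlgClosed Ω] in
/-- a combination over `L` of independent elements of `D` is invertible -/
private theorem det_ne67 (F : DivForm L Ω) {w1 w2 : M3 Ω} (h1 : w1 ∈ F.D) (h2 : w2 ∈ F.D)
    (hi : LinearIndependent Ω ![w1, w2]) (p q : L) (hpq : p ≠ 0 ∨ q ≠ 0) :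
    det (algebraMap L Ω p • w1 + algebraMap L Ω q • w2) ≠ 0 := by
  refine F.det_ne _ (F.D.add_mem (smul_mem67 F h1 p) (smul_mem67 F h2 q)) fun h0 => ?_
  obtain ⟨h3, h4⟩ := LinearIndependent.pair_iff.1 hi _ _ h0
  rw [map_eq_zero] at h3 h4
  rcases hpq with h | h
  · exact h h3
  · exact h h4

theorem line2 (F : DivForm L Ω) {u v : M3 Ω} (hu : u ∈ F.D) (hv : v ∈ F.D)
    (huv : LinearIndependent Ω ![u, v]) {b : Ω}
    (hS : ∀ s t : Ω, c2 (s • u + t • v) = b * trace (s • u + t • v) ^ 2) (hT : trace u ≠ 0)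
    (c : Ω) : ∃ s t : Ω, trace (s • u + t • v) = 1 ∧ c2 (s • u + t • v) = b ∧
      det (s • u + t • v) = c := by
  obtain ⟨ru, hru⟩ := F.tr_mem u hu
  obtain ⟨rv, hrv⟩ := F.tr_mem v hv
  have hru0 : ru ≠ 0 := by
    intro h0
    rw [h0, map_zero] at hru
    exact hT hru.symm
  have hdet := det_ne67 F hu hv huv (-rv) ru (Or.inr hru0)
  rw [map_neg, hru, hrv] at hdet
  obtain ⟨x, hx⟩ := line ((trace u)⁻¹ • u) _ hdet c
  have h1 : (trace u)⁻¹ • u + x • (-trace v • u + trace u • v) =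
      ((trace u)⁻¹ - x * trace v) • u + (x * trace u) • v := by
    module
  rw [h1] at hx
  have h2 : trace (((trace u)⁻¹ - x * trace v) • u + (x * trace u) • v) = 1 := by
    rw [trace_add, trace_smul, trace_smul, smul_eq_mul, smul_eq_mul]
    field_simp
    ring
  refine ⟨_, _, h2, ?_, hx⟩
  rw [hS, h2, one_pow, mul_one]

/-- the heart -/
private theorem core67 (F : DivForm L Ω) (V : Submodule Ω (M3 Ω)) {w0 w1 w2 : M3 Ω} (h0 : w0 ∈ F.D) (h1 : w1 ∈ F.D)
    (h2 : w2 ∈ F.D) (h0' : w0 ∈ V) (h1' : w1 ∈ V) (h2' : w2 ∈ V) (t0 : trace w0 = 1) (t1 : trace w1 = 0)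
    (t2 : trace w2 = 0) (hs : c2 w1 = 0) (hi : LinearIndependent Ω ![w1, w2])
    (hne : ¬ (c2 w2 = 0 ∧ Bf67 w0 w1 = 0 ∧ Bf67 w0 w2 = 0 ∧ Bf67 w1 w2 = 0)) (b : L) (c : Ω) :
    ∃ w ∈ V, trace w = 1 ∧ c2 w = algebraMap L Ω b ∧ det w = c := by
  obtain ⟨s00, hs00⟩ := F.c2_mem w0 h0
  obtain ⟨s22, hs22⟩ := F.c2_mem w2 h2
  obtain ⟨b01, hb01⟩ := Bf_mem67 F h0 h1
  obtain ⟨b02, hb02⟩ := Bf_mem67 F h0 h2
  obtain ⟨b12, hb12⟩ := Bf_mem67 F h1 h2
  have hw1 : det w1 ≠ 0 := by
    have := det_ne67 F h1 h2 hi 1 0 (Or.inl one_ne_zero)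
    rwa [map_one, map_zero, one_smul, zero_smul, add_zero] at this
  have hform : ∀ x y : Ω, c2 (w0 + x • w1 + y • w2) = algebraMap L Ω s00 + y ^ 2 * algebraMap L Ω s22 +
      x * algebraMap L Ω b01 + y * algebraMap L Ω b02 + x * y * algebraMap L Ω b12 := by
    intro x y
    have h3 := c2_lin67 w0 w1 w2 1 x y
    rw [one_smul, hs] at h3
    rw [h3, hs00, hs22, hb01, hb02, hb12]
    ring
  have htr : ∀ x y : Ω, trace (w0 + x • w1 + y • w2) = 1 := by
    intro x y
    have h3 := tr_lin67 w0 w1 w2 1 x y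
    rw [one_smul] at h3
    rw [h3, t0, t1, t2]
    ring
  have hmem : ∀ x y : Ω, w0 + x • w1 + y • w2 ∈ V := fun x y =>
    V.add_mem (V.add_mem h0' (V.smul_mem x h1')) (V.smul_mem y h2')
  by_cases hc3 : b01 = 0 ∧ b12 = 0
  · obtain ⟨h01, h12⟩ := hc3
    have hy : ∃ y : L, s00 + y ^ 2 * s22 + y * b02 = b := by
      by_cases hz : s22 = 0
      · have hb : b02 ≠ 0 := by
          intro h02
          apply hne
          rw [← hs22, ← hb01, ← hb02, ← hb12, hz, h01, h02, h12, map_zero]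
          exact ⟨rfl, rfl, rfl, rfl⟩
        refine ⟨(b - s00) / b02, ?_⟩
        rw [hz, mul_zero, add_zero, div_mul_cancel₀ _ hb]
        ring
      · obtain ⟨y, hy⟩ := F.quad (b02 / s22) ((s00 - b) / s22)
        refine ⟨y, ?_⟩
        have h4 : s22 * (y ^ 2 + b02 / s22 * y + (s00 - b) / s22) = 0 := by rw [hy, mul_zero]
        have h5 : s22 * (b02 / s22) = b02 := mul_div_cancel₀ b02 hz
        have h6 : s22 * ((s00 - b) / s22) = s00 - b := mul_div_cancel₀ (s00 - b) hz
        linear_combination h4 - y * h5 - h6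
    obtain ⟨y, hy⟩ := hy
    obtain ⟨x, hx⟩ := line (w0 + algebraMap L Ω y • w2) w1 hw1 c
    refine ⟨w0 + x • w1 + algebraMap L Ω y • w2, hmem _ _, htr _ _, ?_, ?_⟩
    · rw [hform, h01, h12, map_zero, mul_zero, mul_zero, add_zero, add_zero, ← hy]
      rw [map_add, map_add, map_mul, map_mul, map_pow]
    · rw [← hx]
      congr 1
      abel
  · have hy : ∃ y : Ω, det (((algebraMap L Ω b01 + y * algebraMap L Ω b12) • (w0 + y • w2)) +
        (algebraMap L Ω b - algebraMap L Ω s00 - y * algebraMap L Ω b02 - y ^ 2 * algebraMap L Ω s22) • w1) =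
        c * (algebraMap L Ω b01 + y * algebraMap L Ω b12) ^ 3 := by
      by_cases h6 : s22 = 0 ∧ b12 = 0
      · obtain ⟨hz, h12⟩ := h6
        have h01 : b01 ≠ 0 := fun h => hc3 ⟨h, h12⟩
        have hd := det_ne67 F h1 h2 hi (-b02) b01 (Or.inr h01)
        obtain ⟨y, hy⟩ := line (algebraMap L Ω b01 • w0 + (algebraMap L Ω b - algebraMap L Ω s00) • w1) _ hd
          (c * (algebraMap L Ω b01) ^ 3)
        refine ⟨y, ?_⟩
        rw [h12, hz, map_zero, mul_zero, add_zero, ← hy, map_neg]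
        congr 1
        module
      · have hd := det_ne67 F h1 h2 hi (-s22) b12 (by
          by_contra h7
          push Not at h7
          exact h6 ⟨neg_eq_zero.1 h7.1, h7.2⟩)
        obtain ⟨y, hy⟩ := line6_67 (algebraMap L Ω b01 • w0 + (algebraMap L Ω b - algebraMap L Ω s00) • w1)
          (algebraMap L Ω b12 • w0 + algebraMap L Ω b01 • w2 - algebraMap L Ω b02 • w1) _ hd c
          (algebraMap L Ω b01) (algebraMap L Ω b12)
        refine ⟨y, ?_⟩
        rw [← hy, map_neg]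
        congr 1
        module
    obtain ⟨y, hy⟩ := hy
    by_cases ht : algebraMap L Ω b01 + y * algebraMap L Ω b12 = 0
    · rw [ht, zero_smul, zero_add, det_smul, Fintype.card_fin, zero_pow three_ne_zero, mul_zero] at hy
      have hk := (pow_eq_zero_iff three_ne_zero).1 ((mul_eq_zero.1 hy).resolve_right hw1)
      have h12 : b12 ≠ 0 := by
        intro h12
        rw [h12, map_zero, mul_zero, add_zero, map_eq_zero] at ht
        exact hc3 ⟨ht, h12⟩
      have h12' : algebraMap L Ω b12 ≠ 0 := by rwa [Ne, map_eq_zero]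
      have hd := det_ne67 F h1 h2 hi (-s22 / b12) 1 (Or.inr one_ne_zero)
      obtain ⟨x, hx⟩ := line (w0 + ((-(algebraMap L Ω s22 * y) - algebraMap L Ω b02) / algebraMap L Ω b12) • w1) _ hd c
      refine ⟨w0 + ((-(algebraMap L Ω s22 * y) - algebraMap L Ω b02) / algebraMap L Ω b12 +
        x * algebraMap L Ω (-s22 / b12)) • w1 + x • w2, hmem _ _, htr _ _, ?_, ?_⟩
      · rw [hform, map_div₀, map_neg]
        have h8 : ((-(algebraMap L Ω s22 * y) - algebraMap L Ω b02) / algebraMap L Ω b12 +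
            x * (-algebraMap L Ω s22 / algebraMap L Ω b12)) * algebraMap L Ω b12 =
            -(algebraMap L Ω s22 * y) - algebraMap L Ω b02 - x * algebraMap L Ω s22 := by
          field_simp
          ring
        have h9 : algebraMap L Ω b01 = -(y * algebraMap L Ω b12) := eq_neg_of_add_eq_zero_left ht
        rw [h9]
        linear_combination (x - y) * h8 - hk
      · rw [← hx, map_one, one_smul]
        congr 1
        module
    · refine ⟨w0 + ((algebraMap L Ω b - algebraMap L Ω s00 - y * algebraMap L Ω b02 - y ^ 2 * algebraMap L Ω s22) /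
        (algebraMap L Ω b01 + y * algebraMap L Ω b12)) • w1 + y • w2, hmem _ _, htr _ _, ?_, ?_⟩
      · rw [hform]
        have h8 : ((algebraMap L Ω b - algebraMap L Ω s00 - y * algebraMap L Ω b02 - y ^ 2 * algebraMap L Ω s22) /
            (algebraMap L Ω b01 + y * algebraMap L Ω b12)) * (algebraMap L Ω b01 + y * algebraMap L Ω b12) =
            algebraMap L Ω b - algebraMap L Ω s00 - y * algebraMap L Ω b02 - y ^ 2 * algebraMap L Ω s22 :=
          div_mul_cancel₀ _ ht
        linear_combination h8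
      · have h8 : ((algebraMap L Ω b01 + y * algebraMap L Ω b12) • (w0 + y • w2)) +
            (algebraMap L Ω b - algebraMap L Ω s00 - y * algebraMap L Ω b02 - y ^ 2 * algebraMap L Ω s22) • w1 =
            (algebraMap L Ω b01 + y * algebraMap L Ω b12) • (w0 + ((algebraMap L Ω b - algebraMap L Ω s00 -
            y * algebraMap L Ω b02 - y ^ 2 * algebraMap L Ω s22) /
            (algebraMap L Ω b01 + y * algebraMap L Ω b12)) • w1 + y • w2) := by
          rw [smul_add, smul_add, smul_add, smul_smul (algebraMap L Ω b01 + y * algebraMap L Ω b12)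
            (_ / _), mul_div_cancel₀ _ ht]
          abel
        rw [h8, det_smul, Fintype.card_fin, mul_comm c] at hy
        exact mul_left_cancel₀ (pow_ne_zero 3 ht) hy

theorem tgt1 (F : DivForm L Ω) (b : L) (c : Ω) :
    Tgt F (rel1 Ω) fun w => trace w = 1 ∧ c2 w = algebraMap L Ω b ∧ det w = c := by
  classical
  intro A hA B hB hd x hx hxi
  rw [rel1_d] at hd
  obtain ⟨V, hV⟩ : ∃ V, V = Submodule.span Ω (insert A (insert B (Set.range x))) := ⟨_, rfl⟩
  have hAV : A ∈ V := by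
    rw [hV]
    exact Submodule.subset_span (Set.mem_insert _ _)
  have hBV : B ∈ V := by
    rw [hV]
    exact Submodule.subset_span (Set.mem_insert_of_mem _ (Set.mem_insert _ _))
  have hxV : ∀ i, x i ∈ V := by
    intro i
    rw [hV]
    exact Submodule.subset_span (Set.mem_insert_of_mem _ (Set.mem_insert_of_mem _ (Set.mem_range_self i)))
  rw [← hV]
  -- a vector with trace one
  obtain ⟨w0, h0, h0', t0⟩ : ∃ w0, w0 ∈ F.D ∧ w0 ∈ V ∧ trace w0 = 1 := by
    have h1 : ∃ C, C ∈ F.D ∧ C ∈ V ∧ trace C ≠ 0 := by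
      by_cases hTA : trace A = 0
      · refine ⟨B, hB, hBV, fun hTB => hd ?_⟩
        rw [hTA, hTB]
        ring
      · exact ⟨A, hA, hAV, hTA⟩
    obtain ⟨C, hC, hCV, hTC⟩ := h1
    obtain ⟨r, hr⟩ := F.tr_mem C hC
    refine ⟨algebraMap L Ω r⁻¹ • C, smul_mem67 F hC _, V.smul_mem _ hCV, ?_⟩
    rw [trace_smul, smul_eq_mul, map_inv₀, hr, inv_mul_cancel₀ hTC]
  -- the projection to trace zero
  have hproj : ∀ X, X ∈ F.D → X ∈ V → X - trace X • w0 ∈ F.D ∧ X - trace X • w0 ∈ V ∧ trace (X - trace X • w0) = 0 := by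
    intro X hX hXV
    obtain ⟨r, hr⟩ := F.tr_mem X hX
    refine ⟨?_, V.sub_mem hXV (V.smul_mem _ h0'), ?_⟩
    · rw [← hr]
      exact F.D.sub_mem hX (smul_mem67 F h0 r)
    · rw [trace_sub, trace_smul, t0, smul_eq_mul, mul_one, sub_self]
  have hform : ∀ X, c2 (X - trace X • w0) = 0 → Bf67 w0 (X - trace X • w0) = 0 → c2 X = trace X ^ 2 * c2 w0 := by
    intro X h1 h2
    have h3 := c2_lin67 w0 (X - trace X • w0) 0 (trace X) 1 0
    have h4 : trace X • w0 + (1 : Ω) • (X - trace X • w0) + (0 : Ω) • (0 : M3 Ω) = X := by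
      rw [one_smul, smul_zero, add_zero]
      abel
    rw [h4, h1, h2] at h3
    rw [h3]
    ring
  obtain ⟨v1, hv1, hv1V, tv1, hv1ne⟩ : ∃ v1, v1 ∈ F.D ∧ v1 ∈ V ∧ trace v1 = 0 ∧ ¬ (c2 v1 = 0 ∧ Bf67 w0 v1 = 0) := by
    by_contra hcon
    push Not at hcon
    obtain ⟨a1, a2, a3⟩ := hproj A hA hAV
    obtain ⟨b1, b2, b3⟩ := hproj B hB hBV
    obtain ⟨a4, a5⟩ := hcon _ a1 a2 a3
    obtain ⟨b4, b5⟩ := hcon _ b1 b2 b3
    apply hd
    rw [hform A a4 a5, hform B b4 b5]
    ring
  have hv10 : v1 ≠ 0 := by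
    intro h
    apply hv1ne
    rw [h]
    refine ⟨c2_zero, ?_⟩
    unfold Bf67
    rw [trace_zero, mul_zero, mul_zero, trace_zero, sub_zero]
  obtain ⟨v2, hv2, hv2V, tv2, hind⟩ : ∃ v2, v2 ∈ F.D ∧ v2 ∈ V ∧ trace v2 = 0 ∧ LinearIndependent Ω ![v1, v2] := by
    by_contra hcon
    push Not at hcon
    have h1 : ∀ i, x i ∈ Submodule.span Ω (({w0, v1} : Finset (M3 Ω)) : Set (M3 Ω)) := by
      intro i
      obtain ⟨a1, a2, a3⟩ := hproj (x i) (hx i) (hxV i)
      have h2 := hcon _ a1 a2 a3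
      rw [LinearIndependent.pair_iff' hv10] at h2
      push Not at h2
      obtain ⟨t, ht⟩ := h2
      have h3 : x i = trace (x i) • w0 + t • v1 := by
        rw [ht]
        abel
      rw [h3]
      refine Submodule.add_mem _ (Submodule.smul_mem _ _ (Submodule.subset_span ?_))
        (Submodule.smul_mem _ _ (Submodule.subset_span ?_))
      · simp
      · simp
    have h2 : Submodule.span Ω (Set.range x) ≤ Submodule.span Ω (({w0, v1} : Finset (M3 Ω)) : Set (M3 Ω)) := by
      rw [Submodule.span_le]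
      rintro _ ⟨i, rfl⟩
      exact h1 i
    have h3 := Submodule.finrank_mono h2
    rw [finrank_span_eq_card hxi, Fintype.card_fin] at h3
    have h4 := finrank_span_finset_le_card (R := Ω) ({w0, v1} : Finset (M3 Ω))
    have h5 : ({w0, v1} : Finset (M3 Ω)).card ≤ 2 := Finset.card_le_two
    exact absurd (h3.trans (h4.trans h5)) (by norm_num)
  -- an isotropic vector
  obtain ⟨s11, hs11⟩ := F.c2_mem v1 hv1
  obtain ⟨s22, hs22⟩ := F.c2_mem v2 hv2
  obtain ⟨b12, hb12⟩ := Bf_mem67 F hv1 hv2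
  by_cases hz : s11 = 0
  · have hc1 : c2 v1 = 0 := by rw [← hs11, hz, map_zero]
    refine core67 F V h0 hv1 hv2 h0' hv1V hv2V t0 tv1 tv2 hc1 hind ?_ b c
    rintro ⟨-, h, -, -⟩
    exact hv1ne ⟨hc1, h⟩
  · obtain ⟨r, hr⟩ := F.quad (b12 / s11) (s22 / s11)
    have hr' : s11 * r ^ 2 + b12 * r + s22 = 0 := by
      have h4 : s11 * (r ^ 2 + b12 / s11 * r + s22 / s11) = 0 := by rw [hr, mul_zero]
      have h5 : s11 * (b12 / s11) = b12 := mul_div_cancel₀ b12 hz
      have h6 : s11 * (s22 / s11) = s22 := mul_div_cancel₀ s22 hz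
      linear_combination h4 - r * h5 - h6
    have hr'' : c2 v1 * algebraMap L Ω r ^ 2 + Bf67 v1 v2 * algebraMap L Ω r + c2 v2 = 0 := by
      rw [← hs11, ← hs22, ← hb12, ← map_pow, ← map_mul, ← map_mul, ← map_add, ← map_add, hr', map_zero]
    have hcw : c2 (algebraMap L Ω r • v1 + v2) = 0 := by
      have h3 := c2_lin67 v1 v2 0 (algebraMap L Ω r) 1 0
      rw [one_smul, smul_zero, add_zero] at h3
      rw [h3]
      linear_combination hr''
    have hwi : LinearIndependent Ω ![algebraMap L Ω r • v1 + v2, v1] := by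
      rw [LinearIndependent.pair_iff]
      intro s t hst
      have h3 : (s * algebraMap L Ω r + t) • v1 + s • v2 = 0 := by
        rw [← hst]
        module
      obtain ⟨h4, h5⟩ := LinearIndependent.pair_iff.1 hind _ _ h3
      rw [h5, zero_mul, zero_add] at h4
      exact ⟨h5, h4⟩
    refine core67 F V h0 (F.D.add_mem (smul_mem67 F hv1 r) hv2) hv1 h0' (V.add_mem (V.smul_mem _ hv1V) hv2V) hv1V t0
      ?_ tv1 hcw hwi ?_ b c
    · rw [trace_add, trace_smul, tv1, tv2, smul_zero, add_zero]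
    · rintro ⟨h, -, h', -⟩
      exact hv1ne ⟨h, h'⟩

end Pool.Agent.H88KL
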