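import Pool.Agent.Helper88.KL.Rels

/-!
# Block KL-CON2: rational spaces of dimension three, trace zero

Proofs: see the second half of the header of `Conic.lean` (`tgt2`). `plane2` is the common part:
`v1, v2 ∈ D` independent, trace zero, `c2 v1 ≠ 0`; then some combination has `c2 = b`, `det = c`.
-/

open Matrix

namespace Pool.Agent.H88KL

open Pool.Agent.H24ML

universe u

variable {L Ω : Type u} [Field L] [Field Ω] [Algebra L Ω] [IsAlgClosed Ω]

omit [IsAlgClosed Ω] in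
private theorem det_bin29 (A B : M3 Ω) : ∃ p q : Ω, ∀ x y : Ω,
    det (x • A + y • B) = det A * x ^ 3 + p * x ^ 2 * y + q * x * y ^ 2 + det B * y ^ 3 := by
  refine ⟨B 0 0 * A 1 1 * A 2 2 - B 0 0 * A 1 2 * A 2 1 - B 0 1 * A 1 0 * A 2 2
      + B 0 1 * A 1 2 * A 2 0 + B 0 2 * A 1 0 * A 2 1 - B 0 2 * A 1 1 * A 2 0
      + (A 0 0 * B 1 1 * A 2 2 - A 0 0 * B 1 2 * A 2 1 - A 0 1 * B 1 0 * A 2 2
      + A 0 1 * B 1 2 * A 2 0 + A 0 2 * B 1 0 * A 2 1 - A 0 2 * B 1 1 * A 2 0)
      + (A 0 0 * A 1 1 * B 2 2 - A 0 0 * A 1 2 * B 2 1 - A 0 1 * A 1 0 * B 2 2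
      + A 0 1 * A 1 2 * B 2 0 + A 0 2 * A 1 0 * B 2 1 - A 0 2 * A 1 1 * B 2 0),
    A 0 0 * B 1 1 * B 2 2 - A 0 0 * B 1 2 * B 2 1 - A 0 1 * B 1 0 * B 2 2
      + A 0 1 * B 1 2 * B 2 0 + A 0 2 * B 1 0 * B 2 1 - A 0 2 * B 1 1 * B 2 0
      + (B 0 0 * A 1 1 * B 2 2 - B 0 0 * A 1 2 * B 2 1 - B 0 1 * A 1 0 * B 2 2
      + B 0 1 * A 1 2 * B 2 0 + B 0 2 * A 1 0 * B 2 1 - B 0 2 * A 1 1 * B 2 0)
      + (B 0 0 * B 1 1 * A 2 2 - B 0 0 * B 1 2 * A 2 1 - B 0 1 * B 1 0 * A 2 2
      + B 0 1 * B 1 2 * A 2 0 + B 0 2 * B 1 0 * A 2 1 - B 0 2 * B 1 1 * A 2 0), fun x y => ?_⟩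
  simp only [det_fin_three, Matrix.add_apply, Matrix.smul_apply, smul_eq_mul]
  ring

omit [IsAlgClosed Ω] in
private theorem c2_bin29 (A B : M3 Ω) (x y : Ω) :
    c2 (x • A + y • B) = c2 A * x ^ 2 + (c2 (A + B) - c2 A - c2 B) * x * y + c2 B * y ^ 2 := by
  simp only [c2, Matrix.add_apply, Matrix.smul_apply, smul_eq_mul]
  ring

private theorem root29 (e : Fin 7 → Ω) (h : e 6 ≠ 0) : ∃ t : Ω, ∑ i, e i * t ^ (i : ℕ) = 0 := by
  set f : Polynomial Ω := ∑ i : Fin 7, Polynomial.C (e i) * Polynomial.X ^ (i : ℕ) with hf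
  have hc : f.coeff 6 = e 6 := by
    rw [hf, Polynomial.finsetSum_coeff]
    simp [Fin.sum_univ_succ, Polynomial.coeff_X_pow]
  have hd : f.degree ≠ 0 := by
    have h1 : 6 ≤ f.natDegree := Polynomial.le_natDegree_of_ne_zero (by rw [hc]; exact h)
    intro h2
    have h3 : f.natDegree = 0 := Polynomial.natDegree_eq_of_degree_eq_some h2
    omega
  obtain ⟨t, ht⟩ := IsAlgClosed.exists_root f hd
  refine ⟨t, ?_⟩
  rw [Polynomial.IsRoot.def, hf, Polynomial.eval_finsetSum] at ht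
  rw [← ht]
  refine Finset.sum_congr rfl fun i _ => ?_
  rw [Polynomial.eval_mul, Polynomial.eval_C, Polynomial.eval_pow, Polynomial.eval_X]

omit [IsAlgClosed Ω] in
private theorem smul_mem29 (F : DivForm L Ω) {v : M3 Ω} (hv : v ∈ F.D) (r : L) :
    algebraMap L Ω r • v ∈ F.D := by
  rw [algebraMap_smul]
  exact F.D.smul_mem hv r

theorem plane2 (F : DivForm L Ω) {v1 v2 : M3 Ω} (h1 : v1 ∈ F.D) (h2 : v2 ∈ F.D)
    (hS : c2 v1 ≠ 0) (hv : LinearIndependent Ω ![v1, v2]) (b c : Ω) (hbc : b ≠ 0 ∨ c ≠ 0) :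
    ∃ s t : Ω, c2 (s • v1 + t • v2) = b ∧ det (s • v1 + t • v2) = c := by
  obtain ⟨a1, ha1⟩ := F.c2_mem v1 h1
  obtain ⟨a2, ha2⟩ := F.c2_mem v2 h2
  obtain ⟨a3, ha3⟩ := F.c2_mem (v1 + v2) (F.D.add_mem h1 h2)
  have ha10 : a1 ≠ 0 := by
    rintro rfl
    rw [map_zero] at ha1
    exact hS ha1.symm
  rw [LinearIndependent.pair_iff] at hv
  -- the roots
  obtain ⟨r, hr⟩ := F.quad ((a3 - a1 - a2) / a1) (a2 / a1)
  set r' : L := -((a3 - a1 - a2) / a1) - r with hr'
  have hsum : a1 * (r + r') = -(a3 - a1 - a2) := by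
    rw [hr']
    field_simp
    ring
  have hprod : a1 * (r * r') = a2 := by
    have h3 : r * r' = a2 / a1 := by
      rw [hr']
      linear_combination -hr
    rw [h3]
    field_simp
  have hfac : ∀ x y : Ω, c2 (x • v1 + y • v2) =
      c2 v1 * ((x - algebraMap L Ω r * y) * (x - algebraMap L Ω r' * y)) := by
    intro x y
    have h3 := congrArg (algebraMap L Ω) hsum
    have h4 := congrArg (algebraMap L Ω) hprod
    simp only [map_mul, map_add, map_neg, map_sub, ha1, ha2, ha3] at h3 h4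
    rw [c2_bin29]
    linear_combination x * y * h3 - y ^ 2 * h4
  have hw : ∀ s : L, det (algebraMap L Ω s • v1 + v2) ≠ 0 := by
    intro s
    refine F.det_ne _ (F.D.add_mem (smul_mem29 F h1 s) h2) fun h0 => ?_
    have h3 := (hv (algebraMap L Ω s) 1 (by rw [one_smul]; exact h0)).2
    exact one_ne_zero h3
  by_cases hb : b = 0
  · subst hb
    have hc : c ≠ 0 := by simpa using hbc
    have hN := hw r
    obtain ⟨t, ht⟩ := IsAlgClosed.exists_pow_nat_eq (c / det (algebraMap L Ω r • v1 + v2))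
      (n := 3) (by norm_num)
    refine ⟨t * algebraMap L Ω r, t, ?_, ?_⟩
    · rw [hfac]
      ring
    · have h3 : (t * algebraMap L Ω r) • v1 + t • v2 = t • (algebraMap L Ω r • v1 + v2) := by
        rw [smul_add, smul_smul]
      rw [h3, det_smul, Fintype.card_fin, ht]
      field_simp
  · obtain ⟨p, q, hpq⟩ := det_bin29 v1 v2
    -- a common zero of the binary form
    obtain ⟨x, y, hxy, hz⟩ : ∃ x y : Ω, (x, y) ≠ (0, 0) ∧
        c ^ 2 * c2 (x • v1 + y • v2) ^ 3 = b ^ 3 * det (x • v1 + y • v2) ^ 2 := by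
      by_cases hl : c ^ 2 * c2 v1 ^ 3 - b ^ 3 * det v1 ^ 2 = 0
      · refine ⟨1, 0, by simp, ?_⟩
        rw [one_smul, zero_smul, add_zero]
        linear_combination hl
      · set β : Ω := c2 (v1 + v2) - c2 v1 - c2 v2 with hβ
        obtain ⟨t, ht⟩ := root29 ![c ^ 2 * c2 v2 ^ 3 - b ^ 3 * det v2 ^ 2,
          c ^ 2 * (3 * β * c2 v2 ^ 2) - b ^ 3 * (2 * q * det v2),
          c ^ 2 * (3 * c2 v1 * c2 v2 ^ 2 + 3 * β ^ 2 * c2 v2) - b ^ 3 * (q ^ 2 + 2 * p * det v2),
          c ^ 2 * (6 * c2 v1 * β * c2 v2 + β ^ 3) - b ^ 3 * (2 * det v1 * det v2 + 2 * p * q),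
          c ^ 2 * (3 * c2 v1 ^ 2 * c2 v2 + 3 * c2 v1 * β ^ 2) - b ^ 3 * (p ^ 2 + 2 * det v1 * q),
          c ^ 2 * (3 * c2 v1 ^ 2 * β) - b ^ 3 * (2 * det v1 * p),
          c ^ 2 * c2 v1 ^ 3 - b ^ 3 * det v1 ^ 2] hl
        refine ⟨t, 1, by simp, ?_⟩
        rw [hpq, c2_bin29, ← hβ, ← sub_eq_zero, ← ht]
        simp [Fin.sum_univ_succ]
        ring
    have hS' : c2 (x • v1 + y • v2) ≠ 0 := by
      intro h0
      rw [h0] at hz
      have hN0 : det (x • v1 + y • v2) = 0 := by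
        have h3 : b ^ 3 * det (x • v1 + y • v2) ^ 2 = 0 := by
          rw [← hz]
          ring
        rcases mul_eq_zero.1 h3 with h4 | h4
        · exact absurd h4 (pow_ne_zero 3 hb)
        · exact pow_eq_zero_iff (two_ne_zero) |>.1 h4
      rw [hfac] at h0
      have key : ∀ s : L, x - algebraMap L Ω s * y = 0 → False := by
        intro s hs
        have hx : x = y * algebraMap L Ω s := by linear_combination hs
        have hy : y ≠ 0 := by
          rintro rfl
          rw [zero_mul] at hx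
          exact hxy (by rw [hx])
        have h3 : x • v1 + y • v2 = y • (algebraMap L Ω s • v1 + v2) := by
          rw [smul_add, smul_smul, hx]
        rw [h3, det_smul] at hN0
        rcases mul_eq_zero.1 hN0 with h4 | h4
        · exact hy (pow_eq_zero_iff (by simp) |>.1 h4)
        · exact hw s h4
      rcases mul_eq_zero.1 h0 with h3 | h3
      · exact hS h3
      · rcases mul_eq_zero.1 h3 with h4 | h4
        · exact key r h4
        · exact key r' h4
    set S : Ω := c2 (x • v1 + y • v2) with hSdef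
    set N : Ω := det (x • v1 + y • v2) with hNdef
    obtain ⟨s, hs⟩ := IsAlgClosed.exists_pow_nat_eq (b / S) (n := 2) (by norm_num)
    have hsc : ∀ k : Ω, c2 ((k * x) • v1 + (k * y) • v2) = k ^ 2 * S ∧
        det ((k * x) • v1 + (k * y) • v2) = k ^ 3 * N := by
      intro k
      have h3 : (k * x) • v1 + (k * y) • v2 = k • (x • v1 + y • v2) := by
        rw [smul_add, smul_smul, smul_smul]
      rw [h3]
      constructor
      · rw [H88KL.c2_smul]
      · rw [det_smul, Fintype.card_fin]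
    have hN2 : (s ^ 3 * N) ^ 2 = c ^ 2 := by
      have h3 : (s ^ 3 * N) ^ 2 = (s ^ 2) ^ 3 * N ^ 2 := by ring
      rw [h3, hs]
      have h4 : (b / S) ^ 3 * N ^ 2 = b ^ 3 * N ^ 2 / S ^ 3 := by
        field_simp
      rw [h4, ← hz]
      field_simp
    rcases sq_eq_sq_iff_eq_or_eq_neg.1 hN2 with h3 | h3
    · refine ⟨s * x, s * y, ?_, ?_⟩
      · rw [(hsc s).1, hs]
        field_simp
      · rw [(hsc s).2, h3]
    · refine ⟨-s * x, -s * y, ?_, ?_⟩
      · rw [(hsc (-s)).1]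
        have h4 : (-s) ^ 2 = s ^ 2 := by ring
        rw [h4, hs]
        field_simp
      · rw [(hsc (-s)).2]
        linear_combination -h3

theorem tgt2 (F : DivForm L Ω) (b c : Ω) (hbc : b ≠ 0 ∨ c ≠ 0) :
    Tgt F (rel2 Ω) fun w => trace w = 0 ∧ c2 w = b ∧ det w = c := by
  intro A hA B hB hd x hx hxi
  rw [rel2_d] at hd
  set W := Submodule.span Ω (insert A (insert B (Set.range x))) with hW
  have hAW : A ∈ W := Submodule.subset_span (Set.mem_insert _ _)
  have hBW : B ∈ W := Submodule.subset_span (Set.mem_insert_of_mem _ (Set.mem_insert _ _))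
  have hxW : ∀ j, x j ∈ W := fun j =>
    Submodule.subset_span (Set.mem_insert_of_mem _ (Set.mem_insert_of_mem _ ⟨j, rfl⟩))
  have htr : ∀ X ∈ F.D, ∀ Y ∈ F.D, trace X • Y ∈ F.D := by
    intro X hX Y hY
    obtain ⟨r, hr⟩ := F.tr_mem X hX
    rw [← hr]
    exact smul_mem29 F hY r
  set v1 := trace B • A - trace A • B with hv1
  have hv1D : v1 ∈ F.D := F.D.sub_mem (htr B hB A hA) (htr A hA B hB)
  have hv1W : v1 ∈ W := W.sub_mem (W.smul_mem _ hAW) (W.smul_mem _ hBW)
  have hv1T : trace v1 = 0 := by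
    rw [hv1, trace_sub, trace_smul, trace_smul, smul_eq_mul, smul_eq_mul]
    ring
  have hv10 : v1 ≠ 0 := by
    intro h0
    rw [h0, c2_zero] at hd
    exact hd rfl
  obtain ⟨C, hC, hCW, hCT⟩ : ∃ C ∈ F.D, C ∈ W ∧ trace C ≠ 0 := by
    by_cases hAT : trace A = 0
    · refine ⟨B, hB, hBW, fun hBT => hv10 ?_⟩
      rw [hv1, hAT, hBT, zero_smul, zero_smul, sub_zero]
    · exact ⟨A, hA, hAW, hAT⟩
  obtain ⟨j, hj⟩ : ∃ j, LinearIndependent Ω ![v1, trace C • x j - trace (x j) • C] := by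
    by_contra hcon
    push Not at hcon
    have hmem : ∀ j, x j ∈ Submodule.span Ω (Set.range ![v1, C]) := by
      intro j
      have h3 := hcon j
      rw [LinearIndependent.pair_iff] at h3
      push Not at h3
      obtain ⟨s, t, hst, h4⟩ := h3
      have ht : t ≠ 0 := by
        rintro rfl
        rw [zero_smul, add_zero] at hst
        rcases smul_eq_zero.1 hst with h5 | h5
        · exact h4 h5 rfl
        · exact hv10 h5
      have h6 : x j = (trace C)⁻¹ • (trace (x j) • C - (t⁻¹ * s) • v1) := by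
        have h7 : trace C • x j - trace (x j) • C = -((t⁻¹ * s) • v1) := by
          have h8 : t • (trace C • x j - trace (x j) • C) = -(s • v1) :=
            eq_neg_of_add_eq_zero_right hst
          calc trace C • x j - trace (x j) • C
              = t⁻¹ • (t • (trace C • x j - trace (x j) • C)) := by
                rw [smul_smul, inv_mul_cancel₀ ht, one_smul]
            _ = -((t⁻¹ * s) • v1) := by rw [h8, smul_neg, smul_smul]
        have h9 : trace C • x j = trace (x j) • C - (t⁻¹ * s) • v1 := by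
          rw [sub_eq_add_neg, ← h7]
          abel
        rw [← h9, smul_smul, inv_mul_cancel₀ hCT, one_smul]
      rw [h6]
      have hC' : C ∈ Submodule.span Ω (Set.range ![v1, C]) :=
        Submodule.subset_span ⟨1, rfl⟩
      have hv' : v1 ∈ Submodule.span Ω (Set.range ![v1, C]) :=
        Submodule.subset_span ⟨0, rfl⟩
      exact Submodule.smul_mem _ _ (Submodule.sub_mem _ (Submodule.smul_mem _ _ hC')
        (Submodule.smul_mem _ _ hv'))
    have hli : LinearIndependent Ω (fun j : Fin 3 =>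
        (⟨x j, hmem j⟩ : Submodule.span Ω (Set.range ![v1, C]))) := by
      apply LinearIndependent.of_comp (Submodule.subtype _)
      exact hxi
    have h5 := hli.fintype_card_le_finrank
    have h6 := finrank_range_le_card (R := Ω) ![v1, C]
    rw [Fintype.card_fin] at h5 h6
    have h8 : Module.finrank Ω (Submodule.span Ω (Set.range ![v1, C])) ≤ 2 := h6
    omega
  set v2 := trace C • x j - trace (x j) • C with hv2
  have hv2D : v2 ∈ F.D := F.D.sub_mem (htr C hC _ (hx j)) (htr _ (hx j) C hC)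
  have hv2W : v2 ∈ W := W.sub_mem (W.smul_mem _ (hxW j)) (W.smul_mem _ hCW)
  have hv2T : trace v2 = 0 := by
    rw [hv2, trace_sub, trace_smul, trace_smul, smul_eq_mul, smul_eq_mul]
    ring
  obtain ⟨s, t, hs, ht⟩ := plane2 F hv1D hv2D hd hj b c hbc
  refine ⟨s • v1 + t • v2, W.add_mem (W.smul_mem _ hv1W) (W.smul_mem _ hv2W), ?_, hs, ht⟩
  rw [trace_add, trace_smul, trace_smul, hv1T, hv2T, smul_zero, smul_zero, add_zero]

end Pool.Agent.H88KL
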