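import Pool.Agent.Helper88.KL.ZornA

/-!
# A cyclic division algebra of degree three over every algebraically closed field
-/

open Matrix Polynomial

namespace Pool.Agent.H88KL

open Pool.Agent.H24ML

universe u

section

variable {K : Type u} [Field K]

/-- The automorphism `x ↦ ω x + 1` of `K[x]`. -/
noncomputable def sg0 (ω : K) : K[X] →ₐ[K] K[X] := aeval (C ω * X + 1)

lemma sg0_sg0_sg0 (ω : K) (hω : ω ^ 2 + ω + 1 = 0) (f : K[X]) :
    sg0 ω (sg0 ω (sg0 ω f)) = f := by
  have h3 : ω ^ 3 = 1 := by linear_combination (ω - 1) * hω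
  have h : ((sg0 ω).comp (sg0 ω)).comp (sg0 ω) = AlgHom.id K K[X] := by
    apply Polynomial.algHom_ext
    simp only [AlgHom.comp_apply, sg0, aeval_X, map_add, map_mul, map_one, aeval_C,
      AlgHom.id_apply, Polynomial.algebraMap_eq]
    have e3 : (C ω : K[X]) ^ 3 = 1 := by rw [← C_pow, h3, C_1]
    have e2 : (C ω : K[X]) ^ 2 + C ω + 1 = 0 := by
      rw [← C_pow, ← C_add, ← C_1, ← C_add, hω, C_0]
    linear_combination X * e3 + e2
  exact DFunLike.congr_fun h f

/-- The automorphism of `K[x][t]` which fixes `t`. -/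
noncomputable def sg (ω : K) : K[X][X] →+* K[X][X] := mapRingHom (sg0 ω).toRingHom

lemma sg_sg_sg (ω : K) (hω : ω ^ 2 + ω + 1 = 0) (f : K[X][X]) : sg ω (sg ω (sg ω f)) = f := by
  ext1 n
  simp only [sg, coe_mapRingHom, coeff_map]
  exact sg0_sg0_sg0 ω hω _

@[simp] lemma sg_X (ω : K) : sg ω (X : K[X][X]) = X := by simp [sg]

lemma sg_coeff (ω : K) (f : K[X][X]) (n : ℕ) : (sg ω f).coeff n = sg0 ω (f.coeff n) := by
  simp only [sg, coe_mapRingHom, coeff_map]
  rfl

lemma sg0_inj (ω : K) (hω : ω ^ 2 + ω + 1 = 0) {f : K[X]} (h : sg0 ω f = 0) : f = 0 := by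
  rw [← sg0_sg0_sg0 ω hω f, h, map_zero, map_zero]

/-- The reduced norm of the cyclic algebra. -/
noncomputable def nrm (ω : K) (a b c : K[X][X]) : K[X][X] :=
  a * sg ω a * sg ω (sg ω a) + X * (b * sg ω b * sg ω (sg ω b))
    + X ^ 2 * (c * sg ω c * sg ω (sg ω c))
    - X * (a * sg ω b * sg ω (sg ω c) + b * sg ω c * sg ω (sg ω a) + c * sg ω a * sg ω (sg ω b))

lemma coeff_zero_of {ω : K} (hω : ω ^ 2 + ω + 1 = 0) {g r : K[X][X]}
    (h : g * sg ω g * sg ω (sg ω g) + X * r = 0) : ∃ g', g = X * g' := by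
  have h0 := congrArg (fun f => coeff f 0) h
  simp only [coeff_add, mul_coeff_zero, coeff_X_zero, zero_mul, add_zero, coeff_zero,
    sg_coeff] at h0
  have h1 : g.coeff 0 = 0 := by
    rcases mul_eq_zero.1 h0 with h0 | h0
    · rcases mul_eq_zero.1 h0 with h0 | h0
      · exact h0
      · exact sg0_inj ω hω h0
    · exact sg0_inj ω hω (sg0_inj ω hω h0)
  exact X_dvd_iff.2 h1

lemma nrm_eq_zero {ω : K} (hω : ω ^ 2 + ω + 1 = 0) (n : ℕ) :
    ∀ a b c : K[X][X], nrm ω a b c = 0 →
      ∀ k < n, a.coeff k = 0 ∧ b.coeff k = 0 ∧ c.coeff k = 0 := by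
  induction n with
  | zero => intro _ _ _ _ k hk; omega
  | succ n ih =>
    intro a b c h k hk
    have hX : (X : K[X][X]) ≠ 0 := X_ne_zero
    obtain ⟨a', rfl⟩ : ∃ g', a = X * g' := by
      refine coeff_zero_of hω (r := (b * sg ω b * sg ω (sg ω b))
        + X * (c * sg ω c * sg ω (sg ω c))
        - (a * sg ω b * sg ω (sg ω c) + b * sg ω c * sg ω (sg ω a)
          + c * sg ω a * sg ω (sg ω b))) ?_
      rw [← h, nrm]
      ring
    obtain ⟨b', rfl⟩ : ∃ g', b = X * g' := by
      refine coeff_zero_of hω (r := X * (a' * sg ω a' * sg ω (sg ω a'))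
        + (c * sg ω c * sg ω (sg ω c))
        - (a' * sg ω b * sg ω (sg ω c) + b * sg ω c * sg ω (sg ω a')
          + c * sg ω a' * sg ω (sg ω b))) ?_
      apply mul_left_cancel₀ hX
      rw [mul_zero, ← h, nrm]
      simp only [map_mul, sg_X]
      ring
    obtain ⟨c', rfl⟩ : ∃ g', c = X * g' := by
      refine coeff_zero_of hω (r := (a' * sg ω a' * sg ω (sg ω a'))
        + X * (b' * sg ω b' * sg ω (sg ω b'))
        - (a' * sg ω b' * sg ω (sg ω c) + b' * sg ω c * sg ω (sg ω a')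
          + c * sg ω a' * sg ω (sg ω b'))) ?_
      apply mul_left_cancel₀ hX
      apply mul_left_cancel₀ hX
      rw [mul_zero, mul_zero, ← h, nrm]
      simp only [map_mul, sg_X]
      ring
    have h' : nrm ω a' b' c' = 0 := by
      apply mul_left_cancel₀ hX
      apply mul_left_cancel₀ hX
      apply mul_left_cancel₀ hX
      rw [mul_zero, mul_zero, mul_zero, ← h, nrm, nrm]
      simp only [map_mul, sg_X]
      ring
    rcases k with _ | k
    · simp
    · simp only [coeff_X_mul]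
      exact ih a' b' c' h' k (by omega)

lemma nrm_ne {ω : K} (hω : ω ^ 2 + ω + 1 = 0) {a b c : K[X][X]} (h : nrm ω a b c = 0) :
    a = 0 ∧ b = 0 ∧ c = 0 := by
  refine ⟨?_, ?_, ?_⟩ <;>
  · ext1 k
    have := nrm_eq_zero hω (k + 1) a b c h k (by omega)
    simp [this]

/-- The matrix `V`. -/
noncomputable def VM {R : Type*} [CommRing R] (t : R) : M3 R := !![0, 1, 0; 0, 0, 1; t, 0, 0]

/-- Elements of the cyclic algebra. -/
def InC (ω : K) (A : M3 K[X][X]) : Prop := VM X * A = A.map (sg ω) * VM X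

lemma InC.form {ω : K} {A : M3 K[X][X]} (h : InC ω A) :
    A = !![A 0 0, A 0 1, A 0 2;
      X * sg ω (A 0 2), sg ω (A 0 0), sg ω (A 0 1);
      X * sg ω (sg ω (A 0 1)), X * sg ω (sg ω (A 0 2)), sg ω (sg ω (A 0 0))] := by
  have e := fun i j => congrArg (fun M : M3 K[X][X] => M i j) h
  have e00 := e 0 0
  have e01 := e 0 1
  have e02 := e 0 2
  have e10 := e 1 0
  have e11 := e 1 1
  have e12 := e 1 2
  simp [VM, Matrix.mul_apply, Fin.sum_univ_three] at e00 e01 e02 e10 e11 e12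
  have f10 : A 1 0 = X * sg ω (A 0 2) := by rw [e00, mul_comm]
  ext1 i j
  fin_cases i <;> fin_cases j <;> simp
  · exact f10
  · exact e01
  · exact e02
  · rw [e10, e02, mul_comm]
  · rw [e11, f10, map_mul, sg_X]
  · rw [e12, e01]

lemma InC.det {ω : K} {A : M3 K[X][X]} (h : InC ω A) :
    A.det = nrm ω (A 0 0) (A 0 1) (A 0 2) := by
  conv_lhs => rw [h.form]
  simp [det_fin_three, nrm]
  ring

lemma InC.eq_zero {ω : K} (hω : ω ^ 2 + ω + 1 = 0) {A : M3 K[X][X]} (h : InC ω A)
    (hd : A.det = 0) : A = 0 := by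
  rw [h.det] at hd
  obtain ⟨h0, h1, h2⟩ := nrm_ne hω hd
  rw [h.form, h0, h1, h2]
  ext1 i j
  fin_cases i <;> fin_cases j <;> simp

lemma InC.trace {ω : K} (hω : ω ^ 2 + ω + 1 = 0) {A : M3 K[X][X]} (h : InC ω A) :
    sg ω (Matrix.trace A) = Matrix.trace A := by
  conv_lhs => rw [h.form]
  conv_rhs => rw [h.form]
  simp [trace_fin_three, sg_sg_sg ω hω]
  ring

lemma InC.c2 {ω : K} (hω : ω ^ 2 + ω + 1 = 0) {A : M3 K[X][X]} (h : InC ω A) :
    sg ω (H24ML.c2 A) = H24ML.c2 A := by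
  conv_lhs => rw [h.form]
  conv_rhs => rw [h.form]
  simp [H24ML.c2, sg_sg_sg ω hω]
  ring

lemma InC.one {ω : K} : InC ω 1 := by
  unfold InC
  rw [mul_one, Matrix.map_one _ (map_zero _) (map_one _), one_mul]

lemma InC.mul {ω : K} {A B : M3 K[X][X]} (hA : InC ω A) (hB : InC ω B) : InC ω (A * B) := by
  unfold InC at *
  rw [← mul_assoc, hA, mul_assoc, hB, ← mul_assoc, Matrix.map_mul]

lemma InC.add {ω : K} {A B : M3 K[X][X]} (hA : InC ω A) (hB : InC ω B) : InC ω (A + B) := by
  unfold InC at *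
  rw [mul_add, hA, hB, ← add_mul, Matrix.map_add _ (map_add _)]

lemma InC.smul {ω : K} {r : K[X][X]} (hr : sg ω r = r) {A : M3 K[X][X]} (hA : InC ω A) :
    InC ω (r • A) := by
  unfold InC at *
  have e : (r • A).map (sg ω) = r • A.map (sg ω) := by
    ext1 i j
    simp only [Matrix.map_apply, Matrix.smul_apply, smul_eq_mul, map_mul, hr]
  rw [Matrix.mul_smul, hA, e, Matrix.smul_mul]

lemma InC.V {ω : K} : InC ω (VM X) := by
  unfold InC
  congr 1
  ext1 i j
  fin_cases i <;> fin_cases j <;> simp [VM]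

/-- The diagonal element. -/
noncomputable def XM (ω : K) : M3 K[X][X] :=
  diagonal ![C X, sg ω (C X), sg ω (sg ω (C X))]

lemma InC.X {ω : K} (hω : ω ^ 2 + ω + 1 = 0) : InC ω (XM ω) := by
  unfold InC
  ext1 i j
  fin_cases i <;> fin_cases j <;>
  simp [VM, XM, Matrix.mul_apply, Fin.sum_univ_three]
  rw [sg_sg_sg ω hω]

lemma sg_CX (ω : K) : sg ω (C X) = C (C ω * X + 1) := by
  simp [sg, sg0]

lemma sg_sg_CX (ω : K) : sg ω (sg ω (C X)) = C (C ω * (C ω * X + 1) + 1) := by
  rw [sg_CX]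
  simp [sg, sg0]

end

section

variable {Ω : Type u} [Field Ω]

/-- A subalgebra which contains a diagonal matrix with distinct entries and `V`. -/
lemma top_of (A : Subalgebra Ω (M3 Ω)) (u v w t : Ω) (huv : u ≠ v) (huw : u ≠ w) (hvw : v ≠ w)
    (ht : t ≠ 0) (hd : diagonal ![u, v, w] ∈ A) (hV : VM t ∈ A) : A = ⊤ := by
  have e0 : (Matrix.single 0 0 1 : M3 Ω) ∈ A := by
    have h : ((u - v) * (u - w))⁻¹ • ((diagonal ![u, v, w] - v • 1) *
      (diagonal ![u, v, w] - w • 1)) ∈ A :=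
      A.smul_mem (A.mul_mem (A.sub_mem hd (A.smul_mem A.one_mem _))
        (A.sub_mem hd (A.smul_mem A.one_mem _))) _
    convert h using 1
    have h1 : u - v ≠ 0 := sub_ne_zero.2 huv
    have h2 : u - w ≠ 0 := sub_ne_zero.2 huw
    ext1 i j
    fin_cases i <;> fin_cases j <;>
    simp [Matrix.mul_apply, Fin.sum_univ_three, Matrix.one_apply]
    field_simp
  have e1 : (Matrix.single 1 1 1 : M3 Ω) ∈ A := by
    have h : ((v - u) * (v - w))⁻¹ • ((diagonal ![u, v, w] - u • 1) *
      (diagonal ![u, v, w] - w • 1)) ∈ A :=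
      A.smul_mem (A.mul_mem (A.sub_mem hd (A.smul_mem A.one_mem _))
        (A.sub_mem hd (A.smul_mem A.one_mem _))) _
    convert h using 1
    have h1 : v - u ≠ 0 := sub_ne_zero.2 huv.symm
    have h2 : v - w ≠ 0 := sub_ne_zero.2 hvw
    ext1 i j
    fin_cases i <;> fin_cases j <;>
    simp [Matrix.mul_apply, Fin.sum_univ_three, Matrix.one_apply]
    field_simp
  have e2 : (Matrix.single 2 2 1 : M3 Ω) ∈ A := by
    have h : ((w - u) * (w - v))⁻¹ • ((diagonal ![u, v, w] - u • 1) *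
      (diagonal ![u, v, w] - v • 1)) ∈ A :=
      A.smul_mem (A.mul_mem (A.sub_mem hd (A.smul_mem A.one_mem _))
        (A.sub_mem hd (A.smul_mem A.one_mem _))) _
    convert h using 1
    have h1 : w - u ≠ 0 := sub_ne_zero.2 huw.symm
    have h2 : w - v ≠ 0 := sub_ne_zero.2 hvw.symm
    ext1 i j
    fin_cases i <;> fin_cases j <;>
    simp [Matrix.mul_apply, Fin.sum_univ_three, Matrix.one_apply]
    field_simp
  have e01 : (Matrix.single 0 1 1 : M3 Ω) ∈ A := by
    convert A.mul_mem e0 hV using 1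
    ext1 i j
    fin_cases i <;> fin_cases j <;> simp [VM, Matrix.mul_apply, Matrix.single]
  have e12 : (Matrix.single 1 2 1 : M3 Ω) ∈ A := by
    convert A.mul_mem e1 hV using 1
    ext1 i j
    fin_cases i <;> fin_cases j <;> simp [VM, Matrix.mul_apply, Matrix.single]
  have e20 : (Matrix.single 2 0 1 : M3 Ω) ∈ A := by
    convert A.smul_mem (A.mul_mem e2 hV) t⁻¹ using 1
    ext1 i j
    fin_cases i <;> fin_cases j <;>
      simp [VM, Matrix.mul_apply, Matrix.single, ht]
  have e02 : (Matrix.single 0 2 1 : M3 Ω) ∈ A := by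
    convert A.mul_mem e01 e12 using 1
    simp
  have e10 : (Matrix.single 1 0 1 : M3 Ω) ∈ A := by
    convert A.mul_mem e12 e20 using 1
    simp
  have e21 : (Matrix.single 2 1 1 : M3 Ω) ∈ A := by
    convert A.mul_mem e20 e01 using 1
    simp
  have all : ∀ i j : Fin 3, (Matrix.single i j 1 : M3 Ω) ∈ A := by
    intro i j
    fin_cases i <;> fin_cases j <;> assumption
  rw [eq_top_iff]
  intro M _
  rw [Matrix.matrix_eq_sum_single M]
  refine A.sum_mem fun i _ => A.sum_mem fun j _ => ?_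
  have := A.smul_mem (all i j) (M i j)
  rwa [Matrix.smul_single, smul_eq_mul, mul_one] at this

end

section

variable {K Ω : Type u} [Field K] [Field Ω] [Algebra K Ω]

/-- The image of the cyclic algebra. -/
def cycS (ω : K) (φ : K[X][X] →+* Ω) : Submonoid (M3 Ω) where
  carrier := {w | ∃ A, InC ω A ∧ w = A.map φ}
  one_mem' := ⟨1, InC.one, (Matrix.map_one _ (map_zero _) (map_one _)).symm⟩
  mul_mem' := by
    rintro _ _ ⟨A, hA, rfl⟩ ⟨B, hB, rfl⟩
    exact ⟨A * B, hA.mul hB, (Matrix.map_mul).symm⟩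

/-- The fraction field of the invariants. -/
def cycL (ω : K) (φ : K[X][X] →+* Ω) (hφ : Function.Injective φ)
    (hK : ∀ k : K, φ (C (C k)) = algebraMap K Ω k) : IntermediateField K Ω where
  carrier := {x | ∃ a b : K[X][X], sg ω a = a ∧ sg ω b = b ∧ b ≠ 0 ∧ x = φ a / φ b}
  mul_mem' := by
    rintro _ _ ⟨a, b, ha, hb, hb0, rfl⟩ ⟨a', b', ha', hb', hb0', rfl⟩
    exact ⟨a * a', b * b', by rw [map_mul, ha, ha'], by rw [map_mul, hb, hb'],
      mul_ne_zero hb0 hb0', by rw [map_mul, map_mul, div_mul_div_comm]⟩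
  add_mem' := by
    rintro _ _ ⟨a, b, ha, hb, hb0, rfl⟩ ⟨a', b', ha', hb', hb0', rfl⟩
    have h1 : φ b ≠ 0 := (map_ne_zero_iff φ hφ).2 hb0
    have h2 : φ b' ≠ 0 := (map_ne_zero_iff φ hφ).2 hb0'
    exact ⟨a * b' + b * a', b * b', by simp only [map_mul, map_add, ha, hb, ha', hb'],
      by rw [map_mul, hb, hb'], mul_ne_zero hb0 hb0',
      by rw [map_add, map_mul, map_mul, map_mul, div_add_div _ _ h1 h2]⟩
  algebraMap_mem' := fun k => ⟨C (C k), 1, by simp [sg, sg0], map_one _, one_ne_zero,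
    by rw [map_one, div_one, hK]⟩
  inv_mem' := by
    rintro _ ⟨a, b, ha, hb, hb0, rfl⟩
    by_cases h : a = 0
    · exact ⟨0, 1, map_zero _, map_one _, one_ne_zero, by simp [h]⟩
    · exact ⟨b, a, hb, ha, h, by rw [inv_div]⟩

lemma cyc_div (ω : K) (hω : ω ^ 2 + ω + 1 = 0) (φ : K[X][X] →+* Ω) (hφ : Function.Injective φ)
    (hK : ∀ k : K, φ (C (C k)) = algebraMap K Ω k) : Div (cycS ω φ) (cycL ω φ hφ hK) := by
  intro w hw hw0
  obtain ⟨b, hb, hb0, A, hA, e⟩ : ∃ b : K[X][X], sg ω b = b ∧ b ≠ 0 ∧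
      ∃ A, InC ω A ∧ φ b • w = A.map φ := by
    refine Submodule.span_induction (p := fun w _ => ∃ b : K[X][X], sg ω b = b ∧ b ≠ 0 ∧
      ∃ A, InC ω A ∧ φ b • w = A.map φ) ?_ ?_ ?_ ?_ hw
    · rintro _ ⟨A, hA, rfl⟩
      exact ⟨1, map_one _, one_ne_zero, A, hA, by rw [map_one, one_smul]⟩
    · refine ⟨1, map_one _, one_ne_zero, 0, ?_, ?_⟩
      · unfold InC
        rw [mul_zero, Matrix.map_zero _ (map_zero _), zero_mul]
      · rw [smul_zero, Matrix.map_zero _ (map_zero _)]
    · rintro x y _ _ ⟨b, hb, hb0, A, hA, e⟩ ⟨b', hb', hb0', A', hA', e'⟩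
      refine ⟨b * b', by rw [map_mul, hb, hb'], mul_ne_zero hb0 hb0', b' • A + b • A',
        (hA.smul hb').add (hA'.smul hb), ?_⟩
      have h1 : (b' • A + b • A').map φ = φ b' • A.map φ + φ b • A'.map φ := by
        ext1 i j
        simp only [Matrix.map_apply, Matrix.add_apply, Matrix.smul_apply, smul_eq_mul, map_add,
          map_mul]
      rw [h1, ← e, ← e', map_mul, smul_add, smul_smul, smul_smul, mul_comm (φ b') (φ b)]
    · rintro ⟨_, a, c, ha, hc, hc0, rfl⟩ x _ ⟨b, hb, hb0, A, hA, e⟩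
      refine ⟨c * b, by rw [map_mul, hc, hb], mul_ne_zero hc0 hb0, a • A, hA.smul ha, ?_⟩
      have h2 : φ c ≠ 0 := (map_ne_zero_iff φ hφ).2 hc0
      have h1 : (a • A).map φ = φ a • A.map φ := by
        ext1 i j
        simp only [Matrix.map_apply, Matrix.smul_apply, smul_eq_mul, map_mul]
      change φ (c * b) • ((φ a / φ c) • x) = _
      rw [h1, ← e, smul_smul, smul_smul, map_mul]
      congr 1
      field_simp
  intro hd
  have h1 : (φ b • w).det = 0 := by rw [det_smul, hd, mul_zero]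
  rw [e] at h1
  have h2 : φ A.det = 0 := by rw [RingHom.map_det, RingHom.mapMatrix_apply, h1]
  have h3 : A.det = 0 := by
    apply hφ
    rw [h2, map_zero]
  have h4 := hA.eq_zero hω h3
  rw [h4, Matrix.map_zero _ (map_zero _), smul_eq_zero] at e
  rcases e with e | e
  · exact hb0 (hφ (by rw [e, map_zero]))
  · exact hw0 e

/-- A division algebra over a quadratically closed field exists. -/
theorem exists_divForm (K : Type u) [Field K] [IsAlgClosed K] :
    ∃ (Ω : Type u) (_ : Field Ω) (_ : Algebra K Ω) (_ : IsAlgClosed Ω)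
      (L : IntermediateField K Ω), Nonempty (DivForm L Ω) := by
  obtain ⟨ω, hω⟩ : ∃ ω : K, ω ^ 2 + ω + 1 = 0 := by
    obtain ⟨ω, hω⟩ := IsAlgClosed.exists_root (X ^ 2 + X + 1 : K[X]) (by
      have : (X ^ 2 + X + 1 : K[X]).degree = 2 := by
        have := Polynomial.degree_quadratic (a := (1 : K)) (b := 1) (c := 1) one_ne_zero
        simpa using this
      rw [this]
      norm_num)
    exact ⟨ω, by simpa [Polynomial.IsRoot.def] using hω⟩
  let Ω := AlgebraicClosure (FractionRing K[X][X])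
  let φ : K[X][X] →+* Ω := (algebraMap (FractionRing K[X][X]) Ω).comp
    (algebraMap K[X][X] (FractionRing K[X][X]))
  have hφ : Function.Injective φ := (algebraMap (FractionRing K[X][X]) Ω).injective.comp
    (IsFractionRing.injective K[X][X] (FractionRing K[X][X]))
  let alg : Algebra K Ω := (φ.comp ((C : K[X] →+* K[X][X]).comp (C : K →+* K[X]))).toAlgebra
  have hK : ∀ k : K, φ (C (C k)) = algebraMap K Ω k := fun k => rfl
  obtain ⟨L, hL⟩ := exists_divForm_of (K := K) (Ω := Ω) (cycS ω φ) (cycL ω φ hφ hK) (by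
    have e : Subalgebra.toSubmodule (Algebra.adjoin Ω (cycS ω φ : Set (M3 Ω)))
        = Submodule.span Ω (cycS ω φ : Set (M3 Ω)) := by
      rw [Algebra.adjoin_eq_span, Submonoid.closure_eq]
    rw [← e]
    have hmem : ∀ A, InC ω A → A.map φ ∈ Algebra.adjoin Ω (cycS ω φ : Set (M3 Ω)) :=
      fun A hA => Algebra.subset_adjoin ⟨A, hA, rfl⟩
    have h1 := hmem _ (InC.X hω)
    have h2 := hmem _ (InC.V (ω := ω))
    have e1 : (XM ω).map φ = diagonal ![φ (C X), φ (sg ω (C X)), φ (sg ω (sg ω (C X)))] := by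
      ext1 i j
      fin_cases i <;> fin_cases j <;> simp [XM]
    have e2 : (VM (X : K[X][X])).map φ = VM (φ X) := by
      ext1 i j
      fin_cases i <;> fin_cases j <;> simp [VM]
    rw [e1] at h1
    rw [e2] at h2
    have hne : ∀ a b : K, (a, b) ≠ (0, 0) → (C a * X + C b : K[X]) ≠ 0 := by
      intro a b hab h
      apply hab
      have h3 := congrArg (fun f => coeff f 0) h
      have h4 := congrArg (fun f => coeff f 1) h
      simp at h3 h4
      rw [h3, h4]
    have hsub : ∀ f g : K[X], f - g ≠ 0 → φ (C f) ≠ φ (C g) := by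
      intro f g h h'
      exact h (sub_eq_zero.2 (C_injective (hφ h')))
    have h5 := top_of _ _ _ _ _ (by
        rw [sg_CX]
        apply hsub
        have : (X - (C ω * X + 1) : K[X]) = C (1 - ω) * X + C (-1) := by
          simp only [C_sub, C_neg, C_1]
          ring
        rw [this]
        exact hne _ _ (by simp)) (by
        rw [sg_sg_CX]
        apply hsub
        have : (X - (C ω * (C ω * X + 1) + 1) : K[X]) = C (1 - ω * ω) * X + C (-(ω + 1)) := by
          simp only [C_sub, C_neg, C_1, C_mul, C_add]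
          ring
        rw [this]
        refine hne _ _ ?_
        intro h
        simp only [Prod.mk.injEq, neg_eq_zero] at h
        have h6 : ω = -1 := by linear_combination h.2
        rw [h6] at hω
        norm_num at hω) (by
        rw [sg_sg_CX, sg_CX]
        apply hsub
        have : ((C ω * X + 1) - (C ω * (C ω * X + 1) + 1) : K[X])
            = C (ω - ω * ω) * X + C (-ω) := by
          simp only [C_sub, C_neg, C_mul]
          ring
        rw [this]
        refine hne _ _ ?_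
        intro h
        simp only [Prod.mk.injEq, neg_eq_zero] at h
        rw [h.2] at hω
        norm_num at hω) (by
        rw [map_ne_zero_iff φ hφ]
        exact X_ne_zero) h1 h2
    rw [h5]
    rfl) (by
    rintro _ ⟨A, hA, rfl⟩
    refine ⟨trace A, 1, hA.trace hω, map_one _, one_ne_zero, ?_⟩
    rw [map_one, div_one]
    simp [trace_fin_three]) (by
    rintro _ ⟨A, hA, rfl⟩
    refine ⟨c2 A, 1, hA.c2 hω, map_one _, one_ne_zero, ?_⟩
    rw [map_one, div_one]
    simp [c2]) (cyc_div ω hω φ hφ hK)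
  exact ⟨Ω, inferInstance, alg, inferInstance, L, hL⟩

end

end Pool.Agent.H88KL
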