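import Pool.Agent.Helper24.ML.Descent

/-!
# Dense images of multilinear polynomials on 3 x 3 matrices: definitions

`M3 Ω` are the `3 x 3` matrices, `c2` is the second coefficient of the characteristic polynomial
(`Pool/Agent/Helper24/ML/Defs.lean`). Complete paper proof of the project: the headers of the
files of this folder.
-/

open Matrix

namespace Pool.Agent.H88KL

open Pool.Agent.H24ML

universe u

/-- A division algebra `D` of `3 x 3` matrices over a field `L` in which every quadratic
polynomial has a root. -/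
structure DivForm (L Ω : Type u) [Field L] [Field Ω] [Algebra L Ω] where
  /-- the algebra -/
  D : Subalgebra L (M3 Ω)
  span_top : Submodule.span Ω (D : Set (M3 Ω)) = ⊤
  det_ne : ∀ w ∈ D, w ≠ 0 → w.det ≠ 0
  tr_mem : ∀ w ∈ D, ∃ r : L, algebraMap L Ω r = w.trace
  c2_mem : ∀ w ∈ D, ∃ r : L, algebraMap L Ω r = c2 w
  quad : ∀ a b : L, ∃ x : L, x ^ 2 + a * x + b = 0

/-- Multilinear maps of matrices. -/
abbrev ML (Ω : Type u) [Field Ω] (ι : Type) := MultilinearMap Ω (fun _ : ι => M3 Ω) (M3 Ω)

/-- Matrix units. -/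
abbrev E {Ω : Type u} [Field Ω] (i j : Fin 3) : M3 Ω := Matrix.single i j 1

section

variable {Ω : Type u} [Field Ω] {κ : Type}

/-- Polynomial functions of a family of matrices. -/
def IsPoly (F : (κ → M3 Ω) → Ω) : Prop :=
  ∃ f : MvPolynomial (κ × Fin 3 × Fin 3) Ω,
    ∀ y, F y = MvPolynomial.eval (fun q => y q.1 q.2.1 q.2.2) f

/-- Matrix valued polynomial functions of a family of matrices. -/
def IsPolyM (F : (κ → M3 Ω) → M3 Ω) : Prop := ∀ r s, IsPoly fun y => F y r s

/-- Zariski open conditions on a family of matrices. -/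
def Op (Q : (κ → M3 Ω) → Prop) : Prop :=
  ∀ y0, Q y0 → ∃ F : (κ → M3 Ω) → Ω, IsPoly F ∧ F y0 ≠ 0 ∧ ∀ y, F y ≠ 0 → Q y

end

/-- An open condition `d A B ≠ 0` on pairs of matrices which implies independence. -/
structure Rel (Ω : Type u) [Field Ω] where
  /-- the polynomial function -/
  d : M3 Ω → M3 Ω → Ω
  poly : IsPoly fun y : Bool → M3 Ω => d (y false) (y true)
  indep : ∀ A B, d A B ≠ 0 → LinearIndependent Ω ![A, B]

section

variable {L Ω : Type u} [Field L] [Field Ω] [Algebra L Ω] {ι : Type}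

/-- The property `τ` of matrices is attained on the span of `A`, `B` and three independent
matrices in `D` whenever `d A B ≠ 0`. -/
def Tgt (F : DivForm L Ω) (δ : Rel Ω) (τ : M3 Ω → Prop) : Prop :=
  ∀ A ∈ F.D, ∀ B ∈ F.D, δ.d A B ≠ 0 → ∀ x : Fin 3 → M3 Ω, (∀ i, x i ∈ F.D) →
    LinearIndependent Ω x → ∃ w ∈ Submodule.span Ω (insert A (insert B (Set.range x))), τ w

variable [DecidableEq ι]

/-- Fix the slots in `I`. -/
noncomputable def res (P : ML Ω ι) (I : Finset ι) (y : ι → M3 Ω) : ML Ω {k // k ∉ I} :=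
  P.domDomRestrict (fun k => k ∉ I) (fun k => y k.1)

theorem res_apply (P : ML Ω ι) (I : Finset ι) (y z : ι → M3 Ω) :
    res P I y (fun k => z k.1) = P (I.piecewise y z) := by
  unfold res
  rw [MultilinearMap.domDomRestrict_apply]
  congr 1
  funext j
  by_cases hj : j ∈ I
  · simp [hj]
  · simp [hj]

/-- `d` is not zero for some pair of values which differ only in the slots in `I`. -/
def Var (δ : Rel Ω) (P : ML Ω ι) (I : Finset ι) : Prop :=
  ∃ z y y' : ι → M3 Ω, δ.d (P (I.piecewise y z)) (P (I.piecewise y' z)) ≠ 0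

/-- The values for fixed slots outside `I` span a space of dimension at most two. -/
def Dim2 (P : ML Ω ι) (I : Finset ι) : Prop :=
  ∀ (z : ι → M3 Ω) (y : Fin 3 → ι → M3 Ω),
    ¬ LinearIndependent Ω fun k => P (I.piecewise (y k) z)

variable [Fintype ι]

/-- Multilinear maps which preserve `D` and commute with the action of the matrix units. -/
structure Nice (F : DivForm L Ω) (P : ML Ω ι) : Prop where
  mem : ∀ y : ι → M3 Ω, (∀ i, y i ∈ F.D) → P y ∈ F.D
  der : ∀ i j : Fin 3, i ≠ j → ∀ y : ι → M3 Ω,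
    ∑ k, P (Function.update y k (E i j * y k - y k * E i j)) = E i j * P y - P y * E i j

end

lemma c2_smul {Ω : Type u} [Field Ω] (a : Ω) (A : M3 Ω) : c2 (a • A) = a ^ 2 * c2 A := by
  simp only [c2, Matrix.smul_apply, smul_eq_mul]
  ring

lemma c2_zero {Ω : Type u} [Field Ω] : c2 (0 : M3 Ω) = 0 := by simp [c2]

end Pool.Agent.H88KL
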