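import Pool.Agent.Helper88.KL.Conic

/-!
# Block KL-R3: the third relation

`Q3 X = trace X ^ 2 - 3 c2 X`, `b3` its polar form, `disc` the discriminant of `Q3` on `<A, B>`.

* `disc_comb`: `Q3 (x U + y V) = x ^ 2 Q3 U + x y b3 U V + y ^ 2 Q3 V`, and the discriminant of the
  binary form changes by the square of the determinant. All are polynomial identities in the entries
  (first prove `Q3_comb`, `b3_comb`, then `ring`; do not expand everything at once).
* `rel3.indep`: if `B = r A` or `A = r B` then `disc A B = 0`.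
* `rel1_of_rel3` (`T = trace`, `S = c2`): if `S(A) T(B)^2 = S(B) T(A)^2` and
  `S(A) T(A+B)^2 = S(A+B) T(A)^2`, put `k = S(A) / T(A)^2`; then `S(B) = k T(B)^2`,
  `S(A+B) = k T(A+B)^2`, so `Q3 (A) = (1-3k) T(A)^2`, `Q3 (B) = (1-3k) T(B)^2`,
  `b3 A B = 2 (1-3k) T(A) T(B)`, `disc A B = 0`.
* `tgt3`: by `rel1_of_rel3` one can apply `tgt1` to `(A, B)` or to `(A, A + B)`; the span of
  `A, A + B, x` is contained in (equal to) the span of `A, B, x`.
* `disc_scalar`: `c2 (a • 1 + X) = c2 X + 2 a T(X) + 3 a ^ 2`, so `b3 (a • 1) X = 0`.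
-/

open Matrix

namespace Pool.Agent.H88KL

open Pool.Agent.H24ML

universe u

/-- The quadratic form `trace ^ 2 - 3 c2`. -/
def Q3 {Ω : Type u} [Field Ω] (A : M3 Ω) : Ω := trace A ^ 2 - 3 * c2 A

/-- Its polar form. -/
def b3 {Ω : Type u} [Field Ω] (A B : M3 Ω) : Ω := Q3 (A + B) - Q3 A - Q3 B

/-- The discriminant of `Q3` on the span of `A` and `B`. -/
def disc {Ω : Type u} [Field Ω] (A B : M3 Ω) : Ω := b3 A B ^ 2 - 4 * Q3 A * Q3 B

section

variable {Ω : Type u} [Field Ω]

theorem Q3_comb (x y : Ω) (A B : M3 Ω) :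
    Q3 (x • A + y • B) = x ^ 2 * Q3 A + x * y * b3 A B + y ^ 2 * Q3 B := by
  simp only [Q3, b3, c2, Matrix.trace_fin_three, Matrix.add_apply, Matrix.smul_apply, smul_eq_mul]
  ring

theorem b3_comb (x y x' y' : Ω) (A B : M3 Ω) :
    b3 (x • A + y • B) (x' • A + y' • B) =
      2 * x * x' * Q3 A + (x * y' + x' * y) * b3 A B + 2 * y * y' * Q3 B := by
  have h1 : x • A + y • B + (x' • A + y' • B) = (x + x') • A + (y + y') • B := by
    rw [add_smul, add_smul]
    abel
  show Q3 (x • A + y • B + (x' • A + y' • B)) - Q3 (x • A + y • B) - Q3 (x' • A + y' • B) = _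
  rw [h1, Q3_comb, Q3_comb, Q3_comb]
  ring

theorem disc_comb (x y x' y' : Ω) (A B : M3 Ω) :
    disc (x • A + y • B) (x' • A + y' • B) = (x * y' - x' * y) ^ 2 * disc A B := by
  unfold disc
  rw [b3_comb, Q3_comb, Q3_comb]
  ring

theorem disc_scalar (a : Ω) (X : M3 Ω) : disc (a • (1 : M3 Ω)) X = 0 := by
  have h1 : Q3 (a • (1 : M3 Ω)) = 0 := by
    simp [Q3, c2, Matrix.trace_fin_three]
    ring
  have h2 : b3 (a • (1 : M3 Ω)) X = 0 := by
    unfold b3
    rw [h1]
    simp [Q3, c2, Matrix.trace_fin_three]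
    ring
  unfold disc
  rw [h1, h2]
  ring

theorem isPoly_Q3 {κ : Type} {G : (κ → M3 Ω) → M3 Ω} (hG : IsPolyM G) :
    IsPoly fun y => Q3 (G y) := by
  exact (hG.trace.pow 2).sub ((IsPoly.const 3).mul hG.c2)

theorem isPoly_b3 {κ : Type} {G H : (κ → M3 Ω) → M3 Ω} (hG : IsPolyM G) (hH : IsPolyM H) :
    IsPoly fun y => b3 (G y) (H y) := by
  exact ((isPoly_Q3 (hG.add hH)).sub (isPoly_Q3 hG)).sub (isPoly_Q3 hH)

theorem isPoly_disc {κ : Type} {G H : (κ → M3 Ω) → M3 Ω} (hG : IsPolyM G) (hH : IsPolyM H) :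
    IsPoly fun y => disc (G y) (H y) := by
  exact ((isPoly_b3 hG hH).pow 2).sub (((IsPoly.const 4).mul (isPoly_Q3 hG)).mul (isPoly_Q3 hH))

theorem rel1_of_rel3 {A B : M3 Ω} (hT : trace A ≠ 0) (h : disc A B ≠ 0) :
    (rel1 Ω).d A B ≠ 0 ∨ (rel1 Ω).d A (A + B) ≠ 0 := by
  by_contra hc
  push Not at hc
  obtain ⟨h1, h2⟩ := hc
  rw [rel1_d] at h1 h2
  rw [trace_add] at h2
  apply h
  have h3 : trace A ^ 4 ≠ 0 := pow_ne_zero 4 hT
  have h4 : trace A ^ 2 * b3 A B = 2 * trace A * trace B * (trace A ^ 2 - 3 * c2 A) := by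
    unfold b3 Q3
    rw [trace_add]
    linear_combination 3 * h2 - 3 * h1
  have h5 : trace A ^ 2 * Q3 B = trace B ^ 2 * (trace A ^ 2 - 3 * c2 A) := by
    unfold Q3
    linear_combination 3 * h1
  have h6 : trace A ^ 4 * disc A B = 0 := by
    have h7 : trace A ^ 4 * disc A B =
        (trace A ^ 2 * b3 A B) ^ 2 - 4 * (trace A ^ 2 * Q3 A) * (trace A ^ 2 * Q3 B) := by
      unfold disc
      ring
    rw [h7, h4, h5]
    unfold Q3
    ring
  exact (mul_eq_zero.1 h6).resolve_left h3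

end

private theorem indep99 {Ω : Type u} [Field Ω] {d : M3 Ω → M3 Ω → Ω}
    (h1 : ∀ (c : Ω) B, d (c • B) B = 0)
    (h2 : ∀ A, d A 0 = 0) (A B : M3 Ω) (h : d A B ≠ 0) : LinearIndependent Ω ![A, B] := by
  rw [LinearIndependent.pair_iff]
  intro s t hst
  have hs : s = 0 := by
    by_contra hs
    have hA : A = (-(s⁻¹ * t)) • B := by
      have h3 : s • A = -(t • B) := eq_neg_of_add_eq_zero_left hst
      calc A = s⁻¹ • (s • A) := by rw [smul_smul, inv_mul_cancel₀ hs, one_smul]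
        _ = (-(s⁻¹ * t)) • B := by rw [h3, smul_neg, smul_smul, neg_smul]
    rw [hA] at h
    exact h (h1 _ _)
  refine ⟨hs, ?_⟩
  by_contra ht
  rw [hs, zero_smul, zero_add] at hst
  rcases smul_eq_zero.1 hst with h3 | h3
  · exact ht h3
  · rw [h3] at h
    exact h (h2 _)

/-- `trace A ≠ 0` and `Q3` is not the square of a linear form on the span of `A` and `B`. -/
noncomputable def rel3 (Ω : Type u) [Field Ω] : Rel Ω where
  d A B := trace A * disc A B
  poly := by
    exact (IsPolyM.coord false).trace.mul (isPoly_disc (IsPolyM.coord false) (IsPolyM.coord true))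
  indep := by
    refine indep99 (d := fun A B => trace A * disc A B) ?_ ?_
    · intro c B
      have h1 := disc_comb c 0 1 0 B B
      rw [zero_smul, add_zero, one_smul, add_zero] at h1
      show trace (c • B) * disc (c • B) B = 0
      rw [h1]
      ring
    · intro A
      have h1 := disc_comb 1 0 0 0 A A
      rw [zero_smul, add_zero, one_smul, add_zero] at h1
      show trace A * disc A 0 = 0
      rw [h1]
      ring

theorem rel3_d {Ω : Type u} [Field Ω] (A B : M3 Ω) :
    (rel3 Ω).d A B = trace A * disc A B := rfl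

theorem tgt3 {L Ω : Type u} [Field L] [Field Ω] [Algebra L Ω] [IsAlgClosed Ω]
    (F : DivForm L Ω) (b : L) (c : Ω) :
    Tgt F (rel3 Ω) fun w => trace w = 1 ∧ c2 w = algebraMap L Ω b ∧ det w = c := by
  intro A hA B hB h x hx hind
  rw [rel3_d] at h
  have hT : trace A ≠ 0 := left_ne_zero_of_mul h
  have hd : disc A B ≠ 0 := right_ne_zero_of_mul h
  rcases rel1_of_rel3 hT hd with h1 | h1
  · exact tgt1 F b c A hA B hB h1 x hx hind
  · obtain ⟨w, hw, hw'⟩ := tgt1 F b c A hA (A + B) (F.D.add_mem hA hB) h1 x hx hind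
    refine ⟨w, ?_, hw'⟩
    refine (Submodule.span_le.2 ?_) hw
    have hAs : A ∈ Submodule.span Ω (insert A (insert B (Set.range x))) :=
      Submodule.subset_span (Set.mem_insert _ _)
    have hBs : B ∈ Submodule.span Ω (insert A (insert B (Set.range x))) :=
      Submodule.subset_span (Set.mem_insert_of_mem _ (Set.mem_insert _ _))
    rintro z (rfl | rfl | hz)
    · exact hAs
    · exact Submodule.add_mem _ hAs hBs
    · exact Submodule.subset_span (Set.mem_insert_of_mem _ (Set.mem_insert_of_mem _ hz))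

end Pool.Agent.H88KL
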