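import Pool.Agent.Helper88.KL.Main
import Pool.Agent.Helper88.KL.R3

/-!
# The dichotomy for `3 c2 = trace ^ 2`
-/

open Matrix

namespace Pool.Agent.H88KL

open Pool.Agent.H24ML

universe u

section linalg

variable {Ω V : Type*} [Field Ω] [AddCommGroup V] [Module Ω V]

theorem mem_pair_of_dep88 {e a b : V} (hab : LinearIndependent Ω ![a, b])
    (h : ¬ LinearIndependent Ω ![e, a, b]) : ∃ s t : Ω, e = s • a + t • b := by
  have h1 : ¬ (LinearIndependent Ω ![a, b] ∧ e ∉ Submodule.span Ω (Set.range ![a, b])) := by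
    intro h2
    exact h (linearIndependent_finCons.2 h2)
  have h2 : e ∈ Submodule.span Ω (Set.range ![a, b]) := by
    by_contra h3
    exact h1 ⟨hab, h3⟩
  rw [Matrix.range_cons, Matrix.range_cons, Matrix.range_empty, Set.union_empty,
    Set.singleton_union, Submodule.mem_span_pair] at h2
  obtain ⟨s, t, hst⟩ := h2
  exact ⟨s, t, hst.symm⟩

/-- three independent vectors do not lie in the span of two -/
theorem not_three88 {a b x y z : V} (h : LinearIndependent Ω ![x, y, z])
    (hx : ∃ s t : Ω, x = s • a + t • b) (hy : ∃ s t : Ω, y = s • a + t • b)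
    (hz : ∃ s t : Ω, z = s • a + t • b) : False := by
  have hS : ∀ j, ![x, y, z] j ∈ Submodule.span Ω {a, b} := by
    intro j
    obtain ⟨s1, t1, h1⟩ := hx
    obtain ⟨s2, t2, h2⟩ := hy
    obtain ⟨s3, t3, h3⟩ := hz
    fin_cases j
    · exact Submodule.mem_span_pair.2 ⟨s1, t1, h1.symm⟩
    · exact Submodule.mem_span_pair.2 ⟨s2, t2, h2.symm⟩
    · exact Submodule.mem_span_pair.2 ⟨s3, t3, h3.symm⟩
  have hli : LinearIndependent Ω fun j => (⟨![x, y, z] j, hS j⟩ : Submodule.span Ω {a, b}) := by
    apply LinearIndependent.of_comp (Submodule.span Ω {a, b}).subtype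
    exact h
  classical
  have : Module.Finite Ω (Submodule.span Ω ({a, b} : Set V)) :=
    Module.Finite.span_of_finite Ω (Set.toFinite _)
  have h1 := hli.fintype_card_le_finrank
  have h2 : Module.finrank Ω (Submodule.span Ω ({a, b} : Set V)) ≤ 2 := by
    have := finrank_span_finset_le_card (R := Ω) ({a, b} : Finset V)
    refine le_trans (le_of_eq ?_) (le_trans this Finset.card_le_two)
    rw [Finset.coe_pair]
    rfl
  rw [Fintype.card_fin] at h1
  omega

theorem step88 [Infinite Ω] {e A B A' B' : V} (he : e ≠ 0) (hAB : LinearIndependent Ω ![A, B])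
    (hdep : ∀ l : Ω, ¬ LinearIndependent Ω ![e, A + l • A', B + l • B'])
    {s t a : Ω} (ha : a ≠ 0) (hst : s • A + t • B = a • e)
    (h3 : ¬ ((∃ p q : Ω, A' = p • A + q • B) ∧ ∃ p q : Ω, B' = p • A + q • B)) :
    ∃ a' : Ω, s • A' + t • B' = a' • e := by
  classical
  by_contra hne
  push Not at hne
  set w := s • A' + t • B' with hw
  have hew : LinearIndependent Ω ![e, w] := by
    rw [LinearIndependent.pair_iff' he]
    intro r hr
    exact hne r hr.symm
  -- two different nonzero scalars
  obtain ⟨l1, hl1⟩ : ∃ l : Ω, l ∉ ({0} : Finset Ω) := Infinite.exists_notMem_finset _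
  obtain ⟨l2, hl2⟩ : ∃ l : Ω, l ∉ ({0, l1} : Finset Ω) := Infinite.exists_notMem_finset _
  simp only [Finset.mem_singleton] at hl1
  simp only [Finset.mem_insert, Finset.mem_singleton, not_or] at hl2
  -- membership in the span of e and w
  let S : Submodule Ω V := Submodule.span Ω {e, w}
  have heS : e ∈ S := Submodule.subset_span (by simp)
  have hwS : w ∈ S := Submodule.subset_span (by simp)
  have hnt : ∀ x y : Ω, x • e + y • w = 0 → x = 0 ∧ y = 0 := fun x y h =>
    LinearIndependent.pair_iff.1 hew x y h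
  have main : ∀ l : Ω, l ≠ 0 → A + l • A' ∈ S ∧ B + l • B' ∈ S := by
    intro l hl
    have hR : s • (A + l • A') + t • (B + l • B') = a • e + l • w := by
      rw [hw, ← hst]
      module
    have h1 := hdep l
    rw [Fintype.not_linearIndependent_iff] at h1
    obtain ⟨g, hg, i, hi⟩ := h1
    simp only [Fin.sum_univ_three, Matrix.cons_val_zero, Matrix.cons_val_one,
      Matrix.cons_val_two, Matrix.head_cons, Matrix.tail_cons, Matrix.cons_val] at hg
    set x := g 0
    set y := g 1
    set z := g 2
    set Al := A + l • A'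
    set Bl := B + l • B'
    by_cases hs : s = 0
    · have ht : t ≠ 0 := by
        rintro rfl
        rw [hs, zero_smul, zero_smul, add_zero] at hst
        exact smul_ne_zero ha he hst.symm
      rw [hs, zero_smul, zero_add] at hR
      have hBl : Bl = t⁻¹ • (a • e + l • w) := by
        rw [← hR, smul_smul, inv_mul_cancel₀ ht, one_smul]
      have hBS : Bl ∈ S := by
        rw [hBl]
        exact S.smul_mem _ (S.add_mem (S.smul_mem _ heS) (S.smul_mem _ hwS))
      refine ⟨?_, hBS⟩
      by_cases hy : y = 0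
      · exfalso
        rw [hy, zero_smul, add_zero, hBl] at hg
        have h2 : (x + z * t⁻¹ * a) • e + (z * t⁻¹ * l) • w = 0 := by
          rw [← hg]
          module
        obtain ⟨h3, h4⟩ := hnt _ _ h2
        have hz : z = 0 := by
          rcases mul_eq_zero.1 h4 with h5 | h5
          · rcases mul_eq_zero.1 h5 with h6 | h6
            · exact h6
            · exact absurd h6 (inv_ne_zero ht)
          · exact absurd h5 hl
        rw [hz, zero_mul, zero_mul, add_zero] at h3
        fin_cases i
        · exact hi h3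
        · exact hi hy
        · exact hi hz
      · have e1 : Al = (-(y⁻¹ * x)) • e + (-(y⁻¹ * z)) • Bl := by
          have h2 : y • Al = -(x • e) - z • Bl := by
            rw [← sub_eq_zero, ← hg]
            abel
          have h3 : Al = y⁻¹ • (y • Al) := by
            rw [smul_smul, inv_mul_cancel₀ hy, one_smul]
          rw [h3, h2]
          module
        rw [e1]
        exact S.add_mem (S.smul_mem _ heS) (S.smul_mem _ hBS)
    · have hAl : Al = s⁻¹ • (a • e + l • w - t • Bl) := by
        rw [← hR, add_sub_cancel_right, smul_smul, inv_mul_cancel₀ hs, one_smul]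
      have h2 : (s * z - y * t) • Bl = (-(s * x + y * a)) • e + (-(y * l)) • w := by
        have h3 : s • (x • e + y • Al + z • Bl) = 0 := by rw [hg, smul_zero]
        have h4 : s • Al = a • e + l • w - t • Bl := by
          rw [← hR]
          abel
        have h5 : s • (x • e + y • Al + z • Bl) = (s * x) • e + y • (s • Al) + (s * z) • Bl := by
          module
        rw [h5, h4] at h3
        rw [← sub_eq_zero, ← h3]
        module
      have hBS : Bl ∈ S := by
        by_cases hc : s * z - y * t = 0
        · exfalso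
          rw [hc, zero_smul] at h2
          obtain ⟨h6, h7⟩ := hnt _ _ h2.symm
          have hy : y = 0 := by
            rcases mul_eq_zero.1 (neg_eq_zero.1 h7) with h8 | h8
            · exact h8
            · exact absurd h8 hl
          rw [hy, zero_mul, add_zero, neg_eq_zero] at h6
          rw [hy, zero_mul, sub_zero] at hc
          fin_cases i
          · exact hi ((mul_eq_zero.1 h6).resolve_left hs)
          · exact hi hy
          · exact hi ((mul_eq_zero.1 hc).resolve_left hs)
        · have h6 : Bl = (s * z - y * t)⁻¹ • ((s * z - y * t) • Bl) := by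
            rw [smul_smul, inv_mul_cancel₀ hc, one_smul]
          rw [h6, h2]
          exact S.smul_mem _ (S.add_mem (S.smul_mem _ heS) (S.smul_mem _ hwS))
      refine ⟨?_, hBS⟩
      rw [hAl]
      exact S.smul_mem _ (S.sub_mem (S.add_mem (S.smul_mem _ heS) (S.smul_mem _ hwS))
        (S.smul_mem _ hBS))
  obtain ⟨a1, b1⟩ := main l1 hl1
  obtain ⟨a2, b2⟩ := main l2 hl2.1
  have hl : l1 - l2 ≠ 0 := sub_ne_zero.2 (Ne.symm hl2.2)
  have key : ∀ X X' : V, X + l1 • X' ∈ S → X + l2 • X' ∈ S → X ∈ S ∧ X' ∈ S := by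
    intro X X' h1 h2
    have h4 : X' ∈ S := by
      have h5 : X' = (l1 - l2)⁻¹ • ((X + l1 • X') - (X + l2 • X')) := by
        have : (X + l1 • X') - (X + l2 • X') = (l1 - l2) • X' := by module
        rw [this, smul_smul, inv_mul_cancel₀ hl, one_smul]
      rw [h5]
      exact S.smul_mem _ (S.sub_mem h1 h2)
    refine ⟨?_, h4⟩
    have h5 : X = (X + l1 • X') - l1 • X' := by abel
    rw [h5]
    exact S.sub_mem h1 (S.smul_mem _ h4)
  obtain ⟨hA, hA'⟩ := key _ _ a1 a2
  obtain ⟨hB, hB'⟩ := key _ _ b1 b2
  apply h3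
  have fin : ∀ X ∈ S, ∃ p q : Ω, X = p • A + q • B := by
    intro X hX
    apply mem_pair_of_dep88 hAB
    intro hli
    refine not_three88 (a := e) (b := w) hli ?_ ?_ ?_
    · obtain ⟨p, q, h⟩ := Submodule.mem_span_pair.1 hX
      exact ⟨p, q, h.symm⟩
    · obtain ⟨p, q, h⟩ := Submodule.mem_span_pair.1 hA
      exact ⟨p, q, h.symm⟩
    · obtain ⟨p, q, h⟩ := Submodule.mem_span_pair.1 hB
      exact ⟨p, q, h.symm⟩
  exact ⟨fin _ hA', fin _ hB'⟩

end linalg

/-- Finitely many nonempty open conditions have a common solution. -/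
theorem Op.exists_all88 {Ω : Type u} [Field Ω] [Infinite Ω] {κ : Type} {α : Type*} [Finite α]
    {Q : α → (κ → M3 Ω) → Prop} (h : ∀ a, Op (Q a)) (hne : ∀ a, ∃ y, Q a y) :
    ∃ y, ∀ a, Q a y := by
  classical
  have : Fintype α := Fintype.ofFinite α
  have key : ∀ s : Finset α, ∃ y, ∀ a ∈ s, Q a y := by
    intro s
    induction s using Finset.induction_on with
    | empty => exact ⟨fun _ => 0, fun a ha => absurd ha (Finset.notMem_empty a)⟩
    | insert a s ha ih =>
      have h1 : Op fun y => ∀ a : {a // a ∈ s}, Q a.1 y := Op.all fun a => h a.1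
      obtain ⟨y, hy⟩ := ih
      obtain ⟨y', hy1, hy2⟩ := (h a).exists_and h1 (hne a) ⟨y, fun a => hy a.1 a.2⟩
      refine ⟨y', fun b hb => ?_⟩
      rcases Finset.mem_insert.1 hb with rfl | hb
      · exact hy1
      · exact hy2 ⟨b, hb⟩
  obtain ⟨y, hy⟩ := key Finset.univ
  exact ⟨y, fun a => hy a (Finset.mem_univ a)⟩

section

variable {L Ω : Type u} [Field L] [Field Ω] [Algebra L Ω]

theorem c2_comb88 (a x : Ω) (X : M3 Ω) :
    c2 (a • (1 : M3 Ω) + x • X) = x ^ 2 * c2 X + 2 * a * x * trace X + 3 * a ^ 2 := by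
  simp only [c2, trace, Matrix.diag, Fin.sum_univ_three, Matrix.add_apply, Matrix.smul_apply,
    Matrix.one_apply, smul_eq_mul]
  simp
  ring

theorem trace_comb88 (a x : Ω) (X : M3 Ω) :
    trace (a • (1 : M3 Ω) + x • X) = x * trace X + 3 * a := by
  rw [trace_add, trace_smul, trace_smul, trace_one, smul_eq_mul, smul_eq_mul, Fintype.card_fin]
  push_cast
  ring

/-- The defect of the equation `c2 = b trace ^ 2` does not change under addition of a scalar. -/
theorem defect88 {b : Ω} (hb : 3 * b = 1) (a x : Ω) (X : M3 Ω) :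
    c2 (a • (1 : M3 Ω) + x • X) - b * trace (a • (1 : M3 Ω) + x • X) ^ 2 =
      x ^ 2 * (c2 X - b * trace X ^ 2) := by
  rw [c2_comb88, trace_comb88]
  linear_combination (-(3 * a ^ 2 + 2 * a * x * trace X)) * hb

theorem nonscalar_li88 {X : M3 Ω} (h : ¬ ∃ a : Ω, X = a • (1 : M3 Ω)) :
    LinearIndependent Ω ![(1 : M3 Ω), X] := by
  rw [LinearIndependent.pair_iff' one_ne_zero]
  intro r hr
  exact h ⟨r, hr.symm⟩

theorem isPolyM_fix88 {ι : Type} [Fintype ι] [DecidableEq ι] (P : ML Ω ι) (I : Finset ι)
    (u : ι → M3 Ω) {κ : Type} {G : ι → (κ → M3 Ω) → M3 Ω} (hG : ∀ i, IsPolyM (G i)) :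
    IsPolyM fun y : κ → M3 Ω => P (I.piecewise u fun i => G i y) := by
  have h : ∀ i, IsPolyM fun y : κ → M3 Ω => (I.piecewise u (fun i => G i y)) i := by
    intro i
    by_cases hi : i ∈ I
    · simp only [Finset.piecewise_eq_of_mem _ _ _ hi]
      exact IsPolyM.const _
    · simp only [Finset.piecewise_eq_of_notMem _ _ _ hi]
      exact hG i
  exact IsPolyM.ml P h

theorem Op.indep3_88 {κ : Type} {G0 G1 G2 : (κ → M3 Ω) → M3 Ω} (h0 : IsPolyM G0)
    (h1 : IsPolyM G1) (h2 : IsPolyM G2) :
    Op fun y : κ → M3 Ω => LinearIndependent Ω ![G0 y, G1 y, G2 y] := by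
  have h : ∀ j : Fin 3, IsPolyM ((![G0, G1, G2] : Fin 3 → (κ → M3 Ω) → M3 Ω) j) := by
    intro j
    fin_cases j
    · exact h0
    · exact h1
    · exact h2
  have h4 := Op.indep h
  have e : (fun y : κ → M3 Ω => LinearIndependent Ω ![G0 y, G1 y, G2 y]) =
      fun y => LinearIndependent Ω fun j =>
        (![G0, G1, G2] : Fin 3 → (κ → M3 Ω) → M3 Ω) j y := by
    funext y
    congr 1
    funext j
    fin_cases j <;> rfl
  rw [e]
  exact h4

theorem Op.indep2_88 {κ : Type} {G0 G1 : (κ → M3 Ω) → M3 Ω} (h0 : IsPolyM G0)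
    (h1 : IsPolyM G1) : Op fun y : κ → M3 Ω => LinearIndependent Ω ![G0 y, G1 y] := by
  have h : ∀ j : Fin 2, IsPolyM ((![G0, G1] : Fin 2 → (κ → M3 Ω) → M3 Ω) j) := by
    intro j
    fin_cases j
    · exact h0
    · exact h1
  have h4 := Op.indep h
  have e : (fun y : κ → M3 Ω => LinearIndependent Ω ![G0 y, G1 y]) =
      fun y => LinearIndependent Ω fun j =>
        (![G0, G1] : Fin 2 → (κ → M3 Ω) → M3 Ω) j y := by
    funext y
    congr 1
    funext j
    fin_cases j <;> rfl
  rw [e]
  exact h4

theorem isPolyM_ite88 {κ ι : Type} [DecidableEq ι] (T : Finset ι) (i : ι)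
    {G0 G1 : ι → (κ → M3 Ω) → M3 Ω} (h0 : ∀ i, IsPolyM (G0 i)) (h1 : ∀ i, IsPolyM (G1 i)) :
    IsPolyM fun y : κ → M3 Ω => (T.piecewise (fun i => G1 i y) fun i => G0 i y) i := by
  by_cases hi : i ∈ T
  · simp only [Finset.piecewise_eq_of_mem _ _ _ hi]
    exact h1 i
  · simp only [Finset.piecewise_eq_of_notMem _ _ _ hi]
    exact h0 i

theorem dichF [IsAlgClosed Ω] [Infinite L] (F : DivForm L Ω) (b : L)
    (hb : (3 : Ω) * algebraMap L Ω b = 1) (c : Ω) :
    ∀ (n : ℕ) (ι : Type) [Fintype ι] [DecidableEq ι], Fintype.card ι = n →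
      ∀ P : ML Ω ι, Nice F P →
        (∃ y, trace (P y) = 1 ∧ c2 (P y) = algebraMap L Ω b ∧ det (P y) = c) ∨
        ((∀ y, trace (P y) ≠ 0 → c2 (P y) = algebraMap L Ω b * trace (P y) ^ 2 →
          ∃ a : Ω, P y = a • (1 : M3 Ω)) ∧
        ((∃ y, trace (P y) ≠ 0) → ∃ f : MultilinearMap Ω (fun _ : ι => M3 Ω) Ω,
          ∀ y, Q3 (P y) = f y ^ 2)) := by
  have : Infinite Ω := Infinite.of_injective _ (algebraMap L Ω).injective
  intro n
  induction n using Nat.strong_induction_on with
  | _ n ih =>
  intro ι iF iD hcard P hN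
  by_cases hhit : ∃ y, trace (P y) = 1 ∧ c2 (P y) = algebraMap L Ω b ∧ det (P y) = c
  · exact Or.inl hhit
  right
  by_cases hV : ∃ y y', (rel1 Ω).d (P y) (P y') ≠ 0
  swap
  · push Not at hV
    refine ⟨?_, fun hT1 => ?_⟩
    swap
    · obtain ⟨y1, hT1⟩ := hT1
      obtain ⟨r, hr⟩ := IsAlgClosed.exists_pow_nat_eq
        (1 - 3 * (c2 (P y1) / trace (P y1) ^ 2)) (n := 2) (by norm_num)
      refine ⟨r • (Matrix.traceLinearMap (Fin 3) Ω Ω).compMultilinearMap P, fun y => ?_⟩
      have h1 := hV y y1
      rw [rel1_d, sub_eq_zero] at h1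
      rw [_root_.smul_apply, LinearMap.compMultilinearMap_apply, Matrix.traceLinearMap_apply,
        smul_eq_mul, mul_pow, hr]
      unfold Q3
      have h2 : c2 (P y) = c2 (P y1) / trace (P y1) ^ 2 * trace (P y) ^ 2 := by
        field_simp
        linear_combination h1
      rw [h2]
      ring
    intro y hT hc
    have hall : ∀ y', c2 (P y') = algebraMap L Ω b * trace (P y') ^ 2 := by
      intro y'
      have h1 := hV y' y
      rw [rel1_d, hc, sub_eq_zero] at h1
      apply mul_right_cancel₀ (pow_ne_zero 2 hT)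
      rw [h1]
      ring
    rcases ratio_or_scalar F hN c hall hT with h | h
    · exact absurd h hhit
    · exact h
  obtain ⟨y1, y1', hy1⟩ := hV
  obtain ⟨i, hi⟩ := first1 P hy1
  rcases gen' F (tgt1 F b c) hN hi with h | ⟨I, u, v, z, hI, hu, hv, hz, h3, hon, hmax, hd⟩
  · exact absurd h hhit
  obtain ⟨A, hA⟩ : ∃ A : (ι → M3 Ω) → M3 Ω, A = fun z => P (I.piecewise u z) := ⟨_, rfl⟩
  obtain ⟨B, hB⟩ : ∃ B : (ι → M3 Ω) → M3 Ω, B = fun z => P (I.piecewise v z) := ⟨_, rfl⟩
  have hA' : ∀ z, P (I.piecewise u z) = A z := fun z => by rw [hA]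
  have hB' : ∀ z, P (I.piecewise v z) = B z := fun z => by rw [hB]
  rw [hA', hB'] at hd
  have hAD : ∀ z : ι → M3 Ω, (∀ k, z k ∈ F.D) → A z ∈ F.D := by
    intro z hz
    rw [hA]
    refine hN.mem _ fun k => ?_
    by_cases hk : k ∈ I
    · simpa [hk] using hu k
    · simpa [hk] using hz k
  have hBD : ∀ z : ι → M3 Ω, (∀ k, z k ∈ F.D) → B z ∈ F.D := by
    intro z hz
    rw [hB]
    refine hN.mem _ fun k => ?_
    by_cases hk : k ∈ I
    · simpa [hk] using hv k
    · simpa [hk] using hz k
  -- the induction hypothesis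
  have key : ∀ (s t : L) (z : ι → M3 Ω),
      trace (algebraMap L Ω s • A z + algebraMap L Ω t • B z) ≠ 0 →
      c2 (algebraMap L Ω s • A z + algebraMap L Ω t • B z) = algebraMap L Ω b *
        trace (algebraMap L Ω s • A z + algebraMap L Ω t • B z) ^ 2 →
      ∃ a : Ω, algebraMap L Ω s • A z + algebraMap L Ω t • B z = a • (1 : M3 Ω) := by
    intro s t z hT hc
    have h1 := ih _ (hcard ▸ card_lt hI) _ rfl _ (nice_comb hN h3 hu hv s t)
    rcases h1 with ⟨w, hw⟩ | ⟨h1, -⟩
    · exfalso
      apply hhit
      obtain ⟨x, hx⟩ := hon (algebraMap L Ω s) (algebraMap L Ω t)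
      rw [← hx, res_ext] at hw
      exact ⟨_, hw⟩
    · have h2 := h1 (fun k => z k.1)
      rw [_root_.add_apply, _root_.smul_apply, _root_.smul_apply, res_apply, res_apply,
        hA', hB'] at h2
      exact h2 hT hc
  have keyF : ∀ (s t : L), (∃ z : ι → M3 Ω,
      trace (algebraMap L Ω s • A z + algebraMap L Ω t • B z) ≠ 0) →
      ∃ f : MultilinearMap Ω (fun _ : {k // k ∉ I} => M3 Ω) Ω, ∀ z : ι → M3 Ω,
        Q3 (algebraMap L Ω s • A z + algebraMap L Ω t • B z) = f (fun k => z k.1) ^ 2 := by
    rintro s t ⟨z, hT⟩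
    have h1 := ih _ (hcard ▸ card_lt hI) _ rfl _ (nice_comb hN h3 hu hv s t)
    have hval : ∀ z : ι → M3 Ω, (algebraMap L Ω s • res P I u + algebraMap L Ω t • res P I v)
        (fun k => z k.1) = algebraMap L Ω s • A z + algebraMap L Ω t • B z := by
      intro z
      rw [_root_.add_apply, _root_.smul_apply, _root_.smul_apply, res_apply, res_apply, hA', hB']
    rcases h1 with ⟨w, hw⟩ | ⟨-, h1⟩
    · exfalso
      apply hhit
      obtain ⟨x, hx⟩ := hon (algebraMap L Ω s) (algebraMap L Ω t)
      rw [← hx, res_ext] at hw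
      exact ⟨_, hw⟩
    · obtain ⟨f, hf⟩ := h1 ⟨fun k => z k.1, by rw [hval]; exact hT⟩
      refine ⟨f, fun z => ?_⟩
      rw [← hf, hval]
  have hPA : ∀ {κ : Type} {G : ι → (κ → M3 Ω) → M3 Ω}, (∀ i, IsPolyM (G i)) →
      IsPolyM fun y : κ → M3 Ω => A fun i => G i y := by
    intro κ G hG
    rw [hA]
    exact isPolyM_fix88 P I u hG
  have hPB : ∀ {κ : Type} {G : ι → (κ → M3 Ω) → M3 Ω}, (∀ i, IsPolyM (G i)) →
      IsPolyM fun y : κ → M3 Ω => B fun i => G i y := by
    intro κ G hG
    rw [hB]
    exact isPolyM_fix88 P I v hG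
  have hPA0 : IsPolyM A := hPA fun i => IsPolyM.coord i
  have hPB0 : IsPolyM B := hPB fun i => IsPolyM.coord i
  -- `1, A z, B z` are dependent
  have F1 : ∀ z, ¬ LinearIndependent Ω ![(1 : M3 Ω), A z, B z] := by
    intro z' hli
    have hO1 : Op fun y : ι → M3 Ω => LinearIndependent Ω ![(1 : M3 Ω), A y, B y] :=
      Op.indep3_88 (IsPolyM.const _) hPA0 hPB0
    have hO2 : Op fun y : ι → M3 Ω => (rel1 Ω).d (A y) (B y) ≠ 0 := Op.rel _ hPA0 hPB0
    obtain ⟨w, hwD, hw1, hw2⟩ := (hO1.and hO2).exists_D F (hO1.exists_and hO2 ⟨z', hli⟩ ⟨z, hd⟩)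
    obtain ⟨s, t, hT, hS⟩ := exists_st F (hAD w hwD) (hBD w hwD) hw2 b
    obtain ⟨a, ha⟩ := key s t w hT hS
    have h5 := Fintype.linearIndependent_iff.1 hw1 ![-a, algebraMap L Ω s, algebraMap L Ω t] (by
      simp only [Fin.sum_univ_three, Matrix.cons_val_zero, Matrix.cons_val_one,
        Matrix.cons_val_two, Matrix.head_cons, Matrix.tail_cons]
      rw [add_assoc, ha, neg_smul, neg_add_cancel])
    have h6 : algebraMap L Ω s = 0 := h5 1
    have h7 : algebraMap L Ω t = 0 := h5 2
    apply hT
    rw [h6, h7, zero_smul, zero_smul, add_zero, trace_zero]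
  -- every value is a combination
  have hLI := (rel1 Ω).indep _ _ hd
  have hres : LinearIndependent Ω ![res P I u, res P I v] := by
    rw [LinearIndependent.pair_iff]
    intro s t hst
    have h5 := congrArg (fun f => f fun k => z k.1) hst
    simp only [_root_.add_apply, _root_.smul_apply, res_apply, hA', hB'] at h5
    exact LinearIndependent.pair_iff.1 hLI s t h5
  have hcomb : ∀ y z, ∃ g1 g2 : Ω, P (I.piecewise y z) = g1 • A z + g2 • B z := by
    intro y z
    have h5 : ¬ LinearIndependent Ω ![res P I y, res P I u, res P I v] := by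
      have h6 := h3 ![y, u, v]
      have e : (fun a => res P I ((![y, u, v] : Fin 3 → ι → M3 Ω) a)) =
          ![res P I y, res P I u, res P I v] := by
        funext a
        fin_cases a <;> rfl
      rw [e] at h6
      exact h6
    obtain ⟨g1, g2, h⟩ := mem_pair_of_dep88 hres h5
    refine ⟨g1, g2, ?_⟩
    have h6 := congrArg (fun f => f fun k => z k.1) h
    simp only [_root_.add_apply, _root_.smul_apply, res_apply, hA', hB'] at h6
    exact h6
  -- generic pairs
  have himg : ∀ k : {k // k ∉ I}, ∃ (z : ι → M3 Ω) (a : M3 Ω) (y : Fin 3 → ι → M3 Ω),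
      LinearIndependent Ω ![P (I.piecewise (y 0) z), P (I.piecewise (y 1) z),
        P (I.piecewise (y 2) (Function.update z k.1 a))] := by
    intro k
    exact exists_img P I k.1 k.2 z u v (by rw [hA', hB']; exact hLI) (hmax k.1 k.2)
  choose Z Ak Y hY using himg
  let C : (ι → M3 Ω) → (ι → M3 Ω) → Prop := fun z0 z1 =>
    (∀ T : Finset ι, (rel1 Ω).d (A (T.piecewise z1 z0)) (B (T.piecewise z1 z0)) ≠ 0) ∧
    ∀ (T : Finset ι) (k : {k // k ∉ I}), k.1 ∉ T → LinearIndependent Ω
      ![P (I.piecewise (Y k 0) (T.piecewise z1 z0)), P (I.piecewise (Y k 1) (T.piecewise z1 z0)),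
        P (I.piecewise (Y k 2) ((insert k.1 T).piecewise z1 z0))]
  have hop1 : ∀ {κ : Type} {G0 G1 : ι → (κ → M3 Ω) → M3 Ω}, (∀ i, IsPolyM (G0 i)) →
      (∀ i, IsPolyM (G1 i)) → ∀ T : Finset ι, Op fun y : κ → M3 Ω =>
        (rel1 Ω).d (A (T.piecewise (fun i => G1 i y) fun i => G0 i y))
          (B (T.piecewise (fun i => G1 i y) fun i => G0 i y)) ≠ 0 := by
    intro κ G0 G1 h0 h1 T
    exact Op.rel _ (hPA fun i => isPolyM_ite88 T i h0 h1) (hPB fun i => isPolyM_ite88 T i h0 h1)
  have hop2 : ∀ {κ : Type} {G0 G1 : ι → (κ → M3 Ω) → M3 Ω}, (∀ i, IsPolyM (G0 i)) →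
      (∀ i, IsPolyM (G1 i)) → ∀ (T : Finset ι) (k : {k // k ∉ I}), Op fun y : κ → M3 Ω =>
        (k.1 ∉ T → LinearIndependent Ω
          ![P (I.piecewise (Y k 0) (T.piecewise (fun i => G1 i y) fun i => G0 i y)),
            P (I.piecewise (Y k 1) (T.piecewise (fun i => G1 i y) fun i => G0 i y)),
            P (I.piecewise (Y k 2)
              ((insert k.1 T).piecewise (fun i => G1 i y) fun i => G0 i y))]) := by
    intro κ G0 G1 h0 h1 T k
    by_cases hk : k.1 ∈ T
    · intro y0 _
      exact ⟨fun _ => 1, IsPoly.const 1, one_ne_zero, fun y _ h => absurd hk h⟩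
    · have h5 := Op.indep3_88
        (isPolyM_fix88 P I (Y k 0) fun i => isPolyM_ite88 T i h0 h1)
        (isPolyM_fix88 P I (Y k 1) fun i => isPolyM_ite88 T i h0 h1)
        (isPolyM_fix88 P I (Y k 2) fun i => isPolyM_ite88 (insert k.1 T) i h0 h1)
      intro y0 hy0
      obtain ⟨F', hF1, hF2, hF3⟩ := h5 y0 (hy0 hk)
      exact ⟨F', hF1, hF2, fun y hy _ => hF3 y hy⟩
  have hopC : ∀ {κ : Type} {G0 G1 : ι → (κ → M3 Ω) → M3 Ω}, (∀ i, IsPolyM (G0 i)) →
      (∀ i, IsPolyM (G1 i)) → Op fun y : κ → M3 Ω => C (fun i => G0 i y) (fun i => G1 i y) := by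
    intro κ G0 G1 h0 h1
    exact (Op.all fun T => hop1 h0 h1 T).and (Op.all fun T => Op.all fun k => hop2 h0 h1 T k)
  -- the condition has a solution
  have hCne : ∃ z : Fin 2 × ι → M3 Ω, C (fun i => z (0, i)) (fun i => z (1, i)) := by
    have hc0 : ∀ i : ι, IsPolyM fun y : Fin 2 × ι → M3 Ω => y (0, i) :=
      fun i => IsPolyM.coord ((0 : Fin 2), i)
    have hc1 : ∀ i : ι, IsPolyM fun y : Fin 2 × ι → M3 Ω => y (1, i) :=
      fun i => IsPolyM.coord ((1 : Fin 2), i)
    obtain ⟨y, hy⟩ := Op.exists_all88 (α := Finset ι ⊕ (Finset ι × {k // k ∉ I}))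
      (Q := fun p => Sum.elim
        (fun T (y : Fin 2 × ι → M3 Ω) =>
          (rel1 Ω).d (A (T.piecewise (fun i => y (1, i)) fun i => y (0, i)))
            (B (T.piecewise (fun i => y (1, i)) fun i => y (0, i))) ≠ 0)
        (fun q (y : Fin 2 × ι → M3 Ω) => q.2.1 ∉ q.1 → LinearIndependent Ω
          ![P (I.piecewise (Y q.2 0) (q.1.piecewise (fun i => y (1, i)) fun i => y (0, i))),
            P (I.piecewise (Y q.2 1) (q.1.piecewise (fun i => y (1, i)) fun i => y (0, i))),
            P (I.piecewise (Y q.2 2)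
              ((insert q.2.1 q.1).piecewise (fun i => y (1, i)) fun i => y (0, i)))]) p)
      (by
        rintro (T | q)
        · exact hop1 hc0 hc1 T
        · exact hop2 hc0 hc1 q.1 q.2)
      (by
        rintro (T | q)
        · refine ⟨fun p => z p.2, ?_⟩
          simp only [Sum.elim_inl, Finset.piecewise_same]
          exact hd
        · refine ⟨fun p => (![Z q.2, Function.update (Z q.2) q.2.1 (Ak q.2)] :
            Fin 2 → ι → M3 Ω) p.1 p.2, ?_⟩
          show q.2.1 ∉ q.1 → LinearIndependent Ω
            ![P (I.piecewise (Y q.2 0)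
                (q.1.piecewise (Function.update (Z q.2) q.2.1 (Ak q.2)) (Z q.2))),
              P (I.piecewise (Y q.2 1)
                (q.1.piecewise (Function.update (Z q.2) q.2.1 (Ak q.2)) (Z q.2))),
              P (I.piecewise (Y q.2 2)
                ((insert q.2.1 q.1).piecewise (Function.update (Z q.2) q.2.1 (Ak q.2))
                  (Z q.2)))]
          intro hk
          have e2 : q.1.piecewise (Function.update (Z q.2) q.2.1 (Ak q.2)) (Z q.2) = Z q.2 := by
            funext i
            by_cases hi : i ∈ q.1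
            · rw [Finset.piecewise_eq_of_mem _ _ _ hi, Function.update_of_ne]
              rintro rfl
              exact hk hi
            · rw [Finset.piecewise_eq_of_notMem _ _ _ hi]
          have e3 : (insert q.2.1 q.1).piecewise (Function.update (Z q.2) q.2.1 (Ak q.2))
              (Z q.2) = Function.update (Z q.2) q.2.1 (Ak q.2) := by
            rw [Finset.piecewise_insert, e2, Function.update_self]
          rw [e2, e3]
          exact hY q.2)
    exact ⟨y, fun T => hy (Sum.inl T), fun T k => hy (Sum.inr (T, k))⟩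
  obtain ⟨zz, hzD, hzC⟩ := (hopC (G0 := fun i (y : Fin 2 × ι → M3 Ω) => y (0, i))
    (G1 := fun i (y : Fin 2 × ι → M3 Ω) => y (1, i)) (fun i => IsPolyM.coord ((0 : Fin 2), i))
    (fun i => IsPolyM.coord ((1 : Fin 2), i))).exists_D F hCne
  obtain ⟨z0, hz0⟩ : ∃ z0 : ι → M3 Ω, z0 = fun i => zz (0, i) := ⟨_, rfl⟩
  obtain ⟨z1, hz1⟩ : ∃ z1 : ι → M3 Ω, z1 = fun i => zz (1, i) := ⟨_, rfl⟩
  rw [← hz0, ← hz1] at hzC
  have hz0D : ∀ k, z0 k ∈ F.D := fun k => by rw [hz0]; exact hzD _
  have hd0 : (rel1 Ω).d (A z0) (B z0) ≠ 0 := by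
    have h5 := hzC.1 ∅
    rwa [Finset.piecewise_empty] at h5
  obtain ⟨s0, t0, hT0, hS0⟩ := exists_st F (hAD z0 hz0D) (hBD z0 hz0D) hd0 b
  obtain ⟨a0, ha0⟩ := key s0 t0 z0 hT0 hS0
  have hst0 : ¬ (algebraMap L Ω s0 = 0 ∧ algebraMap L Ω t0 = 0) := by
    rintro ⟨h5, h6⟩
    apply hT0
    rw [h5, h6, zero_smul, zero_smul, add_zero, trace_zero]
  have hR0 : ∀ w, ∃ a : Ω, algebraMap L Ω s0 • A w + algebraMap L Ω t0 • B w =
      a • (1 : M3 Ω) := by
    by_contra hne
    push Not at hne
    obtain ⟨w, hw⟩ := hne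
    have hO1 : Op fun y : ι → M3 Ω => LinearIndependent Ω
        ![(1 : M3 Ω), algebraMap L Ω s0 • A y + algebraMap L Ω t0 • B y] :=
      Op.indep2_88 (IsPolyM.const _) ((IsPolyM.smul (IsPoly.const _) hPA0).add
        (IsPolyM.smul (IsPoly.const _) hPB0))
    have hO2 : Op fun y : ι → M3 Ω => C z0 y :=
      hopC (G0 := fun i (_ : ι → M3 Ω) => z0 i) (fun i => IsPolyM.const _)
        (fun i => IsPolyM.coord i)
    obtain ⟨w', hw1, hw2⟩ := hO1.exists_and hO2
      ⟨w, nonscalar_li88 (by rintro ⟨a, ha⟩; exact hw a ha)⟩ ⟨z1, hzC⟩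
    -- the path
    have path : ∀ T : Finset ι, ∃ a : Ω, algebraMap L Ω s0 • A (T.piecewise w' z0) +
        algebraMap L Ω t0 • B (T.piecewise w' z0) = a • (1 : M3 Ω) := by
      intro T
      induction T using Finset.induction_on with
      | empty =>
        rw [Finset.piecewise_empty]
        exact ⟨a0, ha0⟩
      | insert k T hk ihT =>
        obtain ⟨a, ha⟩ := ihT
        have hz' : (insert k T).piecewise w' z0 =
            Function.update (T.piecewise w' z0) k (w' k) := by
          rw [Finset.piecewise_insert]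
        by_cases hkI : k ∈ I
        · have e1 : ∀ u : ι → M3 Ω, I.piecewise u ((insert k T).piecewise w' z0) =
              I.piecewise u (T.piecewise w' z0) := by
            intro u
            funext j
            by_cases hj : j ∈ I
            · simp [hj]
            · have hjk : j ≠ k := by
                rintro rfl
                exact hj hkI
              rw [Finset.piecewise_eq_of_notMem _ _ _ hj, Finset.piecewise_eq_of_notMem _ _ _ hj,
                hz', Function.update_of_ne hjk]
          refine ⟨a, ?_⟩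
          rw [← hA', ← hB', e1, e1, hA', hB']
          exact ha
        · have hli2 := (rel1 Ω).indep _ _ (hw2.1 T)
          have ha' : a ≠ 0 := by
            rintro rfl
            rw [zero_smul] at ha
            exact hst0 (LinearIndependent.pair_iff.1 hli2 _ _ ha)
          have hup : ∀ (u : ι → M3 Ω) (l : Ω),
              P (I.piecewise u (T.piecewise w' z0)) +
                l • P (I.piecewise u ((insert k T).piecewise w' z0)) =
              P (I.piecewise u (Function.update (T.piecewise w' z0) k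
                ((T.piecewise w' z0) k + l • w' k))) := by
            intro u l
            have e2 : ∀ x : M3 Ω, I.piecewise u (Function.update (T.piecewise w' z0) k x) =
                Function.update (I.piecewise u (T.piecewise w' z0)) k x := by
              intro x
              funext j
              by_cases hjk : j = k
              · subst hjk
                rw [Finset.piecewise_eq_of_notMem _ _ _ hkI, Function.update_self,
                  Function.update_self]
              · by_cases hj : j ∈ I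
                · rw [Finset.piecewise_eq_of_mem _ _ _ hj, Function.update_of_ne hjk,
                    Finset.piecewise_eq_of_mem _ _ _ hj]
                · rw [Finset.piecewise_eq_of_notMem _ _ _ hj, Function.update_of_ne hjk,
                    Function.update_of_ne hjk, Finset.piecewise_eq_of_notMem _ _ _ hj]
            rw [hz', e2, e2, P.map_update_add, P.map_update_smul]
            congr 2
            rw [← Finset.piecewise_eq_of_notMem I u (T.piecewise w' z0) hkI,
              Function.update_eq_self]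
          refine step88 one_ne_zero hli2 ?_ ha' ha ?_
          · intro l
            have h5 := F1 (Function.update (T.piecewise w' z0) k
              ((T.piecewise w' z0) k + l • w' k))
            rw [← hA', ← hB', ← hup, ← hup, hA', hB', hA', hB'] at h5
            exact h5
          · rintro ⟨⟨p, q, hpq⟩, p', q', hpq'⟩
            obtain ⟨g1, g2, h5⟩ := hcomb (Y ⟨k, hkI⟩ 0) (T.piecewise w' z0)
            obtain ⟨g3, g4, h6⟩ := hcomb (Y ⟨k, hkI⟩ 1) (T.piecewise w' z0)
            obtain ⟨g5, g6, h7⟩ := hcomb (Y ⟨k, hkI⟩ 2) ((insert k T).piecewise w' z0)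
            refine not_three88 (hw2.2 T ⟨k, hkI⟩ hk) ⟨g1, g2, h5⟩ ⟨g3, g4, h6⟩
              ⟨g5 * p + g6 * p', g5 * q + g6 * q', ?_⟩
            rw [h7, hpq, hpq']
            module
    obtain ⟨a, ha⟩ := path Finset.univ
    rw [Finset.piecewise_univ] at ha
    have h5 := (LinearIndependent.pair_iff' (K := Ω) (one_ne_zero (α := M3 Ω))).1 hw1 a
    exact h5 ha.symm
  refine ⟨?_, fun _ => ?_⟩
  swap
  · -- the square
    obtain ⟨s1, t1, hLI1⟩ : ∃ s1 t1 : L, LinearIndependent Ω
        ![algebraMap L Ω s0 • res P I u + algebraMap L Ω t0 • res P I v,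
          algebraMap L Ω s1 • res P I u + algebraMap L Ω t1 • res P I v] := by
      by_cases hs : algebraMap L Ω s0 = 0
      · have ht : algebraMap L Ω t0 ≠ 0 := fun ht => hst0 ⟨hs, ht⟩
        refine ⟨1, 0, ?_⟩
        rw [LinearIndependent.pair_iff]
        intro p q hpq
        have h5 := LinearIndependent.pair_iff.1 hres q (p * algebraMap L Ω t0) (by
          rw [← hpq, hs, map_one, map_zero]
          module)
        exact ⟨(mul_eq_zero.1 h5.2).resolve_right ht, h5.1⟩
      · refine ⟨0, 1, ?_⟩
        rw [LinearIndependent.pair_iff]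
        intro p q hpq
        have h5 := LinearIndependent.pair_iff.1 hres (p * algebraMap L Ω s0)
          (p * algebraMap L Ω t0 + q) (by
          rw [← hpq, map_one, map_zero]
          module)
        have hp := (mul_eq_zero.1 h5.1).resolve_right hs
        refine ⟨hp, ?_⟩
        have h6 := h5.2
        rwa [hp, zero_mul, zero_add] at h6
    -- a member of the pencil with nonzero trace
    obtain ⟨e, he⟩ : ∃ e : L, trace (algebraMap L Ω (s1 + e * s0) • A z0 +
        algebraMap L Ω (t1 + e * t0) • B z0) ≠ 0 := by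
      by_contra hne
      push Not at hne
      have e0 := hne 0
      have e1 := hne 1
      simp only [zero_mul, add_zero, one_mul] at e0 e1
      apply hT0
      have e2 : algebraMap L Ω (s1 + s0) • A z0 + algebraMap L Ω (t1 + t0) • B z0 =
          (algebraMap L Ω s1 • A z0 + algebraMap L Ω t1 • B z0) +
            (algebraMap L Ω s0 • A z0 + algebraMap L Ω t0 • B z0) := by
        rw [map_add, map_add]
        module
      rw [e2, trace_add, e0, zero_add] at e1
      exact e1
    obtain ⟨f1, hf1⟩ := keyF _ _ ⟨z0, he⟩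
    -- the coordinate functional
    obtain ⟨φ, hφ0, hφ1⟩ : ∃ φ : ML Ω {k // k ∉ I} →ₗ[Ω] Ω,
        φ (algebraMap L Ω s0 • res P I u + algebraMap L Ω t0 • res P I v) = 0 ∧
        φ (algebraMap L Ω s1 • res P I u + algebraMap L Ω t1 • res P I v) = 1 := by
      obtain ⟨φ, hφ⟩ := LinearMap.exists_extend
        ((Finsupp.lapply 1).comp hLI1.repr : _ →ₗ[Ω] Ω)
      refine ⟨φ, ?_, ?_⟩
      · have h5 := congrArg (fun g => g ⟨_, Submodule.subset_span (Set.mem_range_self 0)⟩) hφ
        have h6 := hLI1.repr_eq_single 0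
          ⟨_, Submodule.subset_span (Set.mem_range_self 0)⟩ rfl
        simp only [LinearMap.comp_apply, Submodule.subtype_apply, LinearEquiv.coe_coe, h6,
          Finsupp.lapply_apply] at h5
        simpa using h5
      · have h5 := congrArg (fun g => g ⟨_, Submodule.subset_span (Set.mem_range_self 1)⟩) hφ
        have h6 := hLI1.repr_eq_single 1
          ⟨_, Submodule.subset_span (Set.mem_range_self 1)⟩ rfl
        simp only [LinearMap.comp_apply, Submodule.subtype_apply, LinearEquiv.coe_coe, h6,
          Finsupp.lapply_apply] at h5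
        simpa using h5
    have hsl := slotLin_res P I
    refine ⟨{ toFun := fun y => φ (res P I y) * f1 fun k => y k.1
              map_update_add' := ?_
              map_update_smul' := ?_ }, fun y => ?_⟩
    · intro inst y i x x'
      have hinst : inst = iD := Subsingleton.elim _ _
      subst hinst
      by_cases hi : i ∈ I
      · have e1 : ∀ x : M3 Ω, (fun k : {k // k ∉ I} => Function.update y i x k.1) =
            fun k => y k.1 := by
          intro x
          funext k
          rw [Function.update_of_ne]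
          intro h
          exact k.2 (h ▸ hi)
        rw [e1, e1, e1, hsl.add i hi, map_add, add_mul]
      · have e1 : ∀ x : M3 Ω, (fun k : {k // k ∉ I} => Function.update y i x k.1) =
            Function.update (fun k : {k // k ∉ I} => y k.1) ⟨i, hi⟩ x := by
          intro x
          funext k
          by_cases hk : k.1 = i
          · have : k = ⟨i, hi⟩ := Subtype.ext hk
            subst this
            rw [Function.update_self, Function.update_self]
          · rw [Function.update_of_ne hk, Function.update_of_ne]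
            intro h
            exact hk (congrArg Subtype.val h)
        have e2 : ∀ x : M3 Ω, res P I (Function.update y i x) = res P I y := by
          intro x
          apply hsl.dep
          intro k hk
          rw [Function.update_of_ne]
          rintro rfl
          exact hi hk
        rw [e1, e1, e1, e2, e2, e2, f1.map_update_add, mul_add]
    · intro inst y i r x
      have hinst : inst = iD := Subsingleton.elim _ _
      subst hinst
      by_cases hi : i ∈ I
      · have e1 : ∀ x : M3 Ω, (fun k : {k // k ∉ I} => Function.update y i x k.1) =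
            fun k => y k.1 := by
          intro x
          funext k
          rw [Function.update_of_ne]
          intro h
          exact k.2 (h ▸ hi)
        rw [e1, e1, hsl.smul i hi, map_smul, smul_eq_mul, smul_eq_mul, mul_assoc]
      · have e1 : ∀ x : M3 Ω, (fun k : {k // k ∉ I} => Function.update y i x k.1) =
            Function.update (fun k : {k // k ∉ I} => y k.1) ⟨i, hi⟩ x := by
          intro x
          funext k
          by_cases hk : k.1 = i
          · have : k = ⟨i, hi⟩ := Subtype.ext hk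
            subst this
            rw [Function.update_self, Function.update_self]
          · rw [Function.update_of_ne hk, Function.update_of_ne]
            intro h
            exact hk (congrArg Subtype.val h)
        have e2 : ∀ x : M3 Ω, res P I (Function.update y i x) = res P I y := by
          intro x
          apply hsl.dep
          intro k hk
          rw [Function.update_of_ne]
          rintro rfl
          exact hi hk
        rw [e1, e1, e2, e2, f1.map_update_smul, smul_eq_mul, smul_eq_mul]
        ring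
    · show Q3 (P y) = (φ (res P I y) * f1 fun k => y k.1) ^ 2
      -- decomposition of `res P I y`
      obtain ⟨x0, x1, hx⟩ : ∃ x0 x1 : Ω, res P I y =
          x0 • (algebraMap L Ω s0 • res P I u + algebraMap L Ω t0 • res P I v) +
            x1 • (algebraMap L Ω s1 • res P I u + algebraMap L Ω t1 • res P I v) := by
        apply mem_pair_of_dep88 hLI1
        intro hli
        have hpair : ∀ x : ML Ω {k // k ∉ I}, (∃ y, x = res P I y) →
            ∃ p q : Ω, x = p • res P I u + q • res P I v := by
          rintro x ⟨y, rfl⟩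
          have h5 : ¬ LinearIndependent Ω ![res P I y, res P I u, res P I v] := by
            have h6 := h3 ![y, u, v]
            have e : (fun a => res P I ((![y, u, v] : Fin 3 → ι → M3 Ω) a)) =
                ![res P I y, res P I u, res P I v] := by
              funext a
              fin_cases a <;> rfl
            rw [e] at h6
            exact h6
          exact mem_pair_of_dep88 hres h5
        exact not_three88 hli (hpair _ ⟨y, rfl⟩) ⟨_, _, rfl⟩ ⟨_, _, rfl⟩
      have hφx : φ (res P I y) = x1 := by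
        rw [hx, map_add, map_smul, map_smul, hφ0, hφ1, smul_zero, zero_add, smul_eq_mul, mul_one]
      have hPy : P y = x0 • (algebraMap L Ω s0 • A y + algebraMap L Ω t0 • B y) +
          x1 • (algebraMap L Ω s1 • A y + algebraMap L Ω t1 • B y) := by
        have h5 := congrArg (fun f => f fun k => y k.1) hx
        simp only [_root_.add_apply, _root_.smul_apply, res_apply, hA', hB',
          Finset.piecewise_same] at h5
        exact h5
      obtain ⟨h, hh⟩ := hR0 y
      have hQ : ∀ (a x : Ω) (X : M3 Ω), Q3 (a • (1 : M3 Ω) + x • X) = x ^ 2 * Q3 X := by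
        intro a x X
        unfold Q3
        rw [c2_comb88, trace_comb88]
        ring
      have h7 := hf1 y
      have e3 : algebraMap L Ω (s1 + e * s0) • A y + algebraMap L Ω (t1 + e * t0) • B y =
          (algebraMap L Ω e * h) • (1 : M3 Ω) + (1 : Ω) •
            (algebraMap L Ω s1 • A y + algebraMap L Ω t1 • B y) := by
        rw [mul_smul, ← hh, map_add, map_add, map_mul, map_mul]
        module
      rw [e3, hQ, one_pow, one_mul] at h7
      rw [hφx, hPy, hh, smul_smul, hQ, h7]
      ring
  -- the end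
  intro y hT hc
  by_contra hsc
  -- a second combination `X`
  obtain ⟨s1, t1, x0, x1, hx⟩ : ∃ (s1 t1 : L) (x0 x1 : Ω), P y =
      x0 • (algebraMap L Ω s0 • A y + algebraMap L Ω t0 • B y) +
        x1 • (algebraMap L Ω s1 • A y + algebraMap L Ω t1 • B y) := by
    obtain ⟨g1, g2, hg⟩ := hcomb y y
    rw [Finset.piecewise_same] at hg
    by_cases hs : algebraMap L Ω s0 = 0
    · have ht : algebraMap L Ω t0 ≠ 0 := fun ht => hst0 ⟨hs, ht⟩
      refine ⟨1, 0, g2 * (algebraMap L Ω t0)⁻¹, g1, ?_⟩
      rw [hg, hs, map_one, map_zero, zero_smul, zero_smul, zero_add, add_zero, one_smul,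
        smul_smul, mul_assoc, inv_mul_cancel₀ ht, mul_one, add_comm]
    · refine ⟨0, 1, g1 * (algebraMap L Ω s0)⁻¹, g2 - g1 * (algebraMap L Ω s0)⁻¹ *
        algebraMap L Ω t0, ?_⟩
      rw [hg, map_one, map_zero, zero_smul, zero_add, one_smul, smul_add, smul_smul, smul_smul,
        mul_assoc g1, inv_mul_cancel₀ hs, mul_one, sub_smul]
      abel
  obtain ⟨h, hh⟩ := hR0 y
  rw [hh, smul_smul] at hx
  set X := algebraMap L Ω s1 • A y + algebraMap L Ω t1 • B y with hXdef
  have hx1 : x1 ≠ 0 := by
    rintro rfl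
    apply hsc
    exact ⟨x0 * h, by rw [hx, zero_smul, add_zero]⟩
  have hX : ¬ ∃ a : Ω, X = a • (1 : M3 Ω) := by
    rintro ⟨a, ha⟩
    apply hsc
    exact ⟨x0 * h + x1 * a, by rw [hx, ha, smul_smul, add_smul]⟩
  have hdef : c2 X - algebraMap L Ω b * trace X ^ 2 = 0 := by
    have h5 := defect88 hb (x0 * h) x1 X
    rw [← hx, hc, sub_self] at h5
    exact (mul_eq_zero.1 h5.symm).resolve_left (pow_ne_zero 2 hx1)
  have hTX : trace X = 0 := by
    by_contra hT1
    exact hX (key s1 t1 y hT1 (by linear_combination hdef))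
  have hTh : 3 * h = 0 := by
    by_contra h3h
    have e1 : algebraMap L Ω (s0 + s1) • A y + algebraMap L Ω (t0 + t1) • B y =
        h • (1 : M3 Ω) + (1 : Ω) • X := by
      rw [← hh, hXdef, map_add, map_add]
      module
    have h5 := key (s0 + s1) (t0 + t1) y
    rw [e1] at h5
    obtain ⟨a, ha⟩ := h5 (by rw [trace_comb88, hTX, mul_zero, zero_add]; exact h3h) (by
      have h6 := defect88 hb h 1 X
      rw [hdef, mul_zero, sub_eq_zero] at h6
      exact h6)
    apply hX
    refine ⟨a - h, ?_⟩
    rw [one_smul] at ha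
    rw [sub_smul, ← ha, add_sub_cancel_left]
  apply hT
  rw [hx, trace_comb88, hTX]
  linear_combination x0 * hTh

theorem dich [IsAlgClosed Ω] [Infinite L] (F : DivForm L Ω) (b : L)
    (hb : (3 : Ω) * algebraMap L Ω b = 1) (c : Ω) (n : ℕ) (ι : Type) [Fintype ι]
    [DecidableEq ι] (hn : Fintype.card ι = n) (P : ML Ω ι) (hN : Nice F P) :
    (∃ y, trace (P y) = 1 ∧ c2 (P y) = algebraMap L Ω b ∧ det (P y) = c) ∨
      ∀ y, trace (P y) ≠ 0 → c2 (P y) = algebraMap L Ω b * trace (P y) ^ 2 →
        ∃ a : Ω, P y = a • (1 : M3 Ω) := by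
  rcases dichF F b hb c n ι hn P hN with h | ⟨h, -⟩
  · exact Or.inl h
  · exact Or.inr h

end

end Pool.Agent.H88KL
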