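import Pool.Agent.Helper88.KL.Path

/-!
# Block KL-LIE: the action of the matrix units

`act e f` is the natural action of a matrix `e` on multilinear maps `f`:
`(act e f) z = [e, f z] - ∑ k, f (update z k [e, z k])`.

* `act_comm`: `act e (act e' f) - act e' (act e f) = act [e, e'] f`. Expand; in the double sum
  over `k, l` the terms with `k ≠ l` are symmetric under the exchange of `(e, k)` and `(e', l)`
  (`Function.update_comm`) and cancel, for `k = l` one gets
  `f (update z k ([e, [e', z_k]] - [e', [e, z_k]])) = f (update z k [[e, e'], z_k])`.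
* `act_res`: `act (E i j) (res P I y) = ∑ k ∈ I, res P I (update y k [E i j, y_k])`: evaluate at
  `fun k => z k` (every family indexed by `{k // k ∉ I}` is of this form) and use
  `Nice.der` at the family `I.piecewise y z`; the sum over all `k` is the sum over `k ∈ I`
  (`update (I.piecewise y z) k w = I.piecewise (update y k w) z`) plus the sum over `k ∉ I`
  (`= I.piecewise y (update z k w)`).
* `lie_zero`. `S` is a subspace in which any three vectors are dependent, stable under `X i j`
  (`i ≠ j`), with `[X i k, X k j] = X i j`, `[X i k, X i j] = 0`, `[X k j, X i j] = 0` on `S`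
  (`i, j, k` distinct). Claim 1: `X i j w ∈ Ω w` for `w ∈ S`. Otherwise `w, X w` (`X = X i j`) are
  independent, so every element of `S` is a combination of them. Let `Y = X i k`, `Y' = X k j`,
  `Y w = a w + b X w`. As `Y` commutes with `X`, `Y (X w) = a X w + b X (X w)`, so `Y = a + b X` on
  `S`; in the same way `Y' = a' + b' X` on `S`. So `X w = Y (Y' w) - Y' (Y w) = 0`, a contradiction.
  Claim 2: `X i j w = 0`: by Claim 1 `X i k w = a w`, `X k j w = b w`, so
  `X i j w = X i k (b w) - X k j (a w) = b a w - a b w = 0`.
* `act_res_zero`: apply `lie_zero` to `S = span (range (res P I))` (any three elements of the span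
  are dependent, because any three `res P I y` are dependent), stable by `act_res`, with
  `X i j = act (E i j)` (linear in `f`; bundle it) and `act_comm`:
  `[E i k, E k j] = E i j`, `[E i k, E i j] = 0`, `[E k j, E i j] = 0` for distinct `i, j, k`.
* `scalar_of_dim2`: the case `I = univ`: `P y` commutes with all `E i j` (`i ≠ j`), so it is a scalar
  matrix.
* `nice_comb`: `mem` from `Nice.mem` of `P` (`s, t ∈ L`), `der` from `act_res_zero`.
-/

open Matrix

namespace Pool.Agent.H88KL

open Pool.Agent.H24ML

universe u

/-- The action of a matrix on multilinear maps. -/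
noncomputable def act {Ω : Type u} [Field Ω] {κ : Type} [Fintype κ] [DecidableEq κ] (e : M3 Ω)
    (f : ML Ω κ) : ML Ω κ :=
  (LinearMap.mulLeft Ω e).compMultilinearMap f - (LinearMap.mulRight Ω e).compMultilinearMap f
    - ∑ k, f.compLinearMap fun l =>
        if l = k then LinearMap.mulLeft Ω e - LinearMap.mulRight Ω e else LinearMap.id

section

variable {Ω : Type u} [Field Ω] {κ : Type} [Fintype κ] [DecidableEq κ]

theorem act_apply (e : M3 Ω) (f : ML Ω κ) (z : κ → M3 Ω) :
    act e f z = e * f z - f z * e - ∑ k, f (Function.update z k (e * z k - z k * e)) := by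
  unfold act
  rw [_root_.sub_apply, _root_.sub_apply, _root_.sum_apply]
  congr 1
  refine Finset.sum_congr rfl fun k _ => ?_
  rw [MultilinearMap.compLinearMap_apply]
  congr 1
  funext l
  by_cases h : l = k
  · subst h
    simp
  · simp [h]

private theorem dsum32 (f : ML Ω κ) (z : κ → M3 Ω) (a b : M3 Ω → M3 Ω) :
    ∑ k, ∑ l, f (Function.update (Function.update z k (a (z k))) l
        (b (Function.update z k (a (z k)) l))) =
      ∑ k, f (Function.update z k (b (a (z k)))) +
        ∑ k, ∑ l, (if l = k then 0 else
          f (Function.update (Function.update z k (a (z k))) l (b (z l)))) := by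
  rw [← Finset.sum_add_distrib]
  refine Finset.sum_congr rfl fun k _ => ?_
  have e : f (Function.update z k (b (a (z k)))) =
      ∑ l, (if l = k then f (Function.update z k (b (a (z k)))) else 0) := by
    rw [Finset.sum_ite_eq' Finset.univ k, if_pos (Finset.mem_univ k)]
  rw [e, ← Finset.sum_add_distrib]
  refine Finset.sum_congr rfl fun l _ => ?_
  by_cases h : l = k
  · subst h
    rw [if_pos rfl, if_pos rfl, add_zero, Function.update_self, Function.update_idem]
  · rw [if_neg h, if_neg h, zero_add, Function.update_of_ne h]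

private theorem osum32 (f : ML Ω κ) (z : κ → M3 Ω) (a b : M3 Ω → M3 Ω) :
    ∑ k, ∑ l, (if l = k then 0 else
        f (Function.update (Function.update z k (a (z k))) l (b (z l)))) =
      ∑ k, ∑ l, (if l = k then 0 else
        f (Function.update (Function.update z k (b (z k))) l (a (z l)))) := by
  rw [Finset.sum_comm]
  refine Finset.sum_congr rfl fun k _ => ?_
  refine Finset.sum_congr rfl fun l _ => ?_
  by_cases h : k = l
  · rw [if_pos h, if_pos h.symm]
  · rw [if_neg h, if_neg (Ne.symm h), Function.update_comm (Ne.symm h)]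

theorem act_comm (e e' : M3 Ω) (f : ML Ω κ) :
    act e (act e' f) - act e' (act e f) = act (e * e' - e' * e) f := by
  refine MultilinearMap.ext fun z => ?_
  rw [_root_.sub_apply, act_apply, act_apply e' (act e f), act_apply e' f,
    act_apply e f, act_apply (e * e' - e' * e) f]
  have e1 : ∀ (a b : M3 Ω), ∑ k, act b f (Function.update z k (a * z k - z k * a)) =
      b * (∑ k, f (Function.update z k (a * z k - z k * a))) -
        (∑ k, f (Function.update z k (a * z k - z k * a))) * b -
        ∑ k, ∑ l, f (Function.update (Function.update z k (a * z k - z k * a)) l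
          (b * Function.update z k (a * z k - z k * a) l -
            Function.update z k (a * z k - z k * a) l * b)) := by
    intro a b
    rw [Finset.mul_sum, Finset.sum_mul, ← Finset.sum_sub_distrib, ← Finset.sum_sub_distrib]
    exact Finset.sum_congr rfl fun k _ => act_apply _ _ _
  have e2 := fun a b : M3 Ω => dsum32 f z (fun x => a * x - x * a) (fun x => b * x - x * b)
  have e3 := osum32 f z (fun x => e * x - x * e) (fun x => e' * x - x * e')
  have e4 : ∑ k, f (Function.update z k ((e * e' - e' * e) * z k - z k * (e * e' - e' * e))) =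
      ∑ k, f (Function.update z k (e * (e' * z k - z k * e') - (e' * z k - z k * e') * e)) -
      ∑ k, f (Function.update z k (e' * (e * z k - z k * e) - (e * z k - z k * e) * e')) := by
    rw [← Finset.sum_sub_distrib]
    refine Finset.sum_congr rfl fun k _ => ?_
    rw [← MultilinearMap.map_update_sub]
    congr 2
    noncomm_ring
  beta_reduce at e2 e3
  rw [e1 e e', e1 e' e, e2 e e', e2 e' e, e3, e4]
  obtain ⟨S1, hS1⟩ : ∃ S, S = ∑ k, f (Function.update z k (e * z k - z k * e)) := ⟨_, rfl⟩
  obtain ⟨S2, hS2⟩ : ∃ S, S = ∑ k, f (Function.update z k (e' * z k - z k * e')) := ⟨_, rfl⟩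
  rw [← hS1, ← hS2]
  noncomm_ring

theorem lie_zero {V : Type*} [AddCommGroup V] [Module Ω V] (S : Submodule Ω V)
    (hS : ∀ w : Fin 3 → V, (∀ j, w j ∈ S) → ¬ LinearIndependent Ω w)
    (X : Fin 3 → Fin 3 → V →ₗ[Ω] V) (hst : ∀ i j, i ≠ j → ∀ w ∈ S, X i j w ∈ S)
    (h1 : ∀ i j k, i ≠ j → i ≠ k → k ≠ j → ∀ w ∈ S,
      X i k (X k j w) - X k j (X i k w) = X i j w)
    (h2 : ∀ i j k, i ≠ j → i ≠ k → k ≠ j → ∀ w ∈ S, X i k (X i j w) = X i j (X i k w))
    (h3 : ∀ i j k, i ≠ j → i ≠ k → k ≠ j → ∀ w ∈ S, X k j (X i j w) = X i j (X k j w))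
    {i j : Fin 3} (hij : i ≠ j) {w : V} (hw : w ∈ S) : X i j w = 0 := by
  have hk : ∀ i j : Fin 3, ∃ k, k ≠ i ∧ k ≠ j := by decide
  have claim : ∀ i j : Fin 3, i ≠ j → ∀ w ∈ S, ∃ c : Ω, X i j w = c • w := by
    intro i j hij w hw
    by_contra hc
    have hdep : ∀ v ∈ S, ∃ a b : Ω, v = a • w + b • X i j w := by
      intro v hv
      have h0 := hS ![w, X i j w, v] (by
        intro l
        fin_cases l
        · exact hw
        · exact hst i j hij w hw
        · exact hv)
      obtain ⟨g, hg, l, hl⟩ := Fintype.not_linearIndependent_iff.1 h0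
      rw [Fin.sum_univ_three] at hg
      simp only [Matrix.cons_val_zero, Matrix.cons_val_one, Matrix.cons_val] at hg
      by_cases h2 : g 2 = 0
      · exfalso
        rw [h2, zero_smul, add_zero] at hg
        by_cases h1 : g 1 = 0
        · rw [h1, zero_smul, add_zero] at hg
          have h0 : g 0 ≠ 0 := by
            intro h0
            apply hl
            fin_cases l
            · exact h0
            · exact h1
            · exact h2
          have hw0 : w = 0 := by
            rcases smul_eq_zero.1 hg with h | h
            · exact absurd h h0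
            · exact h
          exact hc ⟨0, by rw [hw0, map_zero, smul_zero]⟩
        · apply hc
          refine ⟨-(g 0 / g 1), ?_⟩
          have e1 : g 1 • X i j w = -(g 0 • w) := by
            rw [add_comm] at hg
            exact eq_neg_of_add_eq_zero_left hg
          have e2 : X i j w = (g 1)⁻¹ • (g 1 • X i j w) := by
            rw [smul_smul, inv_mul_cancel₀ h1, one_smul]
          rw [e2, e1, smul_neg, smul_smul, neg_smul]
          congr 2
          rw [div_eq_inv_mul]
      · refine ⟨-(g 0 / g 2), -(g 1 / g 2), ?_⟩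
        have e1 : g 2 • v = -(g 0 • w + g 1 • X i j w) := by
          rw [add_comm] at hg
          exact eq_neg_of_add_eq_zero_left hg
        have e2 : v = (g 2)⁻¹ • (g 2 • v) := by
          rw [smul_smul, inv_mul_cancel₀ h2, one_smul]
        rw [e2, e1, smul_neg, smul_add, smul_smul, smul_smul, neg_smul, neg_smul, neg_add,
          div_eq_inv_mul, div_eq_inv_mul]
    obtain ⟨k, hki, hkj⟩ := hk i j
    obtain ⟨a, b, hab⟩ := hdep _ (hst i k hki.symm w hw)
    obtain ⟨a', b', hab'⟩ := hdep _ (hst k j hkj w hw)
    have g1 := h1 i j k hij hki.symm hkj w hw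
    have g2 := h2 i j k hij hki.symm hkj w hw
    have g3 := h3 i j k hij hki.symm hkj w hw
    have f1 : X i k (X k j w) = (a' * a) • w + (a' * b + b' * a) • X i j w +
        (b' * b) • X i j (X i j w) := by
      rw [hab', map_add, map_smul, map_smul, g2, hab, map_add, map_smul, map_smul]
      module
    have f2 : X k j (X i k w) = (a' * a) • w + (a' * b + b' * a) • X i j w +
        (b' * b) • X i j (X i j w) := by
      rw [hab, map_add, map_smul, map_smul, g3, hab', map_add, map_smul, map_smul]
      module
    rw [f1, f2, sub_self] at g1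
    exact hc ⟨0, by rw [← g1, zero_smul]⟩
  obtain ⟨k, hki, hkj⟩ := hk i j
  obtain ⟨a, ha⟩ := claim i k hki.symm w hw
  obtain ⟨b, hb⟩ := claim k j hkj w hw
  have g1 := h1 i j k hij hki.symm hkj w hw
  rw [hb, ha, map_smul, map_smul, ha, hb] at g1
  rw [← g1]
  module

/-- The action as a linear map. -/
private noncomputable def actL32 (e : M3 Ω) : ML Ω κ →ₗ[Ω] ML Ω κ where
  toFun f := act e f
  map_add' f g := by
    refine MultilinearMap.ext fun z => ?_
    rw [_root_.add_apply, act_apply, act_apply, act_apply]
    simp only [_root_.add_apply, Finset.sum_add_distrib]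
    noncomm_ring
  map_smul' c f := by
    refine MultilinearMap.ext fun z => ?_
    rw [RingHom.id_apply, _root_.smul_apply, act_apply, act_apply]
    simp only [_root_.smul_apply, ← Finset.smul_sum]
    rw [smul_sub, smul_sub, mul_smul_comm, smul_mul_assoc]

private theorem act_zero32 (f : ML Ω κ) : act (0 : M3 Ω) f = 0 := by
  refine MultilinearMap.ext fun z => ?_
  rw [act_apply]
  simp only [zero_mul, mul_zero, sub_zero]
  rw [_root_.zero_apply, sub_eq_zero, eq_comm]
  refine Finset.sum_eq_zero fun k _ => ?_
  exact f.map_coord_zero k (Function.update_self k 0 z)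

private theorem span_dep32 {V : Type*} [AddCommGroup V] [Module Ω V] {τ : Type*} (r : τ → V)
    (h : ∀ y : Fin 3 → τ, ¬ LinearIndependent Ω fun a => r (y a)) (w : Fin 3 → V)
    (hw : ∀ j, w j ∈ Submodule.span Ω (Set.range r)) : ¬ LinearIndependent Ω w := by
  intro hli
  obtain ⟨b, hb, hspan, hbli⟩ := exists_linearIndependent Ω (Set.range r)
  have hemb : ¬ Nonempty (Fin 3 ↪ b) := by
    rintro ⟨e⟩
    have h1 : ∀ a : Fin 3, ∃ y, r y = (e a : V) := fun a => hb (e a).2
    choose y hy using h1
    apply h y
    have h2 := hbli.comp e e.injective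
    convert h2 using 1
    funext a
    exact hy a
  have hfin : Finite b := by
    by_contra hinf
    rw [not_finite_iff_infinite] at hinf
    exact hemb ⟨(Fin.valEmbedding).trans (Infinite.natEmbedding b)⟩
  have _ := Fintype.ofFinite b
  have hcard : Fintype.card b < 3 := by
    by_contra hc
    push Not at hc
    exact hemb (Function.Embedding.nonempty_of_card_le (by rw [Fintype.card_fin]; exact hc))
  have hw' : ∀ j, w j ∈ Submodule.span Ω b := fun j => by rw [hspan]; exact hw j
  haveI : Module.Finite Ω (Submodule.span Ω b) := Module.Finite.span_of_finite Ω (Set.toFinite b)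
  have hli2 : LinearIndependent Ω (fun j => (⟨w j, hw' j⟩ : Submodule.span Ω b)) := by
    refine LinearIndependent.of_comp (Submodule.subtype _) ?_
    exact hli
  have h3 := hli2.fintype_card_le_finrank
  rw [Fintype.card_fin] at h3
  have h4 := finrank_span_le_card (R := Ω) b
  rw [Set.toFinset_card] at h4
  omega

end

section

variable {L Ω : Type u} [Field L] [Field Ω] [Algebra L Ω] {ι : Type} [Fintype ι] [DecidableEq ι]
  {F : DivForm L Ω} {P : ML Ω ι}

theorem act_res (hN : Nice F P) (I : Finset ι) {i j : Fin 3} (hij : i ≠ j) (y : ι → M3 Ω) :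
    act (E i j) (res P I y) =
      ∑ k ∈ I, res P I (Function.update y k (E i j * y k - y k * E i j)) := by
  refine MultilinearMap.ext fun z' => ?_
  obtain ⟨z, hz⟩ : ∃ z : ι → M3 Ω, z' = fun k => z k.1 := by
    classical
    refine ⟨fun k => if h : k ∉ I then z' ⟨k, h⟩ else 0, ?_⟩
    funext k
    beta_reduce
    rw [dif_pos k.2]
  subst hz
  rw [act_apply, _root_.sum_apply, res_apply]
  have h1 := hN.der i j hij (I.piecewise y z)
  have h2 := Fintype.sum_subtype_add_sum_subtype (fun k => k ∈ I)
    (fun k => P (Function.update (I.piecewise y z) k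
      (E i j * I.piecewise y z k - I.piecewise y z k * E i j)))
  rw [h1, ← Finset.sum_subtype I (fun x => Iff.rfl) (fun k => P (Function.update
    (I.piecewise y z) k (E i j * I.piecewise y z k - I.piecewise y z k * E i j)))] at h2
  have h3 : ∑ k ∈ I, P (Function.update (I.piecewise y z) k
      (E i j * I.piecewise y z k - I.piecewise y z k * E i j)) =
      ∑ k ∈ I, (res P I (Function.update y k (E i j * y k - y k * E i j))) fun k => z k.1 := by
    refine Finset.sum_congr rfl fun k hk => ?_
    rw [res_apply, Finset.update_piecewise_of_mem _ _ _ hk, Finset.piecewise_eq_of_mem _ _ _ hk]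
  have h4 : ∑ k : {k // k ∉ I}, P (Function.update (I.piecewise y z) k
      (E i j * I.piecewise y z k - I.piecewise y z k * E i j)) =
      ∑ k : {k // k ∉ I}, (res P I y) (Function.update (fun k => z k.1) k
        (E i j * z k.1 - z k.1 * E i j)) := by
    refine Finset.sum_congr rfl fun k _ => ?_
    have e : (Function.update (fun k : {k // k ∉ I} => z k.1) k
        (E i j * z k.1 - z k.1 * E i j)) =
        fun l : {k // k ∉ I} => Function.update z k.1 (E i j * z k.1 - z k.1 * E i j) l.1 := by
      funext l
      by_cases hl : l = k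
      · subst hl
        rw [Function.update_self, Function.update_self]
      · rw [Function.update_of_ne hl, Function.update_of_ne (fun h => hl (Subtype.ext h))]
    rw [e, res_apply, Finset.update_piecewise_of_notMem _ _ _ k.2,
      Finset.piecewise_eq_of_notMem _ _ _ k.2]
  rw [h3, h4] at h2
  rw [← h2]
  abel

theorem act_res_zero (hN : Nice F P) {I : Finset ι}
    (h3 : ∀ y : Fin 3 → ι → M3 Ω, ¬ LinearIndependent Ω fun a => res P I (y a))
    {i j : Fin 3} (hij : i ≠ j) (y : ι → M3 Ω) : act (E i j) (res P I y) = 0 := by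
  have hz : ∀ (a b c d : Fin 3), b ≠ c → (E a b : M3 Ω) * E c d = 0 := fun a b c d h =>
    Matrix.single_mul_single_of_ne _ _ _ _ h _
  have hm : ∀ (a b c : Fin 3), (E a b : M3 Ω) * E b c = E a c := fun a b c => by
    have := Matrix.single_mul_single_same (i := a) (j := b) (k := c) (1 : Ω) 1
    rw [mul_one] at this
    exact this
  have hc : ∀ (e e' : M3 Ω) (w : ML Ω {k // k ∉ I}), e * e' - e' * e = 0 →
      act e (act e' w) = act e' (act e w) := by
    intro e e' w h
    have := act_comm e e' w
    rw [h, act_zero32, sub_eq_zero] at this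
    exact this
  refine lie_zero (Submodule.span Ω (Set.range fun y : ι → M3 Ω => res P I y))
    (fun w hw => span_dep32 _ h3 w hw) (fun i j => actL32 (E i j)) ?_ ?_ ?_ ?_ hij
    (Submodule.subset_span ⟨y, rfl⟩)
  · intro i j hij
    have hle : Submodule.span Ω (Set.range fun y : ι → M3 Ω => res P I y) ≤
        (Submodule.span Ω (Set.range fun y : ι → M3 Ω => res P I y)).comap (actL32 (E i j)) := by
      rw [Submodule.span_le]
      rintro _ ⟨y, rfl⟩
      show act (E i j) (res P I y) ∈
        Submodule.span Ω (Set.range fun y : ι → M3 Ω => res P I y)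
      rw [act_res hN I hij y]
      exact Submodule.sum_mem _ fun k _ => Submodule.subset_span ⟨_, rfl⟩
    intro w hw
    exact hle hw
  · intro i j k hij hik hkj w _
    show act (E i k) (act (E k j) w) - act (E k j) (act (E i k) w) = act (E i j) w
    rw [act_comm, hm, hz _ _ _ _ hij.symm, sub_zero]
  · intro i j k hij hik hkj w _
    exact hc _ _ _ (by rw [hz _ _ _ _ hik.symm, hz _ _ _ _ hij.symm, sub_zero])
  · intro i j k hij hik hkj w _
    exact hc _ _ _ (by rw [hz _ _ _ _ hij.symm, hz _ _ _ _ hkj.symm, sub_zero])

theorem scalar_of_dim2 (hN : Nice F P) (h : Dim2 P Finset.univ) (y : ι → M3 Ω) :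
    ∃ a : Ω, P y = a • (1 : M3 Ω) := by
  have hev : ∀ (u : ι → M3 Ω) (z' : {k // k ∉ (Finset.univ : Finset ι)} → M3 Ω),
      res P Finset.univ u z' = P u := by
    intro u z'
    have e : z' = fun k => u k.1 := by
      funext k
      exact absurd (Finset.mem_univ k.1) k.2
    rw [e, res_apply, Finset.piecewise_univ]
  have h3 : ∀ y : Fin 3 → ι → M3 Ω,
      ¬ LinearIndependent Ω fun a => res P Finset.univ (y a) := by
    intro y
    have h1 := h (fun _ => 0) y
    rw [Fintype.not_linearIndependent_iff] at h1 ⊢
    obtain ⟨g, hg, hl⟩ := h1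
    refine ⟨g, ?_, hl⟩
    refine MultilinearMap.ext fun z' => ?_
    rw [_root_.sum_apply, _root_.zero_apply]
    rw [← hg]
    refine Finset.sum_congr rfl fun a _ => ?_
    rw [_root_.smul_apply, hev, Finset.piecewise_univ]
  have hcomm : Pairwise fun i j : Fin 3 => Commute (Matrix.single i j (1 : Ω)) (P y) := by
    intro i j hij
    have h1 := act_res_zero hN h3 hij y
    have h2 := congrArg (fun f : ML Ω {k // k ∉ (Finset.univ : Finset ι)} =>
      f (fun _ => 0)) h1
    simp only [act_apply, hev] at h2
    have h4 : ∑ _k : {k // k ∉ (Finset.univ : Finset ι)}, P y = 0 := by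
      refine Finset.sum_eq_zero fun k _ => ?_
      exact absurd (Finset.mem_univ k.1) k.2
    rw [h4, sub_zero, _root_.zero_apply, sub_eq_zero] at h2
    exact h2
  obtain ⟨a, ha⟩ := Matrix.mem_range_scalar_of_commute_single hcomm
  refine ⟨a, ?_⟩
  rw [← ha, Matrix.scalar_apply, Matrix.smul_one_eq_diagonal]

theorem nice_comb (hN : Nice F P) {I : Finset ι}
    (h3 : ∀ y : Fin 3 → ι → M3 Ω, ¬ LinearIndependent Ω fun a => res P I (y a))
    {u v : ι → M3 Ω} (hu : ∀ k, u k ∈ F.D) (hv : ∀ k, v k ∈ F.D) (s t : L) :
    Nice F (algebraMap L Ω s • res P I u + algebraMap L Ω t • res P I v) := by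
  refine ⟨?_, ?_⟩
  · intro y hy
    obtain ⟨z, hz, hzD⟩ : ∃ z : ι → M3 Ω, y = (fun k => z k.1) ∧ ∀ k, z k ∈ F.D := by
      classical
      refine ⟨fun k => if h : k ∉ I then y ⟨k, h⟩ else 0, ?_, ?_⟩
      · funext k
        beta_reduce
        rw [dif_pos k.2]
      · intro k
        beta_reduce
        by_cases h : k ∉ I
        · rw [dif_pos h]
          exact hy _
        · rw [dif_neg h]
          exact F.D.zero_mem
    subst hz
    rw [_root_.add_apply, _root_.smul_apply, _root_.smul_apply,
      res_apply, res_apply, algebraMap_smul, algebraMap_smul]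
    have hp : ∀ w : ι → M3 Ω, (∀ k, w k ∈ F.D) → P (I.piecewise w z) ∈ F.D := by
      intro w hw
      refine hN.mem _ fun k => ?_
      by_cases h : k ∈ I
      · rw [Finset.piecewise_eq_of_mem _ _ _ h]
        exact hw k
      · rw [Finset.piecewise_eq_of_notMem _ _ _ h]
        exact hzD k
    exact F.D.add_mem (F.D.smul_mem (hp u hu) s) (F.D.smul_mem (hp v hv) t)
  · intro i j hij y
    have h1 : act (E i j) (algebraMap L Ω s • res P I u + algebraMap L Ω t • res P I v) = 0 := by
      have e1 := (actL32 (E i j : M3 Ω)).map_add (algebraMap L Ω s • res P I u)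
        (algebraMap L Ω t • res P I v)
      rw [map_smul, map_smul] at e1
      have e2 : actL32 (E i j : M3 Ω) (res P I u) = 0 := act_res_zero hN h3 hij u
      have e3 : actL32 (E i j : M3 Ω) (res P I v) = 0 := act_res_zero hN h3 hij v
      rw [e2, e3, smul_zero, smul_zero, add_zero] at e1
      exact e1
    have h2 := congrArg (fun f : ML Ω {k // k ∉ I} => f y) h1
    simp only [act_apply] at h2
    rw [_root_.zero_apply, sub_eq_zero] at h2
    exact h2.symm

end

end Pool.Agent.H88KL
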