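import Pool.Agent.Helper88.KL.Conic
import Pool.Agent.Helper88.KL.Conic2
import Pool.Agent.Helper88.KL.Lie

/-!
# Block KL-FIN: the end of the induction

* `exists_st`: `A, B ∈ D`, `T = trace`, `S = c2`, all forms over `L`. `h(s, t) = S (s A + t B) - b T (s A + t B) ^ 2`
  is a binary quadratic form over `L`; it has a nontrivial zero `(s0, t0)` over `L` (`F.quad`). If
  `T (s0 A + t0 B) ≠ 0`: done. Otherwise `X = s0 A + t0 B` has `T X = 0` and `S X = 0`. Let `Y` be one
  of `A, B` with `T Y ≠ 0` (`d A B ≠ 0`), divided by `T Y` (in `L`), so `T Y = 1`; `X, Y` span `<A, B>`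
  (`X ≠ 0` because `A, B` are independent). `S (x X + Y) = x B(X, Y) + S Y`, `T (x X + Y) = 1`. If
  `B(X, Y) ≠ 0` take `x = (b - S Y) / B(X, Y)`. If `B(X, Y) = 0` then
  `S (x X + y Y) = y ^ 2 S Y = S Y * T (x X + y Y) ^ 2`, so `d A B = 0`, a contradiction.
* `hit_of_ratio`: `R` nice, `S (R y) = b T (R y) ^ 2` for all `y`, `T (R y0) ≠ 0`, `3 b ≠ 1`. If
  `R y, R y'` are dependent whenever `y, y'` differ in one slot, then they are always dependent
  (`dep_of_slots`, `I = univ`, `slotLin_piecewise`), so `Dim2 R univ` holds and `R y0 = a • 1`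
  (`scalar_of_dim2`), `S = 3 a ^ 2 = b (3 a) ^ 2`, `3 a ≠ 0`, so `3 b = 1`, a contradiction. So there are
  `y`, a slot `i` and a matrix `m` such that `R y, R (update y i m)` are independent: an open
  condition on `(y, m)`; `T (R y) ≠ 0` is another one; take a solution in `D`. Now
  `u = R y`, `v = R (update y i m)` are in `D`, every combination is a value
  (`s u + t v = R (update y i (s y_i + t m))`), and `line2` gives the claim.
* `hit_of_traceless`: `T (R y) = 0` for all `y`, `S (R y0) ≠ 0`. If any two values are dependent then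
  `R y0 = a • 1`, `3 a = 0`, `S (R y0) = 3 a ^ 2 = 0`, a contradiction. So, as before, there are
  `y`, `i`, `m` in `D` with `v1 = R y`, `v2 = R (update y i m)` independent and `S (R y) ≠ 0`; `plane2`.
-/

open Matrix

namespace Pool.Agent.H88KL

open Pool.Agent.H24ML

universe u

variable {L Ω : Type u} [Field L] [Field Ω] [Algebra L Ω]

private theorem c2_comb46 (A B : M3 Ω) (s t : Ω) :
    c2 (s • A + t • B) = s ^ 2 * c2 A + t ^ 2 * c2 B + s * t * (c2 (A + B) - c2 A - c2 B) := by
  simp only [c2, Matrix.add_apply, Matrix.smul_apply, smul_eq_mul]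
  ring

theorem exists_st (F : DivForm L Ω) {A B : M3 Ω} (hA : A ∈ F.D) (hB : B ∈ F.D)
    (h : (rel1 Ω).d A B ≠ 0) (b : L) :
    ∃ s t : L, trace (algebraMap L Ω s • A + algebraMap L Ω t • B) ≠ 0 ∧
      c2 (algebraMap L Ω s • A + algebraMap L Ω t • B) =
        algebraMap L Ω b * trace (algebraMap L Ω s • A + algebraMap L Ω t • B) ^ 2 := by
  have hinj : Function.Injective (algebraMap L Ω) := (algebraMap L Ω).injective
  obtain ⟨ta, hta⟩ := F.tr_mem A hA
  obtain ⟨tb, htb⟩ := F.tr_mem B hB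
  obtain ⟨sa, hsa⟩ := F.c2_mem A hA
  obtain ⟨sb, hsb⟩ := F.c2_mem B hB
  obtain ⟨r, hr⟩ := F.c2_mem (A + B) (F.D.add_mem hA hB)
  have hd : sa * tb ^ 2 - sb * ta ^ 2 ≠ 0 := by
    intro h0
    apply h
    rw [rel1_d, ← hta, ← htb, ← hsa, ← hsb, ← map_pow, ← map_pow, ← map_mul, ← map_mul, ← map_sub,
      h0, map_zero]
  have key : ∀ s t : L, ta * s + tb * t ≠ 0 →
      sa * s ^ 2 + (r - sa - sb) * (s * t) + sb * t ^ 2 = b * (ta * s + tb * t) ^ 2 →
      ∃ s t : L, trace (algebraMap L Ω s • A + algebraMap L Ω t • B) ≠ 0 ∧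
      c2 (algebraMap L Ω s • A + algebraMap L Ω t • B) =
        algebraMap L Ω b * trace (algebraMap L Ω s • A + algebraMap L Ω t • B) ^ 2 := by
    intro s t h1 h2
    have e1 : trace (algebraMap L Ω s • A + algebraMap L Ω t • B) =
        algebraMap L Ω (ta * s + tb * t) := by
      rw [trace_add, trace_smul, trace_smul, smul_eq_mul, smul_eq_mul, ← hta, ← htb, map_add,
        map_mul, map_mul]
      ring
    have e2 : c2 (algebraMap L Ω s • A + algebraMap L Ω t • B) =
        algebraMap L Ω (sa * s ^ 2 + (r - sa - sb) * (s * t) + sb * t ^ 2) := by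
      rw [c2_comb46, ← hsa, ← hsb, ← hr]
      simp only [map_add, map_sub, map_mul, map_pow]
      ring
    refine ⟨s, t, ?_, ?_⟩
    · rw [e1]
      intro h3
      exact h1 (hinj (by rw [h3, map_zero]))
    · rw [e1, e2, h2, map_mul, map_pow]
  by_cases hα : sa - b * ta ^ 2 = 0
  · refine key 1 0 ?_ ?_
    · intro h1
      apply hd
      have h2 : ta = 0 := by linear_combination h1
      have h3 : sa = 0 := by linear_combination hα + b * ta * h2
      rw [h2, h3]
      ring
    · linear_combination hα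
  · obtain ⟨x, hx⟩ := F.quad ((r - sa - sb - 2 * b * ta * tb) / (sa - b * ta ^ 2))
      ((sb - b * tb ^ 2) / (sa - b * ta ^ 2))
    have hx' : (sa - b * ta ^ 2) * x ^ 2 + (r - sa - sb - 2 * b * ta * tb) * x +
        (sb - b * tb ^ 2) = 0 := by
      field_simp at hx
      linear_combination hx
    by_cases h1 : ta * x + tb = 0
    · obtain ⟨x', hx2⟩ : ∃ x' : L, (sa - b * ta ^ 2) * (x + x') =
          -(r - sa - sb - 2 * b * ta * tb) :=
        ⟨-(r - sa - sb - 2 * b * ta * tb) / (sa - b * ta ^ 2) - x, by field_simp; ring⟩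
      refine key x' 1 ?_ ?_
      · intro h2
        apply hd
        have h3 : ta * (x' - x) = 0 := by linear_combination h2 - h1
        rcases mul_eq_zero.1 h3 with h4 | h4
        · have h5 : tb = 0 := by linear_combination h1 - x * h4
          rw [h4, h5]
          ring
        · have h5 : x' = x := sub_eq_zero.1 h4
          rw [h5] at hx2
          have h6 : tb = -(ta * x) := by linear_combination h1
          have h7 : sb - b * tb ^ 2 = (sa - b * ta ^ 2) * x ^ 2 := by
            linear_combination hx' - x * hx2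
          have h8 : sa * tb ^ 2 - sb * ta ^ 2 =
              (sa - b * ta ^ 2) * tb ^ 2 - (sb - b * tb ^ 2) * ta ^ 2 := by ring
          rw [h8, h7, h6]
          ring
      · linear_combination hx' + (x' - x) * hx2
    · exact key x 1 (by simpa using h1) (by linear_combination hx')

private theorem indep_slots46 {ι : Type} [Fintype ι] [DecidableEq ι] {F : DivForm L Ω} {R : ML Ω ι}
    (hN : Nice F R) {y0 : ι → M3 Ω} (h0 : ∀ a : Ω, R y0 ≠ a • (1 : M3 Ω)) :
    ∃ (i : ι) (y : ι → M3 Ω) (m : M3 Ω),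
      LinearIndependent Ω ![R y, R (Function.update y i m)] := by
  by_contra hc
  push Not at hc
  have hsl : SlotLin (Finset.univ : Finset ι) fun y => R y := by
    have h1 := slotLin_piecewise R Finset.univ (fun _ => 0)
    simpa only [Finset.piecewise_univ] using h1
  have hdep : ∀ y y' : ι → M3 Ω, ¬ LinearIndependent Ω ![R y, R y'] :=
    dep_of_slots hsl fun i _ y a => hc i y a
  have hdim : Dim2 R Finset.univ := by
    intro z y hli
    simp only [Finset.piecewise_univ] at hli
    apply hdep (y 0) (y 1)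
    have h2 := hli.comp ![0, 1] (by decide)
    convert h2 using 1
    funext k
    fin_cases k <;> rfl
  obtain ⟨a, ha⟩ := scalar_of_dim2 hN hdim y0
  exact h0 a ha

theorem good_slots46 [Infinite L] [Infinite Ω] {ι : Type} [Fintype ι] [DecidableEq ι]
    (F : DivForm L Ω) {R : ML Ω ι} (hN : Nice F R) {y0 : ι → M3 Ω}
    (h0 : ∀ a : Ω, R y0 ≠ a • (1 : M3 Ω)) {G : (Fin 2 → ι → M3 Ω) → Ω}
    (hG : IsPoly fun z : Fin 2 × ι → M3 Ω => G fun a k => z (a, k)) (hG0 : ∃ z, G z ≠ 0) :
    ∃ (z : Fin 2 → ι → M3 Ω) (i : ι), (∀ a k, z a k ∈ F.D) ∧ G z ≠ 0 ∧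
      LinearIndependent Ω ![R (z 0), R (Function.update (z 0) i (z 1 i))] := by
  obtain ⟨i, y, m, hym⟩ := indep_slots46 hN h0
  have hQ : OpT (Ω := Ω) fun z : Fin 2 → ι → M3 Ω =>
      LinearIndependent Ω ![R (z 0), R (Function.update (z 0) i (z 1 i))] := by
    have hp : ∀ j : Fin 2, IsPolyM ((![fun z : Fin 2 × ι → M3 Ω => R fun k => z (0, k),
        fun z : Fin 2 × ι → M3 Ω => R fun k => (if k = i then z (1, k) else z (0, k))] :
          Fin 2 → (Fin 2 × ι → M3 Ω) → M3 Ω) j) := by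
      intro j
      fin_cases j
      · exact IsPolyM.ml R fun k => IsPolyM.coord ((0 : Fin 2), k)
      · refine IsPolyM.ml R (G := fun k (z : Fin 2 × ι → M3 Ω) =>
          (if k = i then z (1, k) else z (0, k))) fun k => ?_
        by_cases hk : k = i
        · simp only [if_pos hk]
          exact IsPolyM.coord ((1 : Fin 2), k)
        · simp only [if_neg hk]
          exact IsPolyM.coord ((0 : Fin 2), k)
    have h1 := Op.indep hp
    unfold OpT
    refine (?_ : (fun z : Fin 2 × ι → M3 Ω => LinearIndependent Ω ![R (fun k => z (0, k)),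
      R (Function.update (fun k => z (0, k)) i (z (1, i)))]) = _) ▸ h1
    funext z
    have e : (fun j : Fin 2 => (![fun z : Fin 2 × ι → M3 Ω => R fun k => z (0, k),
        fun z : Fin 2 × ι → M3 Ω => R fun k => (if k = i then z (1, k) else z (0, k))] :
          Fin 2 → (Fin 2 × ι → M3 Ω) → M3 Ω) j z) = ![R (fun k => z (0, k)),
      R (Function.update (fun k => z (0, k)) i (z (1, i)))] := by
      funext j
      fin_cases j
      · rfl
      · show (R fun k => (if k = i then z (1, k) else z (0, k))) =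
          R (Function.update (fun k => z (0, k)) i (z (1, i)))
        congr 1
        funext k
        by_cases hk : k = i
        · subst hk
          rw [Function.update_self, if_pos rfl]
        · rw [Function.update_of_ne hk, if_neg hk]
    rw [e]
  have hQ' : OpT (Ω := Ω) fun z : Fin 2 → ι → M3 Ω => G z ≠ 0 := Op.ne hG
  obtain ⟨z, hz1, hz2⟩ := hQ.exists_and hQ' ⟨![y, fun _ => m], hym⟩ hG0
  obtain ⟨w, hw, hw1, hw2⟩ := (hQ.and hQ').exists_D F ⟨z, hz1, hz2⟩
  exact ⟨w, i, hw, hw2, hw1⟩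

theorem comb46 {ι : Type} [DecidableEq ι] (R : ML Ω ι) (y : ι → M3 Ω) (i : ι) (m : M3 Ω)
    (s t : Ω) : s • R y + t • R (Function.update y i m) =
      R (Function.update y i (s • y i + t • m)) := by
  rw [R.map_update_add, R.map_update_smul, R.map_update_smul, Function.update_eq_self]

theorem upd_mem46 {ι : Type} [DecidableEq ι] {F : DivForm L Ω} {y y' : ι → M3 Ω} (i : ι)
    (hy : ∀ k, y k ∈ F.D) (hy' : ∀ k, y' k ∈ F.D) : ∀ k, Function.update y i (y' i) k ∈ F.D := by
  intro k
  by_cases hk : k = i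
  · subst hk
    rw [Function.update_self]
    exact hy' k
  · rw [Function.update_of_ne hk]
    exact hy k

/-- The intermediate statement of `hit_of_ratio` (no hypothesis on `b`). -/
theorem ratio_or_scalar [IsAlgClosed Ω] [Infinite L] {ι : Type} [Fintype ι] [DecidableEq ι]
    (F : DivForm L Ω) {R : ML Ω ι} (hN : Nice F R) {b : Ω} (c : Ω)
    (h : ∀ y, c2 (R y) = b * trace (R y) ^ 2) {y0 : ι → M3 Ω} (h0 : trace (R y0) ≠ 0) :
    (∃ y, trace (R y) = 1 ∧ c2 (R y) = b ∧ det (R y) = c) ∨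
      ∃ a : Ω, R y0 = a • (1 : M3 Ω) := by
  by_cases hsc : ∃ a : Ω, R y0 = a • (1 : M3 Ω)
  · exact Or.inr hsc
  left
  push Not at hsc
  obtain ⟨z, i, hz, hz1, hz2⟩ := good_slots46 F hN hsc
    (G := fun z => trace (R (z 0)))
    (IsPolyM.ml R fun k => IsPolyM.coord ((0 : Fin 2), k)).trace ⟨fun _ => y0, h0⟩
  obtain ⟨s, t, h1, h2, h3⟩ := line2 F (hN.mem (z 0) (hz 0))
    (hN.mem _ (upd_mem46 i (hz 0) (hz 1))) hz2 (b := b)
    (fun s t => by rw [comb46]; exact h _) hz1 c
  rw [comb46] at h1 h2 h3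
  exact ⟨_, h1, h2, h3⟩

theorem hit_of_ratio [IsAlgClosed Ω] [Infinite L] {ι : Type} [Fintype ι] [DecidableEq ι]
    (F : DivForm L Ω) {R : ML Ω ι} (hN : Nice F R) {b : Ω} (hb : 3 * b ≠ 1) (c : Ω)
    (h : ∀ y, c2 (R y) = b * trace (R y) ^ 2) {y0 : ι → M3 Ω} (h0 : trace (R y0) ≠ 0) :
    ∃ y, trace (R y) = 1 ∧ c2 (R y) = b ∧ det (R y) = c := by
  rcases ratio_or_scalar F hN c h h0 with h1 | ⟨a, ha⟩
  · exact h1
  exfalso
  have h1 : trace (R y0) = 3 * a := by
    rw [ha, trace_smul, trace_one, smul_eq_mul, Fintype.card_fin]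
    push_cast
    ring
  have h2 : c2 (R y0) = 3 * a ^ 2 := by
    rw [ha]
    simp [c2, Matrix.smul_apply]
    ring
  have h3 := h y0
  rw [h1, h2] at h3
  rw [h1] at h0
  apply hb
  have h4 : (3 * a) * a * (3 * b - 1) = 0 := by linear_combination -h3
  have h5 : a ≠ 0 := right_ne_zero_of_mul h0
  rcases mul_eq_zero.1 h4 with h6 | h6
  · exact absurd h6 (mul_ne_zero h0 h5)
  · exact sub_eq_zero.1 h6

theorem hit_of_traceless [IsAlgClosed Ω] [Infinite L] {ι : Type} [Fintype ι] [DecidableEq ι]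
    (F : DivForm L Ω) {R : ML Ω ι} (hN : Nice F R) (b c : Ω) (hbc : b ≠ 0 ∨ c ≠ 0)
    (h : ∀ y, trace (R y) = 0) {y0 : ι → M3 Ω} (h0 : c2 (R y0) ≠ 0) :
    ∃ y, trace (R y) = 0 ∧ c2 (R y) = b ∧ det (R y) = c := by
  have hsc : ∀ a : Ω, R y0 ≠ a • (1 : M3 Ω) := by
    intro a ha
    have h1 : trace (R y0) = 3 * a := by
      rw [ha, trace_smul, trace_one, smul_eq_mul, Fintype.card_fin]
      push_cast
      ring
    have h2 : c2 (R y0) = 3 * a ^ 2 := by
      rw [ha]
      simp [c2, Matrix.smul_apply]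
      ring
    rw [h y0] at h1
    apply h0
    rw [h2]
    linear_combination -a * h1
  obtain ⟨z, i, hz, hz1, hz2⟩ := good_slots46 F hN hsc
    (G := fun z => c2 (R (z 0)))
    (IsPolyM.ml R fun k => IsPolyM.coord ((0 : Fin 2), k)).c2 ⟨fun _ => y0, h0⟩
  obtain ⟨s, t, h1, h2⟩ := plane2 F (hN.mem (z 0) (hz 0))
    (hN.mem _ (upd_mem46 i (hz 0) (hz 1))) hz1 hz2 b c hbc
  rw [comb46] at h1 h2
  exact ⟨_, h _, h1, h2⟩

end Pool.Agent.H88KL
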