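import Pool.Agent.Helper88.KL.Def

/-!
# Block KL-NSS: descent of trace, c2 and determinant of a value

Model: `Pool/Agent/Helper24/ML/Descent.lean` (`descend`): there the nine equations
`p(x) = A` are used, here the three equations `trace (p x) = a`, `c2 (p x) = b`, `det (p x) = d` in the
polynomial ring `GenRing K m` (with `P = evalML (GenRing K m) c (generic matrices)`:
`trace P - C a`, `c2 P - C b`, `det P - C d`); evaluation commutes with trace, c2, det
(`evalML_map'`; `c2_map`, `trace_map'`, `det_map'` in `Helper24/ML/Cases.lean` or directly). The ideal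
they generate is proper because it has a zero over `Ω`, so it has a zero over the algebraically closed
field `K` (`MvPolynomial.vanishingIdeal_zeroLocus_eq_radical`).
-/

open Matrix

namespace Pool.Agent.H88KL

open Pool.Agent.H24ML

universe u

private noncomputable def gen_h12 {K : Type*} [Field K] {m : ℕ} (c : Equiv.Perm (Fin m) → K) :
    M3 (GenRing K m) :=
  evalML (GenRing K m) c (fun j => Matrix.of fun a b => MvPolynomial.X (j, a, b))

private lemma vals_h12 {K S : Type*} [Field K] {m : ℕ} (c : Equiv.Perm (Fin m) → K)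
    [CommRing S] [Algebra K S] (f : GenRing K m →ₐ[K] S) :
    f (trace (gen_h12 c)) = trace (evalML S c fun j => Matrix.of fun a b =>
      f (MvPolynomial.X (j, a, b))) ∧
    f (c2 (gen_h12 c)) = c2 (evalML S c fun j => Matrix.of fun a b =>
      f (MvPolynomial.X (j, a, b))) ∧
    f (det (gen_h12 c)) = det (evalML S c fun j => Matrix.of fun a b =>
      f (MvPolynomial.X (j, a, b))) := by
  have h1 : (fun j => (Matrix.of fun a b => f (MvPolynomial.X (j, a, b)) : M3 S)) =
      fun j => f.mapMatrix (Matrix.of fun a b => MvPolynomial.X (j, a, b) : M3 (GenRing K m)) := by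
    funext j
    ext a b
    rfl
  have h2 : evalML S c (fun j => (Matrix.of fun a b => f (MvPolynomial.X (j, a, b)) : M3 S)) =
      f.mapMatrix (gen_h12 c) := by
    rw [h1, evalML_map' f c]
    rfl
  rw [h2]
  refine ⟨?_, ?_, ?_⟩
  · simp [trace, Fin.sum_univ_three]
  · simp [c2]
  · exact AlgHom.map_det f _

theorem descend3 {K Ω : Type u} [Field K] [IsAlgClosed K] [Field Ω] [Algebra K Ω] {m : ℕ}
    (c : Equiv.Perm (Fin m) → K) (a b d : K)
    (h : ∃ x : Fin m → M3 Ω, trace (evalML Ω c x) = algebraMap K Ω a ∧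
      c2 (evalML Ω c x) = algebraMap K Ω b ∧ det (evalML Ω c x) = algebraMap K Ω d) :
    ∃ x : Fin m → M3 K, trace (evalML K c x) = a ∧ c2 (evalML K c x) = b ∧
      det (evalML K c x) = d := by
  obtain ⟨x, hxa, hxb, hxd⟩ := h
  let p1 : GenRing K m := trace (gen_h12 c) - algebraMap K (GenRing K m) a
  let p2 : GenRing K m := c2 (gen_h12 c) - algebraMap K (GenRing K m) b
  let p3 : GenRing K m := det (gen_h12 c) - algebraMap K (GenRing K m) d
  let I : Ideal (GenRing K m) := Ideal.span {p1, p2, p3}
  have hI : I ≠ ⊤ := by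
    intro htop
    let φ : GenRing K m →ₐ[K] Ω := MvPolynomial.aeval fun q => x q.1 q.2.1 q.2.2
    obtain ⟨v1, v2, v3⟩ := vals_h12 c φ
    have h2 : (fun j => (Matrix.of fun a b => φ (MvPolynomial.X (j, a, b)) : M3 Ω)) = x := by
      funext j
      ext a b
      exact MvPolynomial.aeval_X _ _
    rw [h2] at v1 v2 v3
    have h3 : ∀ p ∈ I, φ p = 0 := by
      intro p hp
      induction hp using Submodule.span_induction with
      | mem p hp =>
        rcases hp with rfl | rfl | rfl
        · rw [map_sub, v1, hxa, AlgHom.commutes, sub_self]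
        · rw [map_sub, v2, hxb, AlgHom.commutes, sub_self]
        · rw [map_sub, v3, hxd, AlgHom.commutes, sub_self]
      | zero => simp
      | add p p' _ _ hp hp' => rw [map_add, hp, hp', add_zero]
      | smul r p _ hp => rw [smul_eq_mul, map_mul, hp, mul_zero]
    have h4 := h3 1 (by rw [htop]; exact Submodule.mem_top)
    rw [map_one] at h4
    exact one_ne_zero h4
  have hne : (MvPolynomial.zeroLocus K I).Nonempty := by
    by_contra he
    rw [Set.not_nonempty_iff_eq_empty] at he
    have h1 := MvPolynomial.vanishingIdeal_zeroLocus_eq_radical (K := K) I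
    rw [he, MvPolynomial.vanishingIdeal_empty] at h1
    exact hI (Ideal.radical_eq_top.1 h1.symm)
  obtain ⟨y, hy⟩ := hne
  rw [MvPolynomial.mem_zeroLocus_iff] at hy
  let ψ : GenRing K m →ₐ[K] K := MvPolynomial.aeval y
  obtain ⟨v1, v2, v3⟩ := vals_h12 c ψ
  have e1 : ψ p1 = 0 := hy _ (Ideal.subset_span (by simp))
  have e2 : ψ p2 = 0 := hy _ (Ideal.subset_span (by simp))
  have e3 : ψ p3 = 0 := hy _ (Ideal.subset_span (by simp))
  refine ⟨fun j => Matrix.of fun a b => ψ (MvPolynomial.X (j, a, b)), ?_, ?_, ?_⟩
  · rw [← v1]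
    rw [map_sub, sub_eq_zero, AlgHom.commutes] at e1
    exact e1
  · rw [← v2]
    rw [map_sub, sub_eq_zero, AlgHom.commutes] at e2
    exact e2
  · rw [← v3]
    rw [map_sub, sub_eq_zero, AlgHom.commutes] at e3
    exact e3

end Pool.Agent.H88KL
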