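import Pool.Agent.Helper24.ML.Sim
import Pool.Agent.Helper24.ML.Struct

/-!
# Block KL-SEP: characteristic polynomials of 3 x 3 matrices

* `charpoly_eq`: expand `Matrix.det_fin_three` (`Matrix.charpoly`, `charmatrix_apply`).
* `sim_of_separable`: over an algebraically closed field a separable polynomial of degree three has
  three distinct roots `a, b, d`; both matrices have eigenvectors for `a, b, d`
  (`Matrix.exists_mulVec_eq_zero_iff`, `charpoly` evaluated at `a` is `det (a - A)`), the sum `v` of the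
  three eigenvectors is a cyclic vector (Vandermonde), use `sim_of_cyclic`
  (`Helper24/ML/Sim.lean`; `det (Cyc A v) ≠ 0`). Or: `A` is conjugate to `diagonal ![a, b, d]`.
* `value_conj`: `p (g x_1 g⁻¹, ...) = g p(x_1, ...) g⁻¹` (`Helper24/ML/Struct.lean` has
  `evalML_conj`, or directly).
-/

open Matrix

namespace Pool.Agent.H88KL

open Pool.Agent.H24ML

universe u

theorem charpoly_eq {K : Type u} [Field K] (A : M3 K) :
    A.charpoly = Polynomial.X ^ 3 - Polynomial.C (trace A) * Polynomial.X ^ 2 +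
      Polynomial.C (c2 A) * Polynomial.X - Polynomial.C (det A) := by
  rw [Matrix.charpoly, Matrix.det_fin_three, Matrix.det_fin_three, Matrix.trace_fin_three, c2]
  simp only [Matrix.charmatrix_apply, Matrix.diagonal_apply_eq, Fin.isValue, ne_eq,
    Fin.reduceEq, not_false_eq_true, Matrix.diagonal_apply_ne, map_add, map_sub, map_mul, zero_sub]
  ring

theorem charpoly_coeff_one {K : Type u} [Field K] (A : M3 K) : A.charpoly.coeff 1 = c2 A := by
  rw [charpoly_eq]
  simp [Polynomial.coeff_X, Polynomial.coeff_C]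

/-- An eigenvector for a root of the characteristic polynomial. -/
private theorem eig_h42 {K : Type u} [Field K] (A : M3 K) (a : K) (ha : A.charpoly.eval a = 0) :
    ∃ x : Fin 3 → K, x ≠ 0 ∧ A *ᵥ x = a • x := by
  rw [Matrix.eval_charpoly] at ha
  obtain ⟨x, hx, h⟩ := Matrix.exists_mulVec_eq_zero_iff.2 ha
  refine ⟨x, hx, ?_⟩
  rw [Matrix.sub_mulVec, sub_eq_zero] at h
  rw [← h]
  simp [Matrix.scalar_apply]

/-- Three eigenvectors for distinct eigenvalues are independent. -/
private theorem indep_h42 {K : Type u} [Field K] (A : M3 K) (a b d : K) (x y z : Fin 3 → K)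
    (hab : a ≠ b) (had : a ≠ d) (hbd : b ≠ d) (hx0 : x ≠ 0) (hy0 : y ≠ 0) (hz0 : z ≠ 0)
    (hx : A *ᵥ x = a • x) (hy : A *ᵥ y = b • y) (hz : A *ᵥ z = d • z) :
    (Matrix.of ![x, y, z] : M3 K).det ≠ 0 := by
  intro hdet
  obtain ⟨w, hw, h⟩ := Matrix.exists_vecMul_eq_zero_iff.2 hdet
  have h0 : w 0 • x + w 1 • y + w 2 • z = 0 := by
    rw [← h]
    funext i
    simp [Matrix.vecMul, dotProduct, Fin.sum_univ_three]
  have h1 : (w 0 * a) • x + (w 1 * b) • y + (w 2 * d) • z = 0 := by
    have := congrArg (fun v => A *ᵥ v) h0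
    simp only [Matrix.mulVec_add, Matrix.mulVec_smul, hx, hy, hz, smul_smul, Matrix.mulVec_zero] at this
    exact this
  have h2 : (w 0 * a * a) • x + (w 1 * b * b) • y + (w 2 * d * d) • z = 0 := by
    have := congrArg (fun v => A *ᵥ v) h1
    simp only [Matrix.mulVec_add, Matrix.mulVec_smul, hx, hy, hz, smul_smul, Matrix.mulVec_zero] at this
    exact this
  have key : ∀ (c0 c1 c2' : K) (i : Fin 3),
      (c0 + c1 * a + c2' * (a * a)) * w 0 * x i + (c0 + c1 * b + c2' * (b * b)) * w 1 * y i +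
        (c0 + c1 * d + c2' * (d * d)) * w 2 * z i = 0 := by
    intro c0 c1 c2' i
    have e0 := congrFun h0 i
    have e1 := congrFun h1 i
    have e2 := congrFun h2 i
    simp only [Pi.add_apply, Pi.smul_apply, smul_eq_mul, Pi.zero_apply] at e0 e1 e2
    linear_combination c0 * e0 + c1 * e1 + c2' * e2
  apply hw
  have w0 : w 0 = 0 := by
    by_contra hne
    apply hx0
    funext i
    have := key (b * d) (-(b + d)) 1 i
    have e : (a - b) * (a - d) * w 0 * x i = 0 := by linear_combination this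
    have hc : (a - b) * (a - d) * w 0 ≠ 0 :=
      mul_ne_zero (mul_ne_zero (sub_ne_zero.2 hab) (sub_ne_zero.2 had)) hne
    exact (mul_eq_zero.1 e).resolve_left hc
  have w1 : w 1 = 0 := by
    by_contra hne
    apply hy0
    funext i
    have := key (a * d) (-(a + d)) 1 i
    have e : (b - a) * (b - d) * w 1 * y i = 0 := by linear_combination this
    have hc : (b - a) * (b - d) * w 1 ≠ 0 :=
      mul_ne_zero (mul_ne_zero (sub_ne_zero.2 hab.symm) (sub_ne_zero.2 hbd)) hne
    exact (mul_eq_zero.1 e).resolve_left hc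
  have w2 : w 2 = 0 := by
    by_contra hne
    apply hz0
    funext i
    have := key (a * b) (-(a + b)) 1 i
    have e : (d - a) * (d - b) * w 2 * z i = 0 := by linear_combination this
    have hc : (d - a) * (d - b) * w 2 ≠ 0 :=
      mul_ne_zero (mul_ne_zero (sub_ne_zero.2 had.symm) (sub_ne_zero.2 hbd.symm)) hne
    exact (mul_eq_zero.1 e).resolve_left hc
  funext i
  fin_cases i
  · exact w0
  · exact w1
  · exact w2

/-- The sum of three eigenvectors is cyclic. -/
private theorem cyc_h42 {K : Type u} [Field K] (A : M3 K) (a b d : K)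
    (hab : a ≠ b) (had : a ≠ d) (hbd : b ≠ d) (ha : A.charpoly.eval a = 0)
    (hb : A.charpoly.eval b = 0) (hd : A.charpoly.eval d = 0) :
    ∃ v : Fin 3 → K, det (Cyc A v) ≠ 0 := by
  obtain ⟨x, hx0, hx⟩ := eig_h42 A a ha
  obtain ⟨y, hy0, hy⟩ := eig_h42 A b hb
  obtain ⟨z, hz0, hz⟩ := eig_h42 A d hd
  have hdet := indep_h42 A a b d x y z hab had hbd hx0 hy0 hz0 hx hy hz
  refine ⟨x + y + z, ?_⟩
  have e1 : A *ᵥ (x + y + z) = a • x + b • y + d • z := by
    rw [Matrix.mulVec_add, Matrix.mulVec_add, hx, hy, hz]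
  have e2 : A *ᵥ (A *ᵥ (x + y + z)) = (a * a) • x + (b * b) • y + (d * d) • z := by
    rw [e1, Matrix.mulVec_add, Matrix.mulVec_add, Matrix.mulVec_smul, Matrix.mulVec_smul,
      Matrix.mulVec_smul, hx, hy, hz, smul_smul, smul_smul, smul_smul]
  have e3 : Cyc A (x + y + z) =
      !![1, 1, 1; a, b, d; a * a, b * b, d * d] * (Matrix.of ![x, y, z] : M3 K) := by
    unfold Cyc
    rw [e2, e1]
    ext i j
    fin_cases i <;> simp [Matrix.mul_apply, Fin.sum_univ_three]
  rw [e3, Matrix.det_mul]
  refine mul_ne_zero ?_ hdet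
  have e4 : (!![1, 1, 1; a, b, d; a * a, b * b, d * d] : M3 K).det =
      (b - a) * (d - a) * (d - b) := by
    rw [Matrix.det_fin_three]
    simp
    ring
  rw [e4]
  exact mul_ne_zero (mul_ne_zero (sub_ne_zero.2 hab.symm) (sub_ne_zero.2 had.symm))
    (sub_ne_zero.2 hbd.symm)

theorem sim_of_separable {K : Type u} [Field K] [IsAlgClosed K] (A B : M3 K)
    (h : A.charpoly = B.charpoly) (hs : A.charpoly.Separable) : Sim A B := by
  classical
  have hcard : A.charpoly.roots.card = 3 := by
    have h1 := (IsAlgClosed.splits A.charpoly).natDegree_eq_card_roots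
    rw [Matrix.charpoly_natDegree_eq_dim, Fintype.card_fin] at h1
    exact h1.symm
  have hnd : A.charpoly.roots.Nodup := Polynomial.nodup_roots hs
  obtain ⟨a, b, d, hr⟩ := Multiset.card_eq_three.1 hcard
  have hne : A.charpoly ≠ 0 := (Matrix.charpoly_monic A).ne_zero
  have hab : a ≠ b ∧ a ≠ d ∧ b ≠ d := by
    rw [hr] at hnd
    simp at hnd
    tauto
  have hroot : ∀ t, t ∈ A.charpoly.roots → A.charpoly.eval t = 0 := fun t ht =>
    (Polynomial.mem_roots hne).1 ht
  have ha := hroot a (by rw [hr]; simp)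
  have hb := hroot b (by rw [hr]; simp)
  have hd := hroot d (by rw [hr]; simp)
  obtain ⟨v, hv⟩ := cyc_h42 A a b d hab.1 hab.2.1 hab.2.2 ha hb hd
  obtain ⟨u, hu⟩ := cyc_h42 B a b d hab.1 hab.2.1 hab.2.2 (h ▸ ha) (h ▸ hb) (h ▸ hd)
  have hc : ∀ i, A.charpoly.coeff i = B.charpoly.coeff i := fun i => by rw [h]
  refine sim_of_cyclic A B v u hv hu ?_ ?_ ?_
  · have := hc 2
    rw [charpoly_eq, charpoly_eq] at this
    simpa [Polynomial.coeff_X, Polynomial.coeff_C] using this
  · rw [← charpoly_coeff_one, ← charpoly_coeff_one, h]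
  · have := hc 0
    rw [charpoly_eq, charpoly_eq] at this
    simpa [Polynomial.coeff_X, Polynomial.coeff_C] using this

theorem value_conj {K : Type u} [Field K] {m : ℕ} (c : Equiv.Perm (Fin m) → K)
    (x : Fin m → M3 K) (B : M3 K) (h : Sim (evalML K c x) B) :
    ∃ y : Fin m → M3 K, evalML K c y = B := by
  obtain ⟨g, hg⟩ := h
  exact ⟨_, (evalML_conj c x g).trans hg.symm⟩

end Pool.Agent.H88KL
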