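import Pool.Agent.Helper88.KL.Cyc

/-!
# Block KL-ZORN (helper74): a division form over a quadratically closed field

`exists_divForm` is proved in `Cyc.lean` (cyclic algebra over `K[x][t]`, `x ↦ ω x + 1`), the
passage to a quadratically closed field in `ZornA.lean`.
-/
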