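import Pool.Agent.Helper88.KL.Main
import Pool.Agent.Helper88.KL.Ev
import Pool.Agent.Helper88.KL.Nss
import Pool.Agent.Helper88.KL.Sep
import Pool.Agent.Helper88.KL.Zorn

/-!
# From the division form back to the algebraically closed field
-/

open Matrix

namespace Pool.Agent.H88KL

open Pool.Agent.H24ML

universe u

/-- `c2 / trace ^ 2` is not constant. -/
theorem hit1 {K : Type u} [Field K] [IsAlgClosed K] {m : ℕ} (c : Equiv.Perm (Fin m) → K)
    (hV : ∃ x x' : Fin m → M3 K, c2 (evalML K c x) * trace (evalML K c x') ^ 2 ≠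
      c2 (evalML K c x') * trace (evalML K c x) ^ 2) (b d : K) (hb : 3 * b ≠ 1) :
    ∃ x : Fin m → M3 K, trace (evalML K c x) = 1 ∧ c2 (evalML K c x) = b ∧
      det (evalML K c x) = d := by
  obtain ⟨Ω, _, _, _, L, ⟨F⟩⟩ := exists_divForm K
  have hK : Infinite K := inferInstance
  have : Infinite L := Infinite.of_injective _ (algebraMap K L).injective
  obtain ⟨x, x', hx⟩ := hV
  obtain ⟨y, hy1, hy2, hy3⟩ := main1 F (algebraMap K L b) (by
    rw [← IsScalarTower.algebraMap_apply K L Ω]
    intro h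
    apply hb
    apply (algebraMap K Ω).injective
    rw [map_mul, map_ofNat, map_one]
    exact h) (algebraMap K Ω d) _ _ rfl (evalML Ω c) (nice_evalML L F c)
    ⟨fun j => (Algebra.ofId K Ω).mapMatrix (x j), fun j => (Algebra.ofId K Ω).mapMatrix (x' j), by
      rw [rel1_d, evalML_map', evalML_map']
      intro h
      apply hx
      rw [← sub_eq_zero]
      apply (algebraMap K Ω).injective
      rw [map_zero, ← h]
      simp [c2, trace, Matrix.diag, Fin.sum_univ_three, Algebra.ofId_apply]⟩
  exact descend3 c 1 b d ⟨y, by rw [hy1, map_one], by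
    rw [hy2, ← IsScalarTower.algebraMap_apply K L Ω], hy3⟩

/-- Some trace zero value has `c2 ≠ 0`. -/
theorem hit2 {K : Type u} [Field K] [IsAlgClosed K] {m : ℕ} (c : Equiv.Perm (Fin m) → K)
    (hV : ∃ x : Fin m → M3 K, trace (evalML K c x) = 0 ∧ c2 (evalML K c x) ≠ 0)
    (b d : K) (hbd : b ≠ 0 ∨ d ≠ 0) :
    ∃ x : Fin m → M3 K, trace (evalML K c x) = 0 ∧ c2 (evalML K c x) = b ∧
      det (evalML K c x) = d := by
  obtain ⟨Ω, _, _, _, L, ⟨F⟩⟩ := exists_divForm K
  have hK : Infinite K := inferInstance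
  have : Infinite L := Infinite.of_injective _ (algebraMap K L).injective
  obtain ⟨x, hx0, hx⟩ := hV
  have hinj := (algebraMap K Ω).injective
  obtain ⟨y, hy1, hy2, hy3⟩ := main2 F (algebraMap K Ω b) (algebraMap K Ω d) (by
    rcases hbd with h | h
    · exact Or.inl ((map_ne_zero _).2 h)
    · exact Or.inr ((map_ne_zero _).2 h)) _ _ rfl (evalML Ω c) (nice_evalML L F c)
    ⟨fun j => (Algebra.ofId K Ω).mapMatrix (x j), by
      rw [evalML_map']
      have h := congrArg (algebraMap K Ω) hx0
      rw [map_zero] at h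
      rw [← h]
      simp [trace, Matrix.diag, Fin.sum_univ_three, Algebra.ofId_apply], by
      rw [evalML_map']
      intro h
      apply hx
      apply hinj
      rw [map_zero, ← h]
      simp [c2, Algebra.ofId_apply]⟩
  exact descend3 c 0 b d ⟨y, by rw [hy1, map_zero], hy2, hy3⟩

end Pool.Agent.H88KL
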