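import Pool.Agent.Helper88.KL.R3
import Pool.Agent.Helper24.ML.Pauli

/-!
# Block KL-PAU (idea of helper74): `trace ^ 2 - 3 c2` is never the square of a multilinear form

Characteristic not three, `w` a primitive cube root of unity. The nine Pauli matrices
`h w v = X ^ a Y ^ b`, `v = (a, b)`, form a basis of `M3 Ω`. For a tuple `v_1, ..., v_m` the value
`evalML Ω c (fun i => h w (v i))` is a multiple `r • h w (∑ v_i)` (each monomial is: a product of Pauli
matrices is a scalar multiple of the Pauli matrix of the sum; see `Helper24/ML/Clifford.lean`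
(`h_mul'`) and `Helper24/ML/Pauli.lean`). If the sum is `0` the value is scalar, `r • 1`, and
`Q3 = (3 r) ^ 2 - 3 (3 r ^ 2) = 0`. If the sum is `u ≠ 0`, then `trace (h w u) = 0` and
`c2 (h w u) = 0` (check the eight matrices), so `Q3 = 0`. So `f` vanishes on all tuples of Pauli
matrices, and by multilinearity (`Basis.ext_multilinear` or expanding) `f = 0`.
-/

open Matrix

namespace Pool.Agent.H88KL

open Pool.Agent.H24ML

universe u

private theorem prod85 {R : Type*} [CommRing R] (w : R) (hw : w ^ 3 = 1) (L : List V) :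
    ∃ e : ℕ, (L.map (h w)).prod = w ^ e • h w L.sum := by
  induction L with
  | nil => exact ⟨0, by simp [h_zero]⟩
  | cons v L ih =>
    obtain ⟨e, he⟩ := ih
    obtain ⟨e', he'⟩ := h_mul w hw v L.sum
    refine ⟨e' + e, ?_⟩
    rw [List.map_cons, List.prod_cons, he, mul_smul_comm, he', smul_smul, List.sum_cons, pow_add,
      mul_comm (w ^ e')]

private theorem Q3_smul85 {Ω : Type u} [Field Ω] (r : Ω) (A : M3 Ω) : Q3 (r • A) = r ^ 2 * Q3 A := by
  simp only [Q3, c2, Matrix.trace_fin_three, Matrix.smul_apply, smul_eq_mul]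
  ring

private theorem Q3_h85 {Ω : Type u} [Field Ω] (w : Ω) (hw : 1 + w + w ^ 2 = 0) (v : V) :
    Q3 (h w v) = 0 := by
  obtain ⟨a, b⟩ := v
  have hw3 := cube_of_quad w hw
  have hb : b = 0 ∨ b = 1 ∨ b = 2 := by
    revert b
    decide
  rcases hb with rfl | rfl | rfl
  · rw [h_eq0]
    have h1 := sum_pow w hw a.val
    have h2 : w ^ a.val * w ^ (2 * a.val) = 1 := by
      rw [← pow_add]
      have : a.val + 2 * a.val = 3 * a.val := by ring
      rw [this, pow_mul, hw3, one_pow]
    simp only [Q3, c2, Matrix.trace_fin_three, Matrix.of_apply, Matrix.cons_val', Matrix.cons_val_zero,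
      Matrix.cons_val_one, Matrix.cons_val, Matrix.cons_val_fin_one]
    by_cases h0 : a.val % 3 = 0
    · rw [if_pos h0] at h1
      rw [h1]
      linear_combination (-3) * h1 - 3 * h2
    · rw [if_neg h0] at h1
      rw [h1]
      linear_combination (-3) * h1 - 3 * h2
  · rw [h_eq1]
    simp [Q3, c2, Matrix.trace_fin_three]
  · rw [h_eq2]
    simp [Q3, c2, Matrix.trace_fin_three]

private theorem eval_h85 {K Ω : Type u} [Field K] [Field Ω] [Algebra K Ω] (w : Ω)
    (hw : w ^ 3 = 1) {m : ℕ} (c : Equiv.Perm (Fin m) → K) (v : Fin m → V) :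
    ∃ r : Ω, evalML Ω c (fun i => h w (v i)) = r • h w (∑ i, v i) := by
  have h1 : ∀ σ : Equiv.Perm (Fin m), ∃ e : ℕ,
      (List.ofFn fun k => h w (v (σ k))).prod = w ^ e • h w (∑ i, v i) := by
    intro σ
    obtain ⟨e, he⟩ := prod85 w hw (List.ofFn fun k => v (σ k))
    refine ⟨e, ?_⟩
    rw [List.map_ofFn] at he
    have h2 : (List.ofFn fun k => v (σ k)).sum = ∑ i, v i := by
      rw [List.sum_ofFn]
      exact Equiv.sum_comp σ v
    rw [h2] at he
    exact he
  choose e he using h1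
  refine ⟨∑ σ : Equiv.Perm (Fin m), algebraMap K Ω (c σ) * w ^ e σ, ?_⟩
  rw [evalML_apply, Finset.sum_smul]
  refine Finset.sum_congr rfl fun σ _ => ?_
  rw [he σ, smul_smul]

theorem sq_zero {K Ω : Type u} [Field K] [Field Ω] [Algebra K Ω] (w : Ω)
    (hw : 1 + w + w ^ 2 = 0) (h3 : (3 : Ω) ≠ 0) {m : ℕ} (c : Equiv.Perm (Fin m) → K)
    (f : MultilinearMap Ω (fun _ : Fin m => M3 Ω) Ω)
    (hf : ∀ y, Q3 (evalML Ω c y) = f y ^ 2) (y : Fin m → M3 Ω) :
    Q3 (evalML Ω c y) = 0 := by
  have hw3 := cube_of_quad w hw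
  have hf0 : ∀ v : Fin m → V, f (fun i => h w (v i)) = 0 := by
    intro v
    have h1 := hf (fun i => h w (v i))
    obtain ⟨r, hr⟩ := eval_h85 w hw3 c v
    rw [hr, Q3_smul85, Q3_h85 w hw, mul_zero] at h1
    exact pow_eq_zero_iff (two_ne_zero) |>.1 h1.symm
  have ht : (3 : Ω)⁻¹ * 3 = 1 := inv_mul_cancel₀ h3
  have hy : y = fun i => ∑ v : V, coord w (3 : Ω)⁻¹ v (y i) • h w v := by
    funext i
    exact sum_coord w (3 : Ω)⁻¹ hw ht (y i)
  have hfy : f y = 0 := by
    rw [hy, MultilinearMap.map_sum]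
    refine Finset.sum_eq_zero fun v _ => ?_
    rw [MultilinearMap.map_smul_univ, hf0 v, smul_zero]
  rw [hf, hfy]
  ring

end Pool.Agent.H88KL
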