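import Pool.Agent.Helper88.KL.Def

/-!
# Block KL-PATH: maps with small image which are linear in every slot

`SlotLin I θ`: the map `θ` of families of matrices is linear in every slot `i ∈ I` and does not
depend on the other slots.

* `dep_of_slots`. Assume that `θ y` and `θ y'` are dependent whenever `y`, `y'` differ in one slot.
  Then they are dependent for all `y, y'`. Proof: induction on the number `r` of slots (in `I`) in
  which `y`, `y'` differ (by `SlotLin.dep` the slots outside `I` do not matter). Let `r ≥ 2`, let `i`
  be one of these slots, write `y = (a, u)`, `y' = (c, v)` where `a, c` are the entries in the slot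
  `i` and `u, v` all the other entries. By induction `θ(a, u), θ(a, v)` are dependent (they differ
  in `r - 1` slots), and so are `θ(c, u), θ(c, v)`; `θ(a, u), θ(c, u)` and `θ(a, v), θ(c, v)` are
  dependent (one slot). If `θ(a, u), θ(c, v)` are independent, then both are not zero and
  `θ(c, u) = s θ(a, u)`, `θ(c, u) = s' θ(c, v)`, so `θ(c, u) = 0` (the lines of `θ(a,u)`, `θ(c,v)`
  meet in `0`); in the same way `θ(a, v) = 0`. Now
  `θ(a + c, u) = θ(a, u)` and `θ(a + c, v) = θ(c, v)` are dependent by the induction hypothesis
  (they differ in `r - 1` slots), a contradiction.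
* `onto_two`. By `dep_of_slots` there are `y`, a slot `i ∈ I` and a matrix `b` such that
  `p = θ y = θ (update y i (y i))` and `q = θ (update y i b)` are independent. Every value, in
  particular `θ u`, `θ v`, is a combination of `p`, `q` (three values are dependent), so
  `s θ u + t θ v = x p + x' q = θ (update y i (x y_i + x' b))`.
-/

open Matrix

namespace Pool.Agent.H88KL

open Pool.Agent.H24ML

universe u

variable {Ω : Type u} [Field Ω] {ι : Type} [DecidableEq ι] {V : Type*} [AddCommGroup V]
  [Module Ω V]

/-- Maps which are linear in the slots in `I` and do not depend on the other slots. -/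
structure SlotLin (I : Finset ι) (θ : (ι → M3 Ω) → V) : Prop where
  add : ∀ i ∈ I, ∀ (y : ι → M3 Ω) (a b : M3 Ω),
    θ (Function.update y i (a + b)) = θ (Function.update y i a) + θ (Function.update y i b)
  smul : ∀ i ∈ I, ∀ (y : ι → M3 Ω) (c : Ω) (a : M3 Ω),
    θ (Function.update y i (c • a)) = c • θ (Function.update y i a)
  dep : ∀ y y' : ι → M3 Ω, (∀ i ∈ I, y i = y' i) → θ y = θ y'

theorem slotLin_piecewise (P : ML Ω ι) (I : Finset ι) (z : ι → M3 Ω) :
    SlotLin I fun y => P (I.piecewise y z) := by
  refine ⟨?_, ?_, ?_⟩
  · intro i hi y a b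
    simp only [← Finset.update_piecewise_of_mem I _ _ hi]
    exact P.map_update_add _ _ _ _
  · intro i hi y c a
    simp only [← Finset.update_piecewise_of_mem I _ _ hi]
    exact P.map_update_smul _ _ _ _
  · intro y y' h
    have : I.piecewise y z = I.piecewise y' z := by
      funext j
      by_cases hj : j ∈ I
      · simp [hj, h j hj]
      · simp [hj]
    simp only [this]

theorem slotLin_res (P : ML Ω ι) (I : Finset ι) : SlotLin I fun y => res P I y := by
  classical
  have key : ∀ (y : ι → M3 Ω) (z' : {k // k ∉ I} → M3 Ω),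
      res P I y z' = P (I.piecewise y (fun k => if h : k ∉ I then z' ⟨k, h⟩ else 0)) := by
    intro y z'
    rw [← res_apply]
    congr 1
    funext k
    simp [k.2]
  refine ⟨?_, ?_, ?_⟩
  · intro i hi y a b
    ext1 z'
    have h := (slotLin_piecewise P I (fun k => if h : k ∉ I then z' ⟨k, h⟩ else 0)).add i hi y a b
    show res P I _ z' = (res P I _ + res P I _) z'
    rw [MultilinearMap.add_apply, key, key, key]
    exact h
  · intro i hi y c a
    ext1 z'
    have h := (slotLin_piecewise P I (fun k => if h : k ∉ I then z' ⟨k, h⟩ else 0)).smul i hi y c a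
    show res P I _ z' = (c • res P I _) z'
    rw [MultilinearMap.smul_apply, key, key]
    exact h
  · intro y y' hy
    ext1 z'
    have h := (slotLin_piecewise P I (fun k => if h : k ∉ I then z' ⟨k, h⟩ else 0)).dep y y' hy
    show res P I y z' = res P I y' z'
    rw [key, key]
    exact h

private lemma pair_dep33 {p q : V} (hp : p ≠ 0) (h : ¬ LinearIndependent Ω ![p, q]) :
    ∃ s : Ω, s • p = q := by
  rw [LinearIndependent.pair_iff' hp] at h
  push Not at h
  exact h

private lemma pair_symm33 {p q : V} (h : ¬ LinearIndependent Ω ![p, q]) :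
    ¬ LinearIndependent Ω ![q, p] := by
  rwa [LinearIndependent.pair_symm_iff]

private lemma four_dep33 {A B C E : V} (hAB : ¬ LinearIndependent Ω ![A, B])
    (hCE : ¬ LinearIndependent Ω ![C, E]) (hAC : ¬ LinearIndependent Ω ![A, C])
    (hEB : ¬ LinearIndependent Ω ![E, B]) (hs : ¬ LinearIndependent Ω ![A + C, B + E]) :
    ¬ LinearIndependent Ω ![A, E] := by
  intro hAE
  have hA : A ≠ 0 := by
    have := hAE.ne_zero 0
    simpa using this
  have hE : E ≠ 0 := by
    have := hAE.ne_zero 1
    simpa using this
  have hAE' := LinearIndependent.pair_iff.1 hAE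
  have zero : ∀ X : V, (∃ s : Ω, s • A = X) → (∃ s : Ω, s • E = X) → X = 0 := by
    rintro X ⟨s, hs⟩ ⟨s', hs'⟩
    have h0 : s • A + (-s') • E = 0 := by
      rw [neg_smul, hs, hs', add_neg_cancel]
    have := (hAE' s (-s') h0).1
    rw [← hs, this, zero_smul]
  have hC : C = 0 := zero C (pair_dep33 hA hAC) (pair_dep33 hE (pair_symm33 hCE))
  have hB : B = 0 := zero B (pair_dep33 hA hAB) (pair_dep33 hE hEB)
  apply hs
  rw [hC, hB, add_zero, zero_add]
  exact hAE

open Classical in
private lemma card_filter33 (I : Finset ι) {y y' f g : ι → M3 Ω} {i : ι} (hi : i ∈ I)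
    (hne : y i ≠ y' i) (hfg : f i = g i) (hf : ∀ j, j ≠ i → f j = y j)
    (hg : ∀ j, j ≠ i → g j = y' j) :
    (I.filter fun j => f j ≠ g j).card + 1 = (I.filter fun j => y j ≠ y' j).card := by
  have h1 : (I.filter fun j => f j ≠ g j) = (I.filter fun j => y j ≠ y' j).erase i := by
    ext j
    rw [Finset.mem_filter, Finset.mem_erase, Finset.mem_filter]
    by_cases hj : j = i
    · subst hj
      simp [hfg]
    · rw [hf j hj, hg j hj]
      simp [hj]
  rw [h1]
  exact Finset.card_erase_add_one (Finset.mem_filter.2 ⟨hi, hne⟩)

theorem dep_of_slots {I : Finset ι} {θ : (ι → M3 Ω) → V} (hθ : SlotLin I θ)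
    (h : ∀ i ∈ I, ∀ (y : ι → M3 Ω) (a : M3 Ω),
      ¬ LinearIndependent Ω ![θ y, θ (Function.update y i a)]) (y y' : ι → M3 Ω) :
    ¬ LinearIndependent Ω ![θ y, θ y'] := by
  classical
  suffices H : ∀ (n : ℕ) (y y' : ι → M3 Ω), (I.filter fun j => y j ≠ y' j).card = n →
      ¬ LinearIndependent Ω ![θ y, θ y'] from H _ y y' rfl
  intro n
  induction n with
  | zero =>
    intro y y' hc
    rw [Finset.card_eq_zero, Finset.filter_eq_empty_iff] at hc
    have heq : θ y = θ y' := hθ.dep y y' (fun i hi => not_not.1 (hc hi))
    rw [heq]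
    intro hl
    have := hl.injective (show (![θ y', θ y'] : Fin 2 → V) 0 = ![θ y', θ y'] 1 by simp)
    exact absurd this (by decide)
  | succ n ih =>
    intro y y' hc
    have hpos : 0 < (I.filter fun j => y j ≠ y' j).card := by rw [hc]; exact Nat.succ_pos n
    obtain ⟨i, hi⟩ := Finset.card_pos.1 hpos
    obtain ⟨hiI, hne⟩ := Finset.mem_filter.1 hi
    have hup : Function.update y i (y i) = y := Function.update_eq_self i y
    have hup' : Function.update y' i (y' i) = y' := Function.update_eq_self i y'
    have hAB : ¬ LinearIndependent Ω ![θ y, θ (Function.update y' i (y i))] := by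
      apply ih
      have := card_filter33 I (f := y) (g := Function.update y' i (y i)) hiI hne
        (by simp) (fun j _ => rfl) (fun j hj => by simp [hj])
      omega
    have hCE : ¬ LinearIndependent Ω ![θ (Function.update y i (y' i)), θ y'] := by
      apply ih
      have := card_filter33 I (f := Function.update y i (y' i)) (g := y') hiI hne
        (by simp) (fun j hj => by simp [hj]) (fun j _ => rfl)
      omega
    have hAC := h i hiI y (y' i)
    have hEB := h i hiI y' (y i)
    have hs : ¬ LinearIndependent Ω ![θ y + θ (Function.update y i (y' i)),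
        θ (Function.update y' i (y i)) + θ y'] := by
      have h1 : θ y + θ (Function.update y i (y' i)) = θ (Function.update y i (y i + y' i)) := by
        rw [hθ.add i hiI, hup]
      have h2 : θ (Function.update y' i (y i)) + θ y' =
          θ (Function.update y' i (y i + y' i)) := by
        rw [hθ.add i hiI, hup']
      rw [h1, h2]
      apply ih
      have := card_filter33 I (f := Function.update y i (y i + y' i))
        (g := Function.update y' i (y i + y' i)) hiI hne
        (by simp) (fun j hj => by simp [hj]) (fun j hj => by simp [hj])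
      omega
    exact four_dep33 hAB hCE hAC hEB hs

theorem onto_two {I : Finset ι} {θ : (ι → M3 Ω) → V} (hθ : SlotLin I θ)
    (h3 : ∀ y : Fin 3 → ι → M3 Ω, ¬ LinearIndependent Ω fun j => θ (y j)) {u v : ι → M3 Ω}
    (huv : LinearIndependent Ω ![θ u, θ v]) (s t : Ω) : ∃ y, θ y = s • θ u + t • θ v := by
  classical
  have hex : ∃ i ∈ I, ∃ (y : ι → M3 Ω) (a : M3 Ω),
      LinearIndependent Ω ![θ y, θ (Function.update y i a)] := by
    by_contra hcon
    push Not at hcon
    exact dep_of_slots hθ hcon u v huv
  obtain ⟨i, hi, y, b, hpq⟩ := hex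
  have hspan : ∀ w : ι → M3 Ω, ∃ x x' : Ω, x • θ y + x' • θ (Function.update y i b) = θ w := by
    intro w
    have h := h3 (Fin.cons w ![y, Function.update y i b])
    have heq : (fun j : Fin 3 => θ ((Fin.cons w ![y, Function.update y i b] :
        Fin 3 → ι → M3 Ω) j)) = Fin.cons (θ w) ![θ y, θ (Function.update y i b)] := by
      funext j
      refine Fin.cases rfl (fun k => ?_) j
      fin_cases k <;> rfl
    rw [heq, linearIndependent_finCons] at h
    have hmem : θ w ∈ Submodule.span Ω (Set.range ![θ y, θ (Function.update y i b)]) := by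
      by_contra hn
      exact h ⟨hpq, hn⟩
    rw [Matrix.range_cons, Matrix.range_cons, Matrix.range_empty, Set.union_empty,
      Set.singleton_union, Submodule.mem_span_pair] at hmem
    exact hmem
  obtain ⟨x1, x1', h1⟩ := hspan u
  obtain ⟨x2, x2', h2⟩ := hspan v
  refine ⟨Function.update y i ((s * x1 + t * x2) • y i + (s * x1' + t * x2') • b), ?_⟩
  rw [hθ.add i hi, hθ.smul i hi, hθ.smul i hi, Function.update_eq_self, ← h1, ← h2]
  module

end Pool.Agent.H88KL
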