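import Pool.Agent.Helper88.KL.R3
import Pool.Agent.Helper88.KL.Path

/-!
# Block KL-SQ: a form which is a square in every slot is a square

Write `G y = Q3 (P y)`. Claim, by induction on `I`: for every `z` there is `f` with
`SlotLin I f`, `IsPoly f` and `Q3 (P (I.piecewise y z)) = f y ^ 2` for all `y`. (`I = univ` gives the
result: a `SlotLin univ` map is a `MultilinearMap`.)

`I = ∅`: `f` is a constant, a square root of `Q3 (P z)`.

Step: `I' = insert i I`, `i ∉ I`, `z` given. If `Q3 (P (I'.piecewise y z)) = 0` for all `y` take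
`f = 0`. Otherwise choose `y0` with `Q3 (P (I'.piecewise y0 z)) ≠ 0` and let `a0 = y0 i`,
`z' = update z i a0`, `f0` the function for `(I, z')`; `f0 y0 ≠ 0`. For a matrix unit
`e = E r s` let `f' ` be the function for `(I, update z i e)`. Put
`beta_e (y) = b3 (P (I.piecewise y (update z i e))) (P (I.piecewise y z'))`. The two families differ
only in the slot `i`, so by the hypothesis (`disc = 0`) `beta_e ^ 2 = 4 f' ^ 2 f0 ^ 2`, that is
`(beta_e - 2 f' f0) (beta_e + 2 f' f0) = 0`. All these are polynomial functions, so one factor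
vanishes identically (`Op.exists_and` for `Op.ne`), and with `f_e = f'` or `f_e = - f'` we have
`beta_e = 2 f_e f0` identically. Put `f y = ∑ r s, (y i) r s * f_{E r s} (y)`. It is linear in the
slots of `I` (they are different from `i`) and in the slot `i`, and polynomial. By the bilinearity of `b3`
and the linearity of `P` in the slot `i`, `b3 (P (I'.piecewise y z)) (P (I.piecewise y z')) = 2 f(y) f0(y)`.
By the hypothesis its square is `4 Q3 (P (I'.piecewise y z)) f0(y) ^ 2`, so
`4 (Q3 (P (I'.piecewise y z)) - f(y) ^ 2) f0(y) ^ 2 = 0` for all `y`; `f0` does not vanish identically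
and `4 ≠ 0`, so (again `Op.exists_and`) the first factor vanishes identically.
-/

open Matrix

namespace Pool.Agent.H88KL

open Pool.Agent.H24ML

universe u

section aux75

variable {Ω : Type u} [Field Ω]

private theorem b3_add75 (A A' B : M3 Ω) : b3 (A + A') B = b3 A B + b3 A' B := by
  unfold b3 Q3 c2
  simp only [Matrix.trace_fin_three, Matrix.add_apply]
  ring

private theorem b3_smul75 (c : Ω) (A B : M3 Ω) : b3 (c • A) B = c * b3 A B := by
  unfold b3 Q3 c2
  simp only [Matrix.trace_fin_three, Matrix.add_apply, Matrix.smul_apply, smul_eq_mul]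
  ring

private theorem b3_comm75 (A B : M3 Ω) : b3 A B = b3 B A := by
  unfold b3
  rw [add_comm A B]
  ring

private def bl75 (B : M3 Ω) : M3 Ω →ₗ[Ω] Ω where
  toFun A := b3 A B
  map_add' A A' := b3_add75 A A' B
  map_smul' c A := b3_smul75 c A B

private theorem lin75 (L : M3 Ω →ₗ[Ω] Ω) (A : M3 Ω) : L A = ∑ r, ∑ s, A r s * L (E r s) := by
  conv_lhs => rw [Matrix.matrix_eq_sum_single A]
  rw [map_sum]
  refine Finset.sum_congr rfl fun r _ => ?_
  rw [map_sum]
  refine Finset.sum_congr rfl fun s _ => ?_
  rw [← smul_eq_mul, ← map_smul]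
  congr 1
  rw [Matrix.smul_single, smul_eq_mul, mul_one]

end aux75

private theorem step75 {Ω : Type u} [Field Ω] [IsAlgClosed Ω] (h2 : (2 : Ω) ≠ 0) {m : ℕ}
    (P : ML Ω (Fin m))
    (h : ∀ (i : Fin m) (x : Fin m → M3 Ω) (a : M3 Ω),
      disc (P x) (P (Function.update x i a)) = 0) (I : Finset (Fin m)) :
    ∀ z : Fin m → M3 Ω, ∃ f : (Fin m → M3 Ω) → Ω, SlotLin I f ∧ IsPoly f ∧
      ∀ y, Q3 (P (I.piecewise y z)) = f y ^ 2 := by
  have hinf : Infinite Ω := inferInstance
  have h4 : (4 : Ω) ≠ 0 := by
    have : (4 : Ω) = 2 * 2 := by norm_num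
    rw [this]
    exact mul_ne_zero h2 h2
  induction I using Finset.induction_on with
  | empty =>
    intro z
    obtain ⟨s, hs⟩ := IsAlgClosed.exists_pow_nat_eq (Q3 (P z)) (n := 2) (by norm_num)
    refine ⟨fun _ => s, ⟨?_, ?_, ?_⟩, IsPoly.const s, ?_⟩
    · intro i hi
      exact absurd hi (Finset.notMem_empty i)
    · intro i hi
      exact absurd hi (Finset.notMem_empty i)
    · intro y y' _
      rfl
    · intro y
      rw [Finset.piecewise_empty, hs]
  | @insert i I hi ih =>
    intro z
    by_cases hall : ∀ y : Fin m → M3 Ω, Q3 (P ((insert i I).piecewise y z)) = 0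
    · refine ⟨fun _ => 0, ⟨?_, ?_, ?_⟩, IsPoly.const 0, ?_⟩
      · intro j hj y a b
        rw [add_zero]
      · intro j hj y c a
        rw [smul_zero]
      · intro y y' _
        rfl
      · intro y
        rw [hall y]
        norm_num
    push Not at hall
    obtain ⟨y0, hy0⟩ := hall
    obtain ⟨W, hW⟩ : ∃ W : (Fin m → M3 Ω) → M3 Ω →ₗ[Ω] M3 Ω, ∀ y a, W y a = P (Function.update (I.piecewise y z) i a) :=
      ⟨fun y => P.toLinearMap (I.piecewise y z) i, fun y a => rfl⟩
    have hWpc : ∀ y a, W y a = P (I.piecewise y (Function.update z i a)) := by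
      intro y a
      rw [hW, Finset.update_piecewise_of_notMem I _ _ hi]
    have hWin : ∀ y, W y (y i) = P ((insert i I).piecewise y z) := by
      intro y
      rw [hW, Finset.piecewise_insert]
    have hpolyG : ∀ G : (Fin m → M3 Ω) → M3 Ω, IsPolyM G → IsPolyM fun y => W y (G y) := by
      intro G hG
      have e : (fun y => W y (G y)) = fun y => P fun j => Function.update (I.piecewise y z) i (G y) j := by
        funext y
        rw [hW]
      rw [e]
      refine IsPolyM.ml P (G := fun j y => Function.update (I.piecewise y z) i (G y) j) fun j => ?_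
      by_cases hj : j = i
      · subst hj
        simpa only [Function.update_self] using hG
      · by_cases hjI : j ∈ I
        · simpa only [Function.update_of_ne hj, Finset.piecewise_eq_of_mem _ _ _ hjI] using IsPolyM.coord j
        · simpa only [Function.update_of_ne hj, Finset.piecewise_eq_of_notMem _ _ _ hjI] using IsPolyM.const (z j)
    have hdisc : ∀ y a b, b3 (W y b) (W y a) ^ 2 = 4 * Q3 (W y a) * Q3 (W y b) := by
      intro y a b
      have h1 := h i (Function.update (I.piecewise y z) i a) b
      rw [Function.update_idem, ← hW, ← hW] at h1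
      unfold disc at h1
      rw [b3_comm75 (W y b)]
      linear_combination h1
    obtain ⟨f0, hf0l, hf0p, hf0⟩ := ih (Function.update z i (y0 i))
    have hf0' : ∀ y, Q3 (W y (y0 i)) = f0 y ^ 2 := by
      intro y
      rw [hWpc]
      exact hf0 y
    have hf0ne : f0 y0 ≠ 0 := by
      intro h0
      apply hy0
      rw [← hWin, hf0', h0]
      norm_num
    have hg : ∀ a : M3 Ω, ∃ g : (Fin m → M3 Ω) → Ω, SlotLin I g ∧ IsPoly g ∧
        ∀ y, b3 (W y a) (W y (y0 i)) = 2 * g y * f0 y := by
      intro a
      obtain ⟨f', hl, hp, hf'⟩ := ih (Function.update z i a)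
      have hf'' : ∀ y, Q3 (W y a) = f' y ^ 2 := by
        intro y
        rw [hWpc]
        exact hf' y
      have hb : IsPoly fun y => b3 (W y a) (W y (y0 i)) :=
        isPoly_b3 (hpolyG _ (IsPolyM.const a)) (hpolyG _ (IsPolyM.const (y0 i)))
      have hp2 : IsPoly fun y => 2 * f' y * f0 y := ((IsPoly.const 2).mul hp).mul hf0p
      by_cases hA : ∀ y, b3 (W y a) (W y (y0 i)) = 2 * f' y * f0 y
      · exact ⟨f', hl, hp, hA⟩
      by_cases hB : ∀ y, b3 (W y a) (W y (y0 i)) = -(2 * f' y * f0 y)
      · refine ⟨fun y => -f' y, ⟨?_, ?_, ?_⟩, hp.neg, ?_⟩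
        · intro j hj y u v
          have := hl.add j hj y u v
          show -f' _ = -f' _ + -f' _
          rw [this]
          ring
        · intro j hj y c u
          have := hl.smul j hj y c u
          show -f' _ = c • -f' _
          rw [this, smul_neg]
        · intro y y' hyy
          show -f' _ = -f' _
          rw [hl.dep y y' hyy]
        · intro y
          rw [hB y]
          ring
      exfalso
      push Not at hA hB
      obtain ⟨yA, hA⟩ := hA
      obtain ⟨yB, hB⟩ := hB
      obtain ⟨y, h1, h3⟩ := Op.exists_and (Op.ne (hb.sub hp2)) (Op.ne (hb.add hp2))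
        ⟨yA, fun hh => hA (sub_eq_zero.1 hh)⟩ ⟨yB, fun hh => hB (eq_neg_of_add_eq_zero_left hh)⟩
      apply mul_ne_zero h1 h3
      have h5 := hdisc y (y0 i) a
      rw [hf0', hf''] at h5
      linear_combination h5
    choose g hgl hgp hgb using hg
    obtain ⟨f, hf⟩ : ∃ f : (Fin m → M3 Ω) → Ω, ∀ y, f y = ∑ r, ∑ s, (y i) r s * g (E r s) y := ⟨_, fun y => rfl⟩
    have hkey : ∀ y, b3 (W y (y i)) (W y (y0 i)) = 2 * f y * f0 y := by
      intro y
      have h1 := lin75 ((bl75 (W y (y0 i))).comp (W y)) (y i)
      have h3 : ∀ A, ((bl75 (W y (y0 i))).comp (W y)) A = b3 (W y A) (W y (y0 i)) := fun A => rfl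
      simp only [h3] at h1
      rw [h1, hf, Finset.mul_sum, Finset.sum_mul]
      refine Finset.sum_congr rfl fun r _ => ?_
      rw [Finset.mul_sum, Finset.sum_mul]
      refine Finset.sum_congr rfl fun s _ => ?_
      rw [hgb]
      ring
    have hfe : f = fun y => ∑ r, ∑ s, (y i) r s * g (E r s) y := funext hf
    have hfp : IsPoly f := by
      rw [hfe]
      exact IsPoly.sum _ fun r _ => IsPoly.sum _ fun s _ => (IsPoly.coord i r s).mul (hgp _)
    refine ⟨f, ⟨?_, ?_, ?_⟩, hfp, ?_⟩
    · intro j hj y a b
      rw [hf, hf, hf, ← Finset.sum_add_distrib]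
      refine Finset.sum_congr rfl fun r _ => ?_
      rw [← Finset.sum_add_distrib]
      refine Finset.sum_congr rfl fun s _ => ?_
      rcases Finset.mem_insert.1 hj with rfl | hjI
      · rw [Function.update_self, Function.update_self, Function.update_self]
        have e1 : ∀ c : M3 Ω, g (E r s) (Function.update y j c) = g (E r s) y := by
          intro c
          refine (hgl _).dep _ _ fun l hl => ?_
          rw [Function.update_of_ne]
          rintro rfl
          exact hi hl
        rw [e1, e1, e1, Matrix.add_apply]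
        ring
      · have hji : i ≠ j := by
          rintro rfl
          exact hi hjI
        rw [Function.update_of_ne hji, Function.update_of_ne hji, Function.update_of_ne hji, (hgl _).add j hjI]
        ring
    · intro j hj y c a
      rw [hf, hf, Finset.smul_sum]
      refine Finset.sum_congr rfl fun r _ => ?_
      rw [Finset.smul_sum]
      refine Finset.sum_congr rfl fun s _ => ?_
      rcases Finset.mem_insert.1 hj with rfl | hjI
      · rw [Function.update_self, Function.update_self]
        have e1 : ∀ c : M3 Ω, g (E r s) (Function.update y j c) = g (E r s) y := by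
          intro c
          refine (hgl _).dep _ _ fun l hl => ?_
          rw [Function.update_of_ne]
          rintro rfl
          exact hi hl
        rw [e1, e1, Matrix.smul_apply, smul_eq_mul, smul_eq_mul]
        ring
      · have hji : i ≠ j := by
          rintro rfl
          exact hi hjI
        rw [Function.update_of_ne hji, Function.update_of_ne hji, (hgl _).smul j hjI, smul_eq_mul, smul_eq_mul]
        ring
    · intro y y' hyy
      rw [hf, hf]
      refine Finset.sum_congr rfl fun r _ => Finset.sum_congr rfl fun s _ => ?_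
      rw [hyy i (Finset.mem_insert_self i I), (hgl _).dep y y' fun l hl => hyy l (Finset.mem_insert_of_mem hl)]
    · intro y
      rw [← hWin]
      by_contra hne
      have hp3 : IsPoly fun y => Q3 (W y (y i)) - f y ^ 2 :=
        (isPoly_Q3 (hpolyG _ (IsPolyM.coord i))).sub (hfp.pow 2)
      obtain ⟨y1, h1, h3⟩ := Op.exists_and (Op.ne hf0p) (Op.ne hp3) ⟨y0, hf0ne⟩ ⟨y, fun hh => hne (sub_eq_zero.1 hh)⟩
      have h5 := hdisc y1 (y0 i) (y1 i)
      rw [hf0', hkey] at h5
      apply mul_ne_zero (mul_ne_zero h4 (pow_ne_zero 2 h1)) h3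
      linear_combination -h5

theorem exists_sqrt {Ω : Type u} [Field Ω] [IsAlgClosed Ω] (h2 : (2 : Ω) ≠ 0) {m : ℕ}
    (P : ML Ω (Fin m))
    (h : ∀ (i : Fin m) (x : Fin m → M3 Ω) (a : M3 Ω),
      disc (P x) (P (Function.update x i a)) = 0) :
    ∃ f : MultilinearMap Ω (fun _ : Fin m => M3 Ω) Ω, ∀ x, Q3 (P x) = f x ^ 2 := by
  obtain ⟨f, hl, -, hf⟩ := step75 h2 P h Finset.univ 0
  refine ⟨MultilinearMap.mk' f (fun y i a b => hl.add i (Finset.mem_univ i) y a b)
    (fun y i c a => hl.smul i (Finset.mem_univ i) y c a), fun x => ?_⟩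
  have h1 := hf x
  rw [Finset.piecewise_univ] at h1
  exact h1

end Pool.Agent.H88KL
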