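import Pool.Agent.Helper88.KL.Zero
import Pool.Agent.Helper88.KL.Sq
import Pool.Agent.Helper88.KL.Fin2
import Pool.Agent.Helper88.KL.PauliSq

/-!
# The third target and the class `trace = c2 = 0` over an algebraically closed field
-/

open Matrix

namespace Pool.Agent.H88KL

open Pool.Agent.H24ML

universe u

theorem trace_mapK88 {K Ω : Type u} [Field K] [Field Ω] [Algebra K Ω] (X : M3 K) :
    trace ((Algebra.ofId K Ω).mapMatrix X) = algebraMap K Ω (trace X) := by
  simp [trace, Matrix.diag, Fin.sum_univ_three, Algebra.ofId_apply]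

theorem c2_mapK88 {K Ω : Type u} [Field K] [Field Ω] [Algebra K Ω] (X : M3 K) :
    c2 ((Algebra.ofId K Ω).mapMatrix X) = algebraMap K Ω (c2 X) := by
  simp [c2, Algebra.ofId_apply]

theorem scalar_mapK88 {K Ω : Type u} [Field K] [Field Ω] [Algebra K Ω] (X : M3 K)
    (h : ∃ a : Ω, (Algebra.ofId K Ω).mapMatrix X = a • (1 : M3 Ω)) :
    ∃ a : K, X = a • (1 : M3 K) := by
  obtain ⟨a, ha⟩ := h
  have hinj := (algebraMap K Ω).injective
  have he : ∀ i j, algebraMap K Ω (X i j) = a * (1 : M3 Ω) i j := fun i j => by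
    have h1 := congrFun (congrFun ha i) j
    simpa [Algebra.ofId_apply] using h1
  refine ⟨X 0 0, ?_⟩
  ext i j
  have h00 := he 0 0
  rw [Matrix.one_apply_eq, mul_one] at h00
  apply hinj
  rw [he i j, Matrix.smul_apply, smul_eq_mul, map_mul, h00]
  by_cases hij : i = j
  · subst hij
    rw [Matrix.one_apply_eq, Matrix.one_apply_eq, map_one]
  · rw [Matrix.one_apply_ne hij, Matrix.one_apply_ne hij, map_zero]

/-- `3 c2 = trace ^ 2`. -/
theorem hit3 {K : Type u} [Field K] [IsAlgClosed K] {m : ℕ} (c : Equiv.Perm (Fin m) → K)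
    (b : K) (hb : 3 * b = 1)
    (hV : ∃ x : Fin m → M3 K, trace (evalML K c x) ≠ 0 ∧
      c2 (evalML K c x) = b * trace (evalML K c x) ^ 2 ∧
      ¬ ∃ a : K, evalML K c x = a • (1 : M3 K)) (d : K) :
    ∃ x : Fin m → M3 K, trace (evalML K c x) = 1 ∧ c2 (evalML K c x) = b ∧
      det (evalML K c x) = d := by
  obtain ⟨Ω, _, _, _, L, ⟨F⟩⟩ := exists_divForm K
  have hK : Infinite K := inferInstance
  have : Infinite L := Infinite.of_injective _ (algebraMap K L).injective
  obtain ⟨x, hx1, hx2, hx3⟩ := hV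
  have hbL : algebraMap L Ω (algebraMap K L b) = algebraMap K Ω b :=
    (IsScalarTower.algebraMap_apply K L Ω b).symm
  have hb' : (3 : Ω) * algebraMap L Ω (algebraMap K L b) = 1 := by
    have h := congrArg (algebraMap K Ω) hb
    rw [map_mul, map_ofNat, map_one] at h
    rw [hbL]
    exact h
  rcases dich F (algebraMap K L b) hb' (algebraMap K Ω d) _ _ rfl (evalML Ω c)
    (nice_evalML L F c) with ⟨y, hy1, hy2, hy3⟩ | h
  · exact descend3 c 1 b d ⟨y, by rw [hy1, map_one], by rw [hy2, hbL], hy3⟩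
  · exfalso
    apply hx3
    have h1 := h (fun j => (Algebra.ofId K Ω).mapMatrix (x j))
    rw [evalML_map', trace_mapK88, c2_mapK88] at h1
    exact scalar_mapK88 _ (h1 ((map_ne_zero _).2 hx1) (by rw [hx2, map_mul, map_pow, hbL]))

/-- `trace = c2 = 0`, `det ≠ 0`. -/
theorem hit0 {K : Type u} [Field K] [IsAlgClosed K] {m : ℕ} (c : Equiv.Perm (Fin m) → K)
    (h0 : ∃ x : Fin m → M3 K, ¬ ∃ a : K, evalML K c x = a • (1 : M3 K))
    (h1 : ∃ x : Fin m → M3 K, trace (evalML K c x) ≠ 0) (d : K) (hd : d ≠ 0) :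
    ∃ x : Fin m → M3 K, trace (evalML K c x) = 0 ∧ c2 (evalML K c x) = 0 ∧
      det (evalML K c x) = d := by
  obtain ⟨Ω, _, _, _, L, ⟨F⟩⟩ := exists_divForm K
  have hK : Infinite K := inferInstance
  have : Infinite L := Infinite.of_injective _ (algebraMap K L).injective
  obtain ⟨x0, hx0⟩ := h0
  obtain ⟨x1, hx1⟩ := h1
  obtain ⟨y, hy1, hy2, hy3⟩ := zero_class F (nice_evalML L F c)
    (y0 := fun j => (Algebra.ofId K Ω).mapMatrix (x0 j))
    (y1 := fun j => (Algebra.ofId K Ω).mapMatrix (x1 j))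
    (by
      rw [evalML_map']
      exact fun h => hx0 (scalar_mapK88 _ h))
    (by
      rw [evalML_map', trace_mapK88]
      exact (map_ne_zero _).2 hx1) (d := algebraMap K Ω d) ((map_ne_zero _).2 hd)
  exact descend3 c 0 0 d ⟨y, by rw [hy1, map_zero], by rw [hy2, map_zero], hy3⟩

/-- A pair with nonzero discriminant gives a value with `3 c2 = trace ^ 2`, not scalar. -/
theorem exists_Q3_zero {K : Type u} [Field K] [IsAlgClosed K] {A B : M3 K} {b : K}
    (hb : 3 * b = 1) (hT : trace A ≠ 0) (hd : disc A B ≠ 0) :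
    ∃ s t : K, trace (s • A + t • B) ≠ 0 ∧
      c2 (s • A + t • B) = b * trace (s • A + t • B) ^ 2 ∧
      ¬ ∃ a : K, s • A + t • B = a • (1 : M3 K) := by
  have hns : ∀ s t : K, ¬ (s = 0 ∧ t = 0) → ¬ ∃ a : K, s • A + t • B = a • (1 : M3 K) := by
    rintro s t hst ⟨a, ha⟩
    by_cases ht : t = 0
    · have hs : s ≠ 0 := fun hs => hst ⟨hs, ht⟩
      have h1 := disc_comb s t 0 1 A B
      rw [ha, disc_scalar] at h1
      rcases mul_eq_zero.1 h1.symm with h2 | h2
      · exact hs (by simpa using h2)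
      · exact hd h2
    · have h1 := disc_comb s t 1 0 A B
      rw [ha, disc_scalar] at h1
      rcases mul_eq_zero.1 h1.symm with h2 | h2
      · exact ht (by simpa using h2)
      · exact hd h2
  have hconv : ∀ X : M3 K, Q3 X = 0 → c2 X = b * trace X ^ 2 := by
    intro X hX
    unfold Q3 at hX
    linear_combination (-b) * hX - c2 X * hb
  by_cases hA : Q3 A = 0
  · refine ⟨1, 0, ?_, ?_, hns 1 0 (by simp)⟩
    · rw [one_smul, zero_smul, add_zero]
      exact hT
    · rw [one_smul, zero_smul, add_zero]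
      exact hconv A hA
  -- the two roots
  obtain ⟨s, hs⟩ : ∃ s : K, Q3 A * s ^ 2 + b3 A B * s + Q3 B = 0 := by
    obtain ⟨s, hs⟩ := IsAlgClosed.exists_root
      (Polynomial.C (Q3 A) * Polynomial.X ^ 2 + Polynomial.C (b3 A B) * Polynomial.X +
        Polynomial.C (Q3 B)) (by rw [Polynomial.degree_quadratic hA]; norm_num)
    refine ⟨s, ?_⟩
    simpa using hs
  -- the second root
  set s' := -(b3 A B / Q3 A) - s with hs'
  have hs2 : Q3 A * s' ^ 2 + b3 A B * s' + Q3 B = 0 := by
    rw [hs', ← hs]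
    field_simp
    ring
  have hne : s ≠ s' := by
    intro h
    apply hd
    have h1 : b3 A B = -(2 * Q3 A * s) := by
      have h2 : 2 * s = -(b3 A B / Q3 A) := by
        linear_combination h + hs'
      field_simp at h2
      linear_combination h2
    unfold disc
    have h3 : Q3 B = Q3 A * s ^ 2 := by
      rw [h1] at hs
      linear_combination hs
    rw [h1, h3]
    ring
  have hQ : ∀ s : K, Q3 A * s ^ 2 + b3 A B * s + Q3 B = 0 → Q3 (s • A + (1 : K) • B) = 0 := by
    intro s hs
    rw [Q3_comb, ← hs]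
    ring
  by_cases ht : trace (s • A + (1 : K) • B) = 0
  · refine ⟨s', 1, ?_, hconv _ (hQ s' hs2), hns s' 1 (by simp)⟩
    intro ht'
    rw [trace_add, trace_smul, trace_smul, smul_eq_mul, smul_eq_mul] at ht ht'
    have h1 : (s - s') * trace A = 0 := by linear_combination ht - ht'
    rcases mul_eq_zero.1 h1 with h2 | h2
    · exact hne (sub_eq_zero.1 h2)
    · exact hT h2
  · exact ⟨s, 1, ht, hconv _ (hQ s hs), hns s 1 (by simp)⟩

/-- From a nonzero discriminant in one slot to a value. -/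
theorem exists_value_of_disc {K : Type u} [Field K] [IsAlgClosed K] {m : ℕ}
    (c : Equiv.Perm (Fin m) → K) {b : K} (hb : 3 * b = 1)
    (hT : ∃ x : Fin m → M3 K, trace (evalML K c x) ≠ 0)
    (hd : ∃ (x : Fin m → M3 K) (i : Fin m) (a : M3 K),
      disc (evalML K c x) (evalML K c (Function.update x i a)) ≠ 0) :
    ∃ x : Fin m → M3 K, trace (evalML K c x) ≠ 0 ∧
      c2 (evalML K c x) = b * trace (evalML K c x) ^ 2 ∧
      ¬ ∃ a : K, evalML K c x = a • (1 : M3 K) := by
  have : Infinite K := inferInstance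
  obtain ⟨x, i, a, hd⟩ := hd
  obtain ⟨x', hT⟩ := hT
  have hup : ∀ y : Fin 2 → Fin m → M3 K, ({i} : Finset (Fin m)).piecewise (y 1) (y 0) =
      Function.update (y 0) i (y 1 i) := fun y => Finset.piecewise_singleton _ _ _
  have hO1 : OpT fun y : Fin 2 → Fin m → M3 K =>
      disc (evalML K c (({i} : Finset (Fin m)).piecewise (y 0) (y 0)))
        (evalML K c (({i} : Finset (Fin m)).piecewise (y 1) (y 0))) ≠ 0 :=
    Op.ne (isPoly_disc (isPolyM_piecewise _ _ 0 0) (isPolyM_piecewise _ _ 1 0))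
  have hO2 : OpT fun y : Fin 2 → Fin m → M3 K =>
      trace (evalML K c (({i} : Finset (Fin m)).piecewise (y 0) (y 0))) ≠ 0 :=
    Op.ne (IsPolyM.trace (isPolyM_piecewise _ _ 0 0))
  obtain ⟨y, hy1, hy2⟩ := hO1.exists_and hO2
    ⟨![x, Function.update x i a], by
      simp only [Matrix.cons_val_zero, Matrix.cons_val_one, Finset.piecewise_same,
        Finset.piecewise_singleton, Function.update_self]
      exact hd⟩
    ⟨![x', x'], by
      simp only [Matrix.cons_val_zero, Finset.piecewise_same]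
      exact hT⟩
  rw [Finset.piecewise_same, hup] at hy1
  rw [Finset.piecewise_same] at hy2
  obtain ⟨s, t, h1, h2, h3⟩ := exists_Q3_zero hb hy2 hy1
  have hval : s • evalML K c (y 0) + t • evalML K c (Function.update (y 0) i (y 1 i)) =
      evalML K c (Function.update (y 0) i (s • y 0 i + t • y 1 i)) := comb46 _ _ _ _ _ _
  rw [hval] at h1 h2 h3
  exact ⟨_, h1, h2, h3⟩

/-- If `trace ^ 2 - 3 c2` is not the square of a multilinear form, some value which is not scalar
has `3 c2 = trace ^ 2`. -/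
theorem exists_value_of_not_sq {K : Type u} [Field K] [IsAlgClosed K] (h2 : (2 : K) ≠ 0) {m : ℕ}
    (c : Equiv.Perm (Fin m) → K) {b : K} (hb : 3 * b = 1)
    (hT : ∃ x : Fin m → M3 K, trace (evalML K c x) ≠ 0)
    (hF : ¬ ∃ f : MultilinearMap K (fun _ : Fin m => M3 K) K, ∀ x,
      trace (evalML K c x) ^ 2 - 3 * c2 (evalML K c x) = f x ^ 2) :
    ∃ x : Fin m → M3 K, trace (evalML K c x) ≠ 0 ∧
      c2 (evalML K c x) = b * trace (evalML K c x) ^ 2 ∧
      ¬ ∃ a : K, evalML K c x = a • (1 : M3 K) := by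
  apply exists_value_of_disc c hb hT
  by_contra hne
  push Not at hne
  exact hF (exists_sqrt h2 (evalML K c) fun i x a => hne x i a)

/-- `3 c2 = trace ^ 2`, unconditional. -/
theorem hit3' {K : Type u} [Field K] [IsAlgClosed K] {m : ℕ} (c : Equiv.Perm (Fin m) → K)
    (b : K) (hb : 3 * b = 1)
    (hV : ∃ x x' : Fin m → M3 K, c2 (evalML K c x) * trace (evalML K c x') ^ 2 ≠
      c2 (evalML K c x') * trace (evalML K c x) ^ 2) (d : K) :
    ∃ x : Fin m → M3 K, trace (evalML K c x) = 1 ∧ c2 (evalML K c x) = b ∧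
      det (evalML K c x) = d := by
  obtain ⟨Ω, _, _, _, L, ⟨F⟩⟩ := exists_divForm K
  have hK : Infinite K := inferInstance
  have : Infinite L := Infinite.of_injective _ (algebraMap K L).injective
  have hbL : algebraMap L Ω (algebraMap K L b) = algebraMap K Ω b :=
    (IsScalarTower.algebraMap_apply K L Ω b).symm
  have hb' : (3 : Ω) * algebraMap L Ω (algebraMap K L b) = 1 := by
    have h := congrArg (algebraMap K Ω) hb
    rw [map_mul, map_ofNat, map_one] at h
    rw [hbL]
    exact h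
  rcases dichF F (algebraMap K L b) hb' (algebraMap K Ω d) _ _ rfl (evalML Ω c)
    (nice_evalML L F c) with ⟨y, hy1, hy2, hy3⟩ | ⟨-, h⟩
  · exact descend3 c 1 b d ⟨y, by rw [hy1, map_one], by rw [hy2, hbL], hy3⟩
  · exfalso
    obtain ⟨x, x', hx⟩ := hV
    -- some value has nonzero trace
    obtain ⟨x1, hx1⟩ : ∃ x1 : Fin m → M3 K, trace (evalML K c x1) ≠ 0 := by
      by_contra hne
      push Not at hne
      apply hx
      rw [hne x, hne x']
      ring
    obtain ⟨f, hf⟩ := h ⟨fun j => (Algebra.ofId K Ω).mapMatrix (x1 j), by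
      rw [evalML_map', trace_mapK88]
      exact (map_ne_zero _).2 hx1⟩
    obtain ⟨w, hw⟩ : ∃ w : Ω, 1 + w + w ^ 2 = 0 := by
      obtain ⟨w, hw⟩ := IsAlgClosed.exists_root
        (Polynomial.C (1 : Ω) * Polynomial.X ^ 2 + Polynomial.C 1 * Polynomial.X +
          Polynomial.C 1) (by rw [Polynomial.degree_quadratic one_ne_zero]; norm_num)
      refine ⟨w, ?_⟩
      rw [Polynomial.IsRoot.def] at hw
      simp only [Polynomial.eval_add, Polynomial.eval_mul, Polynomial.eval_C,
        Polynomial.eval_pow, Polynomial.eval_X] at hw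
      linear_combination hw
    have h3 : (3 : Ω) ≠ 0 := by
      intro h0
      rw [h0, zero_mul] at hb'
      exact zero_ne_one hb'
    have hz := sq_zero w hw h3 c f hf
    have hQ : ∀ x : Fin m → M3 K, c2 (evalML K c x) = b * trace (evalML K c x) ^ 2 := by
      intro x
      have h5 := hz (fun j => (Algebra.ofId K Ω).mapMatrix (x j))
      unfold Q3 at h5
      rw [evalML_map', trace_mapK88, c2_mapK88, ← map_pow, ← map_ofNat (algebraMap K Ω) 3,
        ← map_mul, ← map_sub, map_eq_zero] at h5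
      linear_combination (-b) * h5 - c2 (evalML K c x) * hb
    apply hx
    rw [hQ x, hQ x']
    ring

end Pool.Agent.H88KL
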