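import Pool.Agent.Helper88.KL.M2Def

/-!
# Block KL-QB: the form `trace ^ 2 - 3 det` on a quaternion algebra

Let `u, v ∈ D` be independent and assume `disc (emb u) (emb v) = 0`. On combinations `w = s u + t v`
with `s, t ∈ L`, `Q3 (emb w) = trace w ^ 2 - 3 det w` (in `L`). There is `w ≠ 0` in `D` with
`Q3 (emb w) = 0`: if `Q3 (emb u) = 0` take `w = u`; otherwise
`w = - b u + 2 Q3(u) v` with `b = b3 (emb u) (emb v)` (in `L`: `b = Q3 (u + v) - Q3 u - Q3 v`), and
`Q3 (w) = - Q3(u) disc = 0` (`Q3_comb`), `w ≠ 0` as `2 Q3(u) ≠ 0`. Let `a ∈ K` with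
`3 a ^ 2 - 3 a + 1 = 0` (`K` is algebraically closed). Then
`det (w - a T(w)) = det w - a T(w) ^ 2 + a ^ 2 T(w) ^ 2 = T(w) ^ 2 (1/3 - a + a ^ 2) = 0`, and
`w - a T(w) 1 ∈ D`, so `w = a T(w) 1`, `T(w) = 2 a T(w)`. If `T(w) ≠ 0`, `2 a = 1`,
`3 a ^ 2 - 3 a + 1 = 1 / 4 ≠ 0`: contradiction. So `T(w) = 0` and `w = 0`, a contradiction.
-/

open Matrix

namespace Pool.Agent.H88KL

open Pool.Agent.H24ML

universe u

private theorem emb_comb93 {R : Type*} [CommRing R] (x y : R) (u v : M2 R) :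
    emb (x • u + y • v) = x • emb u + y • emb v := by
  ext i j
  fin_cases i <;> fin_cases j <;> simp [emb]

private theorem Q3_emb93 {Ω : Type u} [Field Ω] (w : M2 Ω) :
    Q3 (emb w) = trace w ^ 2 - 3 * det w := by
  unfold Q3
  rw [trace_emb, c2_emb]

private theorem isotropic93 {K Ω : Type u} [Field K] [IsAlgClosed K] [Field Ω] [Algebra K Ω]
    (h2 : (2 : K) ≠ 0) (h3 : (3 : K) ≠ 0) (L : IntermediateField K Ω) (F : Quat L Ω)
    {w : M2 Ω} (hw : w ∈ F.D) (hQ : Q3 (emb w) = 0) : w = 0 := by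
  have h2' : (2 : Ω) ≠ 0 := by
    have h := (map_ne_zero (algebraMap K Ω)).2 h2
    rwa [map_ofNat] at h
  have h3' : (3 : Ω) ≠ 0 := by
    have h := (map_ne_zero (algebraMap K Ω)).2 h3
    rwa [map_ofNat] at h
  obtain ⟨s, hs⟩ := IsAlgClosed.exists_pow_nat_eq (-3 : K) (n := 2) (by norm_num)
  have h6 : (6 : K) ≠ 0 := by
    have : (6 : K) = 2 * 3 := by norm_num
    rw [this]
    exact mul_ne_zero h2 h3
  obtain ⟨a, ha⟩ : ∃ a : K, 3 * a ^ 2 - 3 * a + 1 = 0 := by
    refine ⟨(3 + s) / 6, ?_⟩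
    field_simp
    linear_combination 3 * hs
  have ha' : 3 * (algebraMap K Ω a) ^ 2 - 3 * algebraMap K Ω a + 1 = 0 := by
    have h := congrArg (algebraMap K Ω) ha
    simp only [map_add, map_sub, map_mul, map_pow, map_ofNat, map_one, map_zero] at h
    exact h
  obtain ⟨t, ht⟩ := F.tr_mem w hw
  rw [Q3_emb93] at hQ
  have haL : algebraMap L Ω (algebraMap K L a) = algebraMap K Ω a := rfl
  set α : Ω := algebraMap K Ω a with hα
  have hmem : w - (α * trace w) • (1 : M2 Ω) ∈ F.D := by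
    have h4 : (α * trace w) • (1 : M2 Ω) = (algebraMap K L a * t) • (1 : M2 Ω) := by
      rw [← ht, ← haL, ← map_mul, algebraMap_smul]
    rw [h4]
    exact F.D.sub_mem hw (F.D.smul_mem F.D.one_mem _)
  have hdet : (w - (α * trace w) • (1 : M2 Ω)).det = 0 := by
    have h5 : (3 : Ω) * (w - (α * trace w) • (1 : M2 Ω)).det = 0 := by
      rw [det_fin_two, trace_fin_two] at *
      simp only [Matrix.sub_apply, Matrix.smul_apply, Matrix.one_apply_eq, smul_eq_mul, mul_one,
        Matrix.one_apply_ne (show (0 : Fin 2) ≠ 1 by decide),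
        Matrix.one_apply_ne (show (1 : Fin 2) ≠ 0 by decide), mul_zero, sub_zero]
      linear_combination (w 0 0 + w 1 1) ^ 2 * ha' - hQ
    exact (mul_eq_zero.1 h5).resolve_left h3'
  have hz : w - (α * trace w) • (1 : M2 Ω) = 0 := by
    by_contra hne
    exact F.det_ne _ hmem hne hdet
  have hw2 : w = (α * trace w) • (1 : M2 Ω) := sub_eq_zero.1 hz
  have hT : trace w = 2 * (α * trace w) := by
    conv_lhs => rw [hw2]
    rw [trace_smul, trace_one]
    simp
    ring
  have hT0 : trace w = 0 := by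
    by_contra hne
    have h7 : 2 * α = 1 := by
      have : trace w * (2 * α - 1) = 0 := by linear_combination -hT
      have := (mul_eq_zero.1 this).resolve_left hne
      linear_combination this
    have h8 : (1 : Ω) = 0 := by
      linear_combination 4 * ha' - (6 * α - 3) * h7
    exact one_ne_zero h8
  rw [hw2, hT0, mul_zero, zero_smul]

theorem disc_quat {K Ω : Type u} [Field K] [IsAlgClosed K] [Field Ω] [Algebra K Ω]
    (h2 : (2 : K) ≠ 0) (h3 : (3 : K) ≠ 0) (L : IntermediateField K Ω) (F : Quat L Ω)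
    {u v : M2 Ω} (hu : u ∈ F.D) (hv : v ∈ F.D) (huv : LinearIndependent Ω ![u, v]) :
    disc (emb u) (emb v) ≠ 0 := by
  intro hd
  have h2' : (2 : Ω) ≠ 0 := by
    have h := (map_ne_zero (algebraMap K Ω)).2 h2
    rwa [map_ofNat] at h
  rw [LinearIndependent.pair_iff] at huv
  have hu0 : u ≠ 0 := by
    intro h
    have := (huv 1 0 (by rw [h]; simp)).1
    exact one_ne_zero this
  have hQ : ∀ w ∈ F.D, ∃ r : L, algebraMap L Ω r = Q3 (emb w) := by
    intro w hw
    obtain ⟨r, hr⟩ := F.tr_mem w hw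
    obtain ⟨q, hq⟩ := F.det_mem w hw
    refine ⟨r ^ 2 - 3 * q, ?_⟩
    rw [Q3_emb93, ← hr, ← hq, map_sub, map_pow, map_mul, map_ofNat]
  obtain ⟨q, hq⟩ := hQ u hu
  obtain ⟨q', hq'⟩ := hQ v hv
  obtain ⟨q'', hq''⟩ := hQ (u + v) (F.D.add_mem hu hv)
  have hb : algebraMap L Ω (q'' - q - q') = b3 (emb u) (emb v) := by
    unfold b3
    have h4 := emb_comb93 1 1 u v
    simp only [one_smul] at h4
    rw [← h4, map_sub, map_sub, hq, hq', hq'']
  by_cases h0 : Q3 (emb u) = 0
  · exact hu0 (isotropic93 h2 h3 L F hu h0)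
  · have hmem : (-b3 (emb u) (emb v)) • u + (2 * Q3 (emb u)) • v ∈ F.D := by
      have h5 : (-b3 (emb u) (emb v)) • u = (-(q'' - q - q')) • u := by
        rw [← hb, ← map_neg, algebraMap_smul]
      have h6 : (2 * Q3 (emb u)) • v = (2 * q) • v := by
        rw [← hq, show (2 : Ω) = algebraMap L Ω 2 by rw [map_ofNat], ← map_mul, algebraMap_smul]
      rw [h5, h6]
      exact F.D.add_mem (F.D.smul_mem hu _) (F.D.smul_mem hv _)
    have hz : Q3 (emb ((-b3 (emb u) (emb v)) • u + (2 * Q3 (emb u)) • v)) = 0 := by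
      rw [emb_comb93, Q3_comb]
      unfold disc at hd
      linear_combination -(Q3 (emb u)) * hd
    have h7 := isotropic93 h2 h3 L F hmem hz
    have h8 := (huv _ _ h7).2
    exact mul_ne_zero h2' h0 h8

end Pool.Agent.H88KL
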