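import Pool.Agent.Helper88.KL.M2Def
import Pool.Agent.Helper88.KL.Path
import Pool.Agent.Helper88.KL.Ev

/-!
# Block KL-QC: independent values in one slot on the quaternion algebra

Let `corner X` be the matrix with the entries of `X` in the rows and columns `0, 1` and zero
elsewhere, `corner X = emb (the upper left block of X)`. `P' = (evalML Ω c).compLinearMap (fun _ => corner)`
is a multilinear map, `P' y = emb (ev2 Ω c (blocks of y))` if `m ≥ 1` (products of corner matrices);
for `m = 0` the hypothesis fails (the value is scalar).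

* `exists_slot`: (`h`: some value over `K`, so (`evalML_map'`) some value over `Ω`, is not scalar
  on `2 x 2` matrices). If all one-slot pairs of values of `P'` are dependent then all pairs are
  (`dep_of_slots`, `I = univ`). Let `w0 = P' y0 = emb X0`, `X0` not scalar. For `e = E 0 1, E 1 0` the
  commutator `[e, w0]` is a sum of values (`der_evalML`; `[e, corner y_k]` is in the corner), so a
  multiple of `w0`. Looking at the entries: `[E 0 1, w0] = l w0` gives
  `w0 1 0 = 0` and `w0 0 0 = w0 1 1` (if `l ≠ 0` all entries vanish), in the same way `w0 0 1 = 0`.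
  So `X0` is scalar, a contradiction.
* `exists_slot_D`: the pair `(y, a)` with independent values is an open condition (`OpT`,
  `m = 2`), and so is `trace (P' y) ≠ 0` (if it has a solution); by `Op.exists_sub` for the
  `L`-subspace of all `X` with upper left block in `F.D` (it spans over `Ω`) there is a solution
  with blocks in `F.D`. `ev2 Ω c d ∈ F.D` for `d_i ∈ F.D`.
-/

open Matrix

namespace Pool.Agent.H88KL

open Pool.Agent.H24ML

universe u

/-- The upper left corner. -/
noncomputable def corner (Ω : Type u) [Field Ω] : M3 Ω →ₗ[Ω] M3 Ω where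
  toFun X := emb !![X 0 0, X 0 1; X 1 0, X 1 1]
  map_add' X Y := by
    ext i j
    fin_cases i <;> fin_cases j <;> simp [emb]
  map_smul' a X := by
    ext i j
    fin_cases i <;> fin_cases j <;> simp [emb]

/-- the upper left block -/
private def blk94 {R : Type*} [CommRing R] (X : M3 R) : M2 R := !![X 0 0, X 0 1; X 1 0, X 1 1]

private theorem blk_emb94 {R : Type*} [CommRing R] (X : M2 R) : blk94 (emb X) = X := by
  ext i j
  fin_cases i <;> fin_cases j <;> simp [emb, blk94]

private theorem corner_eq94 {Ω : Type u} [Field Ω] (X : M3 Ω) : corner Ω X = emb (blk94 X) := rfl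

private theorem emb_mul94 {R : Type*} [CommRing R] (X Y : M2 R) : emb (X * Y) = emb X * emb Y := by
  ext i j
  fin_cases i <;> fin_cases j <;>
    simp [emb, Matrix.mul_apply, Fin.sum_univ_succ]

/-- `emb` as a linear map -/
private def embL94 (R : Type*) [CommRing R] : M2 R →ₗ[R] M3 R where
  toFun X := emb X
  map_add' X Y := by
    ext i j
    fin_cases i <;> fin_cases j <;> simp [emb]
  map_smul' a X := by
    ext i j
    fin_cases i <;> fin_cases j <;> simp [emb]

private theorem embL_apply94 {R : Type*} [CommRing R] (X : M2 R) : embL94 R X = emb X := rfl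

/-- the block as a linear map over a subfield -/
private def blkL94 (L Ω : Type*) [Field L] [Field Ω] [Algebra L Ω] : M3 Ω →ₗ[L] M2 Ω where
  toFun X := blk94 X
  map_add' X Y := by
    ext i j
    fin_cases i <;> fin_cases j <;> simp [blk94]
  map_smul' a X := by
    ext i j
    fin_cases i <;> fin_cases j <;> simp [blk94]

theorem ev2_mem {K Ω : Type u} [Field K] [Field Ω] [Algebra K Ω] {m : ℕ}
    (L : IntermediateField K Ω) (F : Quat L Ω) (c : Equiv.Perm (Fin m) → K)
    (d : Fin m → M2 Ω) (hd : ∀ i, d i ∈ F.D) : ev2 Ω c d ∈ F.D := by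
  unfold ev2
  refine Subalgebra.sum_mem F.D fun σ _ => ?_
  have h1 : algebraMap K Ω (c σ) • (List.ofFn fun k => d (σ k)).prod =
      (algebraMap K L (c σ) : L) • (List.ofFn fun k => d (σ k)).prod := by
    ext i j
    rw [Matrix.smul_apply, Matrix.smul_apply, Algebra.smul_def, IsScalarTower.algebraMap_apply K L Ω]
    rfl
  rw [h1]
  refine F.D.smul_mem ?_ _
  refine list_prod_mem fun x hx => ?_
  rw [List.mem_ofFn] at hx
  obtain ⟨k, rfl⟩ := hx
  exact hd _

private theorem prod_emb94 {R : Type*} [CommRing R] : ∀ (n : ℕ) (a : Fin (n + 1) → M2 R),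
    (List.ofFn fun k => emb (a k)).prod = emb (List.ofFn a).prod := by
  intro n
  induction n with
  | zero =>
    intro a
    simp [List.ofFn_succ]
  | succ n ih =>
    intro a
    rw [List.ofFn_succ, List.prod_cons, ih fun k => a k.succ, List.ofFn_succ (f := a),
      List.prod_cons, emb_mul94]

theorem evalML_emb {K : Type*} [Field K] (R : Type*) [CommRing R] [Algebra K R] {m : ℕ}
    (hm : 0 < m) (c : Equiv.Perm (Fin m) → K) (x : Fin m → M2 R) :
    evalML R c (fun i => emb (x i)) = emb (ev2 R c x) := by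
  obtain ⟨n, rfl⟩ : ∃ n, m = n + 1 := ⟨m - 1, by omega⟩
  rw [evalML_apply, ev2, ← embL_apply94, map_sum]
  refine Finset.sum_congr rfl fun σ _ => ?_
  rw [map_smul, embL_apply94, prod_emb94 n fun k => x (σ k)]

/-- Evaluation commutes with a change of the ring of coefficients. -/
private theorem ev2_map94 {K R S : Type*} [Field K] [CommRing R] [CommRing S] [Algebra K R]
    [Algebra K S] (f : R →ₐ[K] S) {m : ℕ} (c : Equiv.Perm (Fin m) → K) (x : Fin m → M2 R) :
    ev2 S c (fun j => f.mapMatrix (x j)) = f.mapMatrix (ev2 R c x) := by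
  unfold ev2
  rw [map_sum]
  refine Finset.sum_congr rfl fun σ _ => ?_
  have h1 : f.mapMatrix (algebraMap K R (c σ) • (List.ofFn fun k => x (σ k)).prod) =
      algebraMap K S (c σ) • f.mapMatrix (List.ofFn fun k => x (σ k)).prod := by
    ext a b
    simp only [AlgHom.mapMatrix_apply, Matrix.map_apply, Matrix.smul_apply, smul_eq_mul, map_mul,
      AlgHom.commutes]
  rw [h1, ← List.prod_hom, List.map_ofFn]
  rfl

private theorem scalar94 {R : Type*} [CommRing R] {X : M2 R} (h1 : X 0 1 = 0) (h2 : X 1 0 = 0)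
    (h3 : X 0 0 = X 1 1) : X = X 0 0 • (1 : M2 R) := by
  ext i j
  fin_cases i <;> fin_cases j <;> simp [h1, h2, ← h3]

/-- The polynomial on the corner matrices. -/
private noncomputable def cP94 {K : Type u} (Ω : Type u) [Field K] [Field Ω] [Algebra K Ω] {m : ℕ}
    (c : Equiv.Perm (Fin m) → K) : ML Ω (Fin m) :=
  (evalML Ω c).compLinearMap fun _ => corner Ω

private theorem cP_apply94 {K Ω : Type u} [Field K] [Field Ω] [Algebra K Ω] {m : ℕ} (hm : 0 < m)
    (c : Equiv.Perm (Fin m) → K) (y : Fin m → M3 Ω) :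
    cP94 Ω c y = emb (ev2 Ω c fun k => blk94 (y k)) := by
  rw [← evalML_emb Ω hm]
  rfl

private theorem E_emb94 {Ω : Type u} [Field Ω] (i j : Fin 2) :
    (E i.castSucc j.castSucc : M3 Ω) = emb (Matrix.single i j 1) := by
  ext a b
  fin_cases i <;> fin_cases j <;> fin_cases a <;> fin_cases b <;>
    simp [emb]

private theorem emb_sub94 {R : Type*} [CommRing R] (X Y : M2 R) : emb (X - Y) = emb X - emb Y :=
  map_sub (embL94 R) X Y

private theorem comm_corner94 {Ω : Type u} [Field Ω] (i j : Fin 2) (X : M3 Ω) :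
    corner Ω (E i.castSucc j.castSucc * corner Ω X - corner Ω X * E i.castSucc j.castSucc) =
      E i.castSucc j.castSucc * corner Ω X - corner Ω X * E i.castSucc j.castSucc := by
  rw [corner_eq94 X, E_emb94, ← emb_mul94, ← emb_mul94, ← emb_sub94, corner_eq94, blk_emb94]

private theorem der_cP94 {K Ω : Type u} [Field K] [Field Ω] [Algebra K Ω] {m : ℕ}
    (c : Equiv.Perm (Fin m) → K) (i j : Fin 2) (y : Fin m → M3 Ω) :
    ∑ k, cP94 Ω c (Function.update y k (E i.castSucc j.castSucc * corner Ω (y k) -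
      corner Ω (y k) * E i.castSucc j.castSucc)) =
      E i.castSucc j.castSucc * cP94 Ω c y - cP94 Ω c y * E i.castSucc j.castSucc := by
  have h := der_evalML c (E i.castSucc j.castSucc) fun k => corner Ω (y k)
  refine Eq.trans (Finset.sum_congr rfl fun k _ => ?_) h
  show evalML Ω c (fun l => corner Ω (Function.update y k (E i.castSucc j.castSucc *
    corner Ω (y k) - corner Ω (y k) * E i.castSucc j.castSucc) l)) = _
  congr 1
  funext l
  by_cases hl : l = k
  · subst hl
    rw [Function.update_self, Function.update_self, comm_corner94]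
  · rw [Function.update_of_ne hl, Function.update_of_ne hl]

/-- One matrix with independent values in one slot. -/
private theorem exists_slot94 {K Ω : Type u} [Field K] [Field Ω] [Algebra K Ω] {m : ℕ}
    (hm : 0 < m) (c : Equiv.Perm (Fin m) → K)
    (h : ∃ x : Fin m → M2 K, ¬ ∃ a : K, ev2 K c x = a • (1 : M2 K)) :
    ∃ (y : Fin m → M3 Ω) (i : Fin m) (a : M3 Ω),
      LinearIndependent Ω ![cP94 Ω c y, cP94 Ω c (Function.update y i a)] := by
  by_contra hcon
  push Not at hcon
  have hsl : SlotLin Finset.univ fun y => cP94 Ω c y :=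
    ⟨fun i _ y a b => (cP94 Ω c).map_update_add y i a b,
      fun i _ y r a => (cP94 Ω c).map_update_smul y i r a,
      fun y y' hy => congrArg _ (funext fun i => hy i (Finset.mem_univ i))⟩
  have hdep := dep_of_slots hsl fun i _ y a => hcon y i a
  obtain ⟨x, hx⟩ := h
  let f : K →ₐ[K] Ω := Algebra.ofId K Ω
  set y0 : Fin m → M3 Ω := fun k => emb (f.mapMatrix (x k)) with hy0
  set X0 : M2 Ω := f.mapMatrix (ev2 K c x) with hX0
  have hw0 : cP94 Ω c y0 = emb X0 := by
    rw [cP_apply94 hm, hX0, ← ev2_map94]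
    simp only [hy0, blk_emb94]
  have hent : ∀ i j, X0 i j = f (ev2 K c x i j) := fun i j => rfl
  have hinj : Function.Injective f := f.toRingHom.injective
  have hns : ¬ (X0 0 1 = 0 ∧ X0 1 0 = 0 ∧ X0 0 0 = X0 1 1) := by
    rintro ⟨h1, h2, h3⟩
    rw [hent] at h1 h2
    rw [hent, hent] at h3
    exact hx ⟨_, scalar94 ((map_eq_zero_iff f hinj).1 h1) ((map_eq_zero_iff f hinj).1 h2)
      (hinj h3)⟩
  have hne : emb X0 ≠ 0 := by
    intro h0
    have h1 : ∀ i j, emb X0 i j = 0 := fun i j => by rw [h0]; rfl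
    apply hns
    have a1 := h1 0 1
    have a2 := h1 1 0
    have a3 := h1 0 0
    have a4 := h1 1 1
    simp [emb] at a1 a2 a3 a4
    exact ⟨a1, a2, by rw [a3, a4]⟩
  have hmul : ∀ y : Fin m → M3 Ω, ∃ s : Ω, s • emb X0 = cP94 Ω c y := by
    intro y
    have h1 := hdep y0 y
    simp only [hw0] at h1
    rw [LinearIndependent.pair_iff' hne] at h1
    push Not at h1
    exact h1
  have hcomm : ∀ i j : Fin 2, ∃ l : Ω, Matrix.single i j 1 * X0 - X0 * Matrix.single i j 1 =
      l • X0 := by
    intro i j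
    choose s hs using fun k : Fin m => hmul (Function.update y0 k (E i.castSucc j.castSucc *
      corner Ω (y0 k) - corner Ω (y0 k) * E i.castSucc j.castSucc))
    refine ⟨∑ k, s k, ?_⟩
    have h1 : E i.castSucc j.castSucc * emb X0 - emb X0 * E i.castSucc j.castSucc =
        (∑ k, s k) • emb X0 := by
      rw [← hw0, ← der_cP94 c i j y0, hw0, Finset.sum_smul]
      exact Finset.sum_congr rfl fun k _ => (hs k).symm
    have h2 : emb (Matrix.single i j 1 * X0 - X0 * Matrix.single i j 1) =
        emb ((∑ k, s k) • X0) := by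
      rw [emb_sub94, emb_mul94, emb_mul94, ← E_emb94, h1]
      exact (map_smul (embL94 Ω) _ _).symm
    rw [← blk_emb94 (Matrix.single i j 1 * X0 - X0 * Matrix.single i j 1), h2, blk_emb94]
  obtain ⟨l, hl⟩ := hcomm 0 1
  obtain ⟨l', hl'⟩ := hcomm 1 0
  have e1 : ∀ a b : Fin 2, ((Matrix.single 0 1 1 * X0 - X0 * Matrix.single 0 1 1 : M2 Ω)) a b =
      l * X0 a b := fun a b => congrFun (congrFun hl a) b
  have e2 : ∀ a b : Fin 2, ((Matrix.single 1 0 1 * X0 - X0 * Matrix.single 1 0 1 : M2 Ω)) a b =
      l' * X0 a b := fun a b => congrFun (congrFun hl' a) b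
  have P00 : X0 1 0 = l * X0 0 0 := by
    simpa [Matrix.mul_apply, Fin.sum_univ_two, Matrix.single_apply] using e1 0 0
  have P01 : X0 1 1 - X0 0 0 = l * X0 0 1 := by
    simpa [Matrix.mul_apply, Fin.sum_univ_two, Matrix.single_apply] using e1 0 1
  have P10 : 0 = l * X0 1 0 := by
    have h1 := e1 1 0
    simp only [Matrix.sub_apply, Matrix.mul_apply, Fin.sum_univ_two, Matrix.single_apply] at h1
    rw [← h1]
    norm_num
  have Q11 : X0 0 1 = l' * X0 1 1 := by
    simpa [Matrix.mul_apply, Fin.sum_univ_two, Matrix.single_apply] using e2 1 1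
  have Q01 : 0 = l' * X0 0 1 := by
    have h1 := e2 0 1
    simp only [Matrix.sub_apply, Matrix.mul_apply, Fin.sum_univ_two, Matrix.single_apply] at h1
    rw [← h1]
    norm_num
  have h10 : X0 1 0 = 0 := by
    rcases mul_eq_zero.1 P10.symm with h | h
    · rw [P00, h, zero_mul]
    · exact h
  have h01 : X0 0 1 = 0 := by
    rcases mul_eq_zero.1 Q01.symm with h | h
    · rw [Q11, h, zero_mul]
    · exact h
  refine hns ⟨h01, h10, ?_⟩
  rw [h01, mul_zero] at P01
  exact (sub_eq_zero.1 P01).symm

theorem exists_slot_D {K Ω : Type u} [Field K] [Infinite K] [Field Ω] [Algebra K Ω] {m : ℕ}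
    (L : IntermediateField K Ω) (F : Quat L Ω) (c : Equiv.Perm (Fin m) → K)
    (h : ∃ x : Fin m → M2 K, ¬ ∃ a : K, ev2 K c x = a • (1 : M2 K)) :
    ∃ (d : Fin m → M2 Ω) (i : Fin m) (a : M2 Ω), (∀ k, d k ∈ F.D) ∧ a ∈ F.D ∧
      LinearIndependent Ω ![ev2 Ω c d, ev2 Ω c (Function.update d i a)] ∧
      ((∃ x : Fin m → M2 Ω, trace (ev2 Ω c x) ≠ 0) → trace (ev2 Ω c d) ≠ 0) := by
  have hm : 0 < m := by
    rcases Nat.eq_zero_or_pos m with rfl | hm
    · exfalso
      obtain ⟨x, hx⟩ := h
      exact hx ⟨∑ σ, c σ, by simp [ev2]⟩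
    · exact hm
  have : Infinite Ω := Infinite.of_injective (algebraMap K Ω) (algebraMap K Ω).injective
  have : Infinite L := Infinite.of_injective (algebraMap K L) (algebraMap K L).injective
  obtain ⟨y0, i, a0, hind⟩ := exists_slot94 (Ω := Ω) hm c h
  -- the slots are `some k`, the new value is `none`
  let G0 : Fin m → (Option (Fin m) → M3 Ω) → M3 Ω := fun k y => y (some k)
  let G1 : Fin m → (Option (Fin m) → M3 Ω) → M3 Ω := fun k y => if k = i then y none else y (some k)
  have hG0 : ∀ k, IsPolyM (G0 k) := fun k => IsPolyM.coord (some k)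
  have hG1 : ∀ k, IsPolyM (G1 k) := by
    intro k
    by_cases hk : k = i
    · simp only [G1, if_pos hk]
      exact IsPolyM.coord none
    · simp only [G1, if_neg hk]
      exact IsPolyM.coord (some k)
  have hP0 := IsPolyM.ml (cP94 Ω c) hG0
  have hP1 := IsPolyM.ml (cP94 Ω c) hG1
  have hQ1 : Op fun y : Option (Fin m) → M3 Ω => LinearIndependent Ω fun j : Fin 2 =>
      (![fun y : Option (Fin m) → M3 Ω => cP94 Ω c fun k => G0 k y,
        fun y : Option (Fin m) → M3 Ω => cP94 Ω c fun k => G1 k y] :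
          Fin 2 → (Option (Fin m) → M3 Ω) → M3 Ω) j y :=
    Op.indep fun j => by
      fin_cases j
      · exact hP0
      · exact hP1
  have hQ2 : Op fun y : Option (Fin m) → M3 Ω => trace (cP94 Ω c fun k => G0 k y) ≠ 0 :=
    Op.ne hP0.trace
  have hpair : ∀ y : Option (Fin m) → M3 Ω, (fun j : Fin 2 =>
      (![fun y : Option (Fin m) → M3 Ω => cP94 Ω c fun k => G0 k y,
        fun y : Option (Fin m) → M3 Ω => cP94 Ω c fun k => G1 k y] :
          Fin 2 → (Option (Fin m) → M3 Ω) → M3 Ω) j y) =
      ![cP94 Ω c fun k => G0 k y, cP94 Ω c fun k => G1 k y] := by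
    intro y
    funext j
    fin_cases j <;> rfl
  have hex1 : ∃ y : Option (Fin m) → M3 Ω, LinearIndependent Ω fun j : Fin 2 =>
      (![fun y : Option (Fin m) → M3 Ω => cP94 Ω c fun k => G0 k y,
        fun y : Option (Fin m) → M3 Ω => cP94 Ω c fun k => G1 k y] :
          Fin 2 → (Option (Fin m) → M3 Ω) → M3 Ω) j y := by
    refine ⟨fun o => o.elim a0 y0, ?_⟩
    rw [hpair]
    have h1 : (fun k => G1 k fun o => o.elim a0 y0) = Function.update y0 i a0 := by
      funext k
      by_cases hk : k = i
      · subst hk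
        simp [G1]
      · simp [G1, hk]
    rw [h1]
    exact hind
  -- the subspace
  let S : Submodule L (M3 Ω) := (Subalgebra.toSubmodule F.D).comap (blkL94 L Ω)
  have hmemS : ∀ X : M3 Ω, X ∈ S ↔ blk94 X ∈ F.D := fun X => Iff.rfl
  have hS : Submodule.span Ω (S : Set (M3 Ω)) = ⊤ := by
    rw [eq_top_iff]
    intro X _
    have h1 : X = emb (blk94 X) + (X - emb (blk94 X)) := by abel
    rw [h1]
    refine Submodule.add_mem _ ?_ (Submodule.subset_span ?_)
    · have h2 : blk94 X ∈ Submodule.span Ω (F.D : Set (M2 Ω)) := by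
        rw [F.span_top]
        trivial
      have h3 : embL94 Ω (blk94 X) ∈ (Submodule.span Ω (F.D : Set (M2 Ω))).map (embL94 Ω) :=
        Submodule.mem_map_of_mem h2
      rw [Submodule.map_span] at h3
      refine Submodule.span_mono ?_ h3
      rintro _ ⟨w, hw, rfl⟩
      show blk94 (emb w) ∈ F.D
      rw [blk_emb94]
      exact hw
    · show blk94 (X - emb (blk94 X)) ∈ F.D
      have h2 : blk94 (X - emb (blk94 X)) = 0 := by
        ext i j
        fin_cases i <;> fin_cases j <;> simp [emb, blk94]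
      rw [h2]
      exact F.D.zero_mem
  have key : ∃ y : Option (Fin m) → M3 Ω, (∀ o, y o ∈ S) ∧
      LinearIndependent Ω ![cP94 Ω c fun k => G0 k y, cP94 Ω c fun k => G1 k y] ∧
      ((∃ x : Fin m → M2 Ω, trace (ev2 Ω c x) ≠ 0) → trace (cP94 Ω c fun k => G0 k y) ≠ 0) := by
    by_cases htr : ∃ x : Fin m → M2 Ω, trace (ev2 Ω c x) ≠ 0
    · obtain ⟨x, hx⟩ := htr
      have hex2 : ∃ y : Option (Fin m) → M3 Ω, trace (cP94 Ω c fun k => G0 k y) ≠ 0 := by
        refine ⟨fun o => o.elim 0 fun k => emb (x k), ?_⟩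
        rw [cP_apply94 hm, trace_emb]
        simpa [G0, blk_emb94] using hx
      obtain ⟨y, hyS, hy⟩ := Op.exists_sub S hS (hQ1.and hQ2) (hQ1.exists_and hQ2 hex1 hex2)
      refine ⟨y, hyS, ?_, fun _ => hy.2⟩
      rw [← hpair]
      exact hy.1
    · obtain ⟨y, hyS, hy⟩ := Op.exists_sub S hS hQ1 hex1
      refine ⟨y, hyS, ?_, fun h1 => absurd h1 htr⟩
      rw [← hpair]
      exact hy
  obtain ⟨y, hyS, hy1, hy2⟩ := key
  refine ⟨fun k => blk94 (y (some k)), i, blk94 (y none), fun k => hyS _, hyS _, ?_, fun h1 => ?_⟩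
  · rw [cP_apply94 hm, cP_apply94 hm] at hy1
    have h1 : (fun k => blk94 (G1 k y)) =
        Function.update (fun k => blk94 (y (some k))) i (blk94 (y none)) := by
      funext k
      by_cases hk : k = i
      · subst hk
        simp [G1]
      · simp [G1, hk]
    rw [h1] at hy1
    refine LinearIndependent.of_comp (embL94 Ω) ?_
    have h2 : (embL94 Ω ∘ ![ev2 Ω c fun k => blk94 (y (some k)),
        ev2 Ω c (Function.update (fun k => blk94 (y (some k))) i (blk94 (y none)))]) =
        ![emb (ev2 Ω c fun k => blk94 (y (some k))),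
          emb (ev2 Ω c (Function.update (fun k => blk94 (y (some k))) i (blk94 (y none))))] := by
      funext j
      fin_cases j <;> rfl
    rw [h2]
    exact hy1
  · have h2 := hy2 h1
    rw [cP_apply94 hm, trace_emb] at h2
    exact h2

end Pool.Agent.H88KL
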