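import Pool.Agent.Helper88.KL.QuatA
import Pool.Agent.Helper88.KL.QuatB
import Pool.Agent.Helper88.KL.QuatC

/-!
# Block KL-QD: values of polynomials which are not central on 2 x 2 matrices

Take `Ω, L, F` from `exists_quat K` and `d, i, a` from `exists_slot_D`; `u = ev2 Ω c d`,
`v = ev2 Ω c (update d i a)`, both in `F.D` (`ev2_mem`), independent; `m > 0` (there is `i`).
Conditions over `Ω` go down to `K` by `Op.exists_sub` with `k = K` and the `K`-subspace of the
matrices with entries in `K` (the range of `Matrix.map`; it spans `M3 Ω` over `Ω`), applied to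
`Op`-conditions on a family of `3 x 3` matrices, indexed by `Fin 2 × Fin m` or `OpT` (the slot `i`
of the second family is used as `a`): all maps are polynomial (`IsPolyM.ml`, `isPolyM_piecewise`,
`IsPolyM.c2`, `.trace`, `IsPolyM.smul`, `isPoly_disc`), evaluation commutes with
the extension of scalars (`evalML_map'`).

* `noncentral_disc`: `disc (emb u) (emb v) ≠ 0` by `disc_quat`, and `emb u = evalML Ω c (emb d)`,
  `emb v = evalML Ω c (update (emb d) i (emb a))` (`evalML_emb`). So the open condition
  `disc (evalML Ω c y) (evalML Ω c (update y i a)) ≠ 0` on `(y, a)` has a solution, so it has one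
  over `K`.
* `noncentral_zero`: use the multilinear map `P' = (evalML · c).compLinearMap (fun _ => corner ·)`
  (over `K` and over `Ω`) to stay on `2 x 2` matrices. If the trace of `P'` over `K` is not
  identically zero, it is so over `Ω`, so `trace u ≠ 0`; `w = trace v • u - trace u • v` is in `F.D` (the
  traces are in `L`), not zero (`u`, `v` independent), `det w ≠ 0`: so
  `c2 (trace B • A - trace A • B) ≠ 0` for `A = P' y`, `B = P' (update y i a)` is an open
  condition which has a solution over `Ω`, hence over `K`; there take the value at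
  `update y i (trace B • y i - trace A • a)` (multilinearity): trace zero, `c2 ≠ 0`. If the
  trace of `P'` over `K` vanishes identically: `c2 (P' y) ≠ 0` is an open condition, it holds over
  `Ω` at `y = emb d` (`det u ≠ 0` as `u ≠ 0`), hence at some `y` over `K`, where the trace is zero.
-/

open Matrix

namespace Pool.Agent.H88KL

open Pool.Agent.H24ML

universe u

/-- extension of scalars -/
private noncomputable abbrev mp58 (K Ω : Type u) [Field K] [Field Ω] [Algebra K Ω] :
    M3 K →ₐ[K] M3 Ω :=
  (Algebra.ofId K Ω).mapMatrix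

private theorem span_map58 (K Ω : Type u) [Field K] [Field Ω] [Algebra K Ω] :
    Submodule.span Ω ((LinearMap.range (mp58 K Ω).toLinearMap : Submodule K (M3 Ω)) :
      Set (M3 Ω)) = ⊤ := by
  rw [eq_top_iff]
  intro X _
  rw [Matrix.matrix_eq_sum_single X]
  refine Submodule.sum_mem _ fun i _ => Submodule.sum_mem _ fun j _ => ?_
  have h : Matrix.single i j (X i j) = X i j • mp58 K Ω (Matrix.single i j 1) := by
    ext a b
    simp [mp58, Matrix.single_apply, Algebra.ofId_apply]
  rw [h]
  exact Submodule.smul_mem _ _ (Submodule.subset_span ⟨_, rfl⟩)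

/-- An open condition with a solution over `Ω` has a solution over `K`. -/
private theorem exists_K58 {K Ω : Type u} [Field K] [Infinite K] [Field Ω] [Algebra K Ω]
    {κ : Type} [Finite κ] {Q : (κ → M3 Ω) → Prop} (h : Op Q) (hne : ∃ y, Q y) :
    ∃ x : κ → M3 K, Q fun i => mp58 K Ω (x i) := by
  obtain ⟨y, hy, hQ⟩ := Op.exists_sub _ (span_map58 K Ω) h hne
  choose x hx using hy
  refine ⟨x, ?_⟩
  have h1 : (fun i => mp58 K Ω (x i)) = y := funext hx
  rw [h1]
  exact hQ

section

variable {K Ω : Type u} [Field K] [Field Ω] [Algebra K Ω]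

private theorem trace_map58 (X : M3 K) : trace (mp58 K Ω X) = algebraMap K Ω (trace X) := by
  simp [trace, Matrix.diag, Fin.sum_univ_three, Algebra.ofId_apply]

private theorem c2_map58 (X : M3 K) : c2 (mp58 K Ω X) = algebraMap K Ω (c2 X) := by
  simp [c2, Algebra.ofId_apply]

private theorem Q3_map58 (X : M3 K) : Q3 (mp58 K Ω X) = algebraMap K Ω (Q3 X) := by
  unfold Q3
  rw [trace_map58, c2_map58, map_sub, map_pow, map_mul, map_ofNat]

private theorem disc_map58 (X Y : M3 K) :
    disc (mp58 K Ω X) (mp58 K Ω Y) = algebraMap K Ω (disc X Y) := by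
  unfold disc b3
  rw [← map_add, Q3_map58, Q3_map58, Q3_map58]
  simp only [map_sub, map_pow, map_mul, map_ofNat]

private theorem smul_map58 (r : K) (X : M3 K) :
    mp58 K Ω (r • X) = algebraMap K Ω r • mp58 K Ω X := by
  rw [map_smul, algebraMap_smul]

private theorem corner_map58 (X : M3 K) : corner Ω (mp58 K Ω X) = mp58 K Ω (corner K X) := by
  ext i j
  fin_cases i <;> fin_cases j <;> simp [corner, emb]

end

/-- the second family: the new value `none` in the slot `i` -/
private def sl58 {R : Type*} {m : ℕ} (i : Fin m) (y : Option (Fin m) → M3 R) : Fin m → M3 R :=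
  Function.update (fun k => y (some k)) i (y none)

private theorem sl_map58 {R S : Type*} {m : ℕ} (i : Fin m) (f : M3 R → M3 S)
    (y : Option (Fin m) → M3 R) : (sl58 i fun o => f (y o)) = fun k => f (sl58 i y k) := by
  funext k
  unfold sl58
  by_cases hk : k = i
  · subst hk
    rw [Function.update_self, Function.update_self]
  · rw [Function.update_of_ne hk, Function.update_of_ne hk]

private theorem isPolyM_sl58 {Ω : Type u} [Field Ω] {m : ℕ} (P : ML Ω (Fin m)) (i : Fin m) :
    IsPolyM fun y : Option (Fin m) → M3 Ω => P (sl58 i y) := by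
  refine IsPolyM.ml P (G := fun k y => sl58 i y k) fun k => ?_
  unfold sl58
  by_cases hk : k = i
  · subst hk
    simp only [Function.update_self]
    exact IsPolyM.coord none
  · simp only [Function.update_of_ne hk]
    exact IsPolyM.coord (some k)

private theorem isPolyM_some58 {Ω : Type u} [Field Ω] {m : ℕ} (P : ML Ω (Fin m)) :
    IsPolyM fun y : Option (Fin m) → M3 Ω => P fun k => y (some k) :=
  IsPolyM.ml P (G := fun k y => y (some k)) fun k => IsPolyM.coord (some k)

private theorem emb_comb58 {R : Type*} [CommRing R] (x y : R) (u v : M2 R) :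
    emb (x • u - y • v) = x • emb u - y • emb v := by
  ext i j
  fin_cases i <;> fin_cases j <;> simp [emb]

/-- the family of `emb (d k)` and `emb a` -/
private def fam58 {R : Type*} [CommRing R] {m : ℕ} (d : Fin m → M2 R) (a : M2 R) :
    Option (Fin m) → M3 R :=
  fun o => o.elim (emb a) fun k => emb (d k)

private theorem sl_fam58 {R : Type*} [CommRing R] {m : ℕ} (i : Fin m) (d : Fin m → M2 R)
    (a : M2 R) : sl58 i (fam58 d a) = fun k => emb (Function.update d i a k) := by
  funext k
  unfold sl58 fam58
  by_cases hk : k = i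
  · subst hk
    rw [Function.update_self, Function.update_self]
    rfl
  · rw [Function.update_of_ne hk, Function.update_of_ne hk]
    rfl

theorem noncentral_disc {K : Type u} [Field K] [IsAlgClosed K] (h2 : (2 : K) ≠ 0)
    (h3 : (3 : K) ≠ 0) {m : ℕ} (c : Equiv.Perm (Fin m) → K)
    (h : ∃ x : Fin m → M2 K, ¬ ∃ a : K, ev2 K c x = a • (1 : M2 K)) :
    ∃ (x : Fin m → M3 K) (i : Fin m) (a : M3 K),
      disc (evalML K c x) (evalML K c (Function.update x i a)) ≠ 0 := by
  obtain ⟨Ω, _, _, L, ⟨F⟩⟩ := exists_quat K
  have hK : Infinite K := inferInstance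
  obtain ⟨d, i, a, hd, ha, hind, -⟩ := exists_slot_D L F c h
  have hm : 0 < m := i.pos
  have hd' : ∀ k, Function.update d i a k ∈ F.D := by
    intro k
    by_cases hk : k = i
    · subst hk
      rw [Function.update_self]
      exact ha
    · rw [Function.update_of_ne hk]
      exact hd k
  have hdisc := disc_quat h2 h3 L F (ev2_mem L F c d hd) (ev2_mem L F c _ hd') hind
  have hop : Op fun y : Option (Fin m) → M3 Ω =>
      disc (evalML Ω c fun k => y (some k)) (evalML Ω c (sl58 i y)) ≠ 0 :=
    Op.ne (isPoly_disc (isPolyM_some58 _) (isPolyM_sl58 _ i))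
  obtain ⟨x, hx⟩ := exists_K58 (K := K) hop ⟨fam58 d a, by
    rw [sl_fam58, evalML_emb Ω hm]
    show disc (evalML Ω c fun k => emb (d k)) _ ≠ 0
    rw [evalML_emb Ω hm]
    exact hdisc⟩
  refine ⟨fun k => x (some k), i, x none, fun h0 => hx ?_⟩
  rw [sl_map58 i (mp58 K Ω) x]
  have e1 : evalML Ω c (fun k => mp58 K Ω (x (some k))) = mp58 K Ω (evalML K c fun k =>
    x (some k)) := evalML_map' _ c _
  have e2 : evalML Ω c (fun k => mp58 K Ω (sl58 i x k)) = mp58 K Ω (evalML K c (sl58 i x)) :=
    evalML_map' _ c _
  rw [e1, e2, disc_map58]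
  have e3 : disc (evalML K c fun k => x (some k)) (evalML K c (sl58 i x)) = 0 := h0
  rw [e3, map_zero]

theorem noncentral_zero {K : Type u} [Field K] [IsAlgClosed K] {m : ℕ}
    (c : Equiv.Perm (Fin m) → K)
    (h : ∃ x : Fin m → M2 K, ¬ ∃ a : K, ev2 K c x = a • (1 : M2 K)) :
    ∃ x : Fin m → M3 K, trace (evalML K c x) = 0 ∧ c2 (evalML K c x) ≠ 0 := by
  obtain ⟨Ω, _, _, L, ⟨F⟩⟩ := exists_quat K
  have hK : Infinite K := inferInstance
  obtain ⟨d, i, a, hd, ha, hind, htr⟩ := exists_slot_D L F c h
  have hm : 0 < m := i.pos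
  have hd' : ∀ k, Function.update d i a k ∈ F.D := by
    intro k
    by_cases hk : k = i
    · subst hk
      rw [Function.update_self]
      exact ha
    · rw [Function.update_of_ne hk]
      exact hd k
  have hu := ev2_mem L F c d hd
  have hv := ev2_mem L F c _ hd'
  rw [LinearIndependent.pair_iff] at hind
  by_cases hT : ∃ x : Fin m → M2 K, trace (ev2 K c x) ≠ 0
  · -- some trace is not zero
    obtain ⟨x0, hx0⟩ := hT
    have htu : trace (ev2 Ω c d) ≠ 0 := by
      apply htr
      refine ⟨fun k => (Algebra.ofId K Ω).mapMatrix (x0 k), ?_⟩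
      rw [← trace_emb, ← evalML_emb Ω hm]
      have e1 : (fun k => emb ((Algebra.ofId K Ω).mapMatrix (x0 k))) =
          fun k => mp58 K Ω (emb (x0 k)) := by
        funext k
        ext p q
        fin_cases p <;> fin_cases q <;> simp [emb]
      rw [e1]
      have e2 : evalML Ω c (fun k => mp58 K Ω (emb (x0 k))) =
        mp58 K Ω (evalML K c fun k => emb (x0 k)) := evalML_map' _ c _
      rw [e2, trace_map58, evalML_emb K hm, trace_emb]
      exact (map_ne_zero _).2 hx0
    have hop : Op fun y : Option (Fin m) → M3 Ω =>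
        c2 (trace (evalML Ω c (sl58 i y)) • (evalML Ω c fun k => y (some k)) -
          trace (evalML Ω c fun k => y (some k)) • evalML Ω c (sl58 i y)) ≠ 0 :=
      Op.ne (IsPolyM.c2 (IsPolyM.sub (IsPolyM.smul (isPolyM_sl58 _ i).trace (isPolyM_some58 _))
        (IsPolyM.smul (isPolyM_some58 _).trace (isPolyM_sl58 _ i))))
    obtain ⟨x, hx⟩ := exists_K58 (K := K) hop ⟨fam58 d a, by
      rw [sl_fam58, evalML_emb Ω hm]
      show c2 (_ • (evalML Ω c fun k => emb (d k)) -
        trace (evalML Ω c fun k => emb (d k)) • _) ≠ 0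
      rw [evalML_emb Ω hm, trace_emb, trace_emb, ← emb_comb58, c2_emb]
      refine F.det_ne _ ?_ ?_
      · obtain ⟨r, hr⟩ := F.tr_mem _ hu
        obtain ⟨r', hr'⟩ := F.tr_mem _ hv
        rw [← hr, ← hr', algebraMap_smul, algebraMap_smul]
        exact F.D.sub_mem (F.D.smul_mem hu _) (F.D.smul_mem hv _)
      · intro h0
        have h1 := (hind (trace (ev2 Ω c (Function.update d i a))) (-trace (ev2 Ω c d)) (by
          rw [neg_smul, ← sub_eq_add_neg]
          exact h0)).2
        exact htu (neg_eq_zero.1 h1)⟩
    rw [sl_map58 i (mp58 K Ω) x] at hx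
    have e1 : evalML Ω c (fun k => mp58 K Ω (x (some k))) = mp58 K Ω (evalML K c fun k =>
      x (some k)) := evalML_map' _ c _
    have e2 : evalML Ω c (fun k => mp58 K Ω (sl58 i x k)) = mp58 K Ω (evalML K c (sl58 i x)) :=
      evalML_map' _ c _
    rw [e1, e2, trace_map58, trace_map58, ← smul_map58, ← smul_map58, ← map_sub, c2_map58] at hx
    set A := evalML K c fun k => x (some k) with hA
    set B := evalML K c (sl58 i x) with hB
    refine ⟨Function.update (fun k => x (some k)) i (trace B • x (some i) - trace A • x none), ?_⟩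
    have e3 : evalML K c (Function.update (fun k => x (some k)) i
        (trace B • x (some i) - trace A • x none)) = trace B • A - trace A • B := by
      rw [MultilinearMap.map_update_sub, MultilinearMap.map_update_smul,
        MultilinearMap.map_update_smul]
      have e4 : Function.update (fun k => x (some k)) i (x (some i)) = fun k => x (some k) :=
        Function.update_eq_self i _
      rw [e4]
      rfl
    rw [e3]
    refine ⟨?_, fun h0 => hx (by rw [h0, map_zero])⟩
    rw [trace_sub, trace_smul, trace_smul, smul_eq_mul, smul_eq_mul, mul_comm, sub_self]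
  · -- all traces are zero
    push Not at hT
    have hu0 : ev2 Ω c d ≠ 0 := by
      intro h0
      have h1 := (hind 1 0 (by rw [h0, smul_zero, zero_smul, add_zero])).1
      exact one_ne_zero h1
    have hop : Op fun y : Fin m → M3 Ω => c2 (evalML Ω c fun k => corner Ω (y k)) ≠ 0 := by
      have h1 : IsPolyM fun y : Fin m → M3 Ω =>
          ((evalML Ω c).compLinearMap fun _ => corner Ω) fun k => y k :=
        IsPolyM.ml _ (G := fun k y => y k) fun k => IsPolyM.coord k
      exact Op.ne h1.c2
    have hcor : ∀ {R : Type u} [Field R] (X : M3 R),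
        corner R X = emb !![X 0 0, X 0 1; X 1 0, X 1 1] := fun X => rfl
    obtain ⟨x, hx⟩ := exists_K58 (K := K) hop ⟨fun k => emb (d k), by
      have e1 : (fun k => corner Ω (emb (d k))) = fun k => emb (d k) := by
        funext k
        ext p q
        fin_cases p <;> fin_cases q <;> simp [corner, emb]
      rw [e1, evalML_emb Ω hm, c2_emb]
      exact F.det_ne _ hu hu0⟩
    simp only [corner_map58] at hx
    have e2 : evalML Ω c (fun k => mp58 K Ω (corner K (x k))) =
      mp58 K Ω (evalML K c fun k => corner K (x k)) := evalML_map' _ c _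
    rw [e2, c2_map58] at hx
    refine ⟨fun k => corner K (x k), ?_, fun h0 => hx (by rw [h0, map_zero])⟩
    simp only [hcor]
    rw [evalML_emb K hm, trace_emb]
    exact hT _

end Pool.Agent.H88KL
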