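import Pool.Agent.Helper88.KL.Fin3
import Pool.Agent.Helper88.KL.QuatD

/-!
# Assembly over an algebraically closed field
-/

open Matrix

namespace Pool.Agent.H88KL

open Pool.Agent.H24ML

universe u

/-- Scaling of values. -/
theorem scale88 {K : Type u} [Field K] {m : ℕ} (hm : 0 < m) (c : Equiv.Perm (Fin m) → K)
    (x : Fin m → M3 K) (r : K) : ∃ x' : Fin m → M3 K, evalML K c x' = r • evalML K c x := by
  refine ⟨Function.update x ⟨0, hm⟩ (r • x ⟨0, hm⟩), ?_⟩
  rw [MultilinearMap.map_update_smul, Function.update_eq_self]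

/-- All characteristic polynomials with nonzero trace are hit. -/
theorem class_of_trace_ne {K : Type u} [Field K] [IsAlgClosed K] {m : ℕ} (hm : 0 < m)
    (c : Equiv.Perm (Fin m) → K)
    (hV : ∃ x x' : Fin m → M3 K, c2 (evalML K c x) * trace (evalML K c x') ^ 2 ≠
      c2 (evalML K c x') * trace (evalML K c x) ^ 2) (A : M3 K) (hA : trace A ≠ 0) :
    ∃ x : Fin m → M3 K, trace (evalML K c x) = trace A ∧ c2 (evalML K c x) = c2 A ∧
      det (evalML K c x) = det A := by
  have key : ∃ x : Fin m → M3 K, trace (evalML K c x) = 1 ∧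
      c2 (evalML K c x) = c2 A / trace A ^ 2 ∧ det (evalML K c x) = det A / trace A ^ 3 := by
    by_cases hb : 3 * (c2 A / trace A ^ 2) = 1
    · exact hit3' c _ hb hV _
    · exact hit1 c hV _ _ hb
  obtain ⟨x, h1, h2, h3⟩ := key
  obtain ⟨x', hx'⟩ := scale88 hm c x (trace A)
  refine ⟨x', ?_, ?_, ?_⟩
  · rw [hx', trace_smul, h1, smul_eq_mul, mul_one]
  · rw [hx', c2_smul, h2]
    field_simp
  · rw [hx', det_smul3_88, h3]
    field_simp

/-- Density of the image. -/
def Dense88 {K : Type u} [Field K] {m : ℕ} (c : Equiv.Perm (Fin m) → K) : Prop :=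
  ∀ f : MvPolynomial (Fin 3 × Fin 3) K, f ≠ 0 →
    ∃ x : Fin m → M3 K, MvPolynomial.eval (fun q => evalML K c x q.1 q.2) f ≠ 0

open MvPolynomial in
theorem Dense88.trace {K : Type u} [Field K] {m : ℕ} {c : Equiv.Perm (Fin m) → K}
    (h : Dense88 c) : ∃ x : Fin m → M3 K, Matrix.trace (evalML K c x) ≠ 0 := by
  obtain ⟨x, hx⟩ := h (X (0, 0) + X (1, 1) + X (2, 2)) (by
    intro h0
    have h1 := congrArg (MvPolynomial.eval fun q : Fin 3 × Fin 3 => if q = (0, 0) then (1 : K) else 0) h0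
    simp at h1)
  refine ⟨x, ?_⟩
  simpa [Matrix.trace, Fin.sum_univ_three] using hx

open MvPolynomial in
theorem Dense88.nonscalar {K : Type u} [Field K] {m : ℕ} {c : Equiv.Perm (Fin m) → K}
    (h : Dense88 c) : ∃ x : Fin m → M3 K, ¬ ∃ a : K, evalML K c x = a • (1 : M3 K) := by
  obtain ⟨x, hx⟩ := h (X (0, 1)) (MvPolynomial.X_ne_zero _)
  refine ⟨x, ?_⟩
  rintro ⟨a, ha⟩
  apply hx
  simp [ha]

theorem Dense88.pos {K : Type u} [Field K] {m : ℕ} {c : Equiv.Perm (Fin m) → K}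
    (h : Dense88 c) : 0 < m := by
  obtain ⟨x, hx⟩ := h.nonscalar
  rcases Nat.eq_zero_or_pos m with rfl | hm
  · exfalso
    apply hx
    refine ⟨∑ σ, c σ, ?_⟩
    rw [evalML_apply]
    simp [Finset.sum_smul]
  · exact hm

open MvPolynomial in
theorem Dense88.var {K : Type u} [Field K] {m : ℕ} {c : Equiv.Perm (Fin m) → K}
    (h : Dense88 c) : ∃ x x' : Fin m → M3 K,
      Pool.Agent.H24ML.c2 (evalML K c x) * Matrix.trace (evalML K c x') ^ 2 ≠
      Pool.Agent.H24ML.c2 (evalML K c x') * Matrix.trace (evalML K c x) ^ 2 := by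
  obtain ⟨x', hx'⟩ := h.trace
  set t := Matrix.trace (evalML K c x') with ht
  set s := Pool.Agent.H24ML.c2 (evalML K c x') with hs
  obtain ⟨x, hx⟩ := h (C (t ^ 2) * (X (0, 0) * X (1, 1) - X (0, 1) * X (1, 0) +
      (X (0, 0) * X (2, 2) - X (0, 2) * X (2, 0)) + (X (1, 1) * X (2, 2) - X (1, 2) * X (2, 1))) -
      C s * (X (0, 0) + X (1, 1) + X (2, 2)) ^ 2) (by
    intro h0
    have h1 := congrArg (MvPolynomial.eval fun q : Fin 3 × Fin 3 =>
      if q = (0, 0) then (1 : K) else if q = (1, 1) then -1 else 0) h0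
    simp at h1
    exact hx' h1)
  refine ⟨x, x', ?_⟩
  intro h1
  apply hx
  rw [← ht, ← hs] at h1
  simp only [map_sub, map_mul, map_add, map_pow, eval_C, eval_X]
  simp only [Pool.Agent.H24ML.c2, Matrix.trace, Matrix.diag, Fin.sum_univ_three] at h1
  linear_combination h1

theorem main88 {K : Type u} [Field K] [IsAlgClosed K] {m : ℕ} (c : Equiv.Perm (Fin m) → K)
    (hd : Dense88 c) (A : M3 K)
    (hA : trace A ≠ 0 ∨ c2 A ≠ 0 ∨ det A ≠ 0)
    (h : trace A ≠ 0 ∨ c2 A = 0 ∨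
      (∃ x : Fin m → M3 K, trace (evalML K c x) = 0 ∧ c2 (evalML K c x) ≠ 0) ∨
      ∃ x : Fin m → M2 K, ¬ ∃ a : K, ev2 K c x = a • (1 : M2 K)) :
    ∃ x : Fin m → M3 K, trace (evalML K c x) = trace A ∧ c2 (evalML K c x) = c2 A ∧
      det (evalML K c x) = det A := by
  by_cases hT : trace A = 0
  swap
  · exact class_of_trace_ne hd.pos c hd.var A hT
  by_cases hS : c2 A = 0
  · obtain ⟨x, h1, h2, h3⟩ := hit0 c hd.nonscalar hd.trace (det A) (by
      rcases hA with h | h | h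
      · exact absurd hT h
      · exact absurd hS h
      · exact h)
    exact ⟨x, by rw [h1, hT], by rw [h2, hS], h3⟩
  have key : ∃ x : Fin m → M3 K, trace (evalML K c x) = 0 ∧ c2 (evalML K c x) ≠ 0 := by
    rcases h with h | h | h | h
    · exact absurd hT h
    · exact absurd h hS
    · exact h
    · exact noncentral_zero c h
  obtain ⟨x, h1, h2, h3⟩ := hit2 c key (c2 A) (det A) (Or.inl hS)
  exact ⟨x, by rw [h1, hT], h2, h3⟩

end Pool.Agent.H88KL
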