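import Pool.Agent.Helper88.KL.Poly

/-!
# Block KL-IMG: the spaces of values depend on the slot `k`

Proof. As `Dim2 P (insert k I)` fails there are `z0'`, `y_0, y_1, y_2` such that the three matrices
`x_j = P ((insert k I).piecewise (y_j) z0') = P (I.piecewise (y_j) (update z0' k (y_j k)))` are
independent. This is an open condition on `(z0', y_0, y_1, y_2)`, and
`LinearIndependent ![P (I.piecewise u z), P (I.piecewise v z)]` is an open condition on
`(z, u, v)`; both have solutions, so they have a common solution with `z = z0'` (`OpT` with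
`m = 6` families: `z, y_0, y_1, y_2, u, v`; `isPolyM_piecewise`, `isPolyM_piecewise_update`,
`OpT.exists_and`). As `x_0, x_1, x_2` are independent, one of them, say `x_j`, is not in the
span of `A = P (I.piecewise u z)` and `B = P (I.piecewise v z)`. Take
`y = ![u, v, y_j]` and `a = y_j k`.
-/

open Matrix

namespace Pool.Agent.H88KL

open Pool.Agent.H24ML

universe u

private theorem indep_snoc_h40 {Ω : Type u} [Field Ω] (A B : M3 Ω)
    (h : LinearIndependent Ω ![A, B]) (x : Fin 3 → M3 Ω) (hx : LinearIndependent Ω x) :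
    ∃ j, LinearIndependent Ω ![A, B, x j] := by
  by_contra hcon
  push Not at hcon
  have h1 : ∀ j, x j ∈ Submodule.span Ω (Set.range ![A, B]) := by
    intro j
    by_contra hj
    refine hcon j ?_
    have h2 := linearIndependent_finSnoc.mpr ⟨h, hj⟩
    have h3 : (Fin.snoc ![A, B] (x j) : Fin 3 → M3 Ω) = ![A, B, x j] := by
      funext i
      fin_cases i <;> rfl
    rw [h3] at h2
    exact h2
  have h2 : Submodule.span Ω (Set.range x) ≤ Submodule.span Ω (Set.range ![A, B]) := by
    rw [Submodule.span_le]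
    rintro _ ⟨j, rfl⟩
    exact h1 j
  have h3 := Submodule.finrank_mono h2
  rw [finrank_span_eq_card hx, finrank_span_eq_card h] at h3
  simp at h3

theorem exists_img {Ω : Type u} [Field Ω] [Infinite Ω] {ι : Type} [Fintype ι] [DecidableEq ι]
    (P : ML Ω ι) (I : Finset ι) (k : ι) (hk : k ∉ I) (z0 u v : ι → M3 Ω)
    (h : LinearIndependent Ω ![P (I.piecewise u z0), P (I.piecewise v z0)])
    (hd : ¬ Dim2 P (insert k I)) :
    ∃ (z : ι → M3 Ω) (a : M3 Ω) (y : Fin 3 → ι → M3 Ω),
      LinearIndependent Ω ![P (I.piecewise (y 0) z), P (I.piecewise (y 1) z),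
        P (I.piecewise (y 2) (Function.update z k a))] := by
  unfold Dim2 at hd
  push Not at hd
  obtain ⟨z1, y1, hy1⟩ := hd
  have hpw : ∀ w z : ι → M3 Ω, (insert k I).piecewise w z =
      I.piecewise w (Function.update z k (w k)) := by
    intro w z
    funext i
    by_cases hi : i ∈ I
    · rw [Finset.piecewise_eq_of_mem _ _ _ (Finset.mem_insert_of_mem hi),
        Finset.piecewise_eq_of_mem _ _ _ hi]
    · rw [Finset.piecewise_eq_of_notMem I _ _ hi]
      by_cases hik : i = k
      · subst hik
        rw [Finset.piecewise_eq_of_mem _ _ _ (Finset.mem_insert_self i I), Function.update_self]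
      · rw [Finset.piecewise_eq_of_notMem _ _ _ (by simp [hi, hik]), Function.update_of_ne hik]
  simp only [hpw] at hy1
  have hQ : OpT (m := 6) fun y : Fin 6 → ι → M3 Ω =>
      LinearIndependent Ω fun j : Fin 2 => P (I.piecewise (y (![4, 5] j)) (y 0)) :=
    Op.indep (κ := Fin 6 × ι)
      (G := fun j y => P (I.piecewise (fun k => y (![4, 5] j, k)) fun k => y (0, k)))
      fun j => isPolyM_piecewise P I (![4, 5] j) 0
  have hQ' : OpT (m := 6) fun y : Fin 6 → ι → M3 Ω =>
      LinearIndependent Ω fun j : Fin 3 =>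
        P (I.piecewise (y (![1, 2, 3] j)) (Function.update (y 0) k (y (![1, 2, 3] j) k))) :=
    Op.indep (κ := Fin 6 × ι)
      (G := fun j y => P (I.piecewise (fun i => y (![1, 2, 3] j, i))
        (Function.update (fun i => y (0, i)) k (y (![1, 2, 3] j, k)))))
      fun j => isPolyM_piecewise_update P I (![1, 2, 3] j) 0 (![1, 2, 3] j) k
  obtain ⟨y, hy, hy'⟩ := OpT.exists_and hQ hQ'
    ⟨![z0, z0, z0, z0, u, v], by
      have h1 : (fun j : Fin 2 => P (I.piecewise
          ((![z0, z0, z0, z0, u, v] : Fin 6 → ι → M3 Ω) (![4, 5] j))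
          ((![z0, z0, z0, z0, u, v] : Fin 6 → ι → M3 Ω) 0))) =
          ![P (I.piecewise u z0), P (I.piecewise v z0)] := by
        funext j
        fin_cases j <;> rfl
      rw [h1]
      exact h⟩
    ⟨![z1, y1 0, y1 1, y1 2, z1, z1], by
      have h1 : (fun j : Fin 3 => P (I.piecewise
          ((![z1, y1 0, y1 1, y1 2, z1, z1] : Fin 6 → ι → M3 Ω) (![1, 2, 3] j))
          (Function.update ((![z1, y1 0, y1 1, y1 2, z1, z1] : Fin 6 → ι → M3 Ω) 0) k
            ((![z1, y1 0, y1 1, y1 2, z1, z1] : Fin 6 → ι → M3 Ω) (![1, 2, 3] j) k)))) =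
          fun j => P (I.piecewise (y1 j) (Function.update z1 k (y1 j k))) := by
        funext j
        fin_cases j <;> rfl
      rw [h1]
      exact hy1⟩
  have h1 : LinearIndependent Ω
      ![P (I.piecewise (y 4) (y 0)), P (I.piecewise (y 5) (y 0))] := by
    have h2 : (fun j : Fin 2 => P (I.piecewise (y (![4, 5] j)) (y 0))) =
        ![P (I.piecewise (y 4) (y 0)), P (I.piecewise (y 5) (y 0))] := by
      funext j
      fin_cases j <;> rfl
    rw [← h2]
    exact hy
  obtain ⟨j, hj⟩ := indep_snoc_h40 _ _ h1 _ hy'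
  exact ⟨y 0, y (![1, 2, 3] j) k, ![y 4, y 5, y (![1, 2, 3] j)], hj⟩

end Pool.Agent.H88KL
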