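import Pool.Agent.Helper88.KL.Poly

/-!
# Block KL-KER: the kernels depend on some slot

Write `f_y (z) = P (I.piecewise y z)`, it does not depend on the slots of `z` in `I`. Hypotheses:
`f_u (z0), f_v (z0)` are independent; any three `f_y (z)` (same `z`) are dependent; there are three
`y` for which the maps `res P I y` (that is, the functions `f_y`) are independent. Claim: for some
slot `k ∉ I`, some `z`, `a` and three `y`'s the pairs `(f_{y_j} (z), f_{y_j} (update z k a))` are
independent in `M x M`.

Proof. The functions `f_u, f_v` are independent (look at `z0`), so one of the three given `y`'s, say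
`y`, is such that `f_u, f_v, f_y` are independent (`res_apply`: every family indexed by
`{k // k ∉ I}` is the restriction of a family indexed by `ι`). Assume the claim is false. On the open
set `O = {z | f_u (z), f_v (z) independent}` there are unique `α(z), β(z)` with
`α f_u (z) + β f_v (z) + f_y (z) = 0` (three values are dependent). If `z ∈ O` and
`z' = update z k a ∈ O` with `k ∉ I` then `α, β` are the same at `z` and `z'`: the pairs for `u, v, y` are
dependent, so `s0 f_u + s1 f_v + s2 f_y = 0` at `z` and at `z'` with `(s0, s1, s2) ≠ 0`, and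
`s2 ≠ 0` as `f_u (z), f_v (z)` are independent. The same holds for `k ∈ I`, because the values do not
change. Let `O'` be the set of all `z1` such that `T.piecewise z1 z0 ∈ O` for all `T : Finset ι`
(an open condition on `z1`, which holds for `z1 = z0`). For `z1 ∈ O'`, changing one slot after the
other (induction on `T : Finset ι`), `α(z1) = α(z0)`, `β(z1) = β(z0)`. So
`α f_u + β f_v + f_y` (with `α = α(z0)`, `β = β(z0)`) vanishes on `O'`. If it does not vanish at
some point, this is another nonempty open condition (one of the entries is not zero, `Op.ne`), which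
has a common point with `O'` (`Op.exists_and`): a contradiction. So it vanishes everywhere, and
`f_u, f_v, f_y` are dependent, a contradiction.

Use `Op` with `κ = ι` (`Op.all` for the conditions indexed by `T : Finset ι`, `Op.indep` with
`n = 2`, `IsPolyM.ml`).
-/

open Matrix

namespace Pool.Agent.H88KL

open Pool.Agent.H24ML

universe u

private lemma pw_update38 {Ω : Type u} [Field Ω] {ι : Type} [DecidableEq ι] (I : Finset ι) (k : ι)
    (hk : k ∈ I) (y z : ι → M3 Ω) (c : M3 Ω) :
    I.piecewise y (Function.update z k c) = I.piecewise y z := by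
  funext i
  by_cases hi : i ∈ I
  · rw [Finset.piecewise_eq_of_mem _ _ _ hi, Finset.piecewise_eq_of_mem _ _ _ hi]
  · have hik : i ≠ k := fun h => hi (h ▸ hk)
    rw [Finset.piecewise_eq_of_notMem _ _ _ hi, Finset.piecewise_eq_of_notMem _ _ _ hi,
      Function.update_of_ne hik]

private lemma isPolyM38 {Ω : Type u} [Field Ω] {ι : Type} [Fintype ι] [DecidableEq ι] (P : ML Ω ι)
    (I : Finset ι) (y : ι → M3 Ω) : IsPolyM fun z : ι → M3 Ω => P (I.piecewise y z) := by
  refine IsPolyM.ml P (G := fun i z => I.piecewise y z i) fun i => ?_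
  by_cases hi : i ∈ I
  · have h1 : (fun z : ι → M3 Ω => I.piecewise y z i) = fun _ => y i := by
      funext z
      rw [Finset.piecewise_eq_of_mem _ _ _ hi]
    rw [h1]
    exact IsPolyM.const _
  · have h1 : (fun z : ι → M3 Ω => I.piecewise y z i) = fun z => z i := by
      funext z
      rw [Finset.piecewise_eq_of_notMem _ _ _ hi]
    rw [h1]
    exact IsPolyM.coord i

private lemma prop38 {Ω : Type u} [Field Ω] {ι : Type} [DecidableEq ι] (P : ML Ω ι) (I : Finset ι)
    (u v x : ι → M3 Ω)
    (hneg : ∀ k ∉ I, ∀ (z : ι → M3 Ω) (c : M3 Ω) (y : Fin 3 → ι → M3 Ω),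
      ¬ LinearIndependent Ω fun j =>
        ((P (I.piecewise (y j) z), P (I.piecewise (y j) (Function.update z k c))) :
          M3 Ω × M3 Ω))
    (z : ι → M3 Ω) (hz : LinearIndependent Ω ![P (I.piecewise u z), P (I.piecewise v z)]) (a b : Ω)
    (hab : P (I.piecewise x z) = a • P (I.piecewise u z) + b • P (I.piecewise v z)) (k : ι)
    (c : M3 Ω) :
    P (I.piecewise x (Function.update z k c)) =
      a • P (I.piecewise u (Function.update z k c)) +
        b • P (I.piecewise v (Function.update z k c)) := by
  by_cases hk : k ∈ I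
  · rw [pw_update38 I k hk, pw_update38 I k hk, pw_update38 I k hk, hab]
  · have h1 := hneg k hk z c ![x, u, v]
    generalize Function.update z k c = z' at h1 ⊢
    have h2 : (fun j : Fin 3 => ((P (I.piecewise (![x, u, v] j) z),
        P (I.piecewise (![x, u, v] j) z')) : M3 Ω × M3 Ω)) =
        Fin.cons (P (I.piecewise x z), P (I.piecewise x z'))
          ![(P (I.piecewise u z), P (I.piecewise u z')),
            (P (I.piecewise v z), P (I.piecewise v z'))] := by
      funext j
      fin_cases j <;> rfl
    rw [h2, linearIndependent_finCons] at h1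
    have h3 : LinearIndependent Ω ![(P (I.piecewise u z), P (I.piecewise u z')),
            (P (I.piecewise v z), P (I.piecewise v z'))] := by
      refine LinearIndependent.of_comp (LinearMap.fst Ω (M3 Ω) (M3 Ω)) ?_
      convert hz using 1
      funext j
      fin_cases j <;> rfl
    have h4 : (P (I.piecewise x z), P (I.piecewise x z')) ∈
        Submodule.span Ω (Set.range ![(P (I.piecewise u z), P (I.piecewise u z')),
            (P (I.piecewise v z), P (I.piecewise v z'))]) := by
      by_contra hc
      exact h1 ⟨h3, hc⟩
    rw [Matrix.range_cons_cons_empty, Submodule.mem_span_pair] at h4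
    obtain ⟨s, t, hst⟩ := h4
    have h5 : s • P (I.piecewise u z) + t • P (I.piecewise v z) = P (I.piecewise x z) :=
      congrArg Prod.fst hst
    have h6 : s • P (I.piecewise u z') + t • P (I.piecewise v z') = P (I.piecewise x z') :=
      congrArg Prod.snd hst
    have h7 := LinearIndependent.pair_iff.1 hz (s - a) (t - b) (by
      rw [sub_smul, sub_smul]
      have h8 := h5.trans hab
      rw [← sub_eq_zero] at h8
      rw [← h8]
      abel)
    rw [← h6, sub_eq_zero.1 h7.1, sub_eq_zero.1 h7.2]

theorem exists_ker {Ω : Type u} [Field Ω] [Infinite Ω] {ι : Type} [Fintype ι] [DecidableEq ι]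
    (P : ML Ω ι) (I : Finset ι) (z0 u v : ι → M3 Ω)
    (h : LinearIndependent Ω ![P (I.piecewise u z0), P (I.piecewise v z0)]) (hd : Dim2 P I)
    (y : Fin 3 → ι → M3 Ω) (hy : LinearIndependent Ω fun j => res P I (y j)) :
    ∃ k ∉ I, ∃ (z : ι → M3 Ω) (a : M3 Ω) (y : Fin 3 → ι → M3 Ω),
      LinearIndependent Ω fun j =>
        ((P (I.piecewise (y j) z), P (I.piecewise (y j) (Function.update z k a))) :
          M3 Ω × M3 Ω) := by
  classical
  by_contra hcon
  have hneg : ∀ k ∉ I, ∀ (z : ι → M3 Ω) (c : M3 Ω) (y : Fin 3 → ι → M3 Ω),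
      ¬ LinearIndependent Ω fun j =>
        ((P (I.piecewise (y j) z), P (I.piecewise (y j) (Function.update z k c))) :
          M3 Ω × M3 Ω) := fun k hk z c y hl => hcon ⟨k, hk, z, c, y, hl⟩
  -- one of the `y j` is outside of the span
  obtain ⟨j0, hj0⟩ : ∃ j, res P I (y j) ∉ Submodule.span Ω (Set.range ![res P I u, res P I v]) := by
    by_contra hall
    push Not at hall
    have h1 : LinearIndependent Ω (fun j => (⟨res P I (y j), hall j⟩ :
        Submodule.span Ω (Set.range ![res P I u, res P I v]))) :=
      LinearIndependent.of_comp (Submodule.subtype _) hy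
    have h2 := h1.fintype_card_le_finrank
    have h3 : Module.finrank Ω (Submodule.span Ω (Set.range ![res P I u, res P I v])) ≤
        Fintype.card (Fin 2) := finrank_range_le_card _
    rw [Fintype.card_fin] at h2 h3
    omega
  set x := y j0 with hx
  -- the relation at `z0`
  have hrel0 : ∃ a b : Ω, P (I.piecewise x z0) =
      a • P (I.piecewise u z0) + b • P (I.piecewise v z0) := by
    have h1 := hd z0 ![x, u, v]
    have h2 : (fun j : Fin 3 => P (I.piecewise (![x, u, v] j) z0)) =
        Fin.cons (P (I.piecewise x z0)) ![P (I.piecewise u z0), P (I.piecewise v z0)] := by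
      funext j
      fin_cases j <;> rfl
    rw [h2, linearIndependent_finCons] at h1
    have h4 : P (I.piecewise x z0) ∈
        Submodule.span Ω (Set.range ![P (I.piecewise u z0), P (I.piecewise v z0)]) := by
      by_contra hc
      exact h1 ⟨h, hc⟩
    rw [Matrix.range_cons_cons_empty, Submodule.mem_span_pair] at h4
    obtain ⟨s, t, hst⟩ := h4
    exact ⟨s, t, hst.symm⟩
  obtain ⟨a, b, hab⟩ := hrel0
  -- the open set
  have hO : Op fun z : ι → M3 Ω =>
      LinearIndependent Ω ![P (I.piecewise u z), P (I.piecewise v z)] := by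
    have h1 := Op.indep (Ω := Ω) (κ := ι) (n := 2)
      (G := fun j z => P (I.piecewise (![u, v] j) z)) (fun j => isPolyM38 P I _)
    have h2 : ∀ z : ι → M3 Ω, (fun j : Fin 2 => P (I.piecewise (![u, v] j) z)) =
        ![P (I.piecewise u z), P (I.piecewise v z)] := by
      intro z
      funext j
      fin_cases j <;> rfl
    simpa only [h2] using h1
  have hO' : Op fun z1 : ι → M3 Ω => ∀ T : Finset ι,
      LinearIndependent Ω ![P (I.piecewise u (T.piecewise z1 z0)),
        P (I.piecewise v (T.piecewise z1 z0))] := by
    refine Op.all fun T => ?_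
    refine Op.comp hO (G := fun i z1 => T.piecewise z1 z0 i) fun i => ?_
    by_cases hi : i ∈ T
    · have h1 : (fun z : ι → M3 Ω => T.piecewise z z0 i) = fun z => z i := by
        funext z
        rw [Finset.piecewise_eq_of_mem _ _ _ hi]
      rw [h1]
      exact IsPolyM.coord i
    · have h1 : (fun z : ι → M3 Ω => T.piecewise z z0 i) = fun _ => z0 i := by
        funext z
        rw [Finset.piecewise_eq_of_notMem _ _ _ hi]
      rw [h1]
      exact IsPolyM.const _
  -- propagation
  have hprop : ∀ z1 : ι → M3 Ω, (∀ T : Finset ι,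
      LinearIndependent Ω ![P (I.piecewise u (T.piecewise z1 z0)),
        P (I.piecewise v (T.piecewise z1 z0))]) → P (I.piecewise x z1) =
      a • P (I.piecewise u z1) + b • P (I.piecewise v z1) := by
    intro z1 hz1
    have hind : ∀ T : Finset ι, P (I.piecewise x (T.piecewise z1 z0)) =
        a • P (I.piecewise u (T.piecewise z1 z0)) + b • P (I.piecewise v (T.piecewise z1 z0)) := by
      intro T
      induction T using Finset.induction_on with
      | empty =>
        rw [Finset.piecewise_empty]
        exact hab
      | insert k T hk ih =>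
        rw [Finset.piecewise_insert]
        exact prop38 P I u v x hneg _ (hz1 T) a b ih k (z1 k)
    have h1 := hind Finset.univ
    rw [Finset.piecewise_univ] at h1
    exact h1
  -- everywhere
  have hall : ∀ z : ι → M3 Ω, P (I.piecewise x z) =
      a • P (I.piecewise u z) + b • P (I.piecewise v z) := by
    by_contra hc
    push Not at hc
    obtain ⟨z, hz⟩ := hc
    have h1 : ∃ r s, (P (I.piecewise x z) -
        (a • P (I.piecewise u z) + b • P (I.piecewise v z))) r s ≠ 0 := by
      by_contra hc'
      push Not at hc'
      apply hz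
      rw [← sub_eq_zero]
      ext r s
      rw [hc' r s, Matrix.zero_apply]
    obtain ⟨r, s, hrs⟩ := h1
    have hpoly : IsPolyM fun z : ι → M3 Ω => P (I.piecewise x z) -
        (a • P (I.piecewise u z) + b • P (I.piecewise v z)) :=
      IsPolyM.sub (isPolyM38 P I x)
        (IsPolyM.add (IsPolyM.smul (IsPoly.const a) (isPolyM38 P I u))
          (IsPolyM.smul (IsPoly.const b) (isPolyM38 P I v)))
    have h2 : Op fun z : ι → M3 Ω => (P (I.piecewise x z) -
        (a • P (I.piecewise u z) + b • P (I.piecewise v z))) r s ≠ 0 := Op.ne (hpoly r s)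
    obtain ⟨w, hw1, hw2⟩ := Op.exists_and h2 hO' ⟨z, hrs⟩ ⟨z0, fun T => by
      have h3 : T.piecewise z0 z0 = z0 := by
        funext i
        by_cases hi : i ∈ T
        · rw [Finset.piecewise_eq_of_mem _ _ _ hi]
        · rw [Finset.piecewise_eq_of_notMem _ _ _ hi]
      rw [h3]
      exact h⟩
    apply hw1
    rw [hprop w hw2, sub_self, Matrix.zero_apply]
  -- the contradiction
  apply hj0
  rw [Matrix.range_cons_cons_empty, Submodule.mem_span_pair]
  refine ⟨a, b, ?_⟩
  refine MultilinearMap.ext fun w => ?_
  obtain ⟨z, hw⟩ : ∃ z : ι → M3 Ω, w = fun k : {k // k ∉ I} => z k.1 := by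
    refine ⟨fun i => if hi : i ∉ I then w ⟨i, hi⟩ else 0, ?_⟩
    funext k
    simp only [k.2, not_false_eq_true, dif_pos]
  have h1 : (a • res P I u + b • res P I v) w = a • res P I u w + b • res P I v w := rfl
  rw [h1, hw, res_apply P I u z, res_apply P I v z, res_apply P I x z]
  exact (hall _).symm

end Pool.Agent.H88KL
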