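import Pool.Agent.Helper88.KL.Poly

/-!
# Block KL-VAR: one slot

* `Var.mono`: given `z, y, y'` for `I`, use `z`, `I.piecewise y z`, `I.piecewise y' z` for `I'`.
* `Var.indep`: from `Rel.indep`.
* `dim2_or_hit`: if `Dim2 P {i}` fails there are `z0`, `y_0, y_1, y_2` with
  `P ({i}.piecewise (y_j) z0)` independent. This is a nonempty open condition on the families
  `(z, y_0, y_1, y_2)`, `d (P ({i}.piecewise u z)) (P ({i}.piecewise v z)) ≠ 0` is a nonempty
  open condition on `(z, u, v)`; take a common solution in `D` (`OpT` with `m = 6`,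
  `OpT.exists_and`, `OpT.exists_D`). Now `A = P ({i}.piecewise u z)`, `B = P ({i}.piecewise v z)` and
  `x_j = P ({i}.piecewise (y_j) z)` are in `D` (`Nice.mem`) and `Tgt` gives `w` in their span
  with `τ w`. All of them are in the range of the linear map `P.toLinearMap z i`
  (`({i} : Finset ι).piecewise y z = Function.update z i (y i)`), so `w = P (update z i b)`.
-/

open Matrix

namespace Pool.Agent.H88KL

open Pool.Agent.H24ML

universe u

variable {L Ω : Type u} [Field L] [Field Ω] [Algebra L Ω] {ι : Type} [DecidableEq ι]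

theorem Var.mono {δ : Rel Ω} {P : ML Ω ι} {I I' : Finset ι} (h : Var δ P I) (hI : I ⊆ I') :
    Var δ P I' := by
  obtain ⟨z, y, y', hd⟩ := h
  have key : ∀ u : ι → M3 Ω, I'.piecewise (I.piecewise u z) z = I.piecewise u z := by
    intro u
    funext k
    by_cases hk : k ∈ I'
    · simp [hk]
    · have hk' : k ∉ I := fun h => hk (hI h)
      simp [hk, hk']
  refine ⟨z, I.piecewise y z, I.piecewise y' z, ?_⟩
  rw [key, key]
  exact hd

theorem Var.indep {δ : Rel Ω} {P : ML Ω ι} {I : Finset ι} (h : Var δ P I) :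
    ∃ z u v : ι → M3 Ω, LinearIndependent Ω ![P (I.piecewise u z), P (I.piecewise v z)] := by
  obtain ⟨z, y, y', hd⟩ := h
  exact ⟨z, y, y', δ.indep _ _ hd⟩

theorem dim2_or_hit [Fintype ι] [Infinite L] [Infinite Ω] (F : DivForm L Ω) {δ : Rel Ω}
    {τ : M3 Ω → Prop} (hτ : Tgt F δ τ) {P : ML Ω ι} (hN : Nice F P) {i : ι}
    (hV : Var δ P {i}) : Dim2 P {i} ∨ ∃ y, τ (P y) := by
  by_cases hD : Dim2 P {i}
  · exact Or.inl hD
  right
  unfold Dim2 at hD
  push Not at hD
  obtain ⟨z0, y0, hy0⟩ := hD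
  obtain ⟨z1, u1, v1, hd⟩ := hV
  let idx : Fin 3 → Fin 6 := ![3, 4, 5]
  let Q1 : (Fin 6 → ι → M3 Ω) → Prop := fun y =>
    LinearIndependent Ω fun k : Fin 3 => P (({i} : Finset ι).piecewise (y (idx k)) (y 0))
  let Q2 : (Fin 6 → ι → M3 Ω) → Prop := fun y =>
    δ.d (P (({i} : Finset ι).piecewise (y 1) (y 0))) (P (({i} : Finset ι).piecewise (y 2) (y 0))) ≠ 0
  have h1 : OpT Q1 := Op.indep (G := fun (k : Fin 3) (y : Fin 6 × ι → M3 Ω) =>
    P (({i} : Finset ι).piecewise (fun j => y (idx k, j)) fun j => y (0, j)))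
    fun k => isPolyM_piecewise P {i} (idx k) 0
  have h2 : OpT Q2 := Op.rel δ (isPolyM_piecewise P {i} 1 0) (isPolyM_piecewise P {i} 2 0)
  have hne1 : ∃ y, Q1 y := by
    refine ⟨![z0, z0, z0, y0 0, y0 1, y0 2], ?_⟩
    have : (fun k : Fin 3 => P (({i} : Finset ι).piecewise
        ((![z0, z0, z0, y0 0, y0 1, y0 2] : Fin 6 → ι → M3 Ω) (idx k))
        ((![z0, z0, z0, y0 0, y0 1, y0 2] : Fin 6 → ι → M3 Ω) 0))) =
        fun k => P (({i} : Finset ι).piecewise (y0 k) z0) := by
      funext k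
      fin_cases k <;> rfl
    show LinearIndependent Ω _
    rw [this]
    exact hy0
  have hne2 : ∃ y, Q2 y := ⟨![z1, u1, v1, z1, z1, z1], hd⟩
  obtain ⟨y, hyD, hy1, hy2⟩ := OpT.exists_D F (h1.and h2) (h1.exists_and h2 hne1 hne2)
  have hmem : ∀ a : Fin 6, P (({i} : Finset ι).piecewise (y a) (y 0)) ∈ F.D := by
    intro a
    refine hN.mem _ fun k => ?_
    by_cases hk : k ∈ ({i} : Finset ι)
    · rw [Finset.piecewise_eq_of_mem _ _ _ hk]
      exact hyD a k
    · rw [Finset.piecewise_eq_of_notMem _ _ _ hk]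
      exact hyD 0 k
  obtain ⟨w, hw, hτw⟩ := hτ _ (hmem 1) _ (hmem 2) hy2 _ (fun k => hmem (idx k)) hy1
  have hr : ∀ u : ι → M3 Ω, P (({i} : Finset ι).piecewise u (y 0)) ∈
      LinearMap.range (P.toLinearMap (y 0) i) := by
    intro u
    refine ⟨u i, ?_⟩
    rw [MultilinearMap.toLinearMap_apply, Finset.piecewise_singleton]
  have hle : Submodule.span Ω (insert (P (({i} : Finset ι).piecewise (y 1) (y 0)))
      (insert (P (({i} : Finset ι).piecewise (y 2) (y 0)))
        (Set.range fun k : Fin 3 => P (({i} : Finset ι).piecewise (y (idx k)) (y 0))))) ≤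
      LinearMap.range (P.toLinearMap (y 0) i) := by
    rw [Submodule.span_le]
    rintro x (rfl | rfl | ⟨k, rfl⟩)
    · exact hr _
    · exact hr _
    · exact hr _
  obtain ⟨b, hb⟩ := hle hw
  refine ⟨Function.update (y 0) i b, ?_⟩
  rw [MultilinearMap.toLinearMap_apply] at hb
  rw [hb]
  exact hτw

end Pool.Agent.H88KL
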