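import Pool.Agent.Helper88.KL.Str
import Pool.Agent.Helper88.KL.Ker
import Pool.Agent.Helper88.KL.Img
import Pool.Agent.Helper88.KL.Lie
import Pool.Agent.Helper88.KL.Var1

/-!
# Block KL-GEN: the general alternative

Proof. By `dim2_or_hit` we may assume `Dim2 P {i}`. Let `I ∋ i` be maximal among the sets with
`Dim2 P I` (finitely many). `Var δ P I` by `Var.mono`, so `Var.indep` gives two independent
values; `I ≠ univ`, because otherwise all values are scalars (`scalar_of_dim2`) and any two are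
dependent. For `k ∉ I`, `Dim2 P (insert k I)` fails. If some three `res P I (y j)` are
independent, then `exists_ker` gives a slot `k ∉ I` and `exists_img` (for this `k`) and
`hit_of_three` give the first alternative. Otherwise any three are dependent. By `OpT.exists_D`
take `z, u, v` in `D` with `d (P (I.piecewise u z)) (P (I.piecewise v z)) ≠ 0`. Then these two
values are independent, so `res P I u, res P I v` are (`res_apply`), and `onto_two` (`slotLin_res`)
gives the rest.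
-/

open Matrix

namespace Pool.Agent.H88KL

open Pool.Agent.H24ML

universe u

theorem gen' {L Ω : Type u} [Field L] [Field Ω] [Algebra L Ω] [Infinite L] [Infinite Ω]
    {ι : Type} [Fintype ι] [DecidableEq ι] (F : DivForm L Ω) {δ : Rel Ω} {τ : M3 Ω → Prop}
    (hτ : Tgt F δ τ) {P : ML Ω ι} (hN : Nice F P) {i : ι} (hV : Var δ P {i}) :
    (∃ y, τ (P y)) ∨ ∃ (I : Finset ι) (u v z : ι → M3 Ω), I.Nonempty ∧
      (∀ k, u k ∈ F.D) ∧ (∀ k, v k ∈ F.D) ∧ (∀ k, z k ∈ F.D) ∧
      (∀ y : Fin 3 → ι → M3 Ω, ¬ LinearIndependent Ω fun a => res P I (y a)) ∧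
      (∀ s t : Ω, ∃ y, res P I y = s • res P I u + t • res P I v) ∧
      (∀ k ∉ I, ¬ Dim2 P (insert k I)) ∧
      δ.d (P (I.piecewise u z)) (P (I.piecewise v z)) ≠ 0 := by
  classical
  rcases dim2_or_hit F hτ hN hV with hDi | hhit
  swap
  · exact Or.inl hhit
  obtain ⟨I, hI, hmax⟩ := (Finset.univ.filter fun J : Finset ι => i ∈ J ∧ Dim2 P J).exists_maximal
    ⟨{i}, by
      rw [Finset.mem_filter]
      exact ⟨Finset.mem_univ _, Finset.mem_singleton_self i, hDi⟩⟩
  rw [Finset.mem_filter] at hI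
  obtain ⟨-, hiI, hDI⟩ := hI
  have hins : ∀ k ∉ I, ¬ Dim2 P (insert k I) := by
    intro k hk hD
    have hmem : insert k I ∈ Finset.univ.filter fun J : Finset ι => i ∈ J ∧ Dim2 P J := by
      rw [Finset.mem_filter]
      exact ⟨Finset.mem_univ _, Finset.mem_insert_of_mem hiI, hD⟩
    exact hk (hmax hmem (Finset.subset_insert k I) (Finset.mem_insert_self k I))
  have hVI : Var δ P I := hV.mono (Finset.singleton_subset_iff.2 hiI)
  obtain ⟨z0, u0, v0, hind⟩ := hVI.indep
  by_cases h3 : ∃ y : Fin 3 → ι → M3 Ω, LinearIndependent Ω fun a => res P I (y a)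
  · obtain ⟨y, hy⟩ := h3
    obtain ⟨k, hk, hker⟩ := exists_ker P I z0 u0 v0 hind hDI y hy
    exact Or.inl (hit_of_three F hτ hN hVI hDI hk hker
      (exists_img P I k hk z0 u0 v0 hind (hins k hk)))
  right
  have h3' : ∀ y : Fin 3 → ι → M3 Ω, ¬ LinearIndependent Ω fun a => res P I (y a) :=
    fun y hy => h3 ⟨y, hy⟩
  obtain ⟨z1, u1, v1, hd1⟩ := hVI
  let Q : (Fin 3 → ι → M3 Ω) → Prop := fun y =>
    δ.d (P (I.piecewise (y 1) (y 0))) (P (I.piecewise (y 2) (y 0))) ≠ 0
  have hQ : OpT Q := Op.rel δ (isPolyM_piecewise P I 1 0) (isPolyM_piecewise P I 2 0)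
  obtain ⟨y, hyD, hy⟩ := OpT.exists_D F hQ ⟨![z1, u1, v1], hd1⟩
  have huv : LinearIndependent Ω ![res P I (y 1), res P I (y 2)] := by
    have h := δ.indep _ _ hy
    rw [← res_apply, ← res_apply] at h
    let ev : ML Ω {k // k ∉ I} →ₗ[Ω] M3 Ω :=
      { toFun := fun f => f fun k => y 0 k.1
        map_add' := fun _ _ => rfl
        map_smul' := fun _ _ => rfl }
    refine LinearIndependent.of_comp ev ?_
    have he : (ev ∘ ![res P I (y 1), res P I (y 2)]) =
        ![res P I (y 1) fun k => y 0 k.1, res P I (y 2) fun k => y 0 k.1] := by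
      funext a
      fin_cases a <;> rfl
    rw [he]
    exact h
  refine ⟨I, y 1, y 2, y 0, ⟨i, hiI⟩, hyD 1, hyD 2, hyD 0, h3', ?_, hins, hy⟩
  intro s t
  exact onto_two (slotLin_res P I) h3' huv s t

theorem gen {L Ω : Type u} [Field L] [Field Ω] [Algebra L Ω] [Infinite L] [Infinite Ω]
    {ι : Type} [Fintype ι] [DecidableEq ι] (F : DivForm L Ω) {δ : Rel Ω} {τ : M3 Ω → Prop}
    (hτ : Tgt F δ τ) {P : ML Ω ι} (hN : Nice F P) {i : ι} (hV : Var δ P {i}) :
    (∃ y, τ (P y)) ∨ ∃ (I : Finset ι) (u v z : ι → M3 Ω), I.Nonempty ∧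
      (∀ k, u k ∈ F.D) ∧ (∀ k, v k ∈ F.D) ∧ (∀ k, z k ∈ F.D) ∧
      (∀ y : Fin 3 → ι → M3 Ω, ¬ LinearIndependent Ω fun a => res P I (y a)) ∧
      (∀ s t : Ω, ∃ y, res P I y = s • res P I u + t • res P I v) ∧
      δ.d (P (I.piecewise u z)) (P (I.piecewise v z)) ≠ 0 := by
  rcases gen' F hτ hN hV with h | ⟨I, u, v, z, h1, h2, h3, h4, h5, h6, -, h8⟩
  · exact Or.inl h
  · exact Or.inr ⟨I, u, v, z, h1, h2, h3, h4, h5, h6, h8⟩

end Pool.Agent.H88KL
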