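import Pool.Agent.Helper88.KL.R3

/-!
# Values on 2 x 2 matrices: definitions
-/

open Matrix

namespace Pool.Agent.H88KL

open Pool.Agent.H24ML

universe u

/-- `2 x 2` matrices. -/
abbrev M2 (R : Type*) := Matrix (Fin 2) (Fin 2) R

/-- The embedding of the `2 x 2` matrices as the upper left corner. -/
def emb {R : Type*} [CommRing R] (X : M2 R) : M3 R :=
  !![X 0 0, X 0 1, 0; X 1 0, X 1 1, 0; 0, 0, 0]

/-- The value of a multilinear polynomial on `2 x 2` matrices. -/
noncomputable def ev2 {K : Type*} [Field K] (R : Type*) [CommRing R] [Algebra K R] {m : ℕ}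
    (c : Equiv.Perm (Fin m) → K) (x : Fin m → M2 R) : M2 R :=
  ∑ σ : Equiv.Perm (Fin m), algebraMap K R (c σ) • (List.ofFn fun k => x (σ k)).prod

/-- A division algebra `D` of `2 x 2` matrices over a subfield `L`. -/
structure Quat (L Ω : Type u) [Field L] [Field Ω] [Algebra L Ω] where
  /-- the algebra -/
  D : Subalgebra L (M2 Ω)
  span_top : Submodule.span Ω (D : Set (M2 Ω)) = ⊤
  det_ne : ∀ w ∈ D, w ≠ 0 → w.det ≠ 0
  tr_mem : ∀ w ∈ D, ∃ r : L, algebraMap L Ω r = w.trace
  det_mem : ∀ w ∈ D, ∃ r : L, algebraMap L Ω r = w.det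

theorem trace_emb {R : Type*} [CommRing R] (X : M2 R) : trace (emb X) = trace X := by
  simp [emb, trace, Fin.sum_univ_three, Fin.sum_univ_two]

theorem c2_emb {R : Type*} [CommRing R] (X : M2 R) : c2 (emb X) = det X := by
  simp [emb, c2, det_fin_two]

end Pool.Agent.H88KL
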