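import Pool.Agent.Helper88.KL.Fin1
import Pool.Agent.Helper88.KL.Gen

/-!
# The two inductions
-/

open Matrix

namespace Pool.Agent.H88KL

open Pool.Agent.H24ML

universe u

variable {L Ω : Type u} [Field L] [Field Ω] [Algebra L Ω] [IsAlgClosed Ω] [Infinite L]

/-- Extend a family by zero. -/
noncomputable def ext0 {ι : Type} [DecidableEq ι] (I : Finset ι) (z : {k // k ∉ I} → M3 Ω) :
    ι → M3 Ω := fun k => if h : k ∉ I then z ⟨k, h⟩ else 0

omit [IsAlgClosed Ω] in
theorem res_ext {ι : Type} [DecidableEq ι] (P : ML Ω ι) (I : Finset ι) (y : ι → M3 Ω)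
    (z : {k // k ∉ I} → M3 Ω) : res P I y z = P (I.piecewise y (ext0 I z)) := by
  rw [← res_apply]
  congr 1
  funext k
  simp [ext0, k.2]

theorem card_lt {ι : Type} [Fintype ι] [DecidableEq ι] {I : Finset ι} (hI : I.Nonempty) :
    Fintype.card {k // k ∉ I} < Fintype.card ι := by
  obtain ⟨i, hi⟩ := hI
  exact Fintype.card_subtype_lt (x := i) (by simpa using hi)

theorem main1 (F : DivForm L Ω) (b : L) (hb : (3 : Ω) * algebraMap L Ω b ≠ 1) (c : Ω) :
    ∀ (n : ℕ) (ι : Type) [Fintype ι] [DecidableEq ι], Fintype.card ι = n →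
      ∀ P : ML Ω ι, Nice F P → (∃ y y', (rel1 Ω).d (P y) (P y') ≠ 0) →
        ∃ y, trace (P y) = 1 ∧ c2 (P y) = algebraMap L Ω b ∧ det (P y) = c := by
  intro n
  induction n using Nat.strong_induction_on with
  | _ n ih =>
  intro ι _ _ hcard P hN hV
  obtain ⟨y, y', hy⟩ := hV
  obtain ⟨i, hi⟩ := first1 P hy
  rcases gen F (tgt1 F b c) hN hi with h | ⟨I, u, v, z, hI, hu, hv, hz, h3, hon, hd⟩
  · exact h
  have lift : ∀ (s t : L), (∃ w, trace ((algebraMap L Ω s • res P I u +
      algebraMap L Ω t • res P I v) w) = 1 ∧ c2 ((algebraMap L Ω s • res P I u +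
      algebraMap L Ω t • res P I v) w) = algebraMap L Ω b ∧ det ((algebraMap L Ω s • res P I u +
      algebraMap L Ω t • res P I v) w) = c) →
      ∃ y, trace (P y) = 1 ∧ c2 (P y) = algebraMap L Ω b ∧ det (P y) = c := by
    rintro s t ⟨w, hw⟩
    obtain ⟨x, hx⟩ := hon (algebraMap L Ω s) (algebraMap L Ω t)
    rw [← hx, res_ext] at hw
    exact ⟨_, hw⟩
  by_cases hst : ∃ s t : L, ∃ y y', (rel1 Ω).d ((algebraMap L Ω s • res P I u +
      algebraMap L Ω t • res P I v) y) ((algebraMap L Ω s • res P I u +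
      algebraMap L Ω t • res P I v) y') ≠ 0
  · obtain ⟨s, t, hst⟩ := hst
    exact lift s t (ih _ (hcard ▸ card_lt hI) _ rfl _ (nice_comb hN h3 hu hv s t) hst)
  · push Not at hst
    have hA : P (I.piecewise u z) ∈ F.D := by
      refine hN.mem _ fun k => ?_
      by_cases hk : k ∈ I
      · simpa [hk] using hu k
      · simpa [hk] using hz k
    have hB : P (I.piecewise v z) ∈ F.D := by
      refine hN.mem _ fun k => ?_
      by_cases hk : k ∈ I
      · simpa [hk] using hv k
      · simpa [hk] using hz k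
    obtain ⟨s, t, hT, hS⟩ := exists_st F hA hB hd b
    set R := algebraMap L Ω s • res P I u + algebraMap L Ω t • res P I v with hR
    have hRz : R (fun k => z k.1) = algebraMap L Ω s • P (I.piecewise u z) +
        algebraMap L Ω t • P (I.piecewise v z) := by
      rw [hR, _root_.add_apply, _root_.smul_apply, _root_.smul_apply,
        res_apply, res_apply]
    rw [← hRz] at hT hS
    apply lift s t
    refine hit_of_ratio F (nice_comb hN h3 hu hv s t) hb c ?_ hT
    intro w
    have h1 := hst s t w (fun k => z k.1)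
    rw [rel1_d, ← hR, hS, sub_eq_zero] at h1
    have h2 : trace (R fun k => z k.1) ^ 2 ≠ 0 := pow_ne_zero 2 hT
    apply mul_right_cancel₀ h2
    rw [h1]
    ring

theorem main2 (F : DivForm L Ω) (b c : Ω) (hbc : b ≠ 0 ∨ c ≠ 0) :
    ∀ (n : ℕ) (ι : Type) [Fintype ι] [DecidableEq ι], Fintype.card ι = n →
      ∀ P : ML Ω ι, Nice F P → (∃ y, trace (P y) = 0 ∧ c2 (P y) ≠ 0) →
        ∃ y, trace (P y) = 0 ∧ c2 (P y) = b ∧ det (P y) = c := by
  intro n
  induction n using Nat.strong_induction_on with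
  | _ n ih =>
  intro ι _ _ hcard P hN hV
  obtain ⟨y, hy, hy'⟩ := hV
  by_cases htr : ∀ x, trace (P x) = 0
  · exact hit_of_traceless F hN b c hbc htr hy'
  push Not at htr
  obtain ⟨y1, hy1⟩ := htr
  obtain ⟨i, hi⟩ := first2 P hy hy' hy1
  rcases gen F (tgt2 F b c hbc) hN hi with h | ⟨I, u, v, z, hI, hu, hv, hz, h3, hon, hd⟩
  · exact h
  have hA : P (I.piecewise u z) ∈ F.D := by
    refine hN.mem _ fun k => ?_
    by_cases hk : k ∈ I
    · simpa [hk] using hu k
    · simpa [hk] using hz k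
  have hB : P (I.piecewise v z) ∈ F.D := by
    refine hN.mem _ fun k => ?_
    by_cases hk : k ∈ I
    · simpa [hk] using hv k
    · simpa [hk] using hz k
  obtain ⟨s, hs⟩ := F.tr_mem _ hB
  obtain ⟨t, ht⟩ := F.tr_mem _ hA
  have hN' := nice_comb hN h3 hu hv s (-t)
  have hRz : (algebraMap L Ω s • res P I u + algebraMap L Ω (-t) • res P I v)
      (fun k => z k.1) = trace (P (I.piecewise v z)) • P (I.piecewise u z) -
        trace (P (I.piecewise u z)) • P (I.piecewise v z) := by
    rw [_root_.add_apply, _root_.smul_apply, _root_.smul_apply,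
      res_apply, res_apply, map_neg, hs, ht, neg_smul, sub_eq_add_neg]
  obtain ⟨w, hw⟩ := ih _ (hcard ▸ card_lt hI) _ rfl _ hN' ⟨fun k => z k.1, by
    rw [hRz, trace_sub, trace_smul, trace_smul, smul_eq_mul, smul_eq_mul]
    ring, by
    rw [hRz]
    rw [rel2_d] at hd
    exact hd⟩
  obtain ⟨x, hx⟩ := hon (algebraMap L Ω s) (algebraMap L Ω (-t))
  rw [← hx, res_ext] at hw
  exact ⟨_, hw⟩

end Pool.Agent.H88KL
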