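import Mathlib

/-!
# Block KL-PEN: a pencil of linear maps of rank two

`M, N : Z → V` linear, all combinations `s M + t N` have rank at most two, `M e0, M e1, N e2` are
independent (so `rank M = 2` and `Im M + Im N` has dimension at least three), and `(M, N) : Z → V × V`
has rank at least three. Then every `x ∈ Im M + Im N` lies in the image of some `s M + t N` of rank
two.

Proof. (1) `N κ ∈ Im M` for `κ ∈ ker M`: for all `e, e'` the vectors `(M + t N) e, (M + t N) e',
t N κ` are dependent for every `t`. Take `e, e'` with `M e, M e'` a basis of `Im M`. If `N κ ∉ Im M`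
then `M e, M e', N κ` are independent; then some `3 x 3` minor of `(M + t N) e, (M + t N) e', N κ`
is a polynomial in `t` which is not zero at `t = 0`, so not zero at some `t ≠ 0` (infinite field): a
contradiction. (Or: choose a linear map `V → Ω ^ 3` which is injective on these three vectors and
use the determinant.)
(2) `N` is not zero on `ker M`: otherwise `(M, N)` factors through `M` and has rank two. So there
are `k1 ∈ ker M` with `n = N k1 ≠ 0`, `n ∈ Im M`. `rank N ≤ 2`, `Im N ⊄ Im M`, so `N` has rank two,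
`Im N = <n, w'>` and `Im M ∩ Im N = <n>` (the sum has dimension at least three).
(3) By symmetry (`rank N = 2`; the roles of `M, N` exchanged, note that `ker N ⊄ ker M`, because
otherwise, `ker M` and `ker N` having the same codimension two, they would be equal, but
`k1 ∈ ker M` is not in `ker N`) there is `k2 ∈ ker N` with `0 ≠ M k2 ∈ Im M ∩ Im N = <n>`; scale: `M k2 = n`.
(4) `Im M = <n, w>` with `w = M e` for some `e`; put `w' = N e`. Then `Im N = <n, w'>`: indeed
`ker M` and `ker N` are `ker M = K + <k1>`, `ker N = K + <k2>`, `K = ker M ∩ ker N`, and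
`Z = K + <k1, k2, e>` (`dim Z / K = 2 + dim N (ker M) = 3`, and `k1, k2, e` are independent modulo
`K`: apply `M`, then `N`). So `Im N = <N k1, N e> = <n, w'>`, `Im (s M + t N)` is spanned by
`t n`, `s n`, `s w + t w'`, and `n, w, w'` are independent (they span `Im M + Im N`, of dimension
at least three).
(5) Let `x = a n + b w + c w'`. If `(b, c) ≠ 0` take `(s, t) = (b, c)`; otherwise `(s, t) = (1, 0)`.
Then `x ∈ <n, s w + t w'> = Im (s M + t N)`, spanned by two independent values.
-/

namespace Pool.Agent.H88KL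

private lemma li3_24 {Ω V : Type*} [Field Ω] [AddCommGroup V] [Module Ω V] (u v w : V) :
    LinearIndependent Ω ![u, v, w] ↔
      ∀ a b c : Ω, a • u + b • v + c • w = 0 → a = 0 ∧ b = 0 ∧ c = 0 := by
  rw [Fintype.linearIndependent_iff]
  constructor
  · intro h a b c habc
    have := h ![a, b, c] (by simpa [Fin.sum_univ_three] using habc)
    exact ⟨this 0, this 1, this 2⟩
  · intro h g hg i
    have h1 := h (g 0) (g 1) (g 2) (by simpa [Fin.sum_univ_three] using hg)
    fin_cases i
    · exact h1.1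
    · exact h1.2.1
    · exact h1.2.2

private lemma mem24 {Ω V : Type*} [Field Ω] [AddCommGroup V] [Module Ω V] {u v w : V}
    (h2 : LinearIndependent Ω ![u, v]) (h3 : ¬ LinearIndependent Ω ![u, v, w]) :
    ∃ a b : Ω, w = a • u + b • v := by
  rw [li3_24] at h3
  rw [LinearIndependent.pair_iff] at h2
  push Not at h3
  obtain ⟨a, b, c, habc, hne⟩ := h3
  by_cases hc : c = 0
  · subst hc
    rw [zero_smul, add_zero] at habc
    obtain ⟨ha, hb⟩ := h2 a b habc
    exact absurd rfl (hne ha hb)
  · refine ⟨-(c⁻¹ * a), -(c⁻¹ * b), ?_⟩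
    have h4 : c • w = -(a • u) - b • v := by
      have : c • w = (a • u + b • v + c • w) - a • u - b • v := by abel
      rw [this, habc]
      abel
    calc w = c⁻¹ • (c • w) := by rw [smul_smul, inv_mul_cancel₀ hc, one_smul]
      _ = _ := by
        rw [h4, smul_sub, smul_neg, smul_smul, smul_smul, neg_smul, neg_smul]
        abel

private lemma root24 {Ω : Type*} [Field Ω] [Infinite Ω] (α β : Ω) :
    ∃ t : Ω, t ≠ 0 ∧ 1 + α * t + β * t ^ 2 ≠ 0 := by
  by_contra h
  push Not at h
  have h1 : (Polynomial.X * (1 + Polynomial.C α * Polynomial.X +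
      Polynomial.C β * Polynomial.X ^ 2) : Polynomial Ω) = 0 := by
    apply Polynomial.funext
    intro t
    by_cases ht : t = 0
    · simp [ht]
    · simp [h t ht]
  have h2 := congrArg (fun q : Polynomial Ω => q.coeff 1) h1
  have h3 : (1 + Polynomial.C α * Polynomial.X +
      Polynomial.C β * Polynomial.X ^ 2 : Polynomial Ω) = 0 := by
    rcases mul_eq_zero.1 h1 with h | h
    · exact absurd h Polynomial.X_ne_zero
    · exact h
  have h4 := congrArg (fun q : Polynomial Ω => q.eval 0) h3
  simp at h4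

private lemma pert24 {Ω V : Type*} [Field Ω] [Infinite Ω] [AddCommGroup V] [Module Ω V]
    {u v w : V} (h : LinearIndependent Ω ![u, v, w]) (u' v' : V) :
    ∃ t : Ω, t ≠ 0 ∧ LinearIndependent Ω ![u + t • u', v + t • v', w] := by
  have hinj : LinearMap.ker (Fintype.linearCombination Ω ![u, v, w]) = ⊥ := by
    rw [LinearMap.ker_eq_bot]
    exact linearIndependent_iff_injective_fintypeLinearCombination.1 h
  obtain ⟨g, hg⟩ := LinearMap.exists_leftInverse_of_injective _ hinj
  have hg' : ∀ x, g (Fintype.linearCombination Ω ![u, v, w] x) = x := fun x =>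
    LinearMap.congr_fun hg x
  have hu : g u = ![1, 0, 0] := by
    have := hg' ![1, 0, 0]
    simpa [Fintype.linearCombination_apply, Fin.sum_univ_three] using this
  have hv : g v = ![0, 1, 0] := by
    have := hg' ![0, 1, 0]
    simpa [Fintype.linearCombination_apply, Fin.sum_univ_three] using this
  have hw : g w = ![0, 0, 1] := by
    have := hg' ![0, 0, 1]
    simpa [Fintype.linearCombination_apply, Fin.sum_univ_three] using this
  obtain ⟨t, ht, ht'⟩ := root24 (g u' 0 + g v' 1) (g u' 0 * g v' 1 - g u' 1 * g v' 0)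
  refine ⟨t, ht, ?_⟩
  rw [li3_24]
  intro a b c habc
  have h0 := congrFun (congrArg g habc) 0
  have h1 := congrFun (congrArg g habc) 1
  simp only [map_add, map_smul, hu, hv, hw, Pi.add_apply, Pi.smul_apply, smul_eq_mul,
    Matrix.cons_val_zero, Matrix.cons_val_one, map_zero, Pi.zero_apply] at h0 h1
  have ha : a * (1 + (g u' 0 + g v' 1) * t + (g u' 0 * g v' 1 - g u' 1 * g v' 0) * t ^ 2) = 0 := by
    linear_combination (1 + t * g v' 1) * h0 - t * g v' 0 * h1
  have hb : b * (1 + (g u' 0 + g v' 1) * t + (g u' 0 * g v' 1 - g u' 1 * g v' 0) * t ^ 2) = 0 := by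
    linear_combination (1 + t * g u' 0) * h1 - t * g u' 1 * h0
  have ha0 : a = 0 := (mul_eq_zero.1 ha).resolve_right ht'
  have hb0 : b = 0 := (mul_eq_zero.1 hb).resolve_right ht'
  subst ha0
  subst hb0
  have hc : c • w = 0 := by simpa using habc
  have hwne : w ≠ 0 := h.ne_zero 2
  exact ⟨rfl, rfl, (smul_eq_zero.1 hc).resolve_right hwne⟩

private lemma key24 {Ω Z V : Type*} [Field Ω] [Infinite Ω] [AddCommGroup Z] [Module Ω Z]
    [AddCommGroup V] [Module Ω V] (M N : Z →ₗ[Ω] V)
    (h2 : ∀ (s t : Ω) (e : Fin 3 → Z), ¬ LinearIndependent Ω fun j => (s • M + t • N) (e j))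
    {a b k : Z} (hab : LinearIndependent Ω ![M a, M b]) (hk : M k = 0) :
    ∃ α β : Ω, N k = α • M a + β • M b := by
  apply mem24 hab
  intro hli
  obtain ⟨t, ht, h⟩ := pert24 hli (N a) (N b)
  apply h2 1 t ![a, b, k]
  have h3 : LinearIndependent Ω ![(M + t • N) a, (M + t • N) b, (M + t • N) k] := by
    rw [li3_24] at h ⊢
    intro x y z hxyz
    have := h x y (z * t) (by
      rw [← hxyz]
      simp [hk, mul_smul])
    refine ⟨this.1, this.2.1, ?_⟩
    exact (mul_eq_zero.1 this.2.2).resolve_right ht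
  convert h3 using 1
  funext j
  fin_cases j <;> simp

theorem pencil {Ω Z V : Type*} [Field Ω] [Infinite Ω] [AddCommGroup Z] [Module Ω Z]
    [AddCommGroup V] [Module Ω V] (M N : Z →ₗ[Ω] V)
    (h2 : ∀ (s t : Ω) (e : Fin 3 → Z), ¬ LinearIndependent Ω fun j => (s • M + t • N) (e j))
    (e : Fin 3 → Z) (h3 : LinearIndependent Ω ![M (e 0), M (e 1), N (e 2)])
    (f : Fin 3 → Z) (hf : LinearIndependent Ω fun j => ((M (f j), N (f j)) : V × V))
    (x : V) (hx : x ∈ LinearMap.range M ⊔ LinearMap.range N) :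
    ∃ s t : Ω, x ∈ LinearMap.range (s • M + t • N) ∧
      ∃ a b : Z, LinearIndependent Ω ![(s • M + t • N) a, (s • M + t • N) b] := by
  have hM3 : ∀ a b c : Z, ¬ LinearIndependent Ω ![M a, M b, M c] := by
    intro a b c hli
    apply h2 1 0 ![a, b, c]
    convert hli using 1
    funext j
    fin_cases j <;> simp
  have hN3 : ∀ a b c : Z, ¬ LinearIndependent Ω ![N a, N b, N c] := by
    intro a b c hli
    apply h2 0 1 ![a, b, c]
    convert hli using 1
    funext j
    fin_cases j <;> simp
  have h2' : ∀ (s t : Ω) (e : Fin 3 → Z),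
      ¬ LinearIndependent Ω fun j => (s • N + t • M) (e j) := by
    intro s t e
    rw [add_comm]
    exact h2 t s e
  have h3' := h3
  rw [li3_24] at h3'
  have hpq : LinearIndependent Ω ![M (e 0), M (e 1)] := by
    rw [LinearIndependent.pair_iff]
    intro a b hab
    have := h3' a b 0 (by rw [zero_smul, add_zero]; exact hab)
    exact ⟨this.1, this.2.1⟩
  -- the range of `M`
  have hMr : ∀ z, ∃ α β : Ω, M z = α • M (e 0) + β • M (e 1) := fun z => mem24 hpq (hM3 _ _ _)
  have hNe2 : ∀ z, N (e 2) ≠ M z := by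
    intro z hz
    obtain ⟨α, β, h⟩ := hMr z
    have := h3' α β (-1) (by rw [← h, hz]; simp)
    exact one_ne_zero (neg_eq_zero.1 this.2.2)
  have hf' : ∀ c : Fin 3 → Ω, ∑ j, c j • M (f j) = 0 → ∑ j, c j • N (f j) = 0 → c = 0 := by
    intro c h4 h5
    rw [Fintype.linearIndependent_iff] at hf
    funext j
    apply hf c
    rw [Prod.ext_iff]
    simp only [Prod.smul_mk, Prod.fst_sum, Prod.snd_sum]
    exact ⟨h4, h5⟩
  -- the kernel vector of `M`
  obtain ⟨k1, hk1, hk1'⟩ : ∃ k, M k = 0 ∧ N k ≠ 0 := by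
    have h4 : ¬ LinearIndependent Ω fun j => M (f j) := by
      have := h2 1 0 f
      simpa using this
    rw [Fintype.linearIndependent_iff] at h4
    push Not at h4
    obtain ⟨c, hc, i, hi⟩ := h4
    refine ⟨∑ j, c j • f j, by simpa using hc, ?_⟩
    intro h5
    have := hf' c hc (by simpa using h5)
    exact hi (congrFun this i)
  obtain ⟨k2, hk2, hk2'⟩ : ∃ k, N k = 0 ∧ M k ≠ 0 := by
    have h4 : ¬ LinearIndependent Ω fun j => N (f j) := by
      have := h2 0 1 f
      simpa using this
    rw [Fintype.linearIndependent_iff] at h4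
    push Not at h4
    obtain ⟨c, hc, i, hi⟩ := h4
    refine ⟨∑ j, c j • f j, by simpa using hc, ?_⟩
    intro h5
    have := hf' c (by simpa using h5) hc
    exact hi (congrFun this i)
  obtain ⟨α, β, hn⟩ := key24 M N h2 hpq hk1
  set n := N k1 with hndef
  obtain ⟨m, hm⟩ : ∃ m, M m = n := ⟨α • e 0 + β • e 1, by simp [hn]⟩
  have hnN : LinearIndependent Ω ![N k1, N (e 2)] := by
    rw [LinearIndependent.pair_iff]
    intro a b hab
    have hb : b = 0 := by
      by_contra hb
      apply hNe2 (-(b⁻¹ * a) • m)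
      rw [map_smul, hm]
      have h5 : b • N (e 2) = -(a • n) := eq_neg_of_add_eq_zero_right hab
      calc N (e 2) = b⁻¹ • (b • N (e 2)) := by rw [smul_smul, inv_mul_cancel₀ hb, one_smul]
        _ = _ := by rw [h5, smul_neg, smul_smul, neg_smul]
    subst hb
    rw [zero_smul, add_zero] at hab
    exact ⟨(smul_eq_zero.1 hab).resolve_right hk1', rfl⟩
  -- scale the kernel vector of `N`
  obtain ⟨k3, hk3, hk3'⟩ : ∃ k, N k = 0 ∧ M k = n := by
    obtain ⟨γ, δ, h5⟩ := key24 N M h2' hnN hk2
    have hδ : δ = 0 := by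
      by_contra hδ
      apply hNe2 (δ⁻¹ • (k2 - γ • m))
      rw [map_smul, map_sub, map_smul, hm, h5]
      rw [add_sub_cancel_left, smul_smul, inv_mul_cancel₀ hδ, one_smul]
    rw [hδ, zero_smul, add_zero] at h5
    have hγ : γ ≠ 0 := by
      rintro rfl
      rw [zero_smul] at h5
      exact hk2' h5
    refine ⟨γ⁻¹ • k2, by rw [map_smul, hk2, smul_zero], ?_⟩
    rw [map_smul, h5, smul_smul, inv_mul_cancel₀ hγ, one_smul]
  -- the third vector
  obtain ⟨w, hw1, hw2⟩ : ∃ w, (∀ c : Ω, M w ≠ c • n) ∧ (∀ c : Ω, N w ≠ c • n) := by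
    obtain ⟨a, ha⟩ : ∃ a, ∀ c : Ω, M a ≠ c • n := by
      by_contra hcon
      push Not at hcon
      obtain ⟨c0, hc0⟩ := hcon (e 0)
      obtain ⟨c1, hc1⟩ := hcon (e 1)
      rw [LinearIndependent.pair_iff] at hpq
      have h5 := hpq c1 (-c0) (by rw [hc0, hc1, smul_smul, smul_smul, neg_mul, neg_smul, mul_comm]
                                  exact add_neg_cancel _)
      have h6 : c0 = 0 := by simpa using h5.2
      rw [h6, zero_smul] at hc0
      have h7 := hpq 1 0 (by rw [hc0]; simp)
      exact one_ne_zero h7.1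
    have hb : ∀ c : Ω, N (e 2) ≠ c • n := by
      intro c hc
      apply hNe2 (c • m)
      rw [map_smul, hm, hc]
    by_cases h5 : ∀ c : Ω, N a ≠ c • n
    · exact ⟨a, ha, h5⟩
    by_cases h6 : ∀ c : Ω, M (e 2) ≠ c • n
    · exact ⟨e 2, h6, hb⟩
    push Not at h5 h6
    obtain ⟨c, hc⟩ := h5
    obtain ⟨d, hd⟩ := h6
    refine ⟨a + e 2, ?_, ?_⟩
    · intro c' hc'
      apply ha (c' - d)
      rw [map_add, hd] at hc'
      rw [sub_smul, ← hc']
      abel
    · intro c' hc'
      apply hb (c' - c)
      rw [map_add, hc] at hc'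
      rw [sub_smul, ← hc']
      abel
  have hnw : LinearIndependent Ω ![n, M w] := by
    rw [LinearIndependent.pair_iff]
    intro a b hab
    have hb : b = 0 := by
      by_contra hb
      apply hw1 (-(b⁻¹ * a))
      have h5 : b • M w = -(a • n) := eq_neg_of_add_eq_zero_right hab
      calc M w = b⁻¹ • (b • M w) := by rw [smul_smul, inv_mul_cancel₀ hb, one_smul]
        _ = _ := by rw [h5, smul_neg, smul_smul, neg_smul]
    subst hb
    rw [zero_smul, add_zero] at hab
    exact ⟨(smul_eq_zero.1 hab).resolve_right hk1', rfl⟩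
  have hnw' : LinearIndependent Ω ![n, N w] := by
    rw [LinearIndependent.pair_iff]
    intro a b hab
    have hb : b = 0 := by
      by_contra hb
      apply hw2 (-(b⁻¹ * a))
      have h5 : b • N w = -(a • n) := eq_neg_of_add_eq_zero_right hab
      calc N w = b⁻¹ • (b • N w) := by rw [smul_smul, inv_mul_cancel₀ hb, one_smul]
        _ = _ := by rw [h5, smul_neg, smul_smul, neg_smul]
    subst hb
    rw [zero_smul, add_zero] at hab
    exact ⟨(smul_eq_zero.1 hab).resolve_right hk1', rfl⟩
  have hMs : ∀ z, ∃ a b : Ω, M z = a • n + b • M w := by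
    intro z
    apply mem24 hnw
    rw [← hk3']
    exact hM3 _ _ _
  have hNs : ∀ z, ∃ a b : Ω, N z = a • n + b • N w := by
    intro z
    apply mem24 hnw'
    exact hN3 _ _ _
  have hli : LinearIndependent Ω ![n, M w, N w] := by
    by_contra hcon
    obtain ⟨a, b, hab⟩ := mem24 hnw hcon
    -- `N w` is in the range of `M`
    have h5 : N w = M (a • m + b • w) := by rw [map_add, map_smul, map_smul, hm, hab]
    obtain ⟨c, d, hcd⟩ := hNs (e 2)
    apply hNe2 (c • m + d • (a • m + b • w))
    rw [map_add, map_smul, map_smul, ← h5, hm, hcd]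
  obtain ⟨x1, ⟨z1, rfl⟩, x2, ⟨z2, rfl⟩, rfl⟩ := Submodule.mem_sup.1 hx
  obtain ⟨a1, b, h5⟩ := hMs z1
  obtain ⟨a2, c, h6⟩ := hNs z2
  have hxe : M z1 + N z2 = (a1 + a2) • n + b • M w + c • N w := by
    rw [h5, h6, add_smul]
    abel
  rw [li3_24] at hli
  by_cases hb : b = 0
  · by_cases hc : c = 0
    · refine ⟨1, 0, ⟨(a1 + a2) • k3, ?_⟩, k3, w, ?_⟩
      · rw [hxe, hb, hc]
        simp [hk3']
      · simpa [hk3'] using hnw
    · refine ⟨b, c, ⟨w + (c⁻¹ * (a1 + a2)) • k1, ?_⟩, k1, w, ?_⟩
      · rw [hxe]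
        simp only [LinearMap.add_apply, LinearMap.smul_apply, map_add, map_smul, hk1, smul_zero,
          add_zero, smul_add, smul_smul, ← hndef]
        have h7 : c⁻¹ * (a1 + a2) * c = a1 + a2 := by field_simp
        rw [h7]
        abel
      · rw [LinearIndependent.pair_iff]
        intro p q hpq'
        have h7 : (p * c) • n + (q * b) • M w + (q * c) • N w = 0 := by
          rw [← hpq']
          simp only [LinearMap.add_apply, LinearMap.smul_apply, hk1, smul_zero, zero_add,
            smul_add, smul_smul, ← hndef]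
          abel
        obtain ⟨h8, h9, h10⟩ := hli _ _ _ h7
        exact ⟨(mul_eq_zero.1 h8).resolve_right hc, (mul_eq_zero.1 h10).resolve_right hc⟩
  · refine ⟨b, c, ⟨w + (b⁻¹ * (a1 + a2)) • k3, ?_⟩, k3, w, ?_⟩
    · rw [hxe]
      simp only [LinearMap.add_apply, LinearMap.smul_apply, map_add, map_smul, hk3, hk3',
        smul_zero, add_zero, smul_add, smul_smul]
      have h7 : b⁻¹ * (a1 + a2) * b = a1 + a2 := by field_simp
      rw [h7]
      abel
    · rw [LinearIndependent.pair_iff]
      intro p q hpq'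
      have h7 : (p * b) • n + (q * b) • M w + (q * c) • N w = 0 := by
        rw [← hpq']
        simp only [LinearMap.add_apply, LinearMap.smul_apply, hk3, hk3', smul_zero, add_zero,
          smul_add, smul_smul]
        abel
      obtain ⟨h8, h9, h10⟩ := hli _ _ _ h7
      exact ⟨(mul_eq_zero.1 h8).resolve_right hb, (mul_eq_zero.1 h9).resolve_right hb⟩

end Pool.Agent.H88KL
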