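import Pool.Agent.Helper88.KL.Def
import Pool.Agent.Helper24.ML.Minor

/-!
# Block KL-POLY: polynomial functions of matrices and open conditions

`IsPoly`, `IsPolyM` and `Op` are defined in `Def.lean`. Everything is elementary.

* closure properties of `IsPoly`: use `MvPolynomial.C`, `X`, `+`, `*` and `map_add` etc.;
* `IsPolyM.ml`: expand `P` in matrix units: with `G i y = ∑ r s, (G i y r s) • E r s`
  (`Matrix.matrix_eq_sum_single`) and `MultilinearMap.map_sum` (or `map_sum_finset`) and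
  `MultilinearMap.map_smul_univ`:
  `P (fun i => G i y) = ∑ q : ι → Fin 3 × Fin 3, (∏ i, G i y (q i).1 (q i).2) • P (fun i => E ..)`;
* `Op.exists_and`: the product of the two polynomials is not the zero polynomial (`Ω` is an
  infinite field, `MvPolynomial.funext`), so it does not vanish at some point;
* `Op.exists_D`: choose a basis of `M3 Ω` contained in `D` (`F.span_top`,
  `Submodule.exists_linearIndependent` / `exists_fun_fin_finrank_span_eq` ...; nine matrices `e_j`).
  The polynomial in the coordinates with respect to this basis (`y k = ∑ j, t (k, j) • e_j`) is not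
  zero, so it does not vanish at some point with all coordinates in the infinite set
  `Set.range (algebraMap L Ω)` (`MvPolynomial.funext_set`, or `MvPolynomial.funext` after a
  change of variables); `∑ j, algebraMap L Ω (t (k, j)) • e_j ∈ D`;
* `Op.indep`: vectors `v_1, …, v_n` in `Ω ^ β` are independent if and only if some `n x n` minor is
  not zero (`Pool/Agent/Helper24/ML/Minor.lean`: `exists_minor`, `rank_of_minor`).
-/

open Matrix

namespace Pool.Agent.H88KL

open Pool.Agent.H24ML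

universe u

variable {Ω : Type u} [Field Ω] {κ : Type}

theorem IsPoly.const (a : Ω) : IsPoly fun _ : κ → M3 Ω => a :=
  ⟨MvPolynomial.C a, fun y => by simp⟩

theorem IsPoly.coord (i : κ) (r s : Fin 3) : IsPoly fun y : κ → M3 Ω => y i r s :=
  ⟨MvPolynomial.X (i, r, s), fun y => by simp⟩

theorem IsPoly.add {F G : (κ → M3 Ω) → Ω} (hF : IsPoly F) (hG : IsPoly G) :
    IsPoly fun y => F y + G y := by
  obtain ⟨f, hf⟩ := hF
  obtain ⟨g, hg⟩ := hG
  exact ⟨f + g, fun y => by rw [map_add, ← hf, ← hg]⟩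

theorem IsPoly.neg {F : (κ → M3 Ω) → Ω} (hF : IsPoly F) : IsPoly fun y => -F y := by
  obtain ⟨f, hf⟩ := hF
  exact ⟨-f, fun y => by rw [map_neg, ← hf]⟩

theorem IsPoly.sub {F G : (κ → M3 Ω) → Ω} (hF : IsPoly F) (hG : IsPoly G) :
    IsPoly fun y => F y - G y := by
  obtain ⟨f, hf⟩ := hF
  obtain ⟨g, hg⟩ := hG
  exact ⟨f - g, fun y => by rw [map_sub, ← hf, ← hg]⟩

theorem IsPoly.mul {F G : (κ → M3 Ω) → Ω} (hF : IsPoly F) (hG : IsPoly G) :
    IsPoly fun y => F y * G y := by
  obtain ⟨f, hf⟩ := hF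
  obtain ⟨g, hg⟩ := hG
  exact ⟨f * g, fun y => by rw [map_mul, ← hf, ← hg]⟩

theorem IsPoly.pow {F : (κ → M3 Ω) → Ω} (hF : IsPoly F) (n : ℕ) : IsPoly fun y => F y ^ n := by
  obtain ⟨f, hf⟩ := hF
  exact ⟨f ^ n, fun y => by rw [map_pow, ← hf]⟩

theorem IsPoly.sum {α : Type*} (s : Finset α) {F : α → (κ → M3 Ω) → Ω}
    (hF : ∀ a ∈ s, IsPoly (F a)) : IsPoly fun y => ∑ a ∈ s, F a y := by
  classical
  induction s using Finset.induction_on with
  | empty => simpa using IsPoly.const (κ := κ) (0 : Ω)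
  | insert a s ha ih =>
    simp only [Finset.sum_insert ha]
    exact (hF a (Finset.mem_insert_self a s)).add
      (ih fun b hb => hF b (Finset.mem_insert_of_mem hb))

theorem IsPoly.prod {α : Type*} (s : Finset α) {F : α → (κ → M3 Ω) → Ω}
    (hF : ∀ a ∈ s, IsPoly (F a)) : IsPoly fun y => ∏ a ∈ s, F a y := by
  classical
  induction s using Finset.induction_on with
  | empty => simpa using IsPoly.const (κ := κ) (1 : Ω)
  | insert a s ha ih =>
    simp only [Finset.prod_insert ha]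
    exact (hF a (Finset.mem_insert_self a s)).mul
      (ih fun b hb => hF b (Finset.mem_insert_of_mem hb))

/-- Composition with a matrix valued polynomial map. -/
theorem IsPoly.comp {κ' : Type} {F : (κ' → M3 Ω) → Ω} (hF : IsPoly F)
    {G : κ' → (κ → M3 Ω) → M3 Ω} (hG : ∀ i, IsPolyM (G i)) :
    IsPoly fun y => F fun i => G i y := by
  obtain ⟨f, hf⟩ := hF
  choose g hg using hG
  refine ⟨MvPolynomial.bind₁ (fun q : κ' × Fin 3 × Fin 3 => g q.1 q.2.1 q.2.2) f, fun y => ?_⟩
  have h := MvPolynomial.eval₂Hom_bind₁ (RingHom.id Ω)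
    (fun q : κ × Fin 3 × Fin 3 => y q.1 q.2.1 q.2.2)
    (fun q : κ' × Fin 3 × Fin 3 => g q.1 q.2.1 q.2.2) f
  refine (hf _).trans (Eq.trans ?_ h.symm)
  have h2 : (fun q : κ' × Fin 3 × Fin 3 => G q.1 y q.2.1 q.2.2) = fun q =>
      (MvPolynomial.eval₂Hom (RingHom.id Ω) fun q : κ × Fin 3 × Fin 3 => y q.1 q.2.1 q.2.2)
        (g q.1 q.2.1 q.2.2) := by
    funext q
    exact hg q.1 q.2.1 q.2.2 y
  exact congrArg (fun z => MvPolynomial.eval z f) h2

theorem IsPolyM.coord (i : κ) : IsPolyM fun y : κ → M3 Ω => y i :=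
  fun r s => IsPoly.coord i r s

theorem IsPolyM.const (A : M3 Ω) : IsPolyM fun _ : κ → M3 Ω => A :=
  fun r s => IsPoly.const (A r s)

theorem IsPolyM.add {F G : (κ → M3 Ω) → M3 Ω} (hF : IsPolyM F) (hG : IsPolyM G) :
    IsPolyM fun y => F y + G y :=
  fun r s => (hF r s).add (hG r s)

theorem IsPolyM.sub {F G : (κ → M3 Ω) → M3 Ω} (hF : IsPolyM F) (hG : IsPolyM G) :
    IsPolyM fun y => F y - G y :=
  fun r s => (hF r s).sub (hG r s)

theorem IsPolyM.mul {F G : (κ → M3 Ω) → M3 Ω} (hF : IsPolyM F) (hG : IsPolyM G) :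
    IsPolyM fun y => F y * G y := by
  intro r s
  simp only [Matrix.mul_apply]
  exact IsPoly.sum _ fun t _ => (hF r t).mul (hG t s)

theorem IsPolyM.smul {F : (κ → M3 Ω) → Ω} {G : (κ → M3 Ω) → M3 Ω} (hF : IsPoly F)
    (hG : IsPolyM G) : IsPolyM fun y => F y • G y :=
  fun r s => hF.mul (hG r s)

theorem IsPolyM.trace {F : (κ → M3 Ω) → M3 Ω} (hF : IsPolyM F) :
    IsPoly fun y => Matrix.trace (F y) := by
  simp only [Matrix.trace, Matrix.diag]
  exact IsPoly.sum _ fun t _ => hF t t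

theorem IsPolyM.c2 {F : (κ → M3 Ω) → M3 Ω} (hF : IsPolyM F) :
    IsPoly fun y => Pool.Agent.H24ML.c2 (F y) := by
  simp only [Pool.Agent.H24ML.c2]
  exact ((((hF 0 0).mul (hF 1 1)).sub ((hF 0 1).mul (hF 1 0))).add
    (((hF 0 0).mul (hF 2 2)).sub ((hF 0 2).mul (hF 2 0)))).add
    (((hF 1 1).mul (hF 2 2)).sub ((hF 1 2).mul (hF 2 1)))

theorem IsPolyM.det {F : (κ → M3 Ω) → M3 Ω} (hF : IsPolyM F) :
    IsPoly fun y => Matrix.det (F y) := by
  simp only [Matrix.det_apply']
  exact IsPoly.sum _ fun σ _ => (IsPoly.const _).mul (IsPoly.prod _ fun i _ => hF _ _)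

/-- Composition with a multilinear map. -/
theorem IsPolyM.ml {ι : Type} [Fintype ι] (P : ML Ω ι) {G : ι → (κ → M3 Ω) → M3 Ω}
    (hG : ∀ i, IsPolyM (G i)) : IsPolyM fun y => P fun i => G i y := by
  classical
  have h : ∀ y, (P fun i => G i y) = ∑ q : ι → Fin 3 × Fin 3,
      (∏ i, G i y (q i).1 (q i).2) • P fun i => (E (q i).1 (q i).2 : M3 Ω) := by
    intro y
    have h1 : (fun i => G i y) = fun i => ∑ q : Fin 3 × Fin 3, G i y q.1 q.2 • (E q.1 q.2 : M3 Ω) := by
      funext i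
      rw [Fintype.sum_prod_type]
      conv_lhs => rw [Matrix.matrix_eq_sum_single (G i y)]
      simp only [E, Matrix.smul_single, smul_eq_mul, mul_one]
    rw [h1, MultilinearMap.map_sum]
    refine Finset.sum_congr rfl fun q _ => ?_
    rw [MultilinearMap.map_smul_univ]
  intro r s
  simp only [h]
  simp only [Matrix.sum_apply]
  exact IsPoly.sum _ fun q _ => (IsPoly.prod _ fun i _ => hG i _ _).mul (IsPoly.const _)

theorem Op.ne {F : (κ → M3 Ω) → Ω} (hF : IsPoly F) : Op fun y => F y ≠ 0 :=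
  fun _ h0 => ⟨F, hF, h0, fun _ h => h⟩

theorem Op.and {Q Q' : (κ → M3 Ω) → Prop} (h : Op Q) (h' : Op Q') : Op fun y => Q y ∧ Q' y := by
  intro y0 h0
  obtain ⟨F, hF, hF0, hF1⟩ := h y0 h0.1
  obtain ⟨G, hG, hG0, hG1⟩ := h' y0 h0.2
  exact ⟨fun y => F y * G y, hF.mul hG, mul_ne_zero hF0 hG0, fun y hy =>
    ⟨hF1 y (left_ne_zero_of_mul hy), hG1 y (right_ne_zero_of_mul hy)⟩⟩

/-- Open for finitely many conditions. -/
theorem Op.all {α : Type*} [Finite α] {Q : α → (κ → M3 Ω) → Prop} (h : ∀ a, Op (Q a)) :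
    Op fun y => ∀ a, Q a y := by
  classical
  have := Fintype.ofFinite α
  intro y0 h0
  choose F hF hF0 hF1 using fun a => h a y0 (h0 a)
  refine ⟨fun y => ∏ a, F a y, IsPoly.prod _ fun a _ => hF a,
    Finset.prod_ne_zero_iff.mpr fun a _ => hF0 a, fun y hy a => hF1 a y ?_⟩
  exact Finset.prod_ne_zero_iff.mp hy a (Finset.mem_univ a)

theorem Op.comp {κ' : Type} {Q : (κ' → M3 Ω) → Prop} (h : Op Q)
    {G : κ' → (κ → M3 Ω) → M3 Ω} (hG : ∀ i, IsPolyM (G i)) : Op fun y => Q fun i => G i y := by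
  intro y0 h0
  obtain ⟨F, hF, hF0, hF1⟩ := h _ h0
  exact ⟨fun y => F fun i => G i y, hF.comp hG, hF0, fun y hy => hF1 _ hy⟩

/-- A polynomial which is not zero at every family of matrices is not zero. -/
private theorem poly_ne_zero_h54 {F : (κ → M3 Ω) → Ω}
    {f : MvPolynomial (κ × Fin 3 × Fin 3) Ω}
    (hf : ∀ y, F y = MvPolynomial.eval (fun q => y q.1 q.2.1 q.2.2) f) {y0 : κ → M3 Ω}
    (h0 : F y0 ≠ 0) : f ≠ 0 := by
  rintro rfl
  exact h0 (by rw [hf, map_zero])

theorem Op.exists_and [Infinite Ω] {Q Q' : (κ → M3 Ω) → Prop} (h : Op Q) (h' : Op Q')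
    (hne : ∃ y, Q y) (hne' : ∃ y, Q' y) : ∃ y, Q y ∧ Q' y := by
  obtain ⟨y0, hy0⟩ := hne
  obtain ⟨y1, hy1⟩ := hne'
  obtain ⟨F, ⟨f, hf⟩, hF0, hF1⟩ := h y0 hy0
  obtain ⟨G, ⟨g, hg⟩, hG0, hG1⟩ := h' y1 hy1
  have hfg : f * g ≠ 0 := mul_ne_zero (poly_ne_zero_h54 hf hF0) (poly_ne_zero_h54 hg hG0)
  obtain ⟨x, hx⟩ : ∃ x : κ × Fin 3 × Fin 3 → Ω, MvPolynomial.eval x (f * g) ≠ 0 := by
    by_contra hcon
    push Not at hcon
    exact hfg (MvPolynomial.funext fun x => by rw [hcon x, map_zero])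
  rw [map_mul] at hx
  refine ⟨fun i => Matrix.of fun r s => x (i, r, s), hF1 _ ?_, hG1 _ ?_⟩
  · rw [hf]
    exact left_ne_zero_of_mul hx
  · rw [hg]
    exact right_ne_zero_of_mul hx

/-- An open condition satisfied somewhere is satisfied on a subspace over an infinite subfield
which spans the matrices. -/
theorem Op.exists_sub {k : Type u} [Field k] [Infinite k] [Algebra k Ω]
    (S : Submodule k (M3 Ω)) (hS : Submodule.span Ω (S : Set (M3 Ω)) = ⊤)
    [Finite κ] {Q : (κ → M3 Ω) → Prop} (h : Op Q) (hne : ∃ y, Q y) :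
    ∃ y, (∀ i, y i ∈ S) ∧ Q y := by
  obtain ⟨y0, hy0⟩ := hne
  obtain ⟨F, ⟨p, hp⟩, hF0, hF1⟩ := h y0 hy0
  obtain ⟨f, hfS, hfspan, -⟩ := Submodule.exists_fun_fin_finrank_span_eq Ω (S : Set (M3 Ω))
  have hmem : ∀ A : M3 Ω, ∃ c : Fin (Module.finrank Ω (Submodule.span Ω (S : Set (M3 Ω)))) → Ω,
      ∑ j, c j • f j = A := by
    intro A
    rw [← Submodule.mem_span_range_iff_exists_fun, hfspan, hS]
    exact Submodule.mem_top
  choose c hc using hmem
  -- the polynomial in the coordinates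
  set g : κ × Fin 3 × Fin 3 →
      MvPolynomial (κ × Fin (Module.finrank Ω (Submodule.span Ω (S : Set (M3 Ω))))) Ω :=
    fun q => ∑ j, MvPolynomial.X (q.1, j) * MvPolynomial.C (f j q.2.1 q.2.2) with hg
  have hev : ∀ t : κ × Fin (Module.finrank Ω (Submodule.span Ω (S : Set (M3 Ω)))) → Ω,
      MvPolynomial.eval t (MvPolynomial.bind₁ g p) = F fun i => ∑ j, t (i, j) • f j := by
    intro t
    have h1 := MvPolynomial.eval₂Hom_bind₁ (RingHom.id Ω) t g p
    refine Eq.trans h1 ?_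
    refine Eq.trans ?_ (hp _).symm
    refine congrArg (fun z => MvPolynomial.eval z p) ?_
    funext q
    change MvPolynomial.eval t (g q) = _
    simp only [hg, map_sum, map_mul, MvPolynomial.eval_X, MvPolynomial.eval_C, Matrix.sum_apply,
      Matrix.smul_apply, smul_eq_mul]
  have hne0 : MvPolynomial.bind₁ g p ≠ 0 := by
    intro h0
    have h1 := hev fun q => c (y0 q.1) q.2
    rw [h0, map_zero] at h1
    refine hF0 ?_
    have h2 : (fun i => ∑ j, c (y0 i) j • f j) = y0 := by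
      funext i
      exact hc (y0 i)
    rw [← h2]
    exact h1.symm
  obtain ⟨t, ht, ht0⟩ : ∃ t : κ × Fin (Module.finrank Ω (Submodule.span Ω (S : Set (M3 Ω)))) → Ω,
      (∀ q, t q ∈ Set.range (algebraMap k Ω)) ∧
        MvPolynomial.eval t (MvPolynomial.bind₁ g p) ≠ 0 := by
    by_contra hcon
    push Not at hcon
    refine hne0 (MvPolynomial.funext_set (fun _ => Set.range (algebraMap k Ω)) (fun _ =>
      Set.infinite_range_of_injective (algebraMap k Ω).injective) fun x hx => ?_)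
    rw [map_zero]
    exact hcon x fun q => hx q (Set.mem_univ q)
  choose a ha using ht
  refine ⟨fun i => ∑ j, t (i, j) • f j, fun i => ?_, hF1 _ ?_⟩
  · refine Submodule.sum_mem _ fun j _ => ?_
    rw [← ha (i, j), algebraMap_smul]
    exact S.smul_mem _ (hfS j)
  · rw [← hev]
    exact ht0

theorem Op.exists_D {L : Type u} [Field L] [Infinite L] [Algebra L Ω] (F : DivForm L Ω)
    [Finite κ] {Q : (κ → M3 Ω) → Prop} (h : Op Q) (hne : ∃ y, Q y) :
    ∃ y, (∀ k, y k ∈ F.D) ∧ Q y :=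
  h.exists_sub (Subalgebra.toSubmodule F.D) F.span_top hne

private theorem isPoly_det_h54 {n : ℕ} {M : (κ → M3 Ω) → Matrix (Fin n) (Fin n) Ω}
    (hM : ∀ i j, IsPoly fun y => M y i j) : IsPoly fun y => Matrix.det (M y) := by
  simp only [Matrix.det_apply']
  exact IsPoly.sum _ fun σ _ => (IsPoly.const _).mul (IsPoly.prod _ fun i _ => hM _ _)

private theorem indepVec_h54 {β : Type} [Fintype β] {n : ℕ} {v : Fin n → (κ → M3 Ω) → β → Ω}
    (hv : ∀ j b, IsPoly fun y => v j y b) : Op fun y => LinearIndependent Ω fun j => v j y := by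
  intro y0 h0
  have h1 : (Matrix.of fun j => v j y0).rank = n := by
    have h2 : LinearIndependent Ω (Matrix.of fun j => v j y0).row := h0
    rw [h2.rank_matrix, Fintype.card_fin]
  obtain ⟨ρ, b, hρ⟩ := exists_minor (Matrix.of fun j => v j y0) n h1.ge
  refine ⟨fun y => Matrix.det ((Matrix.of fun j => v j y).submatrix ρ b),
    isPoly_det_h54 fun i j => hv (ρ i) (b j), hρ, fun y hy => ?_⟩
  have h3 := rank_of_minor (Matrix.of fun j => v j y) n ρ b hy
  rw [Matrix.rank_eq_finrank_span_row] at h3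
  refine linearIndependent_iff_card_le_finrank_span.mpr ?_
  rw [Fintype.card_fin]
  exact h3

private def vec_h54 : M3 Ω →ₗ[Ω] (Fin 3 × Fin 3 → Ω) where
  toFun A := fun q => A q.1 q.2
  map_add' _ _ := rfl
  map_smul' _ _ := rfl

private theorem ker_vec_h54 : LinearMap.ker (vec_h54 (Ω := Ω)) = ⊥ := by
  rw [LinearMap.ker_eq_bot']
  intro A hA
  ext r s
  exact congrFun hA (r, s)

private def vec2_h54 : M3 Ω × M3 Ω →ₗ[Ω] (Bool × Fin 3 × Fin 3 → Ω) where
  toFun A := fun q => bif q.1 then A.2 q.2.1 q.2.2 else A.1 q.2.1 q.2.2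
  map_add' A B := by
    funext q
    rcases q with ⟨b, r, s⟩
    cases b <;> rfl
  map_smul' a A := by
    funext q
    rcases q with ⟨b, r, s⟩
    cases b <;> rfl

private theorem ker_vec2_h54 : LinearMap.ker (vec2_h54 (Ω := Ω)) = ⊥ := by
  rw [LinearMap.ker_eq_bot']
  intro A hA
  refine Prod.ext ?_ ?_
  · ext r s
    exact congrFun hA (false, r, s)
  · ext r s
    exact congrFun hA (true, r, s)

theorem Op.indep {n : ℕ} {G : Fin n → (κ → M3 Ω) → M3 Ω} (hG : ∀ j, IsPolyM (G j)) :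
    Op fun y => LinearIndependent Ω fun j => G j y := by
  have h := indepVec_h54 (κ := κ) (v := fun j y => vec_h54 (G j y))
    fun j b => hG j b.1 b.2
  have h2 : (fun y : κ → M3 Ω => LinearIndependent Ω fun j => G j y) = fun y =>
      LinearIndependent Ω fun j => vec_h54 (G j y) := by
    funext y
    exact propext
      (LinearMap.linearIndependent_iff (v := fun j => G j y) vec_h54 ker_vec_h54).symm
  rw [h2]
  exact h

theorem Op.indep_prod {n : ℕ} {G G' : Fin n → (κ → M3 Ω) → M3 Ω} (hG : ∀ j, IsPolyM (G j))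
    (hG' : ∀ j, IsPolyM (G' j)) :
    Op fun y => LinearIndependent Ω fun j => ((G j y, G' j y) : M3 Ω × M3 Ω) := by
  have h := indepVec_h54 (κ := κ) (v := fun j y => vec2_h54 ((G j y, G' j y) : M3 Ω × M3 Ω))
    fun j b => by
      rcases b with ⟨b, r, s⟩
      cases b
      · exact hG j r s
      · exact hG' j r s
  have h2 : (fun y : κ → M3 Ω => LinearIndependent Ω fun j => ((G j y, G' j y) : M3 Ω × M3 Ω)) =
      fun y => LinearIndependent Ω fun j => vec2_h54 ((G j y, G' j y) : M3 Ω × M3 Ω) := by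
    funext y
    exact propext (LinearMap.linearIndependent_iff
      (v := fun j => ((G j y, G' j y) : M3 Ω × M3 Ω)) vec2_h54 ker_vec2_h54).symm
  rw [h2]
  exact h

theorem Op.rel (δ : Rel Ω) {G G' : (κ → M3 Ω) → M3 Ω} (hG : IsPolyM G) (hG' : IsPolyM G') :
    Op fun y => δ.d (G y) (G' y) ≠ 0 :=
  (Op.ne δ.poly).comp (G := fun b : Bool => bif b then G' else G) fun b => by
    cases b
    · exact hG
    · exact hG'

/-! ### Curried form: several families indexed by `ι` -/

/-- Zariski open conditions on several families of matrices. -/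
def OpT {m : ℕ} {ι : Type} (Q : (Fin m → ι → M3 Ω) → Prop) : Prop :=
  Op fun y : Fin m × ι → M3 Ω => Q fun a k => y (a, k)

theorem OpT.exists_and [Infinite Ω] {m : ℕ} {ι : Type} {Q Q' : (Fin m → ι → M3 Ω) → Prop}
    (h : OpT Q) (h' : OpT Q') (hne : ∃ y, Q y) (hne' : ∃ y, Q' y) : ∃ y, Q y ∧ Q' y := by
  obtain ⟨y0, hy0⟩ := hne
  obtain ⟨y1, hy1⟩ := hne'
  obtain ⟨y, hy⟩ := Op.exists_and (κ := Fin m × ι) h h' ⟨fun q => y0 q.1 q.2, hy0⟩
    ⟨fun q => y1 q.1 q.2, hy1⟩
  exact ⟨fun a k => y (a, k), hy⟩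

theorem OpT.and {m : ℕ} {ι : Type} {Q Q' : (Fin m → ι → M3 Ω) → Prop}
    (h : OpT Q) (h' : OpT Q') : OpT fun y => Q y ∧ Q' y :=
  Op.and (κ := Fin m × ι) h h'

theorem OpT.exists_D {L : Type u} [Field L] [Infinite L] [Algebra L Ω] (F : DivForm L Ω)
    {m : ℕ} {ι : Type} [Finite ι] {Q : (Fin m → ι → M3 Ω) → Prop} (h : OpT Q)
    (hne : ∃ y, Q y) : ∃ y, (∀ a k, y a k ∈ F.D) ∧ Q y := by
  obtain ⟨y0, hy0⟩ := hne
  obtain ⟨y, hyD, hy⟩ := Op.exists_D (κ := Fin m × ι) F h ⟨fun q => y0 q.1 q.2, hy0⟩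
  exact ⟨fun a k => y (a, k), fun a k => hyD (a, k), hy⟩

/-- The slots in `I` are taken from the family `a`, the others from the family `b`. -/
theorem isPolyM_piecewise {m : ℕ} {ι : Type} [Fintype ι] [DecidableEq ι] (P : ML Ω ι)
    (I : Finset ι) (a b : Fin m) :
    IsPolyM fun y : Fin m × ι → M3 Ω => P (I.piecewise (fun k => y (a, k)) fun k => y (b, k)) := by
  have h := IsPolyM.ml P (κ := Fin m × ι)
    (G := fun i y => I.piecewise (fun k => y (a, k)) (fun k => y (b, k)) i) fun i => by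
      by_cases hi : i ∈ I
      · simp only [Finset.piecewise_eq_of_mem _ _ _ hi]
        exact IsPolyM.coord (a, i)
      · simp only [Finset.piecewise_eq_of_notMem _ _ _ hi]
        exact IsPolyM.coord (b, i)
  exact h

/-- The slots in `I` are taken from the family `a`, the slot `k0` from the family `c`, the others
from the family `b`. -/
theorem isPolyM_piecewise_update {m : ℕ} {ι : Type} [Fintype ι] [DecidableEq ι] (P : ML Ω ι)
    (I : Finset ι) (a b c : Fin m) (k0 : ι) :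
    IsPolyM fun y : Fin m × ι → M3 Ω =>
      P (I.piecewise (fun k => y (a, k)) (Function.update (fun k => y (b, k)) k0 (y (c, k0)))) := by
  have h := IsPolyM.ml P (κ := Fin m × ι)
    (G := fun i y => I.piecewise (fun k => y (a, k))
      (Function.update (fun k => y (b, k)) k0 (y (c, k0))) i) fun i => by
      by_cases hi : i ∈ I
      · simp only [Finset.piecewise_eq_of_mem _ _ _ hi]
        exact IsPolyM.coord (a, i)
      · simp only [Finset.piecewise_eq_of_notMem _ _ _ hi]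
        by_cases hk : i = k0
        · subst hk
          simp only [Function.update_self]
          exact IsPolyM.coord (c, i)
        · simp only [Function.update_of_ne hk]
          exact IsPolyM.coord (b, i)
  exact h

end Pool.Agent.H88KL
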