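import Pool.Agent.Helper88.KL.M2Def

/-!
# Block KL-QA: a quaternion division algebra in every characteristic

`K` any field (for instance algebraically closed). Let `M0` be a field extension of `K` with an
automorphism `s` of order two over `K` (for instance `K(x)` and `x ↦ 1 - x`, or `K(x0, x1)` and the
swap), `M1 = M0(t)` (or `M0((t))`) with `s` acting on the coefficients. `Ω = M1`, `L` the field of
invariants of `s` in `M1` (an `IntermediateField K M1`), `D` the set of the matrices
`!![g0, g1; t * s g1, s g0]`, `g0, g1 ∈ M1`. It is closed under products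
(`!![g0, g1; t s g1, s g0] * !![h0, h1; t s h1, s h0] = !![g0 h0 + t g1 s h1, g0 h1 + g1 s h0; ..]`) and
contains the scalars in `L`. `det = g0 s(g0) - t g1 s(g1)`; if this is zero, multiply `g0, g1` by a
common denominator (a polynomial `q ∈ M0[t]`, `det` is multiplied by `q s(q)`): the degrees in
`t` (or the orders, in `M0((t))`) of `g0 s(g0)` and `t g1 s(g1)` are even and odd, so both vanish
and `g0 = g1 = 0`. Trace `g0 + s g0` and `det` are invariant under `s`. `span_top`: with `f ∈ M0`,
`s f ≠ f`: `diag (f, s f)`, `1`, `!![0, 1; t, 0]`, `!![0, f; t s f, 0]` are in `D` and are independent.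
Model (degree three, quadratically closed): `Pool/Agent/Helper88/KL/Cyc.lean` (helper74).
-/

open Matrix

namespace Pool.Agent.H88KL

open Pool.Agent.H24ML

universe u

section

open Polynomial

variable {K : Type u} [Field K]

/-- The automorphism `x ↦ 1 - x` of `K[x]`. -/
private noncomputable def s0_26 : Polynomial K →ₐ[K] Polynomial K := aeval (1 - X)

private lemma s0_s0_26 (f : Polynomial K) : s0_26 (s0_26 f) = f := by
  have h : (s0_26 (K := K)).comp s0_26 = AlgHom.id K (Polynomial K) := by
    apply Polynomial.algHom_ext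
    simp only [AlgHom.comp_apply, s0_26, aeval_X, map_sub, map_one, AlgHom.id_apply]
    ring
  exact DFunLike.congr_fun h f

/-- The automorphism of `K[x][t]` which fixes `t`. -/
private noncomputable def sg26 : Polynomial (Polynomial K) →+* Polynomial (Polynomial K) :=
  mapRingHom (s0_26 (K := K)).toRingHom

private lemma sg_sg26 (f : Polynomial (Polynomial K)) : sg26 (sg26 f) = f := by
  ext1 n
  simp only [sg26, coe_mapRingHom, coeff_map]
  exact s0_s0_26 _

private lemma sg_X26 : sg26 (X : Polynomial (Polynomial K)) = X := by simp [sg26]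

private lemma sg_CC26 (k : K) : sg26 (C (C k) : Polynomial (Polynomial K)) = C (C k) := by
  simp [sg26, s0_26]

private lemma sg_CX26 : sg26 (C X : Polynomial (Polynomial K)) = 1 - C X := by
  simp [sg26, s0_26]

private lemma sg_inj26 : Function.Injective (sg26 (K := K)) :=
  Function.LeftInverse.injective sg_sg26

private lemma sg_natDegree26 (f : Polynomial (Polynomial K)) :
    (sg26 f).natDegree = f.natDegree := by
  unfold sg26
  rw [coe_mapRingHom]
  exact natDegree_map_eq_of_injective (Function.LeftInverse.injective s0_s0_26) f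

private lemma norm_eq26 {a b : Polynomial (Polynomial K)} (h : a * sg26 a = X * (b * sg26 b)) :
    a = 0 ∧ b = 0 := by
  have hb : b = 0 := by
    by_contra hb
    have hsb : sg26 b ≠ 0 := by rwa [Ne, map_eq_zero_iff _ sg_inj26]
    have h1 : a ≠ 0 := by
      rintro rfl
      rw [zero_mul] at h
      exact mul_ne_zero X_ne_zero (mul_ne_zero hb hsb) h.symm
    have hsa : sg26 a ≠ 0 := by rwa [Ne, map_eq_zero_iff _ sg_inj26]
    have h2 := congrArg natDegree h
    rw [natDegree_mul h1 hsa, natDegree_mul X_ne_zero (mul_ne_zero hb hsb), natDegree_mul hb hsb,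
      natDegree_X, sg_natDegree26, sg_natDegree26] at h2
    omega
  refine ⟨?_, hb⟩
  rw [hb, zero_mul, mul_zero, mul_eq_zero, map_eq_zero_iff _ sg_inj26, or_self] at h
  exact h

private noncomputable def sgE26 : Polynomial (Polynomial K) ≃+* Polynomial (Polynomial K) :=
  RingEquiv.ofRingHom sg26 sg26 (RingHom.ext sg_sg26) (RingHom.ext sg_sg26)

end

section

open Polynomial

variable {Ω : Type u} [Field Ω] (σ : Ω →+* Ω) (t : Ω)

private def V26 (t : Ω) : M2 Ω := !![0, 1; t, 0]

/-- Elements of the quaternion algebra. -/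
private def In26 (w : M2 Ω) : Prop := V26 t * w = w.map σ * V26 t

variable {σ t}

private lemma In26.one : In26 σ t 1 := by
  unfold In26
  rw [mul_one, Matrix.map_one _ (map_zero _) (map_one _), one_mul]

private lemma In26.zero : In26 σ t 0 := by
  unfold In26
  rw [mul_zero, Matrix.map_zero _ (map_zero _), zero_mul]

private lemma In26.mul {A B : M2 Ω} (hA : In26 σ t A) (hB : In26 σ t B) : In26 σ t (A * B) := by
  unfold In26 at *
  rw [← mul_assoc, hA, mul_assoc, hB, ← mul_assoc, Matrix.map_mul]

private lemma In26.add {A B : M2 Ω} (hA : In26 σ t A) (hB : In26 σ t B) : In26 σ t (A + B) := by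
  unfold In26 at *
  rw [mul_add, hA, hB, ← add_mul, Matrix.map_add _ (map_add _)]

private lemma In26.smul {r : Ω} (hr : σ r = r) {A : M2 Ω} (hA : In26 σ t A) :
    In26 σ t (r • A) := by
  unfold In26 at *
  have e : (r • A).map σ = r • A.map σ := by
    ext1 i j
    simp only [Matrix.map_apply, Matrix.smul_apply, smul_eq_mul, map_mul, hr]
  rw [Matrix.mul_smul, hA, e, Matrix.smul_mul]

private lemma In26.iff (hσt : σ t = t) (hσ : ∀ x, σ (σ x) = x) {w : M2 Ω} :
    In26 σ t w ↔ w 1 0 = t * σ (w 0 1) ∧ w 1 1 = σ (w 0 0) := by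
  constructor
  · intro h
    have e := fun i j => congrArg (fun M : M2 Ω => M i j) h
    have e00 := e 0 0
    have e01 := e 0 1
    simp [V26, Matrix.mul_apply, Fin.sum_univ_two] at e00 e01
    exact ⟨by rw [e00, mul_comm], e01⟩
  · rintro ⟨h1, h2⟩
    unfold In26
    ext1 i j
    fin_cases i <;> fin_cases j <;> simp [V26, Matrix.mul_apply, Fin.sum_univ_two]
    · rw [h1, mul_comm]
    · exact h2
    · rw [h2, hσ, mul_comm]
    · rw [h1, map_mul, hσt, hσ]

private theorem quat_of26 {K Ω : Type u} [Field K] [Field Ω] [Algebra K Ω]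
    (φ : Polynomial (Polynomial K) →+* Ω) (hφ : Function.Injective φ)
    (hK : ∀ k : K, algebraMap K Ω k = φ (C (C k)))
    (hfr : ∀ x : Ω, ∃ a b : Polynomial (Polynomial K), b ≠ 0 ∧ x = φ a / φ b)
    (σ : Ω →+* Ω) (hσφ : ∀ a, σ (φ a) = φ (sg26 a)) :
    ∃ L : IntermediateField K Ω, Nonempty (Quat L Ω) := by
  have hσσ : ∀ x, σ (σ x) = x := by
    intro x
    obtain ⟨a, b, -, rfl⟩ := hfr x
    rw [map_div₀, map_div₀, hσφ, hσφ, hσφ, hσφ, sg_sg26, sg_sg26]
  set t : Ω := φ X with ht
  have ht0 : t ≠ 0 := (map_ne_zero_iff φ hφ).2 X_ne_zero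
  have hσt : σ t = t := by rw [ht, hσφ, sg_X26]
  let L : IntermediateField K Ω :=
    { carrier := {x | σ x = x}
      mul_mem' := fun {a b} ha hb => by
        change σ (a * b) = a * b
        rw [map_mul, show σ a = a from ha, show σ b = b from hb]
      add_mem' := fun {a b} ha hb => by
        change σ (a + b) = a + b
        rw [map_add, show σ a = a from ha, show σ b = b from hb]
      algebraMap_mem' := fun k => by
        change σ (algebraMap K Ω k) = algebraMap K Ω k
        rw [hK, hσφ, sg_CC26]
      inv_mem' := fun a ha => by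
        change σ a⁻¹ = a⁻¹
        rw [map_inv₀, show σ a = a from ha] }
  have hL : ∀ x : Ω, σ x = x → ∃ r : L, algebraMap L Ω r = x := fun x hx => ⟨⟨x, hx⟩, rfl⟩
  have hiff := fun w : M2 Ω => In26.iff (σ := σ) (w := w) hσt hσσ
  refine ⟨L, ⟨{
    D := { carrier := {w | In26 σ t w}
           mul_mem' := fun ha hb => In26.mul ha hb
           add_mem' := fun ha hb => In26.add ha hb
           algebraMap_mem' := fun r => by
             change In26 σ t (algebraMap L (M2 Ω) r)
             rw [Algebra.algebraMap_eq_smul_one]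
             have e : r • (1 : M2 Ω) = (r : Ω) • (1 : M2 Ω) := rfl
             rw [e]
             exact In26.smul r.2 In26.one }
    span_top := ?_
    det_ne := ?_
    tr_mem := ?_
    det_mem := ?_ }⟩⟩
  · -- the span
    set f : Ω := φ (C X) with hf
    have hσf : σ f = 1 - f := by
      rw [hf, hσφ, sg_CX26, map_sub, map_one]
    have hd : f - (1 - f) ≠ 0 := by
      have e : f - (1 - f) = φ (C (X - (1 - X))) := by
        rw [hf]
        simp only [map_sub, map_one]
      rw [e, map_ne_zero_iff φ hφ]
      intro h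
      have h1 : (X - (1 - X) : Polynomial K) = 0 := by
        apply C_injective
        rw [h, C_0]
      have h2 := congrArg (fun p => coeff p 0) h1
      simp at h2
    rw [eq_top_iff]
    intro M _
    have hmem : ∀ w : M2 Ω, w 1 0 = t * σ (w 0 1) ∧ w 1 1 = σ (w 0 0) →
        w ∈ Submodule.span Ω {w : M2 Ω | In26 σ t w} := fun w hw =>
      Submodule.subset_span ((hiff w).2 hw)
    have m1 := hmem !![f, 0; 0, 1 - f] (by simp [hσf])
    have m2 := hmem !![1, 0; 0, 1] (by simp)
    have m3 := hmem !![0, 1; t, 0] (by simp)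
    have m4 := hmem !![0, f; t * (1 - f), 0] (by simp [hσf])
    have u1 : (!![1, 0; 0, 0] : M2 Ω) ∈ Submodule.span Ω {w : M2 Ω | In26 σ t w} := by
      have := Submodule.smul_mem _ (f - (1 - f))⁻¹ (Submodule.sub_mem _ m1
        (Submodule.smul_mem _ (1 - f) m2))
      convert this using 1
      ext1 i j
      fin_cases i <;> fin_cases j <;> simp
      exact (inv_mul_cancel₀ hd).symm
    have u2 : (!![0, 0; 0, 1] : M2 Ω) ∈ Submodule.span Ω {w : M2 Ω | In26 σ t w} := by
      convert Submodule.sub_mem _ m2 u1 using 1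
      ext1 i j
      fin_cases i <;> fin_cases j <;> simp
    have u3 : (!![0, 1; 0, 0] : M2 Ω) ∈ Submodule.span Ω {w : M2 Ω | In26 σ t w} := by
      have := Submodule.smul_mem _ (f - (1 - f))⁻¹ (Submodule.sub_mem _ m4
        (Submodule.smul_mem _ (1 - f) m3))
      convert this using 1
      ext1 i j
      fin_cases i <;> fin_cases j <;> simp
      · exact (inv_mul_cancel₀ hd).symm
      · right
        ring
    have u4 : (!![0, 0; 1, 0] : M2 Ω) ∈ Submodule.span Ω {w : M2 Ω | In26 σ t w} := by
      have := Submodule.smul_mem _ t⁻¹ (Submodule.sub_mem _ m3 u3)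
      convert this using 1
      ext1 i j
      fin_cases i <;> fin_cases j <;> simp [ht0]
    have e : M = M 0 0 • !![1, 0; 0, 0] + M 0 1 • !![0, 1; 0, 0] + M 1 0 • !![0, 0; 1, 0] +
        M 1 1 • !![0, 0; 0, 1] := by
      ext1 i j
      fin_cases i <;> fin_cases j <;> simp
    rw [e]
    exact Submodule.add_mem _ (Submodule.add_mem _ (Submodule.add_mem _
      (Submodule.smul_mem _ _ u1) (Submodule.smul_mem _ _ u3)) (Submodule.smul_mem _ _ u4))
      (Submodule.smul_mem _ _ u2)
  · -- the norm form is anisotropic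
    intro w hw hw0 hd
    obtain ⟨h1, h2⟩ := (hiff w).1 hw
    rw [det_fin_two, h1, h2] at hd
    obtain ⟨a, b, hb, ea⟩ := hfr (w 0 0)
    obtain ⟨c, d, hd0, ec⟩ := hfr (w 0 1)
    have hb' : φ b ≠ 0 := (map_ne_zero_iff φ hφ).2 hb
    have hd' : φ d ≠ 0 := (map_ne_zero_iff φ hφ).2 hd0
    have hsb : φ (sg26 b) ≠ 0 := by
      rw [map_ne_zero_iff φ hφ, Ne, map_eq_zero_iff _ sg_inj26]
      exact hb
    have hsd : φ (sg26 d) ≠ 0 := by
      rw [map_ne_zero_iff φ hφ, Ne, map_eq_zero_iff _ sg_inj26]
      exact hd0
    have h3 : φ ((a * d) * sg26 (a * d)) = φ (X * ((c * b) * sg26 (c * b))) := by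
      rw [ea, ec, map_div₀, map_div₀, hσφ, hσφ, hσφ, hσφ, sub_eq_zero] at hd
      simp only [map_mul]
      rw [← ht]
      field_simp at hd
      linear_combination hd
    obtain ⟨h4, h5⟩ := norm_eq26 (hφ h3)
    have ha0 : a = 0 := (mul_eq_zero.1 h4).resolve_right hd0
    have hc0 : c = 0 := (mul_eq_zero.1 h5).resolve_right hb
    have w00 : w 0 0 = 0 := by rw [ea, ha0, map_zero, zero_div]
    have w01 : w 0 1 = 0 := by rw [ec, hc0, map_zero, zero_div]
    refine hw0 ?_
    ext1 i j
    fin_cases i <;> fin_cases j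
    · exact w00
    · exact w01
    · change w 1 0 = 0
      rw [h1, w01, map_zero, mul_zero]
    · change w 1 1 = 0
      rw [h2, w00, map_zero]
  · intro w hw
    obtain ⟨h1, h2⟩ := (hiff w).1 hw
    refine hL _ ?_
    rw [trace_fin_two, h2, map_add, hσσ, add_comm]
  · intro w hw
    obtain ⟨h1, h2⟩ := (hiff w).1 hw
    refine hL _ ?_
    rw [det_fin_two, h1, h2]
    simp only [map_sub, map_mul, hσσ, hσt]
    ring

end

theorem exists_quat (K : Type u) [Field K] :
    ∃ (Ω : Type u) (_ : Field Ω) (_ : Algebra K Ω) (L : IntermediateField K Ω),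
      Nonempty (Quat L Ω) := by
  open Polynomial in
  let φ : Polynomial (Polynomial K) →+* FractionRing (Polynomial (Polynomial K)) := algebraMap _ _
  have hφ : Function.Injective φ := IsFractionRing.injective _ _
  let alg : Algebra K (FractionRing (Polynomial (Polynomial K))) :=
    (φ.comp ((C : Polynomial K →+* Polynomial (Polynomial K)).comp
      (C : K →+* Polynomial K))).toAlgebra
  have h := quat_of26 (K := K) (Ω := FractionRing (Polynomial (Polynomial K))) φ hφ
    (fun k => rfl) (fun x => by
      obtain ⟨a, b, hb, e⟩ := IsFractionRing.div_surjective (A := Polynomial (Polynomial K)) x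
      exact ⟨a, b, nonZeroDivisors.ne_zero hb, e.symm⟩)
    (IsFractionRing.ringEquivOfRingEquiv (K := FractionRing (Polynomial (Polynomial K)))
      (L := FractionRing (Polynomial (Polynomial K))) (sgE26 (K := K)) :
      FractionRing (Polynomial (Polynomial K)) ≃+* FractionRing (Polynomial (Polynomial K)))
    (fun a => IsFractionRing.ringEquivOfRingEquiv_algebraMap
      (K := FractionRing (Polynomial (Polynomial K)))
      (L := FractionRing (Polynomial (Polynomial K))) (sgE26 (K := K)) a)
  obtain ⟨L, hL⟩ := h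
  exact ⟨FractionRing (Polynomial (Polynomial K)), inferInstance, alg, L, hL⟩

end Pool.Agent.H88KL
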