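import Pool.Agent.Helper88.KL.Poly

/-!
# Block KL-REL: the two relations

`rel1`: the ratios `c2 / trace ^ 2` are different. `rel2`: `c2` does not vanish on the trace zero
combination. `poly`: closure properties of `Poly.lean`. `indep`: if `a A + b B = 0` with
`(a, b) ≠ 0` then `A = r B` or `B = r A`, and `d A B = 0` by `c2_smul`, `trace_smul`.
`first1`: let `d (P y) (P y') ≠ 0`; this is an open condition. So we may assume in addition that
`trace (P (T.piecewise y' y)) ≠ 0` for all `T : Finset ι` (an open condition on `(y, y')`, satisfied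
by `(y0, y0)` if `trace (P y0) ≠ 0`; such `y0` exists since `d (P y) (P y') ≠ 0`). If `Var` fails for all
`{i}`, then `c2 / trace ^ 2` is the same at `T.piecewise y' y` and `(insert i T).piecewise y' y` (take
`z = T.piecewise y' y`), so by induction on `T` it is the same at `y` and `y'`, a contradiction.
`first2`: let `trace (P y0) = 0`, `c2 (P y0) ≠ 0` and let `T` be a maximal (finite) set of slots with
`trace (P (T.piecewise y y0)) = 0` for all `y`; `T ≠ univ` because the trace is not identically
zero. So there is a slot `i ∉ T` and some `y1` with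
`trace (P ((insert i T).piecewise y1 y0)) ≠ 0`; this is an open condition on `y1` and so is
`c2 (P (T.piecewise y1 y0)) ≠ 0`, which holds for `y1 = y0`. Take `y1` with both
(`Op.exists_and`), `p = T.piecewise y1 y0`; then with `A = P p`, `B = P (update p i (y1 i))` we have
`trace A = 0`, `c2 A ≠ 0`, `trace B ≠ 0`, so `c2 (trace B • A - trace A • B) ≠ 0`: `Var` for `{i}`.
-/

open Matrix

namespace Pool.Agent.H88KL

open Pool.Agent.H24ML

universe u

private theorem indep82 {Ω : Type u} [Field Ω] {d : M3 Ω → M3 Ω → Ω} (h1 : ∀ (c : Ω) B, d (c • B) B = 0)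
    (h2 : ∀ A, d A 0 = 0) (A B : M3 Ω) (h : d A B ≠ 0) : LinearIndependent Ω ![A, B] := by
  rw [LinearIndependent.pair_iff]
  intro s t hst
  have hs : s = 0 := by
    by_contra hs
    have hA : A = (-(s⁻¹ * t)) • B := by
      have h3 : s • A = -(t • B) := eq_neg_of_add_eq_zero_left hst
      calc A = s⁻¹ • (s • A) := by rw [smul_smul, inv_mul_cancel₀ hs, one_smul]
        _ = (-(s⁻¹ * t)) • B := by rw [h3, smul_neg, smul_smul, neg_smul]
    rw [hA] at h
    exact h (h1 _ _)
  refine ⟨hs, ?_⟩
  by_contra ht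
  rw [hs, zero_smul, zero_add] at hst
  rcases smul_eq_zero.1 hst with h3 | h3
  · exact ht h3
  · rw [h3] at h
    exact h (h2 _)

/-- Different ratios `c2 / trace ^ 2`. -/
noncomputable def rel1 (Ω : Type u) [Field Ω] : Rel Ω where
  d A B := c2 A * trace B ^ 2 - c2 B * trace A ^ 2
  poly := by
    exact ((IsPolyM.coord false).c2.mul ((IsPolyM.coord true).trace.pow 2)).sub
      ((IsPolyM.coord true).c2.mul ((IsPolyM.coord false).trace.pow 2))
  indep := by
    refine indep82 (d := fun A B => c2 A * trace B ^ 2 - c2 B * trace A ^ 2) ?_ ?_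
    · intro c B
      show c2 (c • B) * trace B ^ 2 - c2 B * trace (c • B) ^ 2 = 0
      rw [H88KL.c2_smul, trace_smul, smul_eq_mul]
      ring
    · intro A
      show c2 A * trace (0 : M3 Ω) ^ 2 - c2 (0 : M3 Ω) * trace A ^ 2 = 0
      rw [c2_zero, trace_zero]
      ring

/-- `c2` does not vanish on the trace zero combination of `A` and `B`. -/
noncomputable def rel2 (Ω : Type u) [Field Ω] : Rel Ω where
  d A B := c2 (trace B • A - trace A • B)
  poly := by
    exact ((IsPolyM.smul (IsPolyM.coord true).trace (IsPolyM.coord false)).sub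
      (IsPolyM.smul (IsPolyM.coord false).trace (IsPolyM.coord true))).c2
  indep := by
    refine indep82 (d := fun A B => c2 (trace B • A - trace A • B)) ?_ ?_
    · intro c B
      show c2 (trace B • (c • B) - trace (c • B) • B) = 0
      rw [trace_smul, smul_smul, smul_eq_mul, mul_comm, sub_self, c2_zero]
    · intro A
      show c2 (trace (0 : M3 Ω) • A - trace A • (0 : M3 Ω)) = 0
      rw [trace_zero, zero_smul, smul_zero, sub_self, c2_zero]

theorem rel1_d {Ω : Type u} [Field Ω] (A B : M3 Ω) :
    (rel1 Ω).d A B = c2 A * trace B ^ 2 - c2 B * trace A ^ 2 := rfl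

theorem rel2_d {Ω : Type u} [Field Ω] (A B : M3 Ω) :
    (rel2 Ω).d A B = c2 (trace B • A - trace A • B) := rfl

private theorem pw_same82 {Ω : Type u} {ι : Type} [DecidableEq ι] (T : Finset ι) (w : ι → M3 Ω) :
    T.piecewise w w = w := by
  funext k
  by_cases hk : k ∈ T
  · rw [Finset.piecewise_eq_of_mem _ _ _ hk]
  · rw [Finset.piecewise_eq_of_notMem _ _ _ hk]

private theorem pw_ins82 {Ω : Type u} {ι : Type} [DecidableEq ι] (T : Finset ι) (i : ι) (a b : ι → M3 Ω) :
    ({i} : Finset ι).piecewise a (T.piecewise a b) = (insert i T).piecewise a b := by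
  funext k
  by_cases hk : k = i
  · subst hk
    rw [Finset.piecewise_eq_of_mem _ _ _ (Finset.mem_singleton_self k),
      Finset.piecewise_eq_of_mem _ _ _ (Finset.mem_insert_self k T)]
  · rw [Finset.piecewise_eq_of_notMem _ _ _ (by rw [Finset.mem_singleton]; exact hk)]
    by_cases hT : k ∈ T
    · rw [Finset.piecewise_eq_of_mem _ _ _ hT, Finset.piecewise_eq_of_mem _ _ _ (Finset.mem_insert_of_mem hT)]
    · rw [Finset.piecewise_eq_of_notMem _ _ _ hT, Finset.piecewise_eq_of_notMem _ _ _
        (by rw [Finset.mem_insert]; exact fun h => h.elim hk hT)]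

theorem first1 {Ω : Type u} [Field Ω] [Infinite Ω] {ι : Type} [Fintype ι] [DecidableEq ι]
    (P : ML Ω ι) {y y' : ι → M3 Ω} (h : (rel1 Ω).d (P y) (P y') ≠ 0) :
    ∃ i, Var (rel1 Ω) P {i} := by
  -- a point with nonzero trace
  obtain ⟨y0, hy0⟩ : ∃ y0, trace (P y0) ≠ 0 := by
    by_contra hc
    push Not at hc
    apply h
    rw [rel1_d, hc y, hc y']
    ring
  have hQ : OpT (Ω := Ω) fun z : Fin 2 → ι → M3 Ω => (rel1 Ω).d (P (z 0)) (P (z 1)) ≠ 0 :=
    Op.rel (rel1 Ω) (IsPolyM.ml P fun i => IsPolyM.coord ((0 : Fin 2), i))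
      (IsPolyM.ml P fun i => IsPolyM.coord ((1 : Fin 2), i))
  have hQ' : OpT (Ω := Ω) fun z : Fin 2 → ι → M3 Ω =>
      ∀ T : Finset ι, trace (P (T.piecewise (z 1) (z 0))) ≠ 0 :=
    Op.all fun T => Op.ne (isPolyM_piecewise P T 1 0).trace
  obtain ⟨z, hz, hz'⟩ := hQ.exists_and hQ' ⟨![y, y'], h⟩ ⟨![y0, y0], fun T => by
    show trace (P (T.piecewise y0 y0)) ≠ 0
    rw [pw_same82]
    exact hy0⟩
  by_contra hv
  push Not at hv
  have key : ∀ T : Finset ι, c2 (P (T.piecewise (z 1) (z 0))) * trace (P (z 0)) ^ 2 =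
      c2 (P (z 0)) * trace (P (T.piecewise (z 1) (z 0))) ^ 2 := by
    intro T
    induction T using Finset.induction_on with
    | empty => rw [Finset.piecewise_empty]
    | insert i T hi ih =>
      have h1 : (rel1 Ω).d (P (T.piecewise (z 1) (z 0))) (P ((insert i T).piecewise (z 1) (z 0))) = 0 := by
        by_contra h2
        refine hv i ⟨T.piecewise (z 1) (z 0), T.piecewise (z 1) (z 0), z 1, ?_⟩
        rw [pw_same82, pw_ins82]
        exact h2
      rw [rel1_d] at h1
      have h3 := hz' T
      have h4 : trace (P (T.piecewise (z 1) (z 0))) ^ 2 ≠ 0 := pow_ne_zero 2 h3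
      apply mul_left_cancel₀ h4
      linear_combination (-(trace (P (z 0)) ^ 2)) * h1 +
        trace (P ((insert i T).piecewise (z 1) (z 0))) ^ 2 * ih
  apply hz
  have h5 := key Finset.univ
  rw [Finset.piecewise_univ] at h5
  rw [rel1_d]
  linear_combination -h5

private theorem pw_poly82 {Ω : Type u} [Field Ω] {ι : Type} [Fintype ι] [DecidableEq ι]
    (P : ML Ω ι) (T : Finset ι) (y0 : ι → M3 Ω) :
    IsPolyM fun y : ι → M3 Ω => P (T.piecewise y y0) := by
  have h : IsPolyM fun y : ι → M3 Ω => P fun i => T.piecewise y y0 i := by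
    refine IsPolyM.ml P (G := fun i y => T.piecewise y y0 i) fun i => ?_
    by_cases hi : i ∈ T
    · have : (fun y : ι → M3 Ω => T.piecewise y y0 i) = fun y => y i := by
        funext y
        rw [Finset.piecewise_eq_of_mem _ _ _ hi]
      rw [this]
      exact IsPolyM.coord i
    · have : (fun y : ι → M3 Ω => T.piecewise y y0 i) = fun _ => y0 i := by
        funext y
        rw [Finset.piecewise_eq_of_notMem _ _ _ hi]
      rw [this]
      exact IsPolyM.const _
  exact h

theorem first2 {Ω : Type u} [Field Ω] [Infinite Ω] {ι : Type} [Fintype ι] [DecidableEq ι]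
    (P : ML Ω ι) {y0 y1 : ι → M3 Ω} (h0 : trace (P y0) = 0) (h0' : c2 (P y0) ≠ 0)
    (h1 : trace (P y1) ≠ 0) : ∃ i, Var (rel2 Ω) P {i} := by
  by_contra hv
  push Not at hv
  have key : ∀ T : Finset ι, ∀ y, trace (P (T.piecewise y y0)) = 0 := by
    intro T
    induction T using Finset.induction_on with
    | empty =>
      intro y
      rw [Finset.piecewise_empty]
      exact h0
    | insert i T hi ih =>
      by_contra hc
      push Not at hc
      have hQ : Op (Ω := Ω) fun y : ι → M3 Ω => trace (P ((insert i T).piecewise y y0)) ≠ 0 :=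
        Op.ne (pw_poly82 P (insert i T) y0).trace
      have hQ' : Op (Ω := Ω) fun y : ι → M3 Ω => c2 (P (T.piecewise y y0)) ≠ 0 :=
        Op.ne (pw_poly82 P T y0).c2
      obtain ⟨z, hz, hz'⟩ := hQ.exists_and hQ' hc ⟨y0, by rw [pw_same82]; exact h0'⟩
      refine hv i ⟨T.piecewise z y0, T.piecewise z y0, z, ?_⟩
      rw [pw_same82, pw_ins82, rel2_d, ih z, zero_smul, sub_zero, H88KL.c2_smul]
      exact mul_ne_zero (pow_ne_zero 2 hz) hz'
  have h2 := key Finset.univ y1
  rw [Finset.piecewise_univ] at h2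
  exact h1 h2

end Pool.Agent.H88KL
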