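import Pool.Agent.Helper88.KL.R3

/-!
# Block KL-ROOT: a root of the discriminant form does not move

Let `O = {z | disc (R0 z) (R1 z) ≠ 0}` (open, contains `z0`).

One step: let `z ∈ O`, `z' = update z k a` (any `a`) and `Q3 (R0 z) = 0`. Then `Q3 (R0 z') = 0`.
Proof: write `R_e = R0 + e R1`, `e ∈ L`. `Q3 (R_e z) = e (a1 + e a2)`, `a1 = b3 (R0 z) (R1 z)`,
`a2 = Q3 (R1 z)`, and `a1 ^ 2 = disc (R0 z) (R1 z) ≠ 0`. `Q3 (R_e z') = c0 + e c1 + e ^ 2 c2`,
`c0 = Q3 (R0 z')`; `b3 (R_e z) (R_e z') = b0 + e b1 + e ^ 2 b2` (bilinearity of `b3`, from `Q3_comb`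
or directly). By hypothesis `(b0 + e b1 + e ^ 2 b2) ^ 2 = 4 e (a1 + e a2) (c0 + e c1 + e ^ 2 c2)` for
all `e ∈ L`. `e = 0` gives `b0 = 0`; dividing by `e`,
`e (b1 + e b2) ^ 2 = 4 (a1 + e a2) (c0 + e c1 + e ^ 2 c2)` for all `e ≠ 0` in the infinite field
`L`, so both polynomials are equal and `0 = 4 a1 c0`, `c0 = 0` as `2 ≠ 0`.

Path: let `O' = {z1 | T.piecewise z1 z0 ∈ O for all T : Finset κ}` (open, contains `z0`). For
`z1 ∈ O'`, by induction on `T`, `Q3 (R0 (T.piecewise z1 z0)) = 0`, so `Q3 (R0 z1) = 0`. If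
`Q3 (R0 z) ≠ 0` for some `z`, this is an open condition, and it has a common solution with `O'`
(`Op.exists_and`, `Op.all`): a contradiction.
-/

open Matrix

namespace Pool.Agent.H88KL

open Pool.Agent.H24ML

universe u

private lemma b3_bil26 {Ω : Type u} [Field Ω] (e : Ω) (A B A' B' : M3 Ω) :
    b3 (A + e • B) (A' + e • B') =
      b3 A A' + e * (b3 A B' + b3 B A') + e ^ 2 * b3 B B' := by
  simp only [b3, Q3, c2, Matrix.trace, Matrix.diag_apply, Fin.sum_univ_three, Matrix.add_apply,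
    Matrix.smul_apply, smul_eq_mul]
  ring

private lemma Q3_one26 {Ω : Type u} [Field Ω] (e : Ω) (A B : M3 Ω) :
    Q3 (A + e • B) = Q3 A + e * b3 A B + e ^ 2 * Q3 B := by
  have h := Q3_comb 1 e A B
  rw [one_smul] at h
  rw [h]
  ring

open Polynomial in
private lemma step26 {L Ω : Type u} [Field L] [Field Ω] [Algebra L Ω] [Infinite L]
    (h2 : (2 : Ω) ≠ 0) {A B A' B' : M3 Ω}
    (h : ∀ e : L, disc (A + algebraMap L Ω e • B) (A' + algebraMap L Ω e • B') = 0)
    (hd : disc A B ≠ 0) (h0 : Q3 A = 0) : Q3 A' = 0 := by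
  have hb : ∀ e : L, (b3 A A' + algebraMap L Ω e * (b3 A B' + b3 B A') +
      algebraMap L Ω e ^ 2 * b3 B B') ^ 2 =
      4 * (algebraMap L Ω e * b3 A B + algebraMap L Ω e ^ 2 * Q3 B) *
        (Q3 A' + algebraMap L Ω e * b3 A' B' + algebraMap L Ω e ^ 2 * Q3 B') := by
    intro e
    have h1 := h e
    unfold disc at h1
    rw [b3_bil26, Q3_one26, Q3_one26, h0, zero_add] at h1
    exact sub_eq_zero.1 h1
  have hb0 : b3 A A' = 0 := by
    have h1 := hb 0
    rw [map_zero] at h1
    have h3 : b3 A A' ^ 2 = 0 := by linear_combination h1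
    exact pow_eq_zero_iff (two_ne_zero) |>.1 h3
  set P : Polynomial Ω := X * (C (b3 A B' + b3 B A') + X * C (b3 B B')) ^ 2 -
    4 * (C (b3 A B) + X * C (Q3 B)) * (C (Q3 A') + X * C (b3 A' B') + X ^ 2 * C (Q3 B')) with hP
  have hroot : ∀ e : L, e ≠ 0 → P.IsRoot (algebraMap L Ω e) := by
    intro e he
    have he' : algebraMap L Ω e ≠ 0 := by rwa [Ne, map_eq_zero]
    have h1 := hb e
    rw [hb0, zero_add] at h1
    have h3 : algebraMap L Ω e * (algebraMap L Ω e * (b3 A B' + b3 B A' +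
        algebraMap L Ω e * b3 B B') ^ 2 - 4 * (b3 A B + algebraMap L Ω e * Q3 B) *
        (Q3 A' + algebraMap L Ω e * b3 A' B' + algebraMap L Ω e ^ 2 * Q3 B')) = 0 := by
      linear_combination h1
    rcases mul_eq_zero.1 h3 with h4 | h4
    · exact absurd h4 he'
    · rw [IsRoot.def, hP]
      simp only [eval_sub, eval_mul, eval_add, eval_pow, eval_X, eval_C, eval_ofNat]
      linear_combination h4
  have hinf : {x | P.IsRoot x}.Infinite := by
    refine Set.Infinite.mono (s := (algebraMap L Ω) '' {e : L | e ≠ 0}) ?_ ?_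
    · rintro _ ⟨e, he, rfl⟩
      exact hroot e he
    · refine Set.Infinite.image (algebraMap L Ω).injective.injOn ?_
      have h5 : ({e : L | e ≠ 0} : Set L) = {0}ᶜ := rfl
      rw [h5]
      exact (Set.finite_singleton 0).infinite_compl
  have hP0 : P = 0 := Polynomial.eq_zero_of_infinite_isRoot P hinf
  have h6 : P.eval 0 = 0 := by rw [hP0, eval_zero]
  have h7 : 4 * b3 A B * Q3 A' = 0 := by
    have h8 : P.eval 0 = -(4 * b3 A B * Q3 A') := by
      rw [hP]
      simp
    rw [h8, neg_eq_zero] at h6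
    exact h6
  have h9 : b3 A B ≠ 0 := by
    intro h10
    refine hd ?_
    unfold disc
    rw [h10, h0]
    ring
  have h4 : (4 : Ω) ≠ 0 := by
    have : (4 : Ω) = 2 * 2 := by norm_num
    rw [this]
    exact mul_ne_zero h2 h2
  exact (mul_eq_zero.1 h7).resolve_left (mul_ne_zero h4 h9)

theorem root_fixed {L Ω : Type u} [Field L] [Field Ω] [Algebra L Ω] [Infinite L] [Infinite Ω]
    {κ : Type} [Fintype κ] [DecidableEq κ] (h2 : (2 : Ω) ≠ 0) (R0 R1 : ML Ω κ)
    (h : ∀ (e : L) (z : κ → M3 Ω) (k : κ) (a : M3 Ω),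
      disc ((R0 + algebraMap L Ω e • R1) z)
        ((R0 + algebraMap L Ω e • R1) (Function.update z k a)) = 0)
    {z0 : κ → M3 Ω} (hd : disc (R0 z0) (R1 z0) ≠ 0) (h0 : Q3 (R0 z0) = 0) (z : κ → M3 Ω) :
    Q3 (R0 z) = 0 := by
  by_contra hne
  have hOp : Op fun y : κ → M3 Ω => ∀ T : Finset κ,
      disc (R0 (T.piecewise y z0)) (R1 (T.piecewise y z0)) ≠ 0 := by
    refine Op.all fun T => Op.ne (isPoly_disc ?_ ?_)
    · refine IsPolyM.ml R0 (G := fun i y => T.piecewise y z0 i) fun i => ?_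
      by_cases hi : i ∈ T
      · have e : (fun y : κ → M3 Ω => T.piecewise y z0 i) = fun y => y i := by
          funext y
          simp [hi]
        rw [e]
        exact IsPolyM.coord i
      · have e : (fun y : κ → M3 Ω => T.piecewise y z0 i) = fun _ => z0 i := by
          funext y
          simp [hi]
        rw [e]
        exact IsPolyM.const _
    · refine IsPolyM.ml R1 (G := fun i y => T.piecewise y z0 i) fun i => ?_
      by_cases hi : i ∈ T
      · have e : (fun y : κ → M3 Ω => T.piecewise y z0 i) = fun y => y i := by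
          funext y
          simp [hi]
        rw [e]
        exact IsPolyM.coord i
      · have e : (fun y : κ → M3 Ω => T.piecewise y z0 i) = fun _ => z0 i := by
          funext y
          simp [hi]
        rw [e]
        exact IsPolyM.const _
  have hOp2 : Op fun y : κ → M3 Ω => Q3 (R0 y) ≠ 0 :=
    Op.ne (isPoly_Q3 (IsPolyM.ml R0 (G := fun i y => y i) fun i => IsPolyM.coord i))
  obtain ⟨y, hy1, hy2⟩ := Op.exists_and hOp hOp2 ⟨z0, fun T => by
    rw [Finset.piecewise_same]
    exact hd⟩ ⟨z, hne⟩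
  have key : ∀ T : Finset κ, Q3 (R0 (T.piecewise y z0)) = 0 := by
    intro T
    induction T using Finset.induction_on with
    | empty =>
      rw [Finset.piecewise_empty]
      exact h0
    | insert k T hk ih =>
      rw [Finset.piecewise_insert]
      refine step26 (L := L) h2 (B' := R1 (Function.update (T.piecewise y z0) k (y k)))
        (fun e => ?_) (hy1 T) ih
      exact h e (T.piecewise y z0) k (y k)
  have h5 := key Finset.univ
  rw [Finset.piecewise_univ] at h5
  exact hy2 h5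

end Pool.Agent.H88KL
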