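import Pool.Agent.Helper88.KL.Poly
import Pool.Agent.Helper88.KL.Path
import Pool.Agent.Helper88.KL.Pencil

/-!
# Block KL-STR: a three dimensional rational space of values

Proof. The three hypotheses (`hV`, `hker`, `himg`) are nonempty open conditions on the tuple of
families (`z`, `a` (only its slot `k` is used), `u, v` for `Var`, three `y` for `ker`, three `y` for
`img`; so `m = 10`), so they hold for a tuple in `D` (`OpT.exists_and`, `OpT.exists_D`;
`isPolyM_piecewise`, `isPolyM_piecewise_update`, `Op.rel`, `Op.indep`, `Op.indep_prod`). Fix it.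
Let `Z = (ι → M3 Ω) →₀ Ω` and `M, N : Z → M3 Ω` the linear maps
`Finsupp.linearCombination Ω (fun y => P (I.piecewise y z))` and
`Finsupp.linearCombination Ω (fun y => P (I.piecewise y z'))`, `z' = update z k a`. As `k ∉ I` and
`P` is multilinear, `s M + t N` is the same map for the point
`z_{s,t} = update z k (s • z k + t • a)`. Its range is the span of the values
`P (I.piecewise y z_{s,t})`; any three values are dependent by `Dim2`, so any three elements of the
span are. By `pencil` (`e j = Finsupp.single (y j) 1`) every `x ∈ W = range M ⊔ range N` lies in the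
range of some `s M + t N` which contains two independent elements, so (the values span it) two
independent values `P (I.piecewise y z_{s,t})`, `P (I.piecewise y' z_{s,t})`. As any three values are
dependent, `x` is a combination of these two, and by `onto_two` (`slotLin_piecewise`) `x` is a value.
So all elements of `W` are values of `P`. The matrices `A = P (I.piecewise u z)`,
`B = P (I.piecewise v z)` (`d A B ≠ 0`) and the three matrices of `himg` are in `D` (`Nice.mem`)
and in `W`. By `hτ` some `w ∈ W` has `τ w`.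
-/

open Matrix

namespace Pool.Agent.H88KL

open Pool.Agent.H24ML

universe u

variable {L Ω : Type u} [Field L] [Field Ω] [Algebra L Ω] {ι : Type} [Fintype ι] [DecidableEq ι]

private lemma exists_li1 {Ω V α : Type*} [Field Ω] [AddCommGroup V] [Module Ω V]
    [FiniteDimensional Ω V] {n : ℕ} {θ : α → V} {e : Fin n → V}
    (he : ∀ j, e j ∈ Submodule.span Ω (Set.range θ)) (hli : LinearIndependent Ω e) :
    ∃ y : Fin n → α, LinearIndependent Ω fun j => θ (y j) := by
  classical
  obtain ⟨b, hb1, hb2, hb3⟩ := exists_linearIndependent Ω (Set.range θ)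
  have hfin : b.Finite := hb3.setFinite
  have := hfin.fintype
  have h1 : n ≤ Module.finrank Ω (Submodule.span Ω b) := by
    have h2 : LinearIndependent Ω fun j => (⟨e j, hb2 ▸ he j⟩ : Submodule.span Ω b) := by
      refine LinearIndependent.of_comp (Submodule.subtype _) ?_
      exact hli
    have := h2.fintype_card_le_finrank
    rwa [Fintype.card_fin] at this
  have h3 : Module.finrank Ω (Submodule.span Ω b) = Fintype.card b := by
    rw [finrank_span_set_eq_card hb3, Set.toFinset_card]
  rw [h3] at h1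
  have h4 : Nonempty (Fin n ↪ b) := by
    rw [Function.Embedding.nonempty_iff_card_le, Fintype.card_fin]
    exact h1
  obtain ⟨g⟩ := h4
  have h5 : ∀ j, ∃ y, θ y = (g j : V) := fun j => hb1 (g j).2
  choose y hy using h5
  refine ⟨y, ?_⟩
  have h6 : (fun j => θ (y j)) = (fun x : b => (x : V)) ∘ g := by
    funext j
    exact hy j
  rw [h6]
  exact hb3.comp g g.injective

private lemma mem1 {Ω V : Type*} [Field Ω] [AddCommGroup V] [Module Ω V] {u v w : V}
    (h2 : LinearIndependent Ω ![u, v]) (h3 : ¬ LinearIndependent Ω ![u, v, w]) :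
    ∃ a b : Ω, a • u + b • v = w := by
  rw [Fintype.not_linearIndependent_iff] at h3
  obtain ⟨g, hg, i, hi⟩ := h3
  rw [Fin.sum_univ_three] at hg
  have hg' : g 0 • u + g 1 • v + g 2 • w = 0 := hg
  rw [LinearIndependent.pair_iff] at h2
  by_cases hc : g 2 = 0
  · rw [hc, zero_smul, add_zero] at hg'
    obtain ⟨h0, h1⟩ := h2 _ _ hg'
    exfalso
    fin_cases i
    · exact hi h0
    · exact hi h1
    · exact hi hc
  · refine ⟨-((g 2)⁻¹ * g 0), -((g 2)⁻¹ * g 1), ?_⟩
    have h4 : g 2 • w = -(g 0 • u + g 1 • v) := by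
      rw [eq_neg_iff_add_eq_zero, add_comm]
      exact hg'
    have h5 : w = (g 2)⁻¹ • (g 2 • w) := by
      rw [smul_smul, inv_mul_cancel₀ hc, one_smul]
    rw [h5, h4, smul_neg, smul_add, smul_smul, smul_smul, neg_smul, neg_smul, neg_add]

theorem hit_of_three [Infinite L] [Infinite Ω] (F : DivForm L Ω) {δ : Rel Ω} {τ : M3 Ω → Prop}
    (hτ : Tgt F δ τ) {P : ML Ω ι} (hN : Nice F P) {I : Finset ι} (hV : Var δ P I)
    (hd : Dim2 P I) {k : ι} (hk : k ∉ I)
    (hker : ∃ (z : ι → M3 Ω) (a : M3 Ω) (y : Fin 3 → ι → M3 Ω),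
      LinearIndependent Ω fun j =>
        ((P (I.piecewise (y j) z), P (I.piecewise (y j) (Function.update z k a))) :
          M3 Ω × M3 Ω))
    (himg : ∃ (z : ι → M3 Ω) (a : M3 Ω) (y : Fin 3 → ι → M3 Ω),
      LinearIndependent Ω ![P (I.piecewise (y 0) z), P (I.piecewise (y 1) z),
        P (I.piecewise (y 2) (Function.update z k a))]) :
    ∃ y, τ (P y) := by
  classical
  let j4 : Fin 3 → Fin 10 := ![4, 5, 6]
  let Q1 : (Fin 10 → ι → M3 Ω) → Prop := fun y =>
    δ.d (P (I.piecewise (y 2) (y 0))) (P (I.piecewise (y 3) (y 0))) ≠ 0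
  let Q2 : (Fin 10 → ι → M3 Ω) → Prop := fun y =>
    LinearIndependent Ω fun j : Fin 3 =>
      ((P (I.piecewise (y (j4 j)) (y 0)),
        P (I.piecewise (y (j4 j)) (Function.update (y 0) k (y 1 k)))) : M3 Ω × M3 Ω)
  let Q3 : (Fin 10 → ι → M3 Ω) → Prop := fun y =>
    LinearIndependent Ω ![P (I.piecewise (y 7) (y 0)), P (I.piecewise (y 8) (y 0)),
        P (I.piecewise (y 9) (Function.update (y 0) k (y 1 k)))]
  have o1 : OpT Q1 := Op.rel δ (isPolyM_piecewise P I 2 0) (isPolyM_piecewise P I 3 0)
  have o2 : OpT Q2 := Op.indep_prod (fun j => isPolyM_piecewise P I (j4 j) 0)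
    (fun j => isPolyM_piecewise_update P I (j4 j) 0 1 k)
  have o3 : OpT Q3 := by
    let G : Fin 3 → (Fin 10 × ι → M3 Ω) → M3 Ω :=
      ![fun y => P (I.piecewise (fun k => y (7, k)) fun k => y (0, k)),
        fun y => P (I.piecewise (fun k => y (8, k)) fun k => y (0, k)),
        fun y => P (I.piecewise (fun k => y (9, k))
          (Function.update (fun k => y (0, k)) k (y (1, k))))]
    have hG : ∀ j, IsPolyM (G j) := by
      intro j
      fin_cases j
      · exact isPolyM_piecewise P I 7 0
      · exact isPolyM_piecewise P I 8 0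
      · exact isPolyM_piecewise_update P I 9 0 1 k
    have h1 := Op.indep hG
    have h2 : (fun y : Fin 10 × ι → M3 Ω => LinearIndependent Ω fun j => G j y) =
        fun y => Q3 fun a k => y (a, k) := by
      funext y
      have h3 : (fun j => G j y) = ![P (I.piecewise (fun k => y (7, k)) fun k => y (0, k)),
          P (I.piecewise (fun k => y (8, k)) fun k => y (0, k)),
          P (I.piecewise (fun k => y (9, k))
            (Function.update (fun k => y (0, k)) k (y (1, k))))] := by
        funext j
        fin_cases j <;> rfl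
      rw [h3]
    show Op fun y : Fin 10 × ι → M3 Ω => Q3 fun a k => y (a, k)
    rw [← h2]
    exact h1
  have n1 : ∃ y, Q1 y := by
    obtain ⟨z, y, y', h⟩ := hV
    exact ⟨![z, z, y, y', z, z, z, z, z, z], h⟩
  have n2 : ∃ y, Q2 y := by
    obtain ⟨z, a, y, h⟩ := hker
    refine ⟨![z, fun _ => a, z, z, y 0, y 1, y 2, z, z, z], ?_⟩
    have h1 : (fun j : Fin 3 =>
      ((P (I.piecewise ((![z, fun _ => a, z, z, y 0, y 1, y 2, z, z, z] : Fin 10 → ι → M3 Ω) (j4 j)) z),
        P (I.piecewise ((![z, fun _ => a, z, z, y 0, y 1, y 2, z, z, z] : Fin 10 → ι → M3 Ω) (j4 j))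
          (Function.update z k a))) : M3 Ω × M3 Ω)) = fun j =>
        ((P (I.piecewise (y j) z), P (I.piecewise (y j) (Function.update z k a))) :
          M3 Ω × M3 Ω) := by
      funext j
      fin_cases j <;> rfl
    show LinearIndependent Ω (fun j : Fin 3 =>
      ((P (I.piecewise ((![z, fun _ => a, z, z, y 0, y 1, y 2, z, z, z] : Fin 10 → ι → M3 Ω) (j4 j)) z),
        P (I.piecewise ((![z, fun _ => a, z, z, y 0, y 1, y 2, z, z, z] : Fin 10 → ι → M3 Ω) (j4 j))
          (Function.update z k a))) : M3 Ω × M3 Ω))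
    rw [h1]
    exact h
  have n3 : ∃ y, Q3 y := by
    obtain ⟨z, a, y, h⟩ := himg
    exact ⟨![z, fun _ => a, z, z, z, z, z, y 0, y 1, y 2], h⟩
  obtain ⟨y, hyD, ⟨hq1, hq2⟩, hq3⟩ := OpT.exists_D F (OpT.and (OpT.and o1 o2) o3)
    (OpT.exists_and (OpT.and o1 o2) o3 (OpT.exists_and o1 o2 n1 n2) n3)
  -- the linear maps
  have hupd : ∀ (w : ι → M3 Ω) (b : M3 Ω),
      I.piecewise w (Function.update (y 0) k b) = Function.update (I.piecewise w (y 0)) k b :=
    fun w b => (Finset.update_piecewise_of_notMem I w (y 0) hk b).symm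
  have hst : ∀ (s t : Ω) (w : ι → M3 Ω),
      P (I.piecewise w (Function.update (y 0) k (s • y 0 k + t • y 1 k))) =
        s • P (I.piecewise w (y 0)) + t • P (I.piecewise w (Function.update (y 0) k (y 1 k))) := by
    intro s t w
    rw [hupd, hupd, P.map_update_add, P.map_update_smul, P.map_update_smul]
    congr 3
    rw [← hupd, Function.update_eq_self]
  let M : ((ι → M3 Ω) →₀ Ω) →ₗ[Ω] M3 Ω :=
    Finsupp.linearCombination Ω (fun w => P (I.piecewise w (y 0)))
  let N : ((ι → M3 Ω) →₀ Ω) →ₗ[Ω] M3 Ω :=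
    Finsupp.linearCombination Ω (fun w => P (I.piecewise w (Function.update (y 0) k (y 1 k))))
  let θ : Ω → Ω → (ι → M3 Ω) → M3 Ω := fun s t w =>
    P (I.piecewise w (Function.update (y 0) k (s • y 0 k + t • y 1 k)))
  have hMs : ∀ w, M (Finsupp.single w 1) = P (I.piecewise w (y 0)) := by
    intro w
    show Finsupp.linearCombination Ω (fun w => P (I.piecewise w (y 0))) (Finsupp.single w 1) = _
    rw [Finsupp.linearCombination_single, one_smul]
  have hNs : ∀ w, N (Finsupp.single w 1) =
      P (I.piecewise w (Function.update (y 0) k (y 1 k))) := by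
    intro w
    show Finsupp.linearCombination Ω
      (fun w => P (I.piecewise w (Function.update (y 0) k (y 1 k)))) (Finsupp.single w 1) = _
    rw [Finsupp.linearCombination_single, one_smul]
  have hMN : ∀ s t : Ω, s • M + t • N = Finsupp.linearCombination Ω (θ s t) := by
    intro s t
    refine Finsupp.lhom_ext' fun w => LinearMap.ext_ring ?_
    show (s • M + t • N) (Finsupp.single w 1) =
      Finsupp.linearCombination Ω (θ s t) (Finsupp.single w 1)
    rw [LinearMap.add_apply, LinearMap.smul_apply, LinearMap.smul_apply, hMs, hNs,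
      Finsupp.linearCombination_single, one_smul]
    exact (hst s t w).symm
  have hrange : ∀ (s t : Ω) (e : (ι → M3 Ω) →₀ Ω),
      (s • M + t • N) e ∈ Submodule.span Ω (Set.range (θ s t)) := by
    intro s t e
    rw [hMN, ← Finsupp.range_linearCombination]
    exact LinearMap.mem_range_self _ e
  have hdep : ∀ (s t : Ω) (w : Fin 3 → ι → M3 Ω),
      ¬ LinearIndependent Ω fun j => θ s t (w j) :=
    fun s t w => hd (Function.update (y 0) k (s • y 0 k + t • y 1 k)) w
  have h2 : ∀ (s t : Ω) (e : Fin 3 → ((ι → M3 Ω) →₀ Ω)),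
      ¬ LinearIndependent Ω fun j => (s • M + t • N) (e j) := by
    intro s t e hli
    obtain ⟨w, hw⟩ := exists_li1 (fun j => hrange s t (e j)) hli
    exact hdep s t w hw
  have hval : ∀ x ∈ LinearMap.range M ⊔ LinearMap.range N, ∃ w, P w = x := by
    intro x hx
    obtain ⟨s, t, ⟨e, he⟩, a, b, hab⟩ := pencil M N h2
      ![Finsupp.single (y 7) 1, Finsupp.single (y 8) 1, Finsupp.single (y 9) 1]
      (by
        show LinearIndependent Ω ![M (Finsupp.single (y 7) 1), M (Finsupp.single (y 8) 1),
          N (Finsupp.single (y 9) 1)]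
        rw [hMs, hMs, hNs]
        exact hq3)
      (fun j => Finsupp.single (y (j4 j)) 1)
      (by
        have h1 : (fun j : Fin 3 => ((M (Finsupp.single (y (j4 j)) 1),
            N (Finsupp.single (y (j4 j)) 1)) : M3 Ω × M3 Ω)) = fun j : Fin 3 =>
          ((P (I.piecewise (y (j4 j)) (y 0)),
            P (I.piecewise (y (j4 j)) (Function.update (y 0) k (y 1 k)))) : M3 Ω × M3 Ω) := by
          funext j
          rw [hMs, hNs]
        rw [h1]
        exact hq2) x hx
    have hxs : x ∈ Submodule.span Ω (Set.range (θ s t)) := he ▸ hrange s t e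
    have hab' : ∀ j : Fin 2, (![(s • M + t • N) a, (s • M + t • N) b] : Fin 2 → M3 Ω) j ∈
        Submodule.span Ω (Set.range (θ s t)) := by
      intro j
      fin_cases j
      · exact hrange s t a
      · exact hrange s t b
    obtain ⟨w, hw⟩ := exists_li1 hab' hab
    have hw' : LinearIndependent Ω ![θ s t (w 0), θ s t (w 1)] := by
      have h1 : (fun j => θ s t (w j)) = ![θ s t (w 0), θ s t (w 1)] := by
        funext j
        fin_cases j <;> rfl
      rw [← h1]
      exact hw
    have h3 : ¬ LinearIndependent Ω ![θ s t (w 0), θ s t (w 1), x] := by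
      intro hli
      have h4 : ∀ j : Fin 3, (![θ s t (w 0), θ s t (w 1), x] : Fin 3 → M3 Ω) j ∈
          Submodule.span Ω (Set.range (θ s t)) := by
        intro j
        fin_cases j
        · exact Submodule.subset_span ⟨_, rfl⟩
        · exact Submodule.subset_span ⟨_, rfl⟩
        · exact hxs
      obtain ⟨w', hw''⟩ := exists_li1 h4 hli
      exact hdep s t w' hw''
    obtain ⟨c, c', hc⟩ := mem1 hw' h3
    obtain ⟨w', hw''⟩ := onto_two
      (slotLin_piecewise P I (Function.update (y 0) k (s • y 0 k + t • y 1 k)))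
      (hdep s t) hw' c c'
    exact ⟨_, hw''.trans hc⟩
  -- the conclusion
  have hpD : ∀ w w' : ι → M3 Ω, (∀ i, w i ∈ F.D) → (∀ i, w' i ∈ F.D) →
      P (I.piecewise w w') ∈ F.D := by
    intro w w' hw hw'
    refine hN.mem _ fun i => ?_
    by_cases hi : i ∈ I
    · rw [Finset.piecewise_eq_of_mem _ _ _ hi]
      exact hw i
    · rw [Finset.piecewise_eq_of_notMem _ _ _ hi]
      exact hw' i
  have hz' : ∀ i, (Function.update (y 0) k (y 1 k)) i ∈ F.D := by
    intro i
    by_cases hi : i = k
    · subst hi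
      rw [Function.update_self]
      exact hyD 1 _
    · rw [Function.update_of_ne hi]
      exact hyD 0 i
  obtain ⟨w, hw, hτw⟩ := hτ _ (hpD _ _ (hyD 2) (hyD 0)) _ (hpD _ _ (hyD 3) (hyD 0)) hq1
    ![P (I.piecewise (y 7) (y 0)), P (I.piecewise (y 8) (y 0)),
        P (I.piecewise (y 9) (Function.update (y 0) k (y 1 k)))]
    (by
      intro i
      fin_cases i
      · exact hpD _ _ (hyD 7) (hyD 0)
      · exact hpD _ _ (hyD 8) (hyD 0)
      · exact hpD _ _ (hyD 9) hz') hq3
  have hMm : ∀ w, P (I.piecewise w (y 0)) ∈ LinearMap.range M ⊔ LinearMap.range N :=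
    fun w => Submodule.mem_sup_left ⟨_, hMs w⟩
  have hNm : ∀ w, P (I.piecewise w (Function.update (y 0) k (y 1 k))) ∈
      LinearMap.range M ⊔ LinearMap.range N :=
    fun w => Submodule.mem_sup_right ⟨_, hNs w⟩
  have hw' : w ∈ LinearMap.range M ⊔ LinearMap.range N := by
    refine (Submodule.span_le.2 ?_) hw
    rintro v (rfl | rfl | ⟨i, rfl⟩)
    · exact hMm _
    · exact hMm _
    · fin_cases i
      · exact hMm _
      · exact hMm _
      · exact hNm _
  obtain ⟨v, hv⟩ := hval w hw'
  exact ⟨v, hv ▸ hτw⟩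

end Pool.Agent.H88KL
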