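import Pool.Agent.Helper88.KL.Dich

/-!
# The class `trace = c2 = 0`, `det ≠ 0`
-/

open Matrix

namespace Pool.Agent.H88KL

open Pool.Agent.H24ML

universe u

theorem det_smul3_88 {Ω : Type u} [Field Ω] (r : Ω) (X : M3 Ω) : det (r • X) = r ^ 3 * det X := by
  rw [det_smul, Fintype.card_fin]

theorem zero_class {L Ω : Type u} [Field L] [Field Ω] [Algebra L Ω] [IsAlgClosed Ω] [Infinite L]
    (F : DivForm L Ω) {ι : Type} [Fintype ι] [DecidableEq ι] {P : ML Ω ι} (hN : Nice F P)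
    {y0 y1 : ι → M3 Ω} (h0 : ¬ ∃ a : Ω, P y0 = a • (1 : M3 Ω)) (h1 : trace (P y1) ≠ 0)
    {d : Ω} (hd : d ≠ 0) :
    ∃ y, trace (P y) = 0 ∧ c2 (P y) = 0 ∧ det (P y) = d := by
  have : Infinite Ω := Infinite.of_injective _ (algebraMap L Ω).injective
  obtain ⟨z, i, hz, hz1, hz2⟩ := good_slots46 F hN (y0 := y0)
    (fun a ha => h0 ⟨a, ha⟩)
    (G := fun z => trace (P (z 0)))
    (IsPolyM.ml P fun k => IsPolyM.coord ((0 : Fin 2), k)).trace ⟨fun _ => y1, h1⟩
  have huD : P (z 0) ∈ F.D := hN.mem (z 0) (hz 0)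
  have hvD : P (Function.update (z 0) i (z 1 i)) ∈ F.D := hN.mem _ (upd_mem46 i (hz 0) (hz 1))
  set u := P (z 0) with hu
  set v := P (Function.update (z 0) i (z 1 i)) with hv
  obtain ⟨ru, hru⟩ := F.tr_mem _ huD
  obtain ⟨rv, hrv⟩ := F.tr_mem _ hvD
  have hval : ∀ r : Ω, ∃ y, P y = r • (-(trace v) • u + trace u • v) := by
    intro r
    refine ⟨Function.update (z 0) i ((r * -(trace v)) • z 0 i + (r * trace u) • z 1 i), ?_⟩
    rw [← comb46, ← hu, ← hv]
    module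
  set w := -(trace v) • u + trace u • v with hw
  have htw : trace w = 0 := by
    rw [hw, trace_add, trace_smul, trace_smul, smul_eq_mul, smul_eq_mul]
    ring
  have hwD : w ∈ F.D := by
    rw [hw, ← hru, ← hrv, ← map_neg, algebraMap_smul, algebraMap_smul]
    exact F.D.add_mem (F.D.smul_mem huD _) (F.D.smul_mem hvD _)
  have hw0 : w ≠ 0 := by
    intro h
    have h5 := (LinearIndependent.pair_iff.1 hz2 (-(trace v)) (trace u) h).2
    exact hz1 h5
  by_cases hc : c2 w = 0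
  · have hdw := F.det_ne w hwD hw0
    obtain ⟨r, hr⟩ := IsAlgClosed.exists_pow_nat_eq (d / det w) (n := 3) (by norm_num)
    obtain ⟨y, hy⟩ := hval r
    refine ⟨y, ?_, ?_, ?_⟩
    · rw [hy, trace_smul, htw, smul_zero]
    · rw [hy, c2_smul, hc, mul_zero]
    · rw [hy, det_smul3_88, hr, div_mul_cancel₀ _ hdw]
  · obtain ⟨y, hy⟩ := hval 1
    rw [one_smul] at hy
    exact main2 F 0 d (Or.inr hd) _ _ rfl P hN ⟨y, by rw [hy]; exact htw, by rw [hy]; exact hc⟩

end Pool.Agent.H88KL
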