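import Pool.Agent.Helper88.KL.Def

/-!
# From a division algebra of `3 x 3` matrices to one over a quadratically closed field
-/

open Matrix

namespace Pool.Agent.H88KL

open Pool.Agent.H24ML

universe u

section

variable {Ω : Type*} [Field Ω]

lemma c2_add (A B : M3 Ω) :
    c2 (A + B) = c2 A + c2 B + trace A * trace B - trace (A * B) := by
  simp only [c2, trace_fin_three, Matrix.add_apply, Matrix.mul_apply, Fin.sum_univ_three]
  ring

lemma det_add_smul_one (A : M3 Ω) (r : Ω) :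
    det (A + r • (1 : M3 Ω)) = r ^ 3 + trace A * r ^ 2 + c2 A * r + det A := by
  simp only [c2, trace_fin_three, Matrix.add_apply, det_fin_three, Matrix.smul_apply,
    Matrix.one_apply, smul_eq_mul]
  simp
  ring

lemma cayley (A : M3 Ω) :
    A * (A * A - trace A • A + c2 A • (1 : M3 Ω)) = det A • (1 : M3 Ω) := by
  ext i j
  fin_cases i <;> fin_cases j <;>
  simp [c2, trace_fin_three, Matrix.mul_apply, det_fin_three, Fin.sum_univ_three,
    Matrix.one_apply] <;>
  ring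

lemma cayley' (A : M3 Ω) :
    (A * A - trace A • A + c2 A • (1 : M3 Ω)) * A = det A • (1 : M3 Ω) := by
  rw [← cayley A]
  simp only [add_mul, sub_mul, mul_add, mul_sub, Matrix.smul_mul, Matrix.mul_smul, one_mul,
    mul_one, mul_assoc]

end

section

variable {K Ω : Type u} [Field K] [Field Ω] [Algebra K Ω]

/-- The `L`-span of `S`. -/
abbrev Dv (S : Submonoid (M3 Ω)) (L : IntermediateField K Ω) : Submodule L (M3 Ω) :=
  Submodule.span L (S : Set (M3 Ω))

variable {S : Submonoid (M3 Ω)} {L : IntermediateField K Ω}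

lemma Dv.mul {a b : M3 Ω} (ha : a ∈ Dv S L) (hb : b ∈ Dv S L) : a * b ∈ Dv S L := by
  refine Submodule.span_induction₂ (p := fun x y _ _ => x * y ∈ Dv S L) ?_ ?_ ?_ ?_ ?_ ?_ ?_ ha hb
  · intro x y hx hy
    exact Submodule.subset_span (S.mul_mem hx hy)
  · intro y _
    rw [zero_mul]
    exact zero_mem _
  · intro x _
    rw [mul_zero]
    exact zero_mem _
  · intro x y z _ _ _ h1 h2
    rw [add_mul]
    exact add_mem h1 h2
  · intro x y z _ _ _ h1 h2
    rw [mul_add]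
    exact add_mem h1 h2
  · intro r x y _ _ h
    rw [smul_mul_assoc]
    exact Submodule.smul_mem _ _ h
  · intro r x y _ _ h
    rw [mul_smul_comm]
    exact Submodule.smul_mem _ _ h

lemma Dv.one : (1 : M3 Ω) ∈ Dv S L := Submodule.subset_span S.one_mem

lemma Dv.smul {a : Ω} (ha : a ∈ L) {w : M3 Ω} (hw : w ∈ Dv S L) : a • w ∈ Dv S L :=
  Submodule.smul_mem (Dv S L) (⟨a, ha⟩ : L) hw

lemma Dv.mono {L L' : IntermediateField K Ω} (h : L ≤ L') {w : M3 Ω} (hw : w ∈ Dv S L) :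
    w ∈ Dv S L' := by
  refine Submodule.span_induction (p := fun x _ => x ∈ Dv S L') ?_ ?_ ?_ ?_ hw
  · intro x hx
    exact Submodule.subset_span hx
  · exact zero_mem _
  · intro x y _ _ h1 h2
    exact add_mem h1 h2
  · intro a x _ hx
    exact Dv.smul (h a.2) hx

variable (htr : ∀ s ∈ S, Matrix.trace s ∈ L) (hc2 : ∀ s ∈ S, H24ML.c2 s ∈ L)

include htr in
lemma Dv.trace {w : M3 Ω} (hw : w ∈ Dv S L) : trace w ∈ L := by
  refine Submodule.span_induction (p := fun x _ => Matrix.trace x ∈ L) ?_ ?_ ?_ ?_ hw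
  · intro x hx
    exact htr x hx
  · rw [trace_zero]
    exact zero_mem _
  · intro x y _ _ h1 h2
    rw [trace_add]
    exact add_mem h1 h2
  · intro a x _ hx
    have : Matrix.trace (a • x) = (a : Ω) * Matrix.trace x := trace_smul (a : Ω) x
    rw [this]
    exact mul_mem a.2 hx

include htr hc2 in
lemma Dv.c2 {w : M3 Ω} (hw : w ∈ Dv S L) : c2 w ∈ L := by
  refine Submodule.span_induction (p := fun x _ => H24ML.c2 x ∈ L) ?_ ?_ ?_ ?_ hw
  · intro x hx
    exact hc2 x hx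
  · rw [c2_zero]
    exact zero_mem _
  · intro x y hx hy h1 h2
    rw [c2_add]
    exact sub_mem (add_mem (add_mem h1 h2) (mul_mem (Dv.trace htr hx) (Dv.trace htr hy)))
      (Dv.trace htr (Dv.mul hx hy))
  · intro a x _ hx
    have : H24ML.c2 (a • x) = (a : Ω) ^ 2 * H24ML.c2 x := c2_smul (a : Ω) x
    rw [this]
    exact mul_mem (pow_mem a.2 2) hx

/-- The adjugate. -/
lemma Dv.adj (htr : ∀ s ∈ S, Matrix.trace s ∈ L) (hc2 : ∀ s ∈ S, H24ML.c2 s ∈ L)
    {w : M3 Ω} (hw : w ∈ Dv S L) :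
    w * w - Matrix.trace w • w + H24ML.c2 w • (1 : M3 Ω) ∈ Dv S L :=
  add_mem (sub_mem (Dv.mul hw hw) (Dv.smul (Dv.trace htr hw) hw))
    (Dv.smul (Dv.c2 htr hc2 hw) Dv.one)

lemma exists_trace_ne (hspan : Submodule.span Ω (S : Set (M3 Ω)) = ⊤) :
    ∃ s ∈ S, Matrix.trace s ≠ 0 := by
  by_contra hne
  push Not at hne
  have h1 : ∀ w : M3 Ω, Matrix.trace w = 0 := by
    intro w
    have hw : w ∈ Submodule.span Ω (S : Set (M3 Ω)) := by
      rw [hspan]
      exact Submodule.mem_top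
    refine Submodule.span_induction (p := fun x _ => Matrix.trace x = 0) ?_ ?_ ?_ ?_ hw
    · exact hne
    · exact trace_zero _ _
    · intro x y _ _ h1 h2
      rw [trace_add, h1, h2, add_zero]
    · intro a x _ hx
      rw [trace_smul, hx, smul_zero]
  have h2 := h1 (Matrix.single 0 0 1)
  simp at h2

lemma Dv.det (hspan : Submodule.span Ω (S : Set (M3 Ω)) = ⊤)
    (htr : ∀ s ∈ S, Matrix.trace s ∈ L) (hc2 : ∀ s ∈ S, H24ML.c2 s ∈ L)
    {w : M3 Ω} (hw : w ∈ Dv S L) : Matrix.det w ∈ L := by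
  obtain ⟨s, hs, hne⟩ := exists_trace_ne hspan
  have h1 : Matrix.det w • (1 : M3 Ω) ∈ Dv S L := by
    rw [← cayley w]
    exact Dv.mul hw (Dv.adj htr hc2 hw)
  have h2 : Matrix.det w • s ∈ Dv S L := by
    have := Dv.mul h1 (Submodule.subset_span hs : s ∈ Dv S L)
    rwa [smul_mul_assoc, one_mul] at this
  have h3 := Dv.trace htr h2
  rw [trace_smul, smul_eq_mul] at h3
  have h4 : Matrix.det w = (Matrix.det w * Matrix.trace s) * (Matrix.trace s)⁻¹ := by
    field_simp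
  rw [h4]
  exact mul_mem h3 (inv_mem (htr s hs))

/-- Nonzero elements of the span are invertible. -/
def Div (S : Submonoid (M3 Ω)) (L : IntermediateField K Ω) : Prop :=
  ∀ w ∈ Dv S L, w ≠ 0 → Matrix.det w ≠ 0

lemma chain_ub (c : Set (IntermediateField K Ω)) (hc : IsChain (· ≤ ·) c)
    (y : IntermediateField K Ω) (hy : y ∈ c) (hdiv : ∀ L ∈ c, Div S L) :
    ∃ ub, Div S ub ∧ ∀ z ∈ c, z ≤ ub := by
  have : Nonempty c := ⟨⟨y, hy⟩⟩
  have hdir : Directed (· ≤ ·) (fun z : c => (z : IntermediateField K Ω)) := by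
    rintro ⟨a, ha⟩ ⟨b, hb⟩
    rcases hc.total ha hb with h | h
    · exact ⟨⟨b, hb⟩, h, le_rfl⟩
    · exact ⟨⟨a, ha⟩, le_rfl, h⟩
  refine ⟨⨆ z : c, (z : IntermediateField K Ω), ?_, fun z hz => le_iSup
    (fun z : c => (z : IntermediateField K Ω)) ⟨z, hz⟩⟩
  have key : ∀ w ∈ Dv S (⨆ z : c, (z : IntermediateField K Ω)), ∃ z : c, w ∈ Dv S z.1 := by
    intro w hw
    refine Submodule.span_induction (p := fun x _ => ∃ z : c, x ∈ Dv S z.1) ?_ ?_ ?_ ?_ hw
    · intro x hx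
      exact ⟨⟨y, hy⟩, Submodule.subset_span hx⟩
    · exact ⟨⟨y, hy⟩, zero_mem _⟩
    · rintro x x' _ _ ⟨z, hz⟩ ⟨z', hz'⟩
      obtain ⟨z'', h1, h2⟩ := hdir z z'
      exact ⟨z'', add_mem (Dv.mono h1 hz) (Dv.mono h2 hz')⟩
    · rintro ⟨a, ha⟩ x _ ⟨z, hz⟩
      have ha' : a ∈ ((⨆ z : c, (z : IntermediateField K Ω) : IntermediateField K Ω) : Set Ω) := ha
      rw [IntermediateField.coe_iSup_of_directed hdir, Set.mem_iUnion] at ha'
      obtain ⟨z', hz'⟩ := ha'
      obtain ⟨z'', h1, h2⟩ := hdir z z'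
      exact ⟨z'', Dv.smul (h2 hz') (Dv.mono h1 hz)⟩
  intro w hw hne
  obtain ⟨z, hz⟩ := key w hw
  exact hdiv z.1 z.2 w hz hne

/-- The quadratic extension `L + L ρ`. -/
def quadExt (L : IntermediateField K Ω) (a b ρ : Ω) (ha : a ∈ L) (hb : b ∈ L)
    (hρ : ρ ^ 2 + a * ρ + b = 0) (hno : ∀ x ∈ L, x ^ 2 + a * x + b ≠ 0) :
    IntermediateField K Ω where
  carrier := {w | ∃ x ∈ L, ∃ y ∈ L, w = x + ρ * y}
  mul_mem' := by
    rintro _ _ ⟨x, hx, y, hy, rfl⟩ ⟨x', hx', y', hy', rfl⟩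
    refine ⟨x * x' - b * (y * y'), sub_mem (mul_mem hx hx') (mul_mem hb (mul_mem hy hy')),
      x * y' + x' * y - a * (y * y'), sub_mem (add_mem (mul_mem hx hy') (mul_mem hx' hy))
        (mul_mem ha (mul_mem hy hy')), ?_⟩
    linear_combination (y * y') * hρ
  add_mem' := by
    rintro _ _ ⟨x, hx, y, hy, rfl⟩ ⟨x', hx', y', hy', rfl⟩
    exact ⟨x + x', add_mem hx hx', y + y', add_mem hy hy', by ring⟩
  algebraMap_mem' := fun r => ⟨algebraMap K Ω r, L.algebraMap_mem r, 0, zero_mem _, by ring⟩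
  inv_mem' := by
    rintro _ ⟨x, hx, y, hy, rfl⟩
    by_cases h0 : x + ρ * y = 0
    · exact ⟨0, zero_mem _, 0, zero_mem _, by rw [h0]; simp⟩
    · have hn : x ^ 2 - a * (x * y) + b * y ^ 2 ≠ 0 := by
        intro hn
        by_cases hy0 : y = 0
        · rw [hy0] at hn h0
          apply h0
          have : x ^ 2 = 0 := by linear_combination hn
          rw [pow_eq_zero_iff two_ne_zero] at this
          rw [this]
          ring
        · apply hno (-(x / y)) (neg_mem (div_mem hx hy))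
          field_simp
          linear_combination hn
      have hn' : (x ^ 2 - a * (x * y) + b * y ^ 2) ∈ L :=
        add_mem (sub_mem (pow_mem hx 2) (mul_mem ha (mul_mem hx hy))) (mul_mem hb (pow_mem hy 2))
      refine ⟨(x - a * y) / (x ^ 2 - a * (x * y) + b * y ^ 2),
        div_mem (sub_mem hx (mul_mem ha hy)) hn',
        -y / (x ^ 2 - a * (x * y) + b * y ^ 2), div_mem (neg_mem hy) hn', ?_⟩
      have e : ((x - a * y) / (x ^ 2 - a * (x * y) + b * y ^ 2)
          + ρ * (-y / (x ^ 2 - a * (x * y) + b * y ^ 2))) * (x + ρ * y)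
          = (x - a * y - ρ * y) * (x + ρ * y) / (x ^ 2 - a * (x * y) + b * y ^ 2) := by ring
      rw [inv_eq_one_div, div_eq_iff h0, e, eq_div_iff hn]
      linear_combination (y ^ 2) * hρ

lemma quad_root [IsAlgClosed Ω] (hspan : Submodule.span Ω (S : Set (M3 Ω)) = ⊤)
    (htr : ∀ s ∈ S, Matrix.trace s ∈ L) (hc2 : ∀ s ∈ S, H24ML.c2 s ∈ L)
    (hdiv : Div S L) (hmax : ∀ L' : IntermediateField K Ω, L ≤ L' → Div S L' → L' ≤ L)
    {a b : Ω} (ha : a ∈ L) (hb : b ∈ L) : ∃ x ∈ L, x ^ 2 + a * x + b = 0 := by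
  by_contra hno
  push Not at hno
  obtain ⟨ρ, hρ⟩ : ∃ ρ : Ω, ρ ^ 2 + a * ρ + b = 0 := by
    obtain ⟨ρ, hρ⟩ := IsAlgClosed.exists_root
      (Polynomial.X ^ 2 + Polynomial.C a * Polynomial.X + Polynomial.C b : Polynomial Ω) (by
        have : (Polynomial.X ^ 2 + Polynomial.C a * Polynomial.X + Polynomial.C b :
          Polynomial Ω).degree = 2 := by
          have := Polynomial.degree_quadratic (a := (1 : Ω)) (b := a) (c := b) one_ne_zero
          simpa using this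
        rw [this]
        norm_num)
    refine ⟨ρ, ?_⟩
    simpa [Polynomial.IsRoot.def] using hρ
  have hρL : ρ ∉ L := fun h => hno ρ h hρ
  set L' := quadExt L a b ρ ha hb hρ hno with hL'
  have hLL' : L ≤ L' := fun x hx => ⟨x, hx, 0, zero_mem _, by ring⟩
  have hρL' : ρ ∈ L' := ⟨0, zero_mem _, 1, one_mem _, by ring⟩
  have hnd : ¬ Div S L' := fun h => hρL (hmax L' hLL' h hρL')
  unfold Div at hnd
  push Not at hnd
  obtain ⟨w, hw, hw0, hwd⟩ := hnd
  have key : ∀ w ∈ Dv S L', ∃ x ∈ Dv S L, ∃ y ∈ Dv S L, w = x + ρ • y := by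
    intro w hw
    refine Submodule.span_induction (p := fun w _ => ∃ x ∈ Dv S L, ∃ y ∈ Dv S L, w = x + ρ • y)
      ?_ ?_ ?_ ?_ hw
    · intro x hx
      exact ⟨x, Submodule.subset_span hx, 0, zero_mem _, by simp⟩
    · exact ⟨0, zero_mem _, 0, zero_mem _, by simp⟩
    · rintro _ _ _ _ ⟨x, hx, y, hy, rfl⟩ ⟨x', hx', y', hy', rfl⟩
      exact ⟨x + x', add_mem hx hx', y + y', add_mem hy hy', by rw [smul_add]; abel⟩
    · rintro ⟨_, u, hu, v, hv, rfl⟩ _ _ ⟨x, hx, y, hy, rfl⟩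
      refine ⟨u • x - (b * v) • y, sub_mem (Dv.smul hu hx) (Dv.smul (mul_mem hb hv) hy),
        u • y + v • x - (a * v) • y, sub_mem (add_mem (Dv.smul hu hy) (Dv.smul hv hx))
          (Dv.smul (mul_mem ha hv) hy), ?_⟩
      change (u + ρ * v) • (x + ρ • y) = _
      have e : (ρ * ρ) = -(a * ρ + b) := by linear_combination hρ
      ext i j
      simp only [Matrix.smul_apply, Matrix.add_apply, Matrix.sub_apply, smul_eq_mul]
      linear_combination (v * y i j) * hρ
  obtain ⟨x, hx, y, hy, rfl⟩ := key w hw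
  have hy0 : y ≠ 0 := by
    intro h
    rw [h, smul_zero, add_zero] at hw0 hwd
    exact hdiv x hx hw0 hwd
  have hyd := hdiv y hy hy0
  set z := (det y)⁻¹ • ((y * y - Matrix.trace y • y + H24ML.c2 y • (1 : M3 Ω)) * x) with hz
  have hzD : z ∈ Dv S L := Dv.smul (inv_mem (Dv.det hspan htr hc2 hy))
    (Dv.mul (Dv.adj htr hc2 hy) hx)
  have hyz : y * z = x := by
    rw [hz, mul_smul_comm, ← mul_assoc, cayley, smul_mul_assoc, one_mul, smul_smul,
      inv_mul_cancel₀ hyd, one_smul]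
  have hw' : x + ρ • y = y * (z + ρ • (1 : M3 Ω)) := by
    rw [mul_add, hyz, mul_smul_comm, mul_one]
  rw [hw', det_mul] at hwd
  have hd := (mul_eq_zero.1 hwd).resolve_left hyd
  rw [det_add_smul_one] at hd
  set t := Matrix.trace z with ht
  set s := H24ML.c2 z with hs
  set n := det z with hn
  have htL : t ∈ L := Dv.trace htr hzD
  have hsL : s ∈ L := Dv.c2 htr hc2 hzD
  have hnL : n ∈ L := Dv.det hspan htr hc2 hzD
  have hrem : (s - b - a * (t - a)) * ρ + (n - b * (t - a)) = 0 := by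
    linear_combination hd - (ρ + (t - a)) * hρ
  have hA : s - b - a * (t - a) = 0 := by
    by_contra hA
    apply hρL
    have : ρ = -(n - b * (t - a)) / (s - b - a * (t - a)) := by
      rw [eq_div_iff hA]
      linear_combination hrem
    rw [this]
    exact div_mem (neg_mem (sub_mem hnL (mul_mem hb (sub_mem htL ha))))
      (sub_mem (sub_mem hsL hb) (mul_mem ha (sub_mem htL ha)))
  have hB : n - b * (t - a) = 0 := by
    rw [hA, zero_mul, zero_add] at hrem
    exact hrem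
  have hsing : det (z + (a - t) • (1 : M3 Ω)) = 0 := by
    rw [det_add_smul_one, ← ht, ← hs, ← hn]
    linear_combination (a - t) * hA + hB
  have hmem : z + (a - t) • (1 : M3 Ω) ∈ Dv S L :=
    add_mem hzD (Dv.smul (sub_mem ha htL) Dv.one)
  have hz0 : z + (a - t) • (1 : M3 Ω) = 0 := by
    by_contra h
    exact hdiv _ hmem h hsing
  have hz1 : z = (t - a) • (1 : M3 Ω) := by
    rw [← sub_eq_zero, ← hz0, sub_eq_add_neg, ← neg_smul, neg_sub]
  have hw2 : z + ρ • (1 : M3 Ω) = (t - a + ρ) • (1 : M3 Ω) := by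
    rw [hz1, ← add_smul]
  have hne : t - a + ρ ≠ 0 := by
    intro h
    apply hw0
    rw [hw', hw2, h, zero_smul, mul_zero]
  have hd2 := (mul_eq_zero.1 hwd).resolve_left hyd
  rw [hw2, det_smul, det_one, mul_one] at hd2
  exact hne (pow_eq_zero_iff (by simp) |>.1 hd2)

/-- A division algebra over `L₀` gives one over a quadratically closed field. -/
theorem exists_divForm_of [IsAlgClosed Ω] (S : Submonoid (M3 Ω)) (L₀ : IntermediateField K Ω)
    (hspan : Submodule.span Ω (S : Set (M3 Ω)) = ⊤)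
    (htr : ∀ s ∈ S, Matrix.trace s ∈ L₀) (hc2 : ∀ s ∈ S, H24ML.c2 s ∈ L₀)
    (hdiv : Div S L₀) : ∃ L : IntermediateField K Ω, Nonempty (DivForm L Ω) := by
  obtain ⟨L, hL0, hL⟩ := zorn_le_nonempty₀ {L : IntermediateField K Ω | Div S L}
    (fun c hcs hc y hy => chain_ub c hc y hy hcs) L₀ hdiv
  have htr' : ∀ s ∈ S, Matrix.trace s ∈ L := fun s hs => hL0 (htr s hs)
  have hc2' : ∀ s ∈ S, H24ML.c2 s ∈ L := fun s hs => hL0 (hc2 s hs)
  have hmax : ∀ L' : IntermediateField K Ω, L ≤ L' → Div S L' → L' ≤ L :=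
    fun L' h1 h2 => hL.2 h2 h1
  let D : Subalgebra L (M3 Ω) :=
    { carrier := Dv S L
      mul_mem' := Dv.mul
      add_mem' := fun h1 h2 => add_mem h1 h2
      algebraMap_mem' := by
        intro r
        rw [Algebra.algebraMap_eq_smul_one]
        exact Submodule.smul_mem (Dv S L) r Dv.one }
  refine ⟨L, ⟨⟨D, ?_, ?_, ?_, ?_, ?_⟩⟩⟩
  · rw [eq_top_iff, ← hspan]
    apply Submodule.span_mono
    intro s hs
    exact (Submodule.subset_span hs : s ∈ Dv S L)
  · intro w hw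
    exact hL.1 w hw
  · intro w hw
    exact ⟨⟨_, Dv.trace htr' hw⟩, rfl⟩
  · intro w hw
    exact ⟨⟨_, Dv.c2 htr' hc2' hw⟩, rfl⟩
  · rintro ⟨a, ha⟩ ⟨b, hb⟩
    obtain ⟨x, hx, h⟩ := quad_root hspan htr' hc2' hL.1 hmax ha hb
    exact ⟨⟨x, hx⟩, Subtype.ext h⟩

end

end Pool.Agent.H88KL
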